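import Mathlib

/-!
# CIR / Ops : complexity operations on ordinals

MP_05b873_al.  We construct three operations on ordinals used as complexities of rational
expressions: `s` (sums), `p` (products), `e` (inverses).

* `s a b = ω ^ (max a b + 1) + min a b` is strictly monotone in both variables jointly and
  larger than `a` and `b`.
* `p a b = G (s a b)` where `G` enumerates the ordinals closed under `s`.
* `e a = G' (a + 1)` where `G'` enumerates the ordinals closed under `s` and `p`.
-/

namespace Pool.Agent.CIR

open Ordinal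

/-- A system of complexity operations. -/
structure Ops where
  s : Ordinal.{0} → Ordinal.{0} → Ordinal.{0}
  p : Ordinal.{0} → Ordinal.{0} → Ordinal.{0}
  e : Ordinal.{0} → Ordinal.{0}
  lt_s_left : ∀ a b, a < s a b
  lt_s_right : ∀ a b, b < s a b
  s_lt : ∀ a b a' b', a' ≤ a → b' ≤ b → (a' < a ∨ b' < b) → s a' b' < s a b
  lt_p_left : ∀ a b, a < p a b
  lt_p_right : ∀ a b, b < p a b
  p_lt : ∀ a b a' b', a' ≤ a → b' ≤ b → (a' < a ∨ b' < b) → p a' b' < p a b
  s_lt_p : ∀ a b x y, x < p a b → y < p a b → s x y < p a b
  lt_e : ∀ a, a < e a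
  e_lt : ∀ a b, a < b → e a < e b
  s_lt_e : ∀ a x y, x < e a → y < e a → s x y < e a
  p_lt_e : ∀ a x y, x < e a → y < e a → p x y < e a

theorem succ_lt' {a b : Ordinal.{0}} (h : a < b) : a + 1 < b + 1 := by
  rw [← Order.succ_eq_add_one, ← Order.succ_eq_add_one]
  exact Order.succ_lt_succ h

/-- the sum operation -/
noncomputable def sOp (a b : Ordinal.{0}) : Ordinal.{0} := omega0 ^ (max a b + 1) + min a b

theorem sOp_gt (a b : Ordinal.{0}) : max a b < sOp a b := by
  have h1 : max a b < omega0 ^ (max a b + 1) :=
    lt_of_lt_of_le (lt_add_one _) (right_le_opow _ one_lt_omega0)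
  exact lt_of_lt_of_le h1 le_self_add

theorem sOp_mono (a b a' b' : Ordinal.{0}) (ha : a' ≤ a) (hb : b' ≤ b)
    (h : a' < a ∨ b' < b) : sOp a' b' < sOp a b := by
  have hmax : max a' b' ≤ max a b := max_le_max ha hb
  rcases hmax.lt_or_eq with hlt | heq
  · -- the maximum drops
    have h1 : omega0 ^ (max a' b' + 1) < omega0 ^ (max a b + 1) := by
      apply (opow_lt_opow_iff_right one_lt_omega0).2
      exact succ_lt' hlt
    have h2 : min a' b' < omega0 ^ (max a b + 1) := by
      calc min a' b' ≤ max a' b' := min_le_max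
        _ < max a b := hlt
        _ ≤ max a b + 1 := le_self_add
        _ ≤ _ := right_le_opow _ one_lt_omega0
    have h3 := isPrincipal_add_omega0_opow (max a b + 1) h1 h2
    exact lt_of_lt_of_le h3 le_self_add
  · have hmin : min a' b' < min a b := by
      rcases le_total a b with hab | hab
      · rw [min_eq_left hab]
        rw [max_eq_right hab] at heq
        rcases h with h | h
        · exact lt_of_le_of_lt (min_le_left _ _) h
        · -- b' < b so a' = b
          have : a' = b := by
            rcases le_total a' b' with h' | h'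
            · rw [max_eq_right h'] at heq; exact absurd heq h.ne
            · rw [max_eq_left h'] at heq; exact heq
          have hab' : a = b := le_antisymm hab (this ▸ ha)
          exact lt_of_le_of_lt (min_le_right _ _) (hab' ▸ h)
      · rw [min_eq_right hab]
        rw [max_eq_left hab] at heq
        rcases h with h | h
        · have : b' = a := by
            rcases le_total b' a' with h' | h'
            · rw [max_eq_left h'] at heq; exact absurd heq h.ne
            · rw [max_eq_right h'] at heq; exact heq
          have hab' : b = a := le_antisymm hab (this ▸ hb)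
          exact lt_of_le_of_lt (min_le_left _ _) (hab' ▸ h)
        · exact lt_of_le_of_lt (min_le_right _ _) h
    unfold sOp
    rw [heq]
    exact (add_lt_add_iff_left _).2 hmin

theorem exists_ops : Nonempty Ops := by
  classical
  have hS : ¬ BddAbove {o : Ordinal.{0} | IsPrincipal sOp o} :=
    not_bddAbove_setOfPred_isPrincipal sOp
  set G : Ordinal.{0} → Ordinal.{0} := enumOrd {o | IsPrincipal sOp o} with hG
  have hGm : StrictMono G := enumOrd_strictMono hS
  have hGmem : ∀ o, IsPrincipal sOp (G o) := fun o => enumOrd_mem hS o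
  have hGle : ∀ o, o ≤ G o := fun o => le_enumOrd_self hS
  set P : Ordinal.{0} → Ordinal.{0} → Ordinal.{0} := fun a b => G (sOp a b) with hP
  have hS2 : ¬ BddAbove {o : Ordinal.{0} | IsPrincipal (fun a b => max (sOp a b) (P a b)) o} :=
    not_bddAbove_setOfPred_isPrincipal _
  set G2 : Ordinal.{0} → Ordinal.{0} :=
    enumOrd {o | IsPrincipal (fun a b => max (sOp a b) (P a b)) o} with hG2
  have hG2m : StrictMono G2 := enumOrd_strictMono hS2
  have hG2mem : ∀ o, IsPrincipal (fun a b => max (sOp a b) (P a b)) (G2 o) :=
    fun o => enumOrd_mem hS2 o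
  have hG2le : ∀ o, o ≤ G2 o := fun o => le_enumOrd_self hS2
  refine ⟨⟨sOp, P, fun a => G2 (a + 1), ?_, ?_, sOp_mono, ?_, ?_, ?_, ?_, ?_, ?_, ?_, ?_⟩⟩
  · intro a b; exact lt_of_le_of_lt (le_max_left _ _) (sOp_gt a b)
  · intro a b; exact lt_of_le_of_lt (le_max_right _ _) (sOp_gt a b)
  · intro a b
    exact lt_of_lt_of_le (lt_of_le_of_lt (le_max_left _ _) (sOp_gt a b)) (hGle _)
  · intro a b
    exact lt_of_lt_of_le (lt_of_le_of_lt (le_max_right _ _) (sOp_gt a b)) (hGle _)
  · intro a b a' b' ha hb h
    exact hGm (sOp_mono a b a' b' ha hb h)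
  · intro a b x y hx hy
    exact hGmem _ hx hy
  · intro a
    exact lt_of_lt_of_le (lt_add_one a) (hG2le _)
  · intro a b h
    exact hG2m (succ_lt' h)
  · intro a x y hx hy
    exact lt_of_le_of_lt (le_max_left _ _) (hG2mem _ hx hy)
  · intro a x y hx hy
    exact lt_of_le_of_lt (le_max_right _ _) (hG2mem _ hx hy)

end Pool.Agent.CIR
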