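import Mathlib
import Pool.Agent.CIR.Ops

/-!
# CIR / Defs

MP_05b873_al, chain independence of mod `p` homology growth (helper47).
Definitions used by all modules.
-/

namespace Pool.Agent.CIR

open Ordinal

/-- A rank pseudo-norm on a ring which is Hausdorff and in which approximately right invertible
elements are units. -/
structure RankData (W : Type*) [Ring W] where
  rho : W → ℝ
  rho_zero : rho 0 = 0
  rho_nonneg : ∀ x, 0 ≤ rho x
  rho_add : ∀ x y, rho (x + y) ≤ rho x + rho y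
  rho_mul_left : ∀ x y, rho (x * y) ≤ rho x
  rho_mul_right : ∀ x y, rho (x * y) ≤ rho y
  eq_zero : ∀ x, rho x = 0 → x = 0
  isUnit : ∀ x, (∀ ε > 0, ∃ y, rho (1 - x * y) ≤ ε) → IsUnit x

section

variable {K : Type*} [Field K] {Γ : Type*} [Group Γ] {W : Type*} [Ring W]

/-- `Der O ι α H c x`: the element `x` of `W` is obtained from the scalars `ι K` and from the
group elements `α g` by a rational expression with source exactly `H` and complexity `c`. -/
inductive Der (O : Ops) (ι : K →+* W) (α : Γ →* W) : Subgroup Γ → Ordinal.{0} → W → Prop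
  | scalar (c : K) : Der O ι α ⊥ 0 (ι c)
  | add (H₁ H₂ : Subgroup Γ) (a b : Ordinal.{0}) (x y : W) (g : Γ) :
      Der O ι α H₁ a x → Der O ι α H₂ b y →
        Der O ι α (H₁ ⊔ H₂ ⊔ Subgroup.zpowers g) (O.s a b) (x + y * α g)
  | mul (H₁ H₂ : Subgroup Γ) (a b : Ordinal.{0}) (x y : W) :
      Der O ι α H₁ a x → Der O ι α H₂ b y → Der O ι α (H₁ ⊔ H₂) (O.p a b) (x * y)
  | inv (H : Subgroup Γ) (a : Ordinal.{0}) (x y : W) :
      Der O ι α H a x → x * y = 1 → y * x = 1 → Der O ι α H (O.e a) y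

/-- The data needed for a subgroup `H` (in the application: `N` is the kernel of an epimorphism
`H → ℤ`, `t` is mapped to `1`, `Pi` consists of multiplication operators by `N`-invariant
functions). -/
structure Split (R : RankData W) (α : Γ →* W) (H : Subgroup Γ) where
  N : Subgroup Γ
  t : Γ
  Pi : Set W
  q : ℕ → W
  N_le : N ≤ H
  t_mem : t ∈ H
  conj_mem : ∀ n ∈ N, t * n * t⁻¹ ∈ N
  conj_mem' : ∀ n ∈ N, t⁻¹ * n * t ∈ N
  exists_eq : ∀ h ∈ H, ∃ n ∈ N, ∃ m : ℤ, h = n * t ^ m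
  not_le : ¬ H ≤ N
  comm : ∀ n ∈ N, ∀ x ∈ Pi, α n * x = x * α n
  conj_Pi : ∀ x ∈ Pi, α t * x * α t⁻¹ ∈ Pi
  conj_Pi' : ∀ x ∈ Pi, α t⁻¹ * x * α t ∈ Pi
  q_mem : ∀ M, q M ∈ Pi
  nil : ∀ M, 1 ≤ M → (α t * q M) ^ M = 0
  small : ∀ M : ℕ, 1 ≤ M → R.rho (1 - q M) ≤ 2 / M

end

end Pool.Agent.CIR
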