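import Mathlib
import Pool.Agent.CIR.Defs

/-!
# CIR / App : approximation calculus

MP_05b873_al.  For a split `S` of a subgroup `H` put `T m = α (t ^ m)`, `e M = α t * q M`
(nilpotent of order `M`), `B` the centraliser of `Pi`.  A power series `F` over `W` (with
`coeff j F * T (-j)` in `B`) is sent to `Th M F = ∑_{j<M} coeff j F * T (-j) * e^j`; this is
multiplicative, and an element `x` is expanded as `(F, s)` if `x ≈ Th M F * T s` up to `C / M`.
-/

namespace Pool.Agent.CIR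

open Finset

namespace RankData

variable {W : Type*} [Ring W] (R : RankData W)

theorem rho_neg (x : W) : R.rho (-x) ≤ R.rho x := by
  have := R.rho_mul_right (-1) x
  simpa using this

theorem rho_sub (x y : W) : R.rho (x - y) ≤ R.rho x + R.rho y := by
  rw [sub_eq_add_neg]
  exact (R.rho_add _ _).trans (by linarith [R.rho_neg y])

theorem eq_zero_of_le (x : W) (C : ℝ) (h : ∀ M : ℕ, 1 ≤ M → R.rho x ≤ C / M) : x = 0 := by
  apply R.eq_zero
  apply le_antisymm _ (R.rho_nonneg x)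
  by_contra hcon
  push Not at hcon
  obtain ⟨M, hM⟩ := exists_nat_gt (C / R.rho x)
  have h1 := h (M + 1) (by omega)
  have hM0 : (0 : ℝ) < ((M + 1 : ℕ) : ℝ) := by positivity
  rw [le_div_iff₀ hM0] at h1
  rw [div_lt_iff₀ hcon] at hM
  push_cast at h1
  nlinarith

theorem isUnit_of_le (x : W) (C : ℝ) (h : ∀ M : ℕ, 1 ≤ M → ∃ y, R.rho (1 - x * y) ≤ C / M) :
    IsUnit x := by
  apply R.isUnit
  intro ε hε
  obtain ⟨M, hM⟩ := exists_nat_gt (C / ε)
  obtain ⟨y, hy⟩ := h (M + 1) (by omega)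
  refine ⟨y, hy.trans ?_⟩
  have hM0 : (0 : ℝ) < ((M + 1 : ℕ) : ℝ) := by positivity
  rw [div_le_iff₀ hM0]
  rw [div_lt_iff₀ hε] at hM
  push_cast
  nlinarith

end RankData

namespace Split

variable {Γ : Type*} [Group Γ] {W : Type*} [Ring W] {R : RankData W}
  {α : Γ →* W} {H : Subgroup Γ} (S : Split R α H)

/-- `T m = α (t ^ m)` -/
def T (m : ℤ) : W := α (S.t ^ m)

theorem T_mul (m n : ℤ) : S.T m * S.T n = S.T (m + n) := by
  unfold T; rw [← map_mul, ← zpow_add]

@[simp] theorem T_zero : S.T 0 = 1 := by unfold T; simp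

theorem T_mul_neg (m : ℤ) : S.T m * S.T (-m) = 1 := by rw [T_mul]; simp

theorem T_neg_mul (m : ℤ) : S.T (-m) * S.T m = 1 := by rw [T_mul]; simp

theorem T_one : S.T 1 = α S.t := by unfold T; simp

theorem T_neg_one : S.T (-1) = α S.t⁻¹ := by unfold T; simp

/-- the nilpotent approximation of `α t` -/
def e (M : ℕ) : W := S.T 1 * S.q M

theorem e_pow_self (M : ℕ) (hM : 1 ≤ M) : S.e M ^ M = 0 := by
  unfold e; rw [T_one]; exact S.nil M hM

theorem e_pow_of_le (M j : ℕ) (hM : 1 ≤ M) (h : M ≤ j) : S.e M ^ j = 0 :=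
  pow_eq_zero_of_le h (S.e_pow_self M hM)

theorem rho_T_sub_e (M : ℕ) (hM : 1 ≤ M) : R.rho (S.T 1 - S.e M) ≤ 2 / M := by
  have : S.T 1 - S.e M = S.T 1 * (1 - S.q M) := by unfold e; noncomm_ring
  rw [this]
  exact (R.rho_mul_right _ _).trans (S.small M hM)

/-- the centraliser of `Pi` -/
def B : Subring W := Subring.centralizer S.Pi

theorem mem_B {x : W} : x ∈ S.B ↔ ∀ y ∈ S.Pi, y * x = x * y := by
  unfold B; exact Subring.mem_centralizer_iff

theorem conj_Pi_T (m : ℤ) : ∀ x ∈ S.Pi, S.T m * x * S.T (-m) ∈ S.Pi := by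
  induction m using Int.induction_on with
  | zero => intro x hx; simpa using hx
  | succ n ih =>
    intro x hx
    have h1 := S.conj_Pi _ (ih x hx)
    have h2 : S.T (n + 1) * x * S.T (-(n + 1)) = α S.t * (S.T n * x * S.T (-n)) * α S.t⁻¹ := by
      rw [← S.T_one, ← S.T_neg_one, show ((n : ℤ) + 1) = 1 + n by ring, ← S.T_mul 1 n,
        show (-(1 + (n : ℤ))) = -n + -1 by ring, ← S.T_mul (-n) (-1)]
      noncomm_ring
    rw [h2]; exact h1
  | pred n ih =>
    intro x hx
    have h1 := S.conj_Pi' _ (ih x hx)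
    have h2 : S.T (-n - 1) * x * S.T (-(-n - 1)) =
        α S.t⁻¹ * (S.T (-n) * x * S.T (-(-n))) * α S.t := by
      rw [← S.T_one, ← S.T_neg_one, show (-(n : ℤ) - 1) = -1 + -n by ring, ← S.T_mul (-1) (-n),
        show (-(-1 + -(n : ℤ))) = -(-n) + 1 by ring, ← S.T_mul (-(-n)) 1]
      noncomm_ring
    rw [h2]; exact h1

theorem conj_B (m : ℤ) {x : W} (hx : x ∈ S.B) : S.T m * x * S.T (-m) ∈ S.B := by
  rw [mem_B] at hx ⊢
  intro y hy
  have h1 := hx _ (S.conj_Pi_T (-m) y hy)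
  rw [neg_neg] at h1
  -- (T(-m) y T m) x = x (T(-m) y T m)
  calc y * (S.T m * x * S.T (-m))
      = (S.T m * S.T (-m)) * y * (S.T m * x * S.T (-m)) := by rw [T_mul_neg, one_mul]
    _ = S.T m * (S.T (-m) * y * S.T m * x) * S.T (-m) := by noncomm_ring
    _ = S.T m * (x * (S.T (-m) * y * S.T m)) * S.T (-m) := by rw [h1]
    _ = S.T m * x * S.T (-m) * y * (S.T m * S.T (-m)) := by noncomm_ring
    _ = S.T m * x * S.T (-m) * y := by rw [T_mul_neg, mul_one]

theorem inv_B {x y : W} (hx : x ∈ S.B) (h1 : x * y = 1) (h2 : y * x = 1) : y ∈ S.B := by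
  rw [mem_B] at hx ⊢
  intro z hz
  calc z * y = (y * x) * z * y := by rw [h2, one_mul]
    _ = y * (x * z) * y := by noncomm_ring
    _ = y * (z * x) * y := by rw [hx z hz]
    _ = y * z * (x * y) := by noncomm_ring
    _ = y * z := by rw [h1, mul_one]

theorem alpha_mem_B {n : Γ} (hn : n ∈ S.N) : α n ∈ S.B := by
  rw [mem_B]; intro y hy; exact (S.comm n hn y hy).symm

/-- commutation of `e` with `B` -/
theorem e_mul (M : ℕ) {b : W} (hb : b ∈ S.B) :
    S.e M * b = S.T 1 * b * S.T (-1) * S.e M := by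
  unfold e
  have := (S.mem_B.1 hb) _ (S.q_mem M)
  calc S.T 1 * S.q M * b = S.T 1 * (S.q M * b) := by noncomm_ring
    _ = S.T 1 * (b * S.q M) := by rw [this]
    _ = S.T 1 * b * (S.T (-1) * S.T 1) * S.q M := by rw [S.T_neg_mul]; noncomm_ring
    _ = _ := by noncomm_ring

theorem e_pow_mul (M i : ℕ) {b : W} (hb : b ∈ S.B) :
    S.e M ^ i * b = S.T i * b * S.T (-i) * S.e M ^ i := by
  induction i with
  | zero => simp
  | succ i ih =>
    rw [pow_succ', mul_assoc, ih]
    have h1 := S.e_mul M (S.conj_B i hb)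
    calc S.e M * (S.T i * b * S.T (-i) * S.e M ^ i)
        = (S.e M * (S.T i * b * S.T (-i))) * S.e M ^ i := by noncomm_ring
      _ = S.T 1 * (S.T i * b * S.T (-i)) * S.T (-1) * S.e M * S.e M ^ i := by rw [h1]
      _ = (S.T 1 * S.T i) * b * (S.T (-i) * S.T (-1)) * (S.e M * S.e M ^ i) := by noncomm_ring
      _ = _ := by
        rw [S.T_mul, S.T_mul]
        push_cast
        rw [show (1 : ℤ) + i = i + 1 by ring, show (-(i : ℤ)) + -1 = -(i + 1) by ring]

/-- the truncation map -/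
noncomputable def Th (M : ℕ) (F : PowerSeries W) : W :=
  ∑ j ∈ range M, PowerSeries.coeff j F * S.T (-(j : ℤ)) * S.e M ^ j

/-- power series with components in a given set -/
def Gr (Q : Set W) : Set (PowerSeries W) :=
  {F | ∀ j : ℕ, PowerSeries.coeff j F * S.T (-(j : ℤ)) ∈ Q}

/-- coefficientwise conjugation by `T m` -/
noncomputable def tw (m : ℤ) (F : PowerSeries W) : PowerSeries W :=
  PowerSeries.mk fun j => S.T m * PowerSeries.coeff j F * S.T (-m)

theorem Th_add (M : ℕ) (F G : PowerSeries W) : S.Th M (F + G) = S.Th M F + S.Th M G := by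
  unfold Th
  rw [← sum_add_distrib]
  apply sum_congr rfl
  intro j _
  rw [map_add]; noncomm_ring

theorem Th_zero (M : ℕ) : S.Th M 0 = 0 := by
  unfold Th; simp

theorem Th_C (M : ℕ) (hM : 1 ≤ M) (b : W) : S.Th M (PowerSeries.C b) = b := by
  unfold Th
  rw [sum_eq_single 0]
  · simp
  · intro j _ hj
    rw [PowerSeries.coeff_C, if_neg hj]; simp
  · intro h; simp at h; omega

theorem Th_one (M : ℕ) (hM : 1 ≤ M) : S.Th M 1 = 1 := by
  have := S.Th_C M hM 1
  simpa using this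

theorem Th_mul (M : ℕ) (hM : 1 ≤ M) (F G : PowerSeries W) (hG : G ∈ S.Gr S.B) :
    S.Th M (F * G) = S.Th M F * S.Th M G := by
  have key : ∀ i j : ℕ, PowerSeries.coeff i F * S.T (-(i : ℤ)) * S.e M ^ i *
      (PowerSeries.coeff j G * S.T (-(j : ℤ)) * S.e M ^ j) =
      PowerSeries.coeff i F * PowerSeries.coeff j G * S.T (-((i + j : ℕ) : ℤ)) *
        S.e M ^ (i + j) := by
    intro i j
    have h1 := S.e_pow_mul M i (hG j)
    calc PowerSeries.coeff i F * S.T (-(i : ℤ)) * S.e M ^ i *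
          (PowerSeries.coeff j G * S.T (-(j : ℤ)) * S.e M ^ j)
        = PowerSeries.coeff i F * S.T (-(i : ℤ)) *
          (S.e M ^ i * (PowerSeries.coeff j G * S.T (-(j : ℤ)))) * S.e M ^ j := by noncomm_ring
      _ = PowerSeries.coeff i F * S.T (-(i : ℤ)) *
          (S.T i * (PowerSeries.coeff j G * S.T (-(j : ℤ))) * S.T (-i) * S.e M ^ i) *
            S.e M ^ j := by rw [h1]
      _ = PowerSeries.coeff i F * (S.T (-(i : ℤ)) * S.T i) * PowerSeries.coeff j G *
          (S.T (-(j : ℤ)) * S.T (-i)) * (S.e M ^ i * S.e M ^ j) := by noncomm_ring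
      _ = _ := by
        rw [S.T_neg_mul, S.T_mul, ← pow_add, mul_one]
        push_cast
        rw [show (-(j : ℤ)) + -i = -(i + j) by ring]
  -- the full double sum
  have h1 : S.Th M F * S.Th M G = ∑ i ∈ range M, ∑ j ∈ range M,
      PowerSeries.coeff i F * PowerSeries.coeff j G * S.T (-((i + j : ℕ) : ℤ)) *
        S.e M ^ (i + j) := by
    unfold Th
    rw [sum_mul_sum]
    apply sum_congr rfl; intro i _
    apply sum_congr rfl; intro j _
    exact key i j
  rw [h1]
  unfold Th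
  simp_rw [PowerSeries.coeff_mul, sum_mul]
  -- left: sum over n < M, (i,j) antidiagonal n
  rw [← sum_product']
  rw [sum_sigma']
  symm
  rw [← sum_filter_add_sum_filter_not (range M ×ˢ range M) (fun x => x.1 + x.2 < M)]
  have h2 : ∑ x ∈ (range M ×ˢ range M) with ¬ (x.1 + x.2 < M),
      PowerSeries.coeff x.1 F * PowerSeries.coeff x.2 G * S.T (-((x.1 + x.2 : ℕ) : ℤ)) *
        S.e M ^ (x.1 + x.2) = 0 := by
    apply sum_eq_zero
    intro x hx
    rw [mem_filter] at hx
    rw [S.e_pow_of_le M _ hM (not_lt.1 hx.2), mul_zero]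
  rw [h2, add_zero]
  apply sum_nbij' (fun x => ⟨x.1 + x.2, x⟩) (fun y => y.2)
  · intro x hx
    simp only [mem_filter, mem_product, mem_range] at hx
    simp only [mem_sigma, mem_range, HasAntidiagonal.mem_antidiagonal]
    exact ⟨hx.2, trivial⟩
  · intro y hy
    simp only [mem_sigma, mem_range, HasAntidiagonal.mem_antidiagonal] at hy
    simp only [mem_filter, mem_product, mem_range]
    omega
  · intro x _; rfl
  · intro y hy
    simp only [mem_sigma, mem_range, HasAntidiagonal.mem_antidiagonal] at hy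
    obtain ⟨n, y⟩ := y
    obtain ⟨_, h⟩ := hy
    simp only at h
    subst h
    rfl
  · intro x _
    rfl

/-- moving `T` past `Th` -/
theorem rho_T_Th (M : ℕ) (hM : 1 ≤ M) (F : PowerSeries W) (hF : F ∈ S.Gr S.B) :
    R.rho (S.T 1 * S.Th M F - S.Th M (S.tw 1 F) * S.T 1) ≤ 4 / M := by
  have h1 : S.e M * S.Th M F = S.Th M (S.tw 1 F) * S.e M := by
    unfold Th
    rw [mul_sum, sum_mul]
    apply sum_congr rfl
    intro j _
    unfold tw
    rw [PowerSeries.coeff_mk]
    have h := S.e_mul M (hF j)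
    calc S.e M * (PowerSeries.coeff j F * S.T (-(j : ℤ)) * S.e M ^ j)
        = (S.e M * (PowerSeries.coeff j F * S.T (-(j : ℤ)))) * S.e M ^ j := by noncomm_ring
      _ = S.T 1 * (PowerSeries.coeff j F * S.T (-(j : ℤ))) * S.T (-1) * S.e M * S.e M ^ j := by
          rw [h]
      _ = S.T 1 * PowerSeries.coeff j F * (S.T (-(j : ℤ)) * S.T (-1)) * (S.e M ^ j * S.e M) := by
          rw [← pow_succ, pow_succ']; noncomm_ring
      _ = S.T 1 * PowerSeries.coeff j F * (S.T (-1) * S.T (-(j : ℤ))) * (S.e M ^ j * S.e M) := by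
          rw [S.T_mul, S.T_mul, add_comm (-1 : ℤ)]
      _ = _ := by noncomm_ring
  have h2 : S.T 1 * S.Th M F - S.Th M (S.tw 1 F) * S.T 1 =
      (S.T 1 - S.e M) * S.Th M F - S.Th M (S.tw 1 F) * (S.T 1 - S.e M) := by
    have : (S.T 1 - S.e M) * S.Th M F - S.Th M (S.tw 1 F) * (S.T 1 - S.e M) =
      S.T 1 * S.Th M F - S.Th M (S.tw 1 F) * S.T 1 -
        (S.e M * S.Th M F - S.Th M (S.tw 1 F) * S.e M) := by noncomm_ring
    rw [this, h1]; simp
  rw [h2]
  have h3 := S.rho_T_sub_e M hM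
  have h4 := R.rho_mul_left (S.T 1 - S.e M) (S.Th M F)
  have h5 := R.rho_mul_right (S.Th M (S.tw 1 F)) (S.T 1 - S.e M)
  have h6 := R.rho_sub ((S.T 1 - S.e M) * S.Th M F) (S.Th M (S.tw 1 F) * (S.T 1 - S.e M))
  have h7 : (4 : ℝ) / M = 2 / M + 2 / M := by ring
  linarith

end Split

end Pool.Agent.CIR
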