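import Mathlib
import Pool.Agent.CIR.App

/-!
# CIR / Amb : the ambient Laurent ring and gauge approximations

MP_05b873_al.  `W` is embedded in a ring `Wz` with a central unit `z` and a subring `V` (power
series).  `S.Tw x y`: `g⁻¹ x g ≈ y` for all gauges `g`, up to a multiple of the errors for finitely
many group elements.  `S.Rep f F`: `f` is congruent to the partial sums of `F` modulo `z ^ J V`.
`S.Ex x F s`: `x` is expanded as `F τ ^ s` with `τ = z t`.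
-/

namespace Pool.Agent.CIR

open Finset

/-- the ambient ring -/
structure Amb {W Wz : Type*} [Ring W] [Ring Wz] (R : RankData W) (Rz : RankData Wz) where
  ext : W →+* Wz
  V : Subring Wz
  z : Wzˣ
  G : Set Wzˣ
  ext_mem : ∀ x, ext x ∈ V
  z_mem : (z : Wz) ∈ V
  z_comm : ∀ x : Wz, (z : Wz) * x = x * z
  unit : ∀ v ∈ V, ∃ w ∈ V, (1 + z * v) * w = 1 ∧ w * (1 + z * v) = 1
  vanish : ∀ g ∈ G, ∀ (x : W) (y : Wz), (∀ J : ℕ, ∃ v ∈ V, y = (z : Wz) ^ J * v) →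
    R.rho x ≤ Rz.rho ((g⁻¹ : Wzˣ) * ext x * g - y)
  pinv : ∀ x : W, ∃ y : W, ∀ w : Wz, R.rho (1 - x * y) ≤ Rz.rho (1 - ext x * w)

/-- the data for a subgroup `H` -/
structure Spl {Γ : Type*} [Group Γ] {W Wz : Type*} [Ring W] [Ring Wz] {R : RankData W}
    {Rz : RankData Wz} (A : Amb R Rz) (α : Γ →* W) (H : Subgroup Γ) where
  N : Subgroup Γ
  t : Γ
  N_le : N ≤ H
  t_mem : t ∈ H
  conj_mem : ∀ n ∈ N, t * n * t⁻¹ ∈ N
  conj_mem' : ∀ n ∈ N, t⁻¹ * n * t ∈ N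
  exists_eq : ∀ h ∈ H, ∃ n ∈ N, ∃ m : ℤ, h = n * t ^ m
  not_le : ¬ H ≤ N
  gauge : ∀ S : Finset Γ, (∀ n ∈ S, n ∈ N) → ∀ ε > 0, ∃ g ∈ A.G,
    Rz.rho ((g⁻¹ : Wzˣ) * A.ext (α t) * g - A.z * A.ext (α t)) ≤ ε ∧
    ∀ n ∈ S, Rz.rho ((g⁻¹ : Wzˣ) * A.ext (α n) * g - A.ext (α n)) ≤ ε

namespace Spl

variable {Γ : Type*} [Group Γ] {W Wz : Type*} [Ring W] [Ring Wz] {R : RankData W}
  {Rz : RankData Wz} {A : Amb R Rz} {α : Γ →* W} {H : Subgroup Γ} (S : Spl A α H)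

/-- `T m = α (t ^ m)` -/
def T (m : ℤ) : W := α (S.t ^ m)

theorem T_mul (m n : ℤ) : S.T m * S.T n = S.T (m + n) := by
  unfold T; rw [← map_mul, ← zpow_add]

@[simp] theorem T_zero : S.T 0 = 1 := by unfold T; simp

theorem T_mul_neg (m : ℤ) : S.T m * S.T (-m) = 1 := by rw [T_mul]; simp

theorem T_neg_mul (m : ℤ) : S.T (-m) * S.T m = 1 := by rw [T_mul]; simp

theorem T_one : S.T 1 = α S.t := by unfold T; simp

/-- the error of a gauge -/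
def err (S : Spl A α H) (g : Wzˣ) (P : Finset Γ) : ℝ :=
  Rz.rho ((g⁻¹ : Wzˣ) * A.ext (α S.t) * g - A.z * A.ext (α S.t)) +
    ∑ n ∈ P, Rz.rho ((g⁻¹ : Wzˣ) * A.ext (α n) * g - A.ext (α n))

theorem err_nonneg (g : Wzˣ) (P : Finset Γ) : 0 ≤ S.err g P :=
  add_nonneg (Rz.rho_nonneg _) (sum_nonneg fun _ _ => Rz.rho_nonneg _)

theorem err_mono (g : Wzˣ) {P Q : Finset Γ} (h : P ⊆ Q) : S.err g P ≤ S.err g Q := by
  unfold err
  have := sum_le_sum_of_subset_of_nonneg h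
    (f := fun n => Rz.rho ((g⁻¹ : Wzˣ) * A.ext (α n) * g - A.ext (α n)))
    (fun _ _ _ => Rz.rho_nonneg _)
  linarith

/-- the gauge approximation relation -/
def Tw (x : W) (y : Wz) : Prop :=
  ∃ (C : ℝ) (P : Finset Γ), 0 ≤ C ∧ (∀ n ∈ P, n ∈ S.N) ∧
    ∀ g ∈ A.G, Rz.rho ((g⁻¹ : Wzˣ) * A.ext x * g - y) ≤ C * S.err g P

theorem Tw.mono' {x : W} {y : Wz} {C C' : ℝ} {P P' : Finset Γ} (hC : 0 ≤ C) (hCC : C ≤ C')
    (hP : P ⊆ P')
    (h : ∀ g ∈ A.G, Rz.rho ((g⁻¹ : Wzˣ) * A.ext x * g - y) ≤ C * S.err g P) :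
    ∀ g ∈ A.G, Rz.rho ((g⁻¹ : Wzˣ) * A.ext x * g - y) ≤ C' * S.err g P' := by
  intro g hg
  refine (h g hg).trans ?_
  have h1 := S.err_mono g hP
  have h2 := S.err_nonneg g P
  have h3 := S.err_nonneg g P'
  calc C * S.err g P ≤ C * S.err g P' := by gcongr
    _ ≤ C' * S.err g P' := by gcongr

theorem Tw.add {x x' : W} {y y' : Wz} (h : S.Tw x y) (h' : S.Tw x' y') :
    S.Tw (x + x') (y + y') := by
  classical
  obtain ⟨C, P, hC, hP, hx⟩ := h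
  obtain ⟨C', P', hC', hP', hx'⟩ := h'
  refine ⟨C + C', P ∪ P', by positivity, ?_, fun g hg => ?_⟩
  · intro n hn
    rcases mem_union.1 hn with h | h
    · exact hP n h
    · exact hP' n h
  have h1 := Tw.mono' S hC le_rfl (subset_union_left (s₂ := P')) hx g hg
  have h2 := Tw.mono' S hC' le_rfl (subset_union_right (s₁ := P)) hx' g hg
  have h3 : (g⁻¹ : Wzˣ) * A.ext (x + x') * g - (y + y') =
      ((g⁻¹ : Wzˣ) * A.ext x * g - y) + ((g⁻¹ : Wzˣ) * A.ext x' * g - y') := by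
    rw [map_add]; noncomm_ring
  rw [h3]
  refine (Rz.rho_add _ _).trans ?_
  linarith

theorem Tw.mul {x x' : W} {y y' : Wz} (h : S.Tw x y) (h' : S.Tw x' y') :
    S.Tw (x * x') (y * y') := by
  classical
  obtain ⟨C, P, hC, hP, hx⟩ := h
  obtain ⟨C', P', hC', hP', hx'⟩ := h'
  refine ⟨C + C', P ∪ P', by positivity, ?_, fun g hg => ?_⟩
  · intro n hn
    rcases mem_union.1 hn with h | h
    · exact hP n h
    · exact hP' n h
  have h1 := Tw.mono' S hC le_rfl (subset_union_left (s₂ := P')) hx g hg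
  have h2 := Tw.mono' S hC' le_rfl (subset_union_right (s₁ := P)) hx' g hg
  have h3 : (g⁻¹ : Wzˣ) * A.ext (x * x') * g - y * y' =
      ((g⁻¹ : Wzˣ) * A.ext x * g - y) * ((g⁻¹ : Wzˣ) * A.ext x' * g) +
        y * ((g⁻¹ : Wzˣ) * A.ext x' * g - y') := by
    rw [map_mul]
    have h4 : (g : Wz) * (g⁻¹ : Wzˣ) = 1 := by simp
    calc (g⁻¹ : Wzˣ) * (A.ext x * A.ext x') * g - y * y'
        = (g⁻¹ : Wzˣ) * A.ext x * (1 : Wz) * A.ext x' * g - y * y' := by noncomm_ring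
      _ = (g⁻¹ : Wzˣ) * A.ext x * ((g : Wz) * (g⁻¹ : Wzˣ)) * A.ext x' * g - y * y' := by rw [h4]
      _ = _ := by noncomm_ring
  rw [h3]
  refine (Rz.rho_add _ _).trans ?_
  have h5 := Rz.rho_mul_left ((g⁻¹ : Wzˣ) * A.ext x * g - y) ((g⁻¹ : Wzˣ) * A.ext x' * g)
  have h6 := Rz.rho_mul_right y ((g⁻¹ : Wzˣ) * A.ext x' * g - y')
  linarith

theorem Tw.inv {x x' : W} {y y' : Wz} (h : S.Tw x y) (h1 : x' * x = 1) (h2 : y * y' = 1) :
    S.Tw x' y' := by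
  obtain ⟨C, P, hC, hP, hx⟩ := h
  refine ⟨C, P, hC, hP, fun g hg => ?_⟩
  have h3 : (g⁻¹ : Wzˣ) * A.ext x' * g - y' =
      -(((g⁻¹ : Wzˣ) * A.ext x' * g) * ((g⁻¹ : Wzˣ) * A.ext x * g - y) * y') := by
    have h4 : (g : Wz) * (g⁻¹ : Wzˣ) = 1 := by simp
    have h5 : (g⁻¹ : Wzˣ) * (g : Wz) = 1 := by simp
    have h6 : ((g⁻¹ : Wzˣ) * A.ext x' * g) * ((g⁻¹ : Wzˣ) * A.ext x * g) = 1 := by
      calc ((g⁻¹ : Wzˣ) * A.ext x' * g) * ((g⁻¹ : Wzˣ) * A.ext x * g)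
          = (g⁻¹ : Wzˣ) * A.ext x' * ((g : Wz) * (g⁻¹ : Wzˣ)) * A.ext x * g := by noncomm_ring
        _ = (g⁻¹ : Wzˣ) * (A.ext x' * A.ext x) * g := by rw [h4]; noncomm_ring
        _ = 1 := by rw [← map_mul, h1, map_one, mul_one, h5]
    calc (g⁻¹ : Wzˣ) * A.ext x' * g - y'
        = ((g⁻¹ : Wzˣ) * A.ext x' * g) * (y * y') - 1 * y' := by rw [h2]; noncomm_ring
      _ = ((g⁻¹ : Wzˣ) * A.ext x' * g) * (y * y') -
          (((g⁻¹ : Wzˣ) * A.ext x' * g) * ((g⁻¹ : Wzˣ) * A.ext x * g)) * y' := by rw [h6]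
      _ = _ := by noncomm_ring
  rw [h3]
  exact (Rz.rho_neg _).trans ((Rz.rho_mul_left _ _).trans ((Rz.rho_mul_right _ _).trans (hx g hg)))

theorem Tw_zero : S.Tw 0 0 :=
  ⟨0, ∅, le_rfl, by simp, fun g _ => by simp [Rz.rho_zero]⟩

theorem Tw_one : S.Tw 1 1 :=
  ⟨0, ∅, le_rfl, by simp, fun g _ => by simp [Rz.rho_zero]⟩

theorem Tw_neg {x : W} {y : Wz} (h : S.Tw x y) : S.Tw (-x) (-y) := by
  obtain ⟨C, P, hC, hP, hx⟩ := h
  refine ⟨C, P, hC, hP, fun g hg => ?_⟩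
  have h3 : (g⁻¹ : Wzˣ) * A.ext (-x) * g - -y = -((g⁻¹ : Wzˣ) * A.ext x * g - y) := by
    rw [map_neg]; noncomm_ring
  rw [h3]
  exact (Rz.rho_neg _).trans (hx g hg)

/-- small errors exist -/
theorem exists_err (P : Finset Γ) (hP : ∀ n ∈ P, n ∈ S.N) (ε : ℝ) (hε : 0 < ε) :
    ∃ g ∈ A.G, S.err g P ≤ ε := by
  obtain ⟨g, hg, h1, h2⟩ := S.gauge P hP (ε / (P.card + 1)) (by positivity)
  refine ⟨g, hg, ?_⟩
  unfold err
  have h3 := sum_le_card_nsmul P _ _ h2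
  rw [nsmul_eq_mul] at h3
  calc _ ≤ ε / (P.card + 1) + P.card * (ε / (P.card + 1)) := add_le_add h1 h3
    _ = ε := by field_simp; ring

theorem Tw.eq_zero {x : W} {y : Wz} (h : S.Tw x y)
    (hy : ∀ J : ℕ, ∃ v ∈ A.V, y = (A.z : Wz) ^ J * v) : x = 0 := by
  obtain ⟨C, P, hC, hP, hx⟩ := h
  apply R.eq_zero
  apply le_antisymm _ (R.rho_nonneg x)
  apply le_of_forall_pos_le_add
  intro ε hε
  obtain ⟨g, hg, he⟩ := S.exists_err P hP (ε / (C + 1)) (by positivity)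
  have h1 := A.vanish g hg x y hy
  have h2 := hx g hg
  have h3 : C * S.err g P ≤ ε := by
    calc C * S.err g P ≤ C * (ε / (C + 1)) := by gcongr
      _ = ε * (C / (C + 1)) := by ring
      _ ≤ ε * 1 := by
        gcongr
        rw [div_le_one (by positivity)]; linarith
      _ = ε := mul_one _
  linarith

theorem Tw.isUnit {x : W} {y w : Wz} (h : S.Tw x y) (hyw : y * w = 1) : IsUnit x := by
  obtain ⟨C, P, hC, hP, hx⟩ := h
  obtain ⟨x', hx'⟩ := A.pinv x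
  apply R.isUnit
  intro ε hε
  refine ⟨x', ?_⟩
  obtain ⟨g, hg, he⟩ := S.exists_err P hP (ε / (C + 1)) (by positivity)
  have h2 := hx g hg
  have h3 : C * S.err g P ≤ ε := by
    calc C * S.err g P ≤ C * (ε / (C + 1)) := by gcongr
      _ = ε * (C / (C + 1)) := by ring
      _ ≤ ε * 1 := by
        gcongr
        rw [div_le_one (by positivity)]; linarith
      _ = ε := mul_one _
  refine (hx' (g * w * (g⁻¹ : Wzˣ))).trans ?_
  have h4 : 1 - A.ext x * (g * w * (g⁻¹ : Wzˣ)) =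
      -((g : Wz) * (((g⁻¹ : Wzˣ) * A.ext x * g - y) * w) * (g⁻¹ : Wzˣ)) := by
    have h5 : (g : Wz) * (g⁻¹ : Wzˣ) = 1 := by simp
    calc 1 - A.ext x * (g * w * (g⁻¹ : Wzˣ))
        = (g : Wz) * 1 * (g⁻¹ : Wzˣ) - 1 * A.ext x * (g * w * (g⁻¹ : Wzˣ)) := by
          rw [mul_one, h5, one_mul]
      _ = (g : Wz) * (y * w) * (g⁻¹ : Wzˣ) -
          ((g : Wz) * (g⁻¹ : Wzˣ)) * A.ext x * (g * w * (g⁻¹ : Wzˣ)) := by rw [h5, hyw]
      _ = _ := by noncomm_ring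
  rw [h4]
  refine (Rz.rho_neg _).trans ((Rz.rho_mul_left _ _).trans ((Rz.rho_mul_right _ _).trans
    ((Rz.rho_mul_left _ _).trans (h2.trans h3))))

/-! ### the elements of degree zero -/

/-- `x` commutes approximately with all gauges -/
def B : Subring W where
  carrier := {x | S.Tw x (A.ext x)}
  zero_mem' := by
    change S.Tw 0 (A.ext 0)
    rw [map_zero]; exact S.Tw_zero
  one_mem' := by
    change S.Tw 1 (A.ext 1)
    rw [map_one]; exact S.Tw_one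
  add_mem' := by
    intro x y hx hy
    change S.Tw (x + y) (A.ext (x + y))
    rw [map_add]; exact Tw.add S hx hy
  mul_mem' := by
    intro x y hx hy
    change S.Tw (x * y) (A.ext (x * y))
    rw [map_mul]; exact Tw.mul S hx hy
  neg_mem' := by
    intro x hx
    change S.Tw (-x) (A.ext (-x))
    rw [map_neg]; exact S.Tw_neg hx

theorem mem_B {x : W} : x ∈ S.B ↔ S.Tw x (A.ext x) := Iff.rfl

theorem inv_B {x y : W} (hx : x ∈ S.B) (h1 : x * y = 1) (h2 : y * x = 1) : y ∈ S.B :=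
  Tw.inv S hx h2 (by rw [← map_mul, h1, map_one])

theorem alpha_mem_B {n : Γ} (hn : n ∈ S.N) : α n ∈ S.B := by
  refine ⟨1, {n}, zero_le_one, by simpa using hn, fun g _ => ?_⟩
  rw [one_mul]
  unfold err
  rw [sum_singleton]
  have := Rz.rho_nonneg ((g⁻¹ : Wzˣ) * A.ext (α S.t) * g - A.z * A.ext (α S.t))
  linarith

/-- `τ = z t` -/
noncomputable def tau : Wzˣ where
  val := A.z * A.ext (S.T 1)
  inv := (A.z⁻¹ : Wzˣ) * A.ext (S.T (-1))
  val_inv := by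
    have h1 : (A.z : Wz) * (A.z⁻¹ : Wzˣ) = 1 := by simp
    have h2 := A.z_comm ((A.z⁻¹ : Wzˣ) * A.ext (S.T (-1)))
    calc (A.z : Wz) * A.ext (S.T 1) * ((A.z⁻¹ : Wzˣ) * A.ext (S.T (-1)))
        = A.ext (S.T 1) * ((A.z : Wz) * (A.z⁻¹ : Wzˣ)) * A.ext (S.T (-1)) := by
          rw [A.z_comm]; noncomm_ring
      _ = A.ext (S.T 1 * S.T (-1)) := by rw [h1, mul_one, map_mul]
      _ = 1 := by rw [S.T_mul_neg, map_one]
  inv_val := by
    have h1 : (A.z⁻¹ : Wzˣ) * (A.z : Wz) = 1 := by simp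
    calc (A.z⁻¹ : Wzˣ) * A.ext (S.T (-1)) * ((A.z : Wz) * A.ext (S.T 1))
        = (A.z⁻¹ : Wzˣ) * (A.ext (S.T (-1)) * (A.z : Wz)) * A.ext (S.T 1) := by noncomm_ring
      _ = ((A.z⁻¹ : Wzˣ) * (A.z : Wz)) * (A.ext (S.T (-1)) * A.ext (S.T 1)) := by
          rw [← A.z_comm]; noncomm_ring
      _ = 1 := by rw [h1, one_mul, ← map_mul, S.T_neg_mul, map_one]

theorem tau_val : (S.tau : Wz) = A.z * A.ext (S.T 1) := rfl

theorem zU_comm (m : ℤ) (x : Wz) : ((A.z ^ m : Wzˣ) : Wz) * x = x * ((A.z ^ m : Wzˣ) : Wz) := by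
  have h1 : Commute (A.z : Wz) x := A.z_comm x
  exact (Commute.units_zpow_left h1 m)

theorem tau_zpow (m : ℤ) : ((S.tau ^ m : Wzˣ) : Wz) = ((A.z ^ m : Wzˣ) : Wz) * A.ext (S.T m) := by
  induction m using Int.induction_on with
  | zero => simp
  | succ k ih =>
    rw [zpow_add, Units.val_mul, ih, zpow_one, tau_val, zpow_add, Units.val_mul, zpow_one,
      ← S.T_mul, map_mul]
    have := zU_comm (A := A) 1 (A.ext (S.T k))
    rw [zpow_one] at this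
    calc ((A.z ^ (k : ℤ) : Wzˣ) : Wz) * A.ext (S.T k) * (A.z * A.ext (S.T 1))
        = ((A.z ^ (k : ℤ) : Wzˣ) : Wz) * (A.ext (S.T k) * A.z) * A.ext (S.T 1) := by noncomm_ring
      _ = _ := by rw [← this]; noncomm_ring
  | pred k ih =>
    rw [zpow_sub, Units.val_mul, ih, zpow_one, zpow_sub, Units.val_mul, zpow_one]
    have h1 : ((S.tau⁻¹ : Wzˣ) : Wz) = (A.z⁻¹ : Wzˣ) * A.ext (S.T (-1)) := rfl
    rw [h1, show (-(k : ℤ) - 1) = -k + -1 by ring, ← S.T_mul, map_mul]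
    have := zU_comm (A := A) (-1) (A.ext (S.T (-k)))
    rw [zpow_neg_one] at this
    calc ((A.z ^ (-(k : ℤ)) : Wzˣ) : Wz) * A.ext (S.T (-k)) * ((A.z⁻¹ : Wzˣ) * A.ext (S.T (-1)))
        = ((A.z ^ (-(k : ℤ)) : Wzˣ) : Wz) * (A.ext (S.T (-k)) * (A.z⁻¹ : Wzˣ)) *
            A.ext (S.T (-1)) := by noncomm_ring
      _ = _ := by rw [← this]; noncomm_ring

theorem Tw_T (m : ℤ) : S.Tw (S.T m) ((S.tau ^ m : Wzˣ) : Wz) := by
  have h1 : S.Tw (S.T 1) (S.tau : Wz) := by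
    refine ⟨1, ∅, zero_le_one, by simp, fun g _ => ?_⟩
    rw [one_mul]
    unfold err
    rw [sum_empty, add_zero, tau_val, S.T_one]
  have h2 : S.Tw (S.T (-1)) ((S.tau⁻¹ : Wzˣ) : Wz) :=
    Tw.inv S h1 (by rw [S.T_mul]; simp) (by simp)
  induction m using Int.induction_on with
  | zero => simpa using S.Tw_one
  | succ k ih =>
    rw [zpow_add, Units.val_mul, zpow_one, ← S.T_mul]
    exact Tw.mul S ih h1
  | pred k ih =>
    rw [zpow_sub, Units.val_mul, zpow_one, show (-(k : ℤ) - 1) = -k + -1 by ring, ← S.T_mul]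
    exact Tw.mul S ih h2

theorem conj_B (m : ℤ) {x : W} (hx : x ∈ S.B) : S.T m * x * S.T (-m) ∈ S.B := by
  rw [mem_B] at hx ⊢
  have h1 := Tw.mul S (Tw.mul S (S.Tw_T m) hx) (S.Tw_T (-m))
  have h2 : ((S.tau ^ m : Wzˣ) : Wz) * A.ext x * ((S.tau ^ (-m) : Wzˣ) : Wz) =
      A.ext (S.T m * x * S.T (-m)) := by
    rw [tau_zpow, tau_zpow, map_mul, map_mul]
    have h3 := zU_comm (A := A) (-m) (A.ext (S.T m) * A.ext x)
    have h4 : ((A.z ^ m : Wzˣ) : Wz) * ((A.z ^ (-m) : Wzˣ) : Wz) = 1 := by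
      rw [← Units.val_mul, ← zpow_add]; simp
    calc ((A.z ^ m : Wzˣ) : Wz) * A.ext (S.T m) * A.ext x *
          (((A.z ^ (-m) : Wzˣ) : Wz) * A.ext (S.T (-m)))
        = ((A.z ^ m : Wzˣ) : Wz) * ((A.ext (S.T m) * A.ext x) * ((A.z ^ (-m) : Wzˣ) : Wz)) *
            A.ext (S.T (-m)) := by noncomm_ring
      _ = (((A.z ^ m : Wzˣ) : Wz) * ((A.z ^ (-m) : Wzˣ) : Wz)) * (A.ext (S.T m) * A.ext x) *
            A.ext (S.T (-m)) := by rw [← h3]; noncomm_ring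
      _ = _ := by rw [h4, one_mul]
  rwa [h2] at h1

end Spl

end Pool.Agent.CIR
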