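import Mathlib
import Pool.Agent.CIR.Amb

/-!
# CIR / AmbEx : the expansion relation in the ambient ring

MP_05b873_al.
-/

namespace Pool.Agent.CIR

open Finset

namespace Spl

variable {Γ : Type*} [Group Γ] {W Wz : Type*} [Ring W] [Ring Wz] {R : RankData W}
  {Rz : RankData Wz} {A : Amb R Rz} {α : Γ →* W} {H : Subgroup Γ} (S : Spl A α H)

/-- power series with components in a given set -/
def Gr (Q : Set W) : Set (PowerSeries W) :=
  {F | ∀ j : ℕ, PowerSeries.coeff j F * S.T (-(j : ℤ)) ∈ Q}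

/-- coefficientwise conjugation by `T m` -/
noncomputable def tw (m : ℤ) (F : PowerSeries W) : PowerSeries W :=
  PowerSeries.mk fun j => S.T m * PowerSeries.coeff j F * S.T (-m)

theorem coeff_tw (m : ℤ) (F : PowerSeries W) (j : ℕ) :
    PowerSeries.coeff j (S.tw m F) = S.T m * PowerSeries.coeff j F * S.T (-m) := by
  unfold tw; rw [PowerSeries.coeff_mk]

theorem comp_tw (m : ℤ) (F : PowerSeries W) (j : ℕ) :
    PowerSeries.coeff j (S.tw m F) * S.T (-(j : ℤ)) =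
      S.T m * (PowerSeries.coeff j F * S.T (-(j : ℤ))) * S.T (-m) := by
  rw [S.coeff_tw]
  calc S.T m * PowerSeries.coeff j F * S.T (-m) * S.T (-(j : ℤ))
      = S.T m * PowerSeries.coeff j F * (S.T (-m) * S.T (-(j : ℤ))) := by noncomm_ring
    _ = S.T m * PowerSeries.coeff j F * (S.T (-(j : ℤ)) * S.T (-m)) := by
        rw [S.T_mul, S.T_mul, add_comm]
    _ = _ := by noncomm_ring

theorem tw_mem {Q : Set W} {F : PowerSeries W} (m : ℤ)
    (hQ : ∀ x ∈ Q, S.T m * x * S.T (-m) ∈ Q) (hF : F ∈ S.Gr Q) : S.tw m F ∈ S.Gr Q := by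
  intro j
  rw [S.comp_tw]
  exact hQ _ (hF j)

/-- the partial sums -/
noncomputable def ps (A : Amb R Rz) (J : ℕ) (F : PowerSeries W) : Wz :=
  ∑ j ∈ range J, A.ext (PowerSeries.coeff j F) * (A.z : Wz) ^ j

theorem ps_mem (J : ℕ) (F : PowerSeries W) : ps A J F ∈ A.V :=
  A.V.sum_mem fun j _ => A.V.mul_mem (A.ext_mem _) (A.V.pow_mem A.z_mem j)

theorem zpow_comm' (j : ℕ) (x : Wz) : (A.z : Wz) ^ j * x = x * (A.z : Wz) ^ j :=
  (Commute.pow_left (A.z_comm x) j)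

theorem ps_add (J : ℕ) (F G : PowerSeries W) : ps A J (F + G) = ps A J F + ps A J G := by
  unfold ps
  rw [← sum_add_distrib]
  apply sum_congr rfl
  intro j _
  rw [map_add, map_add]; noncomm_ring

theorem ps_succ (J : ℕ) (F : PowerSeries W) :
    ps A (J + 1) F = ps A J F + A.ext (PowerSeries.coeff J F) * (A.z : Wz) ^ J := by
  unfold ps; rw [sum_range_succ]

theorem ps_mul (J : ℕ) (F G : PowerSeries W) :
    ∃ v ∈ A.V, ps A J F * ps A J G = ps A J (F * G) + (A.z : Wz) ^ J * v := by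
  have key : ∀ i j : ℕ, A.ext (PowerSeries.coeff i F) * (A.z : Wz) ^ i *
      (A.ext (PowerSeries.coeff j G) * (A.z : Wz) ^ j) =
      A.ext (PowerSeries.coeff i F * PowerSeries.coeff j G) * (A.z : Wz) ^ (i + j) := by
    intro i j
    rw [map_mul, pow_add]
    calc A.ext (PowerSeries.coeff i F) * (A.z : Wz) ^ i *
          (A.ext (PowerSeries.coeff j G) * (A.z : Wz) ^ j)
        = A.ext (PowerSeries.coeff i F) * ((A.z : Wz) ^ i * A.ext (PowerSeries.coeff j G)) *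
            (A.z : Wz) ^ j := by noncomm_ring
      _ = _ := by rw [zpow_comm']; noncomm_ring
  have h1 : ps A J F * ps A J G = ∑ x ∈ range J ×ˢ range J,
      A.ext (PowerSeries.coeff x.1 F * PowerSeries.coeff x.2 G) * (A.z : Wz) ^ (x.1 + x.2) := by
    unfold ps
    rw [sum_mul_sum, sum_product]
    apply sum_congr rfl; intro i _
    apply sum_congr rfl; intro j _
    exact key i j
  have h2 : ps A J (F * G) = ∑ x ∈ range J ×ˢ range J with x.1 + x.2 < J,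
      A.ext (PowerSeries.coeff x.1 F * PowerSeries.coeff x.2 G) * (A.z : Wz) ^ (x.1 + x.2) := by
    unfold ps
    simp_rw [PowerSeries.coeff_mul, map_sum, sum_mul]
    rw [sum_sigma']
    symm
    apply sum_nbij' (fun x => ⟨x.1 + x.2, x⟩) (fun y => y.2)
    · intro x hx
      simp only [mem_filter, mem_product, mem_range] at hx
      simp only [mem_sigma, mem_range, HasAntidiagonal.mem_antidiagonal]
      exact ⟨hx.2, trivial⟩
    · intro y hy
      simp only [mem_sigma, mem_range, HasAntidiagonal.mem_antidiagonal] at hy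
      simp only [mem_filter, mem_product, mem_range]
      omega
    · intro x _; rfl
    · intro y hy
      simp only [mem_sigma, mem_range, HasAntidiagonal.mem_antidiagonal] at hy
      obtain ⟨n, y⟩ := y
      obtain ⟨_, h⟩ := hy
      simp only at h
      subst h
      rfl
    · intro x _
      rfl
  refine ⟨∑ x ∈ range J ×ˢ range J with ¬ (x.1 + x.2 < J),
      A.ext (PowerSeries.coeff x.1 F * PowerSeries.coeff x.2 G) *
        (A.z : Wz) ^ (x.1 + x.2 - J), ?_, ?_⟩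
  · exact A.V.sum_mem fun x _ => A.V.mul_mem (A.ext_mem _) (A.V.pow_mem A.z_mem _)
  · rw [h1, h2, ← sum_filter_add_sum_filter_not (range J ×ˢ range J) (fun x => x.1 + x.2 < J)]
    congr 1
    rw [mul_sum]
    apply sum_congr rfl
    intro x hx
    rw [mem_filter] at hx
    rw [← mul_assoc, zpow_comm', mul_assoc, ← pow_add]
    congr 2
    omega

/-- `f` represents the power series `F` -/
def Rep (A : Amb R Rz) (f : Wz) (F : PowerSeries W) : Prop :=
  ∀ J : ℕ, ∃ v ∈ A.V, f = ps A J F + (A.z : Wz) ^ J * v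

theorem Rep.mem {f : Wz} {F : PowerSeries W} (h : Rep A f F) : f ∈ A.V := by
  obtain ⟨v, hv, hf⟩ := h 0
  rw [hf]
  exact A.V.add_mem (ps_mem 0 F) (A.V.mul_mem (A.V.pow_mem A.z_mem 0) hv)

theorem Rep.add {f g : Wz} {F G : PowerSeries W} (h : Rep A f F) (h' : Rep A g G) :
    Rep A (f + g) (F + G) := by
  intro J
  obtain ⟨v, hv, hf⟩ := h J
  obtain ⟨w, hw, hg⟩ := h' J
  refine ⟨v + w, A.V.add_mem hv hw, ?_⟩
  rw [hf, hg, ps_add]; noncomm_ring

theorem Rep.mul {f g : Wz} {F G : PowerSeries W} (h : Rep A f F) (h' : Rep A g G) :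
    Rep A (f * g) (F * G) := by
  intro J
  obtain ⟨v, hv, hf⟩ := h J
  obtain ⟨w, hw, hg⟩ := h' J
  obtain ⟨u, hu, hFG⟩ := ps_mul (A := A) J F G
  refine ⟨u + (v * g + ps A J F * w), A.V.add_mem hu (A.V.add_mem (A.V.mul_mem hv h'.mem)
    (A.V.mul_mem (ps_mem J F) hw)), ?_⟩
  calc f * g = ps A J F * (ps A J G + (A.z : Wz) ^ J * w) + (A.z : Wz) ^ J * v * g := by
        rw [← hg, hf]; noncomm_ring
    _ = ps A J F * ps A J G + (ps A J F * (A.z : Wz) ^ J) * w + (A.z : Wz) ^ J * (v * g) := by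
        noncomm_ring
    _ = _ := by rw [hFG, ← zpow_comm']; noncomm_ring

theorem Rep_C (b : W) : Rep A (A.ext b) (PowerSeries.C b) := by
  intro J
  cases J with
  | zero =>
    refine ⟨A.ext b, A.ext_mem _, ?_⟩
    unfold ps; simp
  | succ J =>
    refine ⟨0, A.V.zero_mem, ?_⟩
    unfold ps
    rw [sum_eq_single 0]
    · simp
    · intro j _ hj
      rw [PowerSeries.coeff_C, if_neg hj]; simp
    · intro h; simp at h

/-- the series `T z` -/
noncomputable def z : PowerSeries W := PowerSeries.C (S.T 1) * PowerSeries.X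

theorem coeff_z (j : ℕ) : PowerSeries.coeff j S.z = if j = 1 then S.T 1 else 0 := by
  unfold z
  rw [PowerSeries.coeff_C_mul, PowerSeries.coeff_X]
  split_ifs <;> simp

theorem Rep_z : Rep A (S.tau : Wz) S.z := by
  intro J
  rcases J with _ | _ | J
  · refine ⟨S.tau, ?_, ?_⟩
    · rw [tau_val]; exact A.V.mul_mem A.z_mem (A.ext_mem _)
    · unfold ps; simp
  · refine ⟨A.ext (S.T 1), A.ext_mem _, ?_⟩
    unfold ps
    rw [sum_range_one, S.coeff_z, tau_val]; simp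
  · refine ⟨0, A.V.zero_mem, ?_⟩
    unfold ps
    rw [sum_eq_single 1]
    · rw [S.coeff_z, if_pos rfl, tau_val, pow_one, mul_zero, add_zero, A.z_comm]
    · intro j _ hj
      rw [S.coeff_z, if_neg hj]; simp
    · intro h; simp at h

theorem Rep.conj {f : Wz} {F : PowerSeries W} (h : Rep A f F) (m : ℤ) :
    Rep A (((S.tau ^ m : Wzˣ) : Wz) * f * ((S.tau ^ (-m) : Wzˣ) : Wz)) (S.tw m F) := by
  have key : ∀ x : Wz, ((S.tau ^ m : Wzˣ) : Wz) * x * ((S.tau ^ (-m) : Wzˣ) : Wz) =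
      A.ext (S.T m) * x * A.ext (S.T (-m)) := by
    intro x
    rw [tau_zpow, tau_zpow]
    have h3 := zU_comm (A := A) (-m) (A.ext (S.T m) * x)
    have h4 : ((A.z ^ m : Wzˣ) : Wz) * ((A.z ^ (-m) : Wzˣ) : Wz) = 1 := by
      rw [← Units.val_mul, ← zpow_add]; simp
    calc ((A.z ^ m : Wzˣ) : Wz) * A.ext (S.T m) * x *
          (((A.z ^ (-m) : Wzˣ) : Wz) * A.ext (S.T (-m)))
        = ((A.z ^ m : Wzˣ) : Wz) * ((A.ext (S.T m) * x) * ((A.z ^ (-m) : Wzˣ) : Wz)) *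
            A.ext (S.T (-m)) := by noncomm_ring
      _ = (((A.z ^ m : Wzˣ) : Wz) * ((A.z ^ (-m) : Wzˣ) : Wz)) * (A.ext (S.T m) * x) *
            A.ext (S.T (-m)) := by rw [← h3]; noncomm_ring
      _ = _ := by rw [h4, one_mul]
  intro J
  obtain ⟨v, hv, hf⟩ := h J
  refine ⟨A.ext (S.T m) * v * A.ext (S.T (-m)), A.V.mul_mem (A.V.mul_mem (A.ext_mem _) hv)
    (A.ext_mem _), ?_⟩
  rw [key, hf]
  have h1 : ps A J (S.tw m F) = A.ext (S.T m) * ps A J F * A.ext (S.T (-m)) := by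
    unfold ps
    rw [mul_sum, sum_mul]
    apply sum_congr rfl
    intro j _
    rw [S.coeff_tw, map_mul, map_mul]
    calc A.ext (S.T m) * A.ext (PowerSeries.coeff j F) * A.ext (S.T (-m)) * (A.z : Wz) ^ j
        = A.ext (S.T m) * A.ext (PowerSeries.coeff j F) *
            (A.ext (S.T (-m)) * (A.z : Wz) ^ j) := by noncomm_ring
      _ = _ := by rw [← zpow_comm']; noncomm_ring
  rw [h1]
  calc A.ext (S.T m) * (ps A J F + (A.z : Wz) ^ J * v) * A.ext (S.T (-m))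
      = A.ext (S.T m) * ps A J F * A.ext (S.T (-m)) +
          (A.ext (S.T m) * (A.z : Wz) ^ J) * v * A.ext (S.T (-m)) := by noncomm_ring
    _ = _ := by rw [← zpow_comm']; noncomm_ring

/-- inverses -/
theorem Rep.inv {f : Wz} {F G : PowerSeries W} (h : Rep A f F) {v : W}
    (h1 : PowerSeries.coeff 0 F * v = 1) (h2 : v * PowerSeries.coeff 0 F = 1)
    (hFG : F * G = 1) : ∃ g : Wz, f * g = 1 ∧ g * f = 1 ∧ Rep A g G := by
  obtain ⟨u, hu, hf⟩ := h 1
  have hf' : f = A.ext (PowerSeries.coeff 0 F) * (1 + A.z * (A.ext v * u)) := by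
    rw [hf]
    unfold ps
    rw [sum_range_one]
    have h3 : A.ext (PowerSeries.coeff 0 F) * A.ext v = 1 := by rw [← map_mul, h1, map_one]
    calc A.ext (PowerSeries.coeff 0 F) * (A.z : Wz) ^ 0 + (A.z : Wz) ^ 1 * u
        = A.ext (PowerSeries.coeff 0 F) + (A.ext (PowerSeries.coeff 0 F) * A.ext v) *
            (A.z * u) := by rw [h3]; simp
      _ = A.ext (PowerSeries.coeff 0 F) + A.ext (PowerSeries.coeff 0 F) *
            ((A.ext v * A.z) * u) := by noncomm_ring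
      _ = _ := by rw [← A.z_comm]; noncomm_ring
  obtain ⟨w, hw, hw1, hw2⟩ := A.unit (A.ext v * u) (A.V.mul_mem (A.ext_mem _) hu)
  have e1 : A.ext (PowerSeries.coeff 0 F) * A.ext v = 1 := by rw [← map_mul, h1, map_one]
  have e2 : A.ext v * A.ext (PowerSeries.coeff 0 F) = 1 := by rw [← map_mul, h2, map_one]
  have g1 : f * (w * A.ext v) = 1 := by
    rw [hf']
    calc A.ext (PowerSeries.coeff 0 F) * (1 + A.z * (A.ext v * u)) * (w * A.ext v)
        = A.ext (PowerSeries.coeff 0 F) * ((1 + A.z * (A.ext v * u)) * w) * A.ext v := by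
          noncomm_ring
      _ = 1 := by rw [hw1, mul_one, e1]
  have g2 : (w * A.ext v) * f = 1 := by
    rw [hf']
    calc w * A.ext v * (A.ext (PowerSeries.coeff 0 F) * (1 + A.z * (A.ext v * u)))
        = w * (A.ext v * A.ext (PowerSeries.coeff 0 F)) * (1 + A.z * (A.ext v * u)) := by
          noncomm_ring
      _ = 1 := by rw [e2, mul_one, hw2]
  refine ⟨w * A.ext v, g1, g2, fun J => ?_⟩
  -- f * ps J G = 1 + z ^ J * ..
  obtain ⟨a, ha, hfa⟩ := h J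
  obtain ⟨b, hb, hab⟩ := ps_mul (A := A) J F G
  rw [hFG] at hab
  have h1' : ∃ c ∈ A.V, ps A J (1 : PowerSeries W) = 1 + (A.z : Wz) ^ J * c := by
    have h3 := Rep_C (A := A) 1
    obtain ⟨c, hc, h4⟩ := h3 J
    refine ⟨-c, A.V.neg_mem hc, ?_⟩
    rw [map_one, map_one] at h4
    calc ps A J (1 : PowerSeries W) = (ps A J 1 + (A.z : Wz) ^ J * c) - (A.z : Wz) ^ J * c := by
          abel
      _ = 1 - (A.z : Wz) ^ J * c := by rw [← h4]
      _ = _ := by noncomm_ring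
  obtain ⟨c, hc, h4⟩ := h1'
  have h5 : f * ps A J G = 1 + (A.z : Wz) ^ J * (c + b + a * ps A J G) := by
    calc f * ps A J G = ps A J F * ps A J G + (A.z : Wz) ^ J * a * ps A J G := by
          rw [hfa]; noncomm_ring
      _ = _ := by rw [hab, h4]; noncomm_ring
  have hwV : w * A.ext v ∈ A.V := A.V.mul_mem hw (A.ext_mem _)
  refine ⟨-((w * A.ext v) * (c + b + a * ps A J G)), A.V.neg_mem (A.V.mul_mem hwV
    (A.V.add_mem (A.V.add_mem hc hb) (A.V.mul_mem ha (ps_mem J G)))), ?_⟩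
  have h6 : ps A J G = (w * A.ext v) * (f * ps A J G) := by
    rw [← mul_assoc, g2, one_mul]
  rw [h5] at h6
  calc w * A.ext v = (w * A.ext v) * (1 + (A.z : Wz) ^ J * (c + b + a * ps A J G)) -
        ((w * A.ext v) * (A.z : Wz) ^ J) * (c + b + a * ps A J G) := by noncomm_ring
    _ = ps A J G - ((w * A.ext v) * (A.z : Wz) ^ J) * (c + b + a * ps A J G) := by rw [← h6]
    _ = _ := by rw [← zpow_comm']; noncomm_ring

/-! ### the expansion relation -/

/-- `x` is expanded as the Laurent series `(F, s)` -/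
def Ex (x : W) (F : PowerSeries W) (s : ℤ) : Prop :=
  ∃ f : Wz, Rep A f F ∧ S.Tw x (f * ((S.tau ^ s : Wzˣ) : Wz))

theorem Ex.add {x y : W} {F G : PowerSeries W} {s : ℤ} (h : S.Ex x F s) (h' : S.Ex y G s) :
    S.Ex (x + y) (F + G) s := by
  obtain ⟨f, hf, hx⟩ := h
  obtain ⟨g, hg, hy⟩ := h'
  refine ⟨f + g, hf.add hg, ?_⟩
  rw [add_mul]
  exact Tw.add S hx hy

theorem Ex_C {b : W} (hb : b ∈ S.B) : S.Ex b (PowerSeries.C b) 0 := by
  refine ⟨A.ext b, Rep_C b, ?_⟩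
  have h1 : A.ext b * ((S.tau ^ (0 : ℤ) : Wzˣ) : Wz) = A.ext b := by simp
  rw [h1]
  exact S.mem_B.1 hb

theorem Ex_alpha {n : Γ} (hn : n ∈ S.N) (m : ℤ) :
    S.Ex (α (n * S.t ^ m)) (PowerSeries.C (α n)) m := by
  refine ⟨A.ext (α n), Rep_C _, ?_⟩
  rw [map_mul]
  exact Tw.mul S (S.alpha_mem_B hn) (S.Tw_T m)

theorem Ex.eq_zero {x : W} {s : ℤ} (h : S.Ex x 0 s) : x = 0 := by
  obtain ⟨f, hf, hx⟩ := h
  apply Tw.eq_zero S hx
  intro J
  -- choose J + |s| terms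
  obtain ⟨v, hv, hfv⟩ := hf (J + s.natAbs)
  have h0 : ps A (J + s.natAbs) (0 : PowerSeries W) = 0 := by unfold ps; simp
  rw [h0, zero_add] at hfv
  rw [tau_zpow, hfv]
  have h1 : (A.z : Wz) ^ (J + s.natAbs) * v * (((A.z ^ s : Wzˣ) : Wz) * A.ext (S.T s)) =
      (A.z : Wz) ^ (J + s.natAbs) * ((A.z ^ s : Wzˣ) : Wz) * (v * A.ext (S.T s)) := by
    calc (A.z : Wz) ^ (J + s.natAbs) * v * (((A.z ^ s : Wzˣ) : Wz) * A.ext (S.T s))
        = (A.z : Wz) ^ (J + s.natAbs) * (v * ((A.z ^ s : Wzˣ) : Wz)) * A.ext (S.T s) := by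
          noncomm_ring
      _ = _ := by rw [← zU_comm]; noncomm_ring
  rw [h1]
  have h2 : ∃ p : ℕ, (A.z : Wz) ^ (J + s.natAbs) * ((A.z ^ s : Wzˣ) : Wz) =
      (A.z : Wz) ^ J * (A.z : Wz) ^ p := by
    refine ⟨((s.natAbs : ℤ) + s).toNat, ?_⟩
    have h3 : (A.z : Wz) ^ (J + s.natAbs) = ((A.z ^ ((J + s.natAbs : ℕ) : ℤ) : Wzˣ) : Wz) := by
      rw [zpow_natCast]; simp
    have h4 : (A.z : Wz) ^ J * (A.z : Wz) ^ ((s.natAbs : ℤ) + s).toNat =
        ((A.z ^ ((J + ((s.natAbs : ℤ) + s).toNat : ℕ) : ℤ) : Wzˣ) : Wz) := by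
      rw [← pow_add, zpow_natCast]; simp
    rw [h3, h4, ← Units.val_mul, ← zpow_add]
    congr 2
    omega
  obtain ⟨p, hp⟩ := h2
  rw [hp]
  refine ⟨(A.z : Wz) ^ p * (v * A.ext (S.T s)), A.V.mul_mem (A.V.pow_mem A.z_mem p)
    (A.V.mul_mem hv (A.ext_mem _)), ?_⟩
  noncomm_ring

theorem Ex.shift {x : W} {F : PowerSeries W} {s : ℤ} (h : S.Ex x F s) :
    S.Ex x (F * S.z) (s - 1) := by
  obtain ⟨f, hf, hx⟩ := h
  refine ⟨f * S.tau, hf.mul S.Rep_z, ?_⟩
  have h1 : f * S.tau * ((S.tau ^ (s - 1) : Wzˣ) : Wz) = f * ((S.tau ^ s : Wzˣ) : Wz) := by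
    rw [mul_assoc, ← Units.val_mul, ← zpow_one_add, add_sub_cancel]
  rw [h1]; exact hx

theorem Ex.unshift {x : W} {F : PowerSeries W} {s : ℤ} (h : S.Ex x (F * S.z) s) :
    S.Ex x F (s + 1) := by
  obtain ⟨f, hf, hx⟩ := h
  have hzt : ∀ v : Wz, (A.z : Wz) * v * ((S.tau⁻¹ : Wzˣ) : Wz) = v * A.ext (S.T (-1)) := by
    intro v
    have h1 : ((S.tau⁻¹ : Wzˣ) : Wz) = (A.z⁻¹ : Wzˣ) * A.ext (S.T (-1)) := rfl
    rw [h1, A.z_comm]
    calc v * (A.z : Wz) * ((A.z⁻¹ : Wzˣ) * A.ext (S.T (-1)))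
        = v * ((A.z : Wz) * (A.z⁻¹ : Wzˣ)) * A.ext (S.T (-1)) := by noncomm_ring
      _ = _ := by simp
  refine ⟨f * ((S.tau⁻¹ : Wzˣ) : Wz), fun J => ?_, ?_⟩
  · obtain ⟨v, hv, hfv⟩ := hf (J + 1)
    refine ⟨v * A.ext (S.T (-1)), A.V.mul_mem hv (A.ext_mem _), ?_⟩
    have h1 : ps A (J + 1) (F * S.z) = ps A J F * S.tau := by
      unfold ps
      rw [sum_range_succ', sum_mul]
      have h2 : PowerSeries.coeff 0 (F * S.z) = 0 := by
        unfold z; rw [← mul_assoc, PowerSeries.coeff_zero_mul_X]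
      rw [h2, map_zero, zero_mul, add_zero]
      apply sum_congr rfl
      intro j _
      unfold z
      rw [← mul_assoc F, PowerSeries.coeff_succ_mul_X, PowerSeries.coeff_mul_C, map_mul, tau_val]
      calc A.ext (PowerSeries.coeff j F) * A.ext (S.T 1) * (A.z : Wz) ^ (j + 1)
          = A.ext (PowerSeries.coeff j F) * (A.ext (S.T 1) * (A.z : Wz) ^ (j + 1)) := by
            noncomm_ring
        _ = _ := by rw [← zpow_comm', pow_succ]; noncomm_ring
    rw [hfv, h1, add_mul, mul_assoc (ps A J F), Units.mul_inv, mul_one, pow_succ]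
    congr 1
    calc (A.z : Wz) ^ J * A.z * v * ((S.tau⁻¹ : Wzˣ) : Wz)
        = (A.z : Wz) ^ J * (A.z * v * ((S.tau⁻¹ : Wzˣ) : Wz)) := by noncomm_ring
      _ = _ := by rw [hzt]
  · have h1 : f * ((S.tau⁻¹ : Wzˣ) : Wz) * ((S.tau ^ (s + 1) : Wzˣ) : Wz) =
        f * ((S.tau ^ s : Wzˣ) : Wz) := by
      rw [mul_assoc, ← Units.val_mul]
      congr 2
      group
    rw [h1]; exact hx

theorem Ex.mul {x y : W} {F G : PowerSeries W} {s r : ℤ} (h : S.Ex x F s) (h' : S.Ex y G r) :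
    S.Ex (x * y) (F * S.tw s G) (s + r) := by
  obtain ⟨f, hf, hx⟩ := h
  obtain ⟨g, hg, hy⟩ := h'
  refine ⟨f * (((S.tau ^ s : Wzˣ) : Wz) * g * ((S.tau ^ (-s) : Wzˣ) : Wz)),
    hf.mul (Rep.conj S hg s), ?_⟩
  have h1 : f * (((S.tau ^ s : Wzˣ) : Wz) * g * ((S.tau ^ (-s) : Wzˣ) : Wz)) *
      ((S.tau ^ (s + r) : Wzˣ) : Wz) =
      (f * ((S.tau ^ s : Wzˣ) : Wz)) * (g * ((S.tau ^ r : Wzˣ) : Wz)) := by
    have h2 : ((S.tau ^ (-s) : Wzˣ) : Wz) * ((S.tau ^ (s + r) : Wzˣ) : Wz) =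
        ((S.tau ^ r : Wzˣ) : Wz) := by
      rw [← Units.val_mul, ← zpow_add]; congr 2; ring
    calc f * (((S.tau ^ s : Wzˣ) : Wz) * g * ((S.tau ^ (-s) : Wzˣ) : Wz)) *
          ((S.tau ^ (s + r) : Wzˣ) : Wz)
        = f * ((S.tau ^ s : Wzˣ) : Wz) * g *
            (((S.tau ^ (-s) : Wzˣ) : Wz) * ((S.tau ^ (s + r) : Wzˣ) : Wz)) := by noncomm_ring
      _ = _ := by rw [h2]; noncomm_ring
  rw [h1]
  exact Tw.mul S hx hy

theorem Ex.unit {x : W} {F G : PowerSeries W} {s : ℤ} (h : S.Ex x F s) {v : W}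
    (h1 : PowerSeries.coeff 0 F * v = 1) (h2 : v * PowerSeries.coeff 0 F = 1)
    (hFG : F * G = 1) :
    IsUnit x ∧ ∀ y, y * x = 1 → S.Ex y (S.tw (-s) G) (-s) := by
  obtain ⟨f, hf, hx⟩ := h
  obtain ⟨g, hg1, hg2, hg⟩ := hf.inv h1 h2 hFG
  have h3 : f * ((S.tau ^ s : Wzˣ) : Wz) * (((S.tau ^ (-s) : Wzˣ) : Wz) * g) = 1 := by
    have h4 : ((S.tau ^ s : Wzˣ) : Wz) * ((S.tau ^ (-s) : Wzˣ) : Wz) = 1 := by
      rw [← Units.val_mul, ← zpow_add]; simp
    calc f * ((S.tau ^ s : Wzˣ) : Wz) * (((S.tau ^ (-s) : Wzˣ) : Wz) * g)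
        = f * (((S.tau ^ s : Wzˣ) : Wz) * ((S.tau ^ (-s) : Wzˣ) : Wz)) * g := by noncomm_ring
      _ = 1 := by rw [h4, mul_one, hg1]
  refine ⟨Tw.isUnit S hx h3, fun y hy => ?_⟩
  refine ⟨((S.tau ^ (-s) : Wzˣ) : Wz) * g * ((S.tau ^ (-(-s)) : Wzˣ) : Wz), Rep.conj S hg (-s), ?_⟩
  have h5 : ((S.tau ^ (-s) : Wzˣ) : Wz) * g * ((S.tau ^ (-(-s)) : Wzˣ) : Wz) *
      ((S.tau ^ (-s) : Wzˣ) : Wz) = ((S.tau ^ (-s) : Wzˣ) : Wz) * g := by
    rw [mul_assoc, ← Units.val_mul, ← zpow_add]; simp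
  rw [h5]
  exact Tw.inv S hx hy h3

end Spl

end Pool.Agent.CIR
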