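import Mathlib
import Pool.Agent.CIR.Defs

/-!
# CIR / DerL : lemmas on derivations

MP_05b873_al.
-/

namespace Pool.Agent.CIR

section

variable {K : Type*} [Field K] {Γ : Type*} [Group Γ] {W : Type*} [Ring W]
  {O : Ops} {ι : K →+* W} {α : Γ →* W}

theorem alpha_mul_inv (α : Γ →* W) (g : Γ) : α g * α g⁻¹ = 1 := by
  rw [← map_mul]; simp

theorem alpha_inv_mul (α : Γ →* W) (g : Γ) : α g⁻¹ * α g = 1 := by
  rw [← map_mul]; simp

theorem fg_zpowers' (g : Γ) : (Subgroup.zpowers g).FG :=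
  (Subgroup.fg_iff _).2 ⟨{g}, (Subgroup.zpowers_eq_closure g).symm, Set.finite_singleton g⟩

theorem Der.fg {H : Subgroup Γ} {c : Ordinal.{0}} {x : W} (h : Der O ι α H c x) : H.FG := by
  induction h with
  | scalar c => exact Subgroup.FG.bot
  | add H₁ H₂ a b x y g _ _ ih1 ih2 => exact (ih1.sup ih2).sup (fg_zpowers' g)
  | mul H₁ H₂ a b x y _ _ ih1 ih2 => exact ih1.sup ih2
  | inv H a x y _ _ _ ih => exact ih

theorem Der.bot {H : Subgroup Γ} {c : Ordinal.{0}} {x : W} (h : Der O ι α H c x) (hH : H = ⊥) :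
    ∃ l : K, x = ι l := by
  induction h with
  | scalar c => exact ⟨c, rfl⟩
  | add H₁ H₂ a b x y g _ _ ih1 ih2 =>
    rw [sup_eq_bot_iff, sup_eq_bot_iff] at hH
    obtain ⟨⟨h1, h2⟩, h3⟩ := hH
    obtain ⟨l, rfl⟩ := ih1 h1
    obtain ⟨m, rfl⟩ := ih2 h2
    have : g = 1 := by rwa [Subgroup.zpowers_eq_bot] at h3
    subst this
    exact ⟨l + m, by simp⟩
  | mul H₁ H₂ a b x y _ _ ih1 ih2 =>
    rw [sup_eq_bot_iff] at hH
    obtain ⟨l, rfl⟩ := ih1 hH.1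
    obtain ⟨m, rfl⟩ := ih2 hH.2
    exact ⟨l * m, by simp⟩
  | inv H a x y _ h1 h2 ih =>
    obtain ⟨l, rfl⟩ := ih hH
    by_cases hl : l = 0
    · subst hl
      refine ⟨0, ?_⟩
      rw [map_zero, mul_zero] at h2
      have : (1 : W) = 0 := h2.symm
      calc y = 1 * y := by rw [one_mul]
        _ = ι 0 := by rw [this]; simp
    · refine ⟨l⁻¹, ?_⟩
      calc y = y * (ι l * ι l⁻¹) := by rw [← map_mul, mul_inv_cancel₀ hl]; simp
        _ = (y * ι l) * ι l⁻¹ := by rw [mul_assoc]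
        _ = ι l⁻¹ := by rw [h2, one_mul]

theorem Der.conj (hι : ∀ c x, ι c * x = x * ι c) (g : Γ) {H : Subgroup Γ} {c : Ordinal.{0}}
    {x : W} (h : Der O ι α H c x) :
    Der O ι α (H.map (MulAut.conj g).toMonoidHom) c (α g * x * α g⁻¹) := by
  induction h with
  | scalar c =>
    have : α g * ι c * α g⁻¹ = ι c := by
      rw [← hι, mul_assoc, alpha_mul_inv, mul_one]
    rw [this, Subgroup.map_bot]
    exact Der.scalar c
  | add H₁ H₂ a b x y k _ _ ih1 ih2 =>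
    have h1 := Der.add _ _ _ _ _ _ (g * k * g⁻¹) ih1 ih2
    have h2 : α g * (x + y * α k) * α g⁻¹ =
        α g * x * α g⁻¹ + α g * y * α g⁻¹ * α (g * k * g⁻¹) := by
      rw [map_mul, map_mul]
      calc α g * (x + y * α k) * α g⁻¹
          = α g * x * α g⁻¹ + α g * y * 1 * α k * α g⁻¹ := by noncomm_ring
        _ = α g * x * α g⁻¹ + α g * y * (α g⁻¹ * α g) * α k * α g⁻¹ := by rw [alpha_inv_mul]
        _ = _ := by noncomm_ring
    have h3 : (H₁ ⊔ H₂ ⊔ Subgroup.zpowers k).map (MulAut.conj g).toMonoidHom =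
        H₁.map (MulAut.conj g).toMonoidHom ⊔ H₂.map (MulAut.conj g).toMonoidHom ⊔
          Subgroup.zpowers (g * k * g⁻¹) := by
      rw [Subgroup.map_sup, Subgroup.map_sup, MonoidHom.map_zpowers]
      rfl
    rw [h2, h3]; exact h1
  | mul H₁ H₂ a b x y _ _ ih1 ih2 =>
    have h1 := Der.mul _ _ _ _ _ _ ih1 ih2
    have h2 : α g * (x * y) * α g⁻¹ = (α g * x * α g⁻¹) * (α g * y * α g⁻¹) := by
      calc α g * (x * y) * α g⁻¹ = α g * x * 1 * y * α g⁻¹ := by noncomm_ring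
        _ = α g * x * (α g⁻¹ * α g) * y * α g⁻¹ := by rw [alpha_inv_mul]
        _ = _ := by noncomm_ring
    rw [h2, Subgroup.map_sup]; exact h1
  | inv H a x y _ hxy hyx ih =>
    refine Der.inv _ _ _ _ ih ?_ ?_
    · calc α g * x * α g⁻¹ * (α g * y * α g⁻¹) = α g * x * (α g⁻¹ * α g) * y * α g⁻¹ := by
            noncomm_ring
        _ = α g * (x * y) * α g⁻¹ := by rw [alpha_inv_mul]; noncomm_ring
        _ = 1 := by rw [hxy, mul_one, alpha_mul_inv]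
    · calc α g * y * α g⁻¹ * (α g * x * α g⁻¹) = α g * y * (α g⁻¹ * α g) * x * α g⁻¹ := by
            noncomm_ring
        _ = α g * (y * x) * α g⁻¹ := by rw [alpha_inv_mul]; noncomm_ring
        _ = 1 := by rw [hyx, mul_one, alpha_mul_inv]

variable (O ι α)

/-- `De N c x`: `x * α g⁻¹` has a derivation of complexity `c` for some `g ∈ N` and with source
in `N`. -/
def De (N : Subgroup Γ) (c : Ordinal.{0}) (x : W) : Prop :=
  ∃ H' ≤ N, ∃ g ∈ N, Der O ι α H' c (x * α g⁻¹)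

/-- elements which are zero or of complexity `< c` over `N` -/
def Cl (N : Subgroup Γ) (c : Ordinal.{0}) : Set W :=
  {x | x = 0 ∨ ∃ c' < c, De O ι α N c' x}

variable {O ι α}

theorem De.add {N : Subgroup Γ} {a b : Ordinal.{0}} {x y : W} (h : De O ι α N a x)
    (h' : De O ι α N b y) : De O ι α N (O.s a b) (x + y) := by
  obtain ⟨H₁, hH₁, g₁, hg₁, h1⟩ := h
  obtain ⟨H₂, hH₂, g₂, hg₂, h2⟩ := h'
  have h4 := Der.add _ _ _ _ _ _ (g₂ * g₁⁻¹) h1 h2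
  have h3 : x * α g₁⁻¹ + y * α g₂⁻¹ * α (g₂ * g₁⁻¹) = (x + y) * α g₁⁻¹ := by
    rw [mul_assoc y, ← map_mul]
    rw [show g₂⁻¹ * (g₂ * g₁⁻¹) = g₁⁻¹ by group]
    noncomm_ring
  rw [h3] at h4
  refine ⟨_, sup_le (sup_le hH₁ hH₂) ?_, g₁, hg₁, h4⟩
  rw [Subgroup.zpowers_le]
  exact N.mul_mem hg₂ (N.inv_mem hg₁)

theorem map_conj_le {N H : Subgroup Γ} (g : Γ) (hH : H ≤ N) (hg : ∀ n ∈ N, g * n * g⁻¹ ∈ N) :
    H.map (MulAut.conj g).toMonoidHom ≤ N := by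
  rintro _ ⟨h, hh, rfl⟩
  exact hg _ (hH hh)

theorem De.conj (hι : ∀ c x, ι c * x = x * ι c) {N : Subgroup Γ} {a : Ordinal.{0}} {x : W}
    (h : De O ι α N a x) (g : Γ) (hg : ∀ n ∈ N, g * n * g⁻¹ ∈ N) :
    De O ι α N a (α g * x * α g⁻¹) := by
  obtain ⟨H₁, hH₁, g₁, hg₁, h1⟩ := h
  refine ⟨_, map_conj_le g hH₁ hg, g * g₁ * g⁻¹, hg _ hg₁, ?_⟩
  have h2 := h1.conj hι g
  have h3 : α g * (x * α g₁⁻¹) * α g⁻¹ = α g * x * α g⁻¹ * α (g * g₁ * g⁻¹)⁻¹ := by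
    rw [show (g * g₁ * g⁻¹)⁻¹ = g * g₁⁻¹ * g⁻¹ by group, map_mul, map_mul]
    calc α g * (x * α g₁⁻¹) * α g⁻¹ = α g * x * 1 * α g₁⁻¹ * α g⁻¹ := by noncomm_ring
      _ = α g * x * (α g⁻¹ * α g) * α g₁⁻¹ * α g⁻¹ := by rw [alpha_inv_mul]
      _ = _ := by noncomm_ring
  rw [← h3]; exact h2

theorem De.mul (hι : ∀ c x, ι c * x = x * ι c) {N : Subgroup Γ} {a b : Ordinal.{0}} {x y : W}
    (h : De O ι α N a x) (h' : De O ι α N b y) : De O ι α N (O.p a b) (x * y) := by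
  obtain ⟨H₁, hH₁, g₁, hg₁, h1⟩ := h
  obtain ⟨H₂, hH₂, g₂, hg₂, h2⟩ := h'
  have hc : ∀ n ∈ N, g₁ * n * g₁⁻¹ ∈ N := fun n hn => N.mul_mem (N.mul_mem hg₁ hn) (N.inv_mem hg₁)
  refine ⟨_, sup_le hH₁ (map_conj_le g₁ hH₂ hc), g₁ * g₂, N.mul_mem hg₁ hg₂, ?_⟩
  have h3 := Der.mul _ _ _ _ _ _ h1 (h2.conj hι g₁)
  have h4 : x * α g₁⁻¹ * (α g₁ * (y * α g₂⁻¹) * α g₁⁻¹) = x * y * α (g₁ * g₂)⁻¹ := by
    rw [show (g₁ * g₂)⁻¹ = g₂⁻¹ * g₁⁻¹ by group, map_mul]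
    calc x * α g₁⁻¹ * (α g₁ * (y * α g₂⁻¹) * α g₁⁻¹)
        = x * (α g₁⁻¹ * α g₁) * (y * α g₂⁻¹) * α g₁⁻¹ := by noncomm_ring
      _ = _ := by rw [alpha_inv_mul]; noncomm_ring
  rw [← h4]; exact h3

theorem De.inv (hι : ∀ c x, ι c * x = x * ι c) {N : Subgroup Γ} {a : Ordinal.{0}} {x y : W}
    (h : De O ι α N a x) (hxy : x * y = 1) (hyx : y * x = 1) : De O ι α N (O.e a) y := by
  obtain ⟨H₁, hH₁, g₁, hg₁, h1⟩ := h
  have hc : ∀ n ∈ N, g₁⁻¹ * n * g₁⁻¹⁻¹ ∈ N := fun n hn =>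
    N.mul_mem (N.mul_mem (N.inv_mem hg₁) hn) (N.inv_mem (N.inv_mem hg₁))
  have h2 : Der O ι α H₁ (O.e a) (α g₁ * y) := by
    refine Der.inv _ _ _ _ h1 ?_ ?_
    · calc x * α g₁⁻¹ * (α g₁ * y) = x * (α g₁⁻¹ * α g₁) * y := by noncomm_ring
        _ = 1 := by rw [alpha_inv_mul, mul_one, hxy]
    · calc α g₁ * y * (x * α g₁⁻¹) = α g₁ * (y * x) * α g₁⁻¹ := by noncomm_ring
        _ = 1 := by rw [hyx, mul_one, alpha_mul_inv]
  refine ⟨_, map_conj_le g₁⁻¹ hH₁ hc, g₁⁻¹, N.inv_mem hg₁, ?_⟩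
  have h3 := h2.conj hι g₁⁻¹
  have h4 : α g₁⁻¹ * (α g₁ * y) * α g₁⁻¹⁻¹ = y * α g₁⁻¹⁻¹ := by
    rw [← mul_assoc, alpha_inv_mul, one_mul]
  rw [← h4]; exact h3

theorem De.scalar (N : Subgroup Γ) (c : K) : De O ι α N 0 (ι c) :=
  ⟨⊥, bot_le, 1, N.one_mem, by simpa using Der.scalar c⟩

theorem De.of_der {N H' : Subgroup Γ} {c : Ordinal.{0}} {x : W} (h : Der O ι α H' c x)
    (hH : H' ≤ N) : De O ι α N c x := ⟨H', hH, 1, N.one_mem, by simpa using h⟩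

theorem De.mul_alpha {N : Subgroup Γ} {c : Ordinal.{0}} {x : W} (h : De O ι α N c x) {n : Γ}
    (hn : n ∈ N) : De O ι α N c (x * α n) := by
  obtain ⟨H', hH, g, hg, h1⟩ := h
  refine ⟨H', hH, g * n, N.mul_mem hg hn, ?_⟩
  rw [show (g * n)⁻¹ = n⁻¹ * g⁻¹ by group, map_mul]
  have : x * α n * (α n⁻¹ * α g⁻¹) = x * α g⁻¹ := by
    calc x * α n * (α n⁻¹ * α g⁻¹) = x * (α n * α n⁻¹) * α g⁻¹ := by noncomm_ring
      _ = _ := by rw [alpha_mul_inv, mul_one]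
  rw [this]; exact h1

theorem Cl_zero (N : Subgroup Γ) (c : Ordinal.{0}) : (0 : W) ∈ Cl O ι α N c := Or.inl rfl

theorem Cl_add {N : Subgroup Γ} {c : Ordinal.{0}} (hs : ∀ a b, a < c → b < c → O.s a b < c)
    {x y : W} (hx : x ∈ Cl O ι α N c) (hy : y ∈ Cl O ι α N c) : x + y ∈ Cl O ι α N c := by
  rcases hx with rfl | ⟨a, ha, hx⟩
  · rwa [zero_add]
  · rcases hy with rfl | ⟨b, hb, hy⟩
    · rw [add_zero]; exact Or.inr ⟨a, ha, hx⟩
    · exact Or.inr ⟨_, hs a b ha hb, hx.add hy⟩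

theorem Cl_sum {N : Subgroup Γ} {c : Ordinal.{0}} (hs : ∀ a b, a < c → b < c → O.s a b < c)
    {ι' : Type*} (A : Finset ι') (f : ι' → W) (hf : ∀ i ∈ A, f i ∈ Cl O ι α N c) :
    ∑ i ∈ A, f i ∈ Cl O ι α N c := by
  classical
  induction A using Finset.induction_on with
  | empty => simpa using Cl_zero N c
  | insert i A hi ih =>
    rw [Finset.sum_insert hi]
    exact Cl_add hs (hf i (Finset.mem_insert_self _ _))
      (ih (fun j hj => hf j (Finset.mem_insert_of_mem hj)))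

theorem Cl_mul (hι : ∀ c x, ι c * x = x * ι c) {N : Subgroup Γ} {c : Ordinal.{0}}
    (hs : ∀ a b, a < c → b < c → O.p a b < c)
    {x y : W} (hx : x ∈ Cl O ι α N c) (hy : y ∈ Cl O ι α N c) : x * y ∈ Cl O ι α N c := by
  rcases hx with rfl | ⟨a, ha, hx⟩
  · rw [zero_mul]; exact Cl_zero _ _
  · rcases hy with rfl | ⟨b, hb, hy⟩
    · rw [mul_zero]; exact Cl_zero _ _
    · exact Or.inr ⟨_, hs a b ha hb, hx.mul hι hy⟩

theorem Cl_conj (hι : ∀ c x, ι c * x = x * ι c) {N : Subgroup Γ} {c : Ordinal.{0}}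
    {x : W} (hx : x ∈ Cl O ι α N c) (g : Γ) (hg : ∀ n ∈ N, g * n * g⁻¹ ∈ N) :
    α g * x * α g⁻¹ ∈ Cl O ι α N c := by
  rcases hx with rfl | ⟨a, ha, hx⟩
  · rw [mul_zero, zero_mul]; exact Cl_zero _ _
  · exact Or.inr ⟨a, ha, hx.conj hι g hg⟩

variable (O ι α) in
/-- the subring of elements of complexity below `e a` -/
def ClE (hι : ∀ c x, ι c * x = x * ι c) (N : Subgroup Γ) (a : Ordinal.{0}) : Subring W where
  carrier := Cl O ι α N (O.e a)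
  zero_mem' := Cl_zero _ _
  one_mem' := by
    refine Or.inr ⟨0, lt_of_le_of_lt zero_le (O.lt_e a), ?_⟩
    have := De.scalar (O := O) (ι := ι) (α := α) N 1
    rwa [map_one] at this
  add_mem' := fun hx hy => Cl_add (fun b c hb hc => O.s_lt_e a b c hb hc) hx hy
  mul_mem' := fun hx hy => Cl_mul hι (fun b c hb hc => O.p_lt_e a b c hb hc) hx hy
  neg_mem' := by
    intro x hx
    have h1 : ι (-1) ∈ Cl O ι α N (O.e a) :=
      Or.inr ⟨0, lt_of_le_of_lt zero_le (O.lt_e a), De.scalar N _⟩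
    have h2 := Cl_mul hι (fun b c hb hc => O.p_lt_e a b c hb hc) h1 hx
    rw [map_neg, map_one, neg_one_mul] at h2
    exact h2

theorem mem_ClE (hι : ∀ c x, ι c * x = x * ι c) (N : Subgroup Γ) (a : Ordinal.{0}) (x : W) :
    x ∈ ClE O ι α hι N a ↔ x ∈ Cl O ι α N (O.e a) := Iff.rfl

end

end Pool.Agent.CIR
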