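import Mathlib
import Pool.Agent.CIR.AmbLow
import Pool.Agent.CIR.DerL

/-!
# CIR / AmbExp : expansions of derivations in the ambient ring

MP_05b873_al.  If `S` is a split of `H` and `x` has a derivation with source `H' ≤ H` and
complexity `c`, and if all elements with derivations of complexity `< c` are zero or units, then
either `H' ≤ N`, or `x` has an expansion all of whose components have complexity `< c` over `N`.
-/

namespace Pool.Agent.CIR

open Finset

section

variable {K : Type*} [Field K] {Γ : Type*} [Group Γ] {W Wz : Type*} [Ring W] [Ring Wz]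
  {O : Ops} {ι : K →+* W} {R : RankData W} {Rz : RankData Wz} {A : Amb R Rz} {α : Γ →* W}
  {H : Subgroup Γ}

/-- derivations with source in `N` lie in `B` -/
theorem Der.mem_B2 (hz : ∀ c (x : Wz), A.ext (ι c) * x = x * A.ext (ι c)) (S : Spl A α H) {H' : Subgroup Γ}
    {c : Ordinal.{0}} {x : W} (h : Der O ι α H' c x) (hH : H' ≤ S.N) : x ∈ S.B := by
  induction h with
  | scalar c =>
    rw [S.mem_B]
    refine ⟨0, ∅, le_rfl, by simp, fun g _ => ?_⟩
    have h1 : (g⁻¹ : Wzˣ) * A.ext (ι c) * g = A.ext (ι c) := by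
      rw [← hz, mul_assoc, Units.inv_mul, mul_one]
    rw [h1, sub_self, Rz.rho_zero, zero_mul]
  | add H₁ H₂ a b x y g _ _ ih1 ih2 =>
    have h1 : H₁ ≤ S.N := le_trans (le_trans le_sup_left le_sup_left) hH
    have h2 : H₂ ≤ S.N := le_trans (le_trans le_sup_right le_sup_left) hH
    have h3 : g ∈ S.N := (le_trans le_sup_right hH) (Subgroup.mem_zpowers g)
    exact S.B.add_mem (ih1 h1) (S.B.mul_mem (ih2 h2) (S.alpha_mem_B h3))
  | mul H₁ H₂ a b x y _ _ ih1 ih2 =>
    exact S.B.mul_mem (ih1 (le_trans le_sup_left hH)) (ih2 (le_trans le_sup_right hH))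
  | inv H a x y _ hxy hyx ih => exact S.inv_B (ih hH) hxy hyx

theorem De.mem_B2 (hz : ∀ c (x : Wz), A.ext (ι c) * x = x * A.ext (ι c)) (S : Spl A α H)
    {c : Ordinal.{0}} {x : W} (h : De O ι α S.N c x) : x ∈ S.B := by
  obtain ⟨H', hH', g, hg, h1⟩ := h
  have h2 := h1.mem_B2 hz S hH'
  have h3 : x = x * α g⁻¹ * α g := by rw [mul_assoc, alpha_inv_mul, mul_one]
  rw [h3]
  exact S.B.mul_mem h2 (S.alpha_mem_B hg)

theorem Cl_mem_B2 (hz : ∀ c (x : Wz), A.ext (ι c) * x = x * A.ext (ι c)) (S : Spl A α H)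
    {c : Ordinal.{0}} {x : W} (h : x ∈ Cl O ι α S.N c) : x ∈ S.B := by
  rcases h with rfl | ⟨c', _, h⟩
  · exact S.B.zero_mem
  · exact h.mem_B2 hz S

theorem Spl.conj_zpow (S : Spl A α H) (m : ℤ) :
    ∀ n ∈ S.N, S.t ^ m * n * (S.t ^ m)⁻¹ ∈ S.N := by
  induction m using Int.induction_on with
  | zero => intro n hn; simpa using hn
  | succ k ih =>
    intro n hn
    have h1 := S.conj_mem _ (ih n hn)
    have h2 : S.t ^ ((k : ℤ) + 1) * n * (S.t ^ ((k : ℤ) + 1))⁻¹ =
        S.t * (S.t ^ (k : ℤ) * n * (S.t ^ (k : ℤ))⁻¹) * S.t⁻¹ := by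
      rw [show (k : ℤ) + 1 = 1 + k by ring, zpow_add, zpow_one]; group
    rw [h2]; exact h1
  | pred k ih =>
    intro n hn
    have h1 := S.conj_mem' _ (ih n hn)
    have h2 : S.t ^ (-(k : ℤ) - 1) * n * (S.t ^ (-(k : ℤ) - 1))⁻¹ =
        S.t⁻¹ * (S.t ^ (-(k : ℤ)) * n * (S.t ^ (-(k : ℤ)))⁻¹) * S.t := by
      rw [show -(k : ℤ) - 1 = -1 + -k by ring, zpow_add, zpow_neg_one]; group
    rw [h2]; exact h1

/-- an expansion of an element of complexity `a`; components of full complexity occur only if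
`fl` holds and only in `T`-degree `d` -/
def Exx2 (O : Ops) (ι : K →+* W) (S : Spl A α H) (x : W) (a : Ordinal.{0}) (F : PowerSeries W)
    (s : ℤ) (fl : Prop) (d : ℤ) : Prop :=
  S.Ex x F s ∧ ∀ j : ℕ, S.comp F j = 0 ∨ ∃ a' ≤ a, De O ι α S.N a' (S.comp F j) ∧
    (a' = a → fl ∧ (j : ℤ) + s = d)

theorem Exx2.mem_B (hz : ∀ c (x : Wz), A.ext (ι c) * x = x * A.ext (ι c)) (S : Spl A α H) {x : W} {a : Ordinal.{0}}
    {F : PowerSeries W} {s : ℤ} {fl : Prop} {d : ℤ} (h : Exx2 O ι S x a F s fl d) :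
    F ∈ S.Gr S.B := by
  intro j
  rcases h.2 j with h | ⟨a', _, h, _⟩
  · change S.comp F j ∈ S.B
    rw [h]; exact S.B.zero_mem
  · exact h.mem_B2 hz S

theorem Exx2.of (hz : ∀ c (x : Wz), A.ext (ι c) * x = x * A.ext (ι c)) (S : Spl A α H) {H' : Subgroup Γ} {x : W} {a : Ordinal.{0}}
    (hD : Der O ι α H' a x)
    (h : H' ≤ S.N ∨ ∃ F s, S.Ex x F s ∧ F ∈ S.Gr (Cl O ι α S.N a)) :
    ∃ F s, Exx2 O ι S x a F s (H' ≤ S.N) 0 := by
  by_cases hN : H' ≤ S.N
  · refine ⟨PowerSeries.C x, 0, S.Ex_C (hD.mem_B2 hz S hN), fun j => ?_⟩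
    by_cases hj : j = 0
    · subst hj
      right
      refine ⟨a, le_rfl, ?_, fun _ => ⟨hN, by simp⟩⟩
      rw [S.comp_zero_right, PowerSeries.coeff_C, if_pos rfl]
      exact De.of_der hD hN
    · left
      rw [S.comp_eq_zero, PowerSeries.coeff_C, if_neg hj]
  · rcases h with h | ⟨F, s, hE, hF⟩
    · exact absurd h hN
    · refine ⟨F, s, hE, fun j => ?_⟩
      rcases hF j with h | ⟨a', ha', h⟩
      · exact Or.inl h
      · exact Or.inr ⟨a', ha'.le, h, fun he => absurd he ha'.ne⟩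

theorem Exx2.shift (S : Spl A α H) {x : W} {a : Ordinal.{0}} {F : PowerSeries W} {s : ℤ}
    {fl : Prop} {d : ℤ} (h : Exx2 O ι S x a F s fl d) :
    Exx2 O ι S x a (F * S.z) (s - 1) fl d := by
  refine ⟨Spl.Ex.shift S h.1, fun j => ?_⟩
  cases j with
  | zero => left; exact S.comp_mul_z_zero F
  | succ j =>
    rw [S.comp_mul_z_succ]
    rcases h.2 j with h1 | ⟨a', ha', h1, h2⟩
    · exact Or.inl h1
    · refine Or.inr ⟨a', ha', h1, fun he => ⟨(h2 he).1, ?_⟩⟩
      have := (h2 he).2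
      push_cast
      linarith

theorem Exx2.shift_to (S : Spl A α H) {x : W} {a : Ordinal.{0}} {s : ℤ}
    {fl : Prop} {d : ℤ} (m : ℕ) {F : PowerSeries W} (h : Exx2 O ι S x a F s fl d) :
    ∃ F', Exx2 O ι S x a F' (s - m) fl d := by
  induction m with
  | zero => exact ⟨F, by simpa using h⟩
  | succ m ih =>
    obtain ⟨F', hF'⟩ := ih
    refine ⟨F' * S.z, ?_⟩
    have := hF'.shift S
    rw [show s - (m : ℤ) - 1 = s - ((m + 1 : ℕ) : ℤ) by push_cast; ring] at this
    exact this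

theorem Exx2.mul_alpha (S : Spl A α H) {x : W}
    {a : Ordinal.{0}} {F : PowerSeries W} {s : ℤ}
    {fl : Prop} (h : Exx2 O ι S x a F s fl 0) {n : Γ} (hn : n ∈ S.N) (m : ℤ) :
    ∃ F', Exx2 O ι S (x * α (n * S.t ^ m)) a F' (s + m) fl m := by
  refine ⟨_, Spl.Ex.mul S h.1 (S.Ex_alpha hn m), fun j => ?_⟩
  have htw : S.tw s (PowerSeries.C (α n)) = PowerSeries.C (S.T s * α n * S.T (-s)) := by
    ext i
    rw [S.coeff_tw, PowerSeries.coeff_C, PowerSeries.coeff_C]
    split_ifs
    · rfl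
    · rw [mul_zero, zero_mul]
  have hcomp : S.comp (F * S.tw s (PowerSeries.C (α n))) j =
      S.comp F j * α (S.t ^ ((j : ℤ) + s) * n * (S.t ^ ((j : ℤ) + s))⁻¹) := by
    rw [htw]
    unfold Spl.comp
    rw [PowerSeries.coeff_mul_C, map_mul, map_mul, ← zpow_neg]
    change _ = PowerSeries.coeff j F * S.T (-(j : ℤ)) *
      (S.T ((j : ℤ) + s) * α n * S.T (-((j : ℤ) + s)))
    calc PowerSeries.coeff j F * (S.T s * α n * S.T (-s)) * S.T (-(j : ℤ))
        = PowerSeries.coeff j F * S.T s * α n * (S.T (-s) * S.T (-(j : ℤ))) := by noncomm_ring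
      _ = PowerSeries.coeff j F * (S.T (-(j : ℤ)) * S.T ((j : ℤ) + s)) * α n *
            S.T (-((j : ℤ) + s)) := by
          rw [S.T_mul, S.T_mul, show -(j : ℤ) + ((j : ℤ) + s) = s by ring,
            show -s + -(j : ℤ) = -((j : ℤ) + s) by ring]
      _ = _ := by noncomm_ring
  rw [hcomp]
  rcases h.2 j with h1 | ⟨a', ha', h1, h2⟩
  · left; rw [h1, zero_mul]
  · right
    refine ⟨a', ha', h1.mul_alpha (S.conj_zpow _ n hn), fun he => ⟨(h2 he).1, ?_⟩⟩
    have := (h2 he).2
    linarith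

theorem Exx2.add (S : Spl A α H) {x y : W} {a b : Ordinal.{0}} {F G : PowerSeries W} {s : ℤ}
    {fl fl' : Prop} {d d' : ℤ} (h : Exx2 O ι S x a F s fl d) (h' : Exx2 O ι S y b G s fl' d')
    (hne : ¬ (fl ∧ fl' ∧ d = d')) :
    S.Ex (x + y) (F + G) s ∧ (F + G) ∈ S.Gr (Cl O ι α S.N (O.s a b)) := by
  refine ⟨Spl.Ex.add S h.1 h'.1, fun j => ?_⟩
  have hadd : PowerSeries.coeff j (F + G) * S.T (-(j : ℤ)) = S.comp F j + S.comp G j := by
    unfold Spl.comp; rw [map_add]; noncomm_ring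
  rw [hadd]
  rcases h.2 j with h1 | ⟨a', ha', h1, h2⟩
  · rw [h1, zero_add]
    rcases h'.2 j with h3 | ⟨b', hb', h3, _⟩
    · rw [h3]; exact Cl_zero _ _
    · exact Or.inr ⟨b', lt_of_le_of_lt hb' (O.lt_s_right a b), h3⟩
  · rcases h'.2 j with h3 | ⟨b', hb', h3, h4⟩
    · rw [h3, add_zero]
      exact Or.inr ⟨a', lt_of_le_of_lt ha' (O.lt_s_left a b), h1⟩
    · refine Or.inr ⟨_, O.s_lt a b a' b' ha' hb' ?_, h1.add h3⟩
      by_contra hcon
      push Not at hcon
      have e1 : a' = a := le_antisymm ha' hcon.1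
      have e2 : b' = b := le_antisymm hb' hcon.2
      have h5 := h2 e1
      have h6 := h4 e2
      exact hne ⟨h5.1, h6.1, by rw [← h5.2, ← h6.2]⟩

/-- the expansion lemma -/
theorem Der.expand2 (hι : ∀ c x, ι c * x = x * ι c)
    (hz : ∀ c (x : Wz), A.ext (ι c) * x = x * A.ext (ι c)) (S : Spl A α H) {H' : Subgroup Γ}
    {c : Ordinal.{0}} {x : W} (h : Der O ι α H' c x)
    (IH : ∀ c' < c, ∀ (H'' : Subgroup Γ) (y : W), Der O ι α H'' c' y → y = 0 ∨ IsUnit y)
    (hH : H' ≤ H) : H' ≤ S.N ∨ ∃ F s, S.Ex x F s ∧ F ∈ S.Gr (Cl O ι α S.N c) := by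
  induction h with
  | scalar c => left; exact bot_le
  | add H₁ H₂ a b x y g hx hy ih1 ih2 =>
    by_cases hN : H₁ ⊔ H₂ ⊔ Subgroup.zpowers g ≤ S.N
    · exact Or.inl hN
    · right
      have h1 : H₁ ≤ H := le_trans (le_trans le_sup_left le_sup_left) hH
      have h2 : H₂ ≤ H := le_trans (le_trans le_sup_right le_sup_left) hH
      have h3 : g ∈ H := (le_trans le_sup_right hH) (Subgroup.mem_zpowers g)
      obtain ⟨F, s, hF⟩ := Exx2.of hz S hx
        (ih1 (fun c' hc' => IH c' (lt_trans hc' (O.lt_s_left a b))) h1)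
      obtain ⟨G, r, hG⟩ := Exx2.of hz S hy
        (ih2 (fun c' hc' => IH c' (lt_trans hc' (O.lt_s_right a b))) h2)
      -- a decomposition of g
      obtain ⟨n, hn, m, hg, hm⟩ : ∃ n ∈ S.N, ∃ m : ℤ, g = n * S.t ^ m ∧ (m = 0 → g ∈ S.N) := by
        obtain ⟨n, hn, m, hg⟩ := S.exists_eq g h3
        refine ⟨n, hn, m, hg, fun h0 => ?_⟩
        subst h0
        rw [hg]; simpa using hn
      obtain ⟨G', hG'⟩ := hG.mul_alpha S hn m
      rw [← hg] at hG'
      -- align
      obtain ⟨F₁, hF₁⟩ := hF.shift_to S (s - min s (r + m)).toNat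
      obtain ⟨G₁, hG₁⟩ := hG'.shift_to S (r + m - min s (r + m)).toNat
      have e1 : s - ((s - min s (r + m)).toNat : ℤ) = min s (r + m) := by
        have : min s (r + m) ≤ s := min_le_left _ _
        omega
      have e2 : r + m - ((r + m - min s (r + m)).toNat : ℤ) = min s (r + m) := by
        have : min s (r + m) ≤ r + m := min_le_right _ _
        omega
      rw [e1] at hF₁
      rw [e2] at hG₁
      refine ⟨_, _, Exx2.add S hF₁ hG₁ ?_⟩
      rintro ⟨hf1, hf2, h0⟩
      apply hN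
      refine sup_le (sup_le hf1 hf2) ?_
      rw [Subgroup.zpowers_le]
      exact hm h0.symm
  | mul H₁ H₂ a b x y hx hy ih1 ih2 =>
    by_cases hN : H₁ ⊔ H₂ ≤ S.N
    · exact Or.inl hN
    · right
      have h1 : H₁ ≤ H := le_trans le_sup_left hH
      have h2 : H₂ ≤ H := le_trans le_sup_right hH
      obtain ⟨F, s, hF⟩ := Exx2.of hz S hx
        (ih1 (fun c' hc' => IH c' (lt_trans hc' (O.lt_p_left a b))) h1)
      obtain ⟨G, r, hG⟩ := Exx2.of hz S hy
        (ih2 (fun c' hc' => IH c' (lt_trans hc' (O.lt_p_right a b))) h2)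
      refine ⟨_, _, Spl.Ex.mul S hF.1 hG.1, fun n => ?_⟩
      have hc := S.comp_mul F (S.tw s G) n
      unfold Spl.comp at hc
      rw [hc]
      apply Cl_sum (fun u v hu hv => O.s_lt_p a b u v hu hv)
      intro p _
      have hp2 := S.comp_tw s G p.2
      rw [hp2]
      have hconj : S.T p.1 * (S.T s * (PowerSeries.coeff p.2 G * S.T (-(p.2 : ℤ))) * S.T (-s)) *
          S.T (-(p.1 : ℤ)) = α (S.t ^ ((p.1 : ℤ) + s)) * S.comp G p.2 *
            α (S.t ^ ((p.1 : ℤ) + s))⁻¹ := by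
        rw [← zpow_neg]
        change _ = S.T ((p.1 : ℤ) + s) * S.comp G p.2 * S.T (-((p.1 : ℤ) + s))
        rw [← S.T_mul (p.1 : ℤ) s, show -((p.1 : ℤ) + s) = -s + -(p.1 : ℤ) by ring,
          ← S.T_mul (-s) (-(p.1 : ℤ))]
        unfold Spl.comp
        noncomm_ring
      rw [hconj]
      rcases hF.2 p.1 with h3 | ⟨a', ha', h3, h4⟩
      · left
        unfold Spl.comp at h3
        rw [h3, zero_mul]
      · rcases hG.2 p.2 with h5 | ⟨b', hb', h5, h6⟩
        · left; rw [h5, mul_zero, zero_mul, mul_zero]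
        · right
          refine ⟨_, O.p_lt a b a' b' ha' hb' ?_, h3.mul hι (h5.conj hι _ (S.conj_zpow _))⟩
          by_contra hcon
          push Not at hcon
          have e1 : a' = a := le_antisymm ha' hcon.1
          have e2 : b' = b := le_antisymm hb' hcon.2
          exact hN (sup_le (h4 e1).1 (h6 e2).1)
  | inv H' a x y hx hxy hyx ih =>
    by_cases hN : H' ≤ S.N
    · exact Or.inl hN
    · right
      obtain ⟨F, s, hE, hF⟩ :=
        (ih (fun c' hc' => IH c' (lt_trans hc' (O.lt_e a))) hH).resolve_left hN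
      have hle : ∀ v, v ∈ Cl O ι α S.N a → v ∈ ClE O ι α hι S.N a := by
        intro v hv
        rcases hv with h | ⟨c', hc', h⟩
        · exact Or.inl h
        · exact Or.inr ⟨c', lt_trans hc' (O.lt_e a), h⟩
      have hQ : ∀ (m : ℤ), ∀ v ∈ ClE O ι α hι S.N a, S.T m * v * S.T (-m) ∈
          ClE O ι α hι S.N a := by
        intro m v hv
        have h1 := Cl_conj hι hv (S.t ^ m) (S.conj_zpow m)
        rw [← zpow_neg] at h1
        exact h1
      have hu : ∀ j, S.comp F j = 0 ∨ ∃ v ∈ ClE O ι α hι S.N a, S.comp F j * v = 1 ∧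
          v * S.comp F j = 1 := by
        intro j
        rcases hF j with h | ⟨c', hc', h⟩
        · exact Or.inl h
        · have h' := h
          obtain ⟨H₁, hH₁, g, hg, hD⟩ := h'
          rcases IH c' (lt_trans hc' (O.lt_e a)) _ _ hD with h0 | ⟨u, hu⟩
          · left
            change PowerSeries.coeff j F * S.T (-(j : ℤ)) = 0
            calc PowerSeries.coeff j F * S.T (-(j : ℤ))
                = PowerSeries.coeff j F * S.T (-(j : ℤ)) * (α g⁻¹ * α g) := by
                  rw [alpha_inv_mul, mul_one]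
              _ = PowerSeries.coeff j F * S.T (-(j : ℤ)) * α g⁻¹ * α g := by rw [← mul_assoc]
              _ = 0 := by rw [h0, zero_mul]
          · right
            have h1 : S.comp F j * (α g⁻¹ * (u⁻¹ : Wˣ)) = 1 := by
              change PowerSeries.coeff j F * S.T (-(j : ℤ)) * _ = 1
              rw [← mul_assoc, ← hu]; simp
            have h2 : α g⁻¹ * (u⁻¹ : Wˣ) * S.comp F j = 1 := by
              change _ * (PowerSeries.coeff j F * S.T (-(j : ℤ))) = 1
              have h3 : PowerSeries.coeff j F * S.T (-(j : ℤ)) = u * α g := by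
                rw [hu, mul_assoc, alpha_inv_mul, mul_one]
              rw [h3]
              calc α g⁻¹ * (u⁻¹ : Wˣ) * (u * α g) = α g⁻¹ * ((u⁻¹ : Wˣ) * u) * α g := by
                    noncomm_ring
                _ = 1 := by rw [Units.inv_mul, mul_one, alpha_inv_mul]
            exact ⟨_, Or.inr ⟨O.e c', O.e_lt _ _ hc', h.inv hι h1 h2⟩, h1, h2⟩
      rcases S.zero_or_unit hQ hE (fun j => hle _ (hF j)) hu with
        h0 | ⟨_, h1⟩
      · have hy : y = 0 := by
          calc y = y * (x * y) := by rw [hxy, mul_one]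
            _ = 0 := by rw [h0]; simp
        refine ⟨PowerSeries.C y, 0, S.Ex_C (by rw [hy]; exact S.B.zero_mem), fun j => ?_⟩
        rw [hy]; simp [Cl_zero]
      · obtain ⟨G, r, hG1, hG2⟩ := h1 y hyx
        exact ⟨G, r, hG1, hG2⟩

/-- **Main theorem of Part I.** Every element with a derivation is zero or a unit. -/
theorem Der.zero_or_unit2 (hι : ∀ c x, ι c * x = x * ι c)
    (hz : ∀ c (x : Wz), A.ext (ι c) * x = x * A.ext (ι c))
    (hS : ∀ H : Subgroup Γ, H.FG → H ≠ ⊥ → Nonempty (Spl A α H))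
    {H : Subgroup Γ} {c : Ordinal.{0}} {x : W} (h : Der O ι α H c x) : x = 0 ∨ IsUnit x := by
  induction c using WellFoundedLT.induction generalizing H x with
  | _ c ih =>
    by_cases hH : H = ⊥
    · obtain ⟨l, rfl⟩ := h.bot hH
      by_cases hl : l = 0
      · left; rw [hl, map_zero]
      · right; exact (IsUnit.mk0 l hl).map ι
    · obtain ⟨S⟩ := hS H h.fg hH
      obtain ⟨F, s, hE, hF⟩ := (h.expand2 hι hz S (fun c' hc' H'' y hy => ih c' hc' hy)
        le_rfl).resolve_left S.not_le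
      have hu : ∀ j, S.comp F j = 0 ∨ ∃ v ∈ S.B, S.comp F j * v = 1 ∧ v * S.comp F j = 1 := by
        intro j
        rcases hF j with h0 | ⟨c', hc', h0⟩
        · exact Or.inl h0
        · have hB := h0.mem_B2 hz S
          obtain ⟨H₁, hH₁, g, hg, hD⟩ := h0
          rcases ih c' hc' hD with h1 | h1
          · left
            change PowerSeries.coeff j F * S.T (-(j : ℤ)) = 0
            calc PowerSeries.coeff j F * S.T (-(j : ℤ))
                = PowerSeries.coeff j F * S.T (-(j : ℤ)) * α g⁻¹ * α g := by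
                  rw [mul_assoc _ (α g⁻¹), alpha_inv_mul, mul_one]
              _ = 0 := by rw [h1, zero_mul]
          · right
            have h2 : IsUnit (α g) := ⟨⟨α g, α g⁻¹, alpha_mul_inv α g, alpha_inv_mul α g⟩, rfl⟩
            have h3 : IsUnit (S.comp F j) := by
              have h4 := h1.mul h2
              rw [mul_assoc, alpha_inv_mul, mul_one] at h4
              exact h4
            obtain ⟨u, hu⟩ := h3
            refine ⟨((u⁻¹ : Wˣ) : W), ?_, ?_, ?_⟩
            · apply S.inv_B hB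
              · change S.comp F j * _ = 1
                rw [← hu]; simp
              · change _ * S.comp F j = 1
                rw [← hu]; simp
            · rw [← hu]; simp
            · rw [← hu]; simp
      rcases S.zero_or_unit (Q := S.B) (fun m v hv => S.conj_B m hv) hE
        (fun j => Cl_mem_B2 hz S (hF j)) hu with h0 | ⟨h1, _⟩
      · exact Or.inl h0
      · exact Or.inr h1

end

end Pool.Agent.CIR
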