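import Mathlib
import Pool.Agent.CIR.App

/-!
# CIR / App2 : the expansion relation

MP_05b873_al.  `S.Ex x F s` : `x ≈ Th M F * T s` with error `C / M`.  Rules for sums, products,
shifts, inverses.
-/

namespace Pool.Agent.CIR

open Finset

namespace Split

variable {Γ : Type*} [Group Γ] {W : Type*} [Ring W] {R : RankData W}
  {α : Γ →* W} {H : Subgroup Γ} (S : Split R α H)

/-- `x` is expanded as the Laurent series `(F, s)` -/
def Ex (x : W) (F : PowerSeries W) (s : ℤ) : Prop :=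
  ∃ C : ℝ, ∀ M : ℕ, 1 ≤ M → R.rho (x - S.Th M F * S.T s) ≤ C / M

theorem Ex.add {x y : W} {F G : PowerSeries W} {s : ℤ} (h : S.Ex x F s) (h' : S.Ex y G s) :
    S.Ex (x + y) (F + G) s := by
  obtain ⟨C, hC⟩ := h
  obtain ⟨C', hC'⟩ := h'
  refine ⟨C + C', fun M hM => ?_⟩
  have : x + y - S.Th M (F + G) * S.T s =
      (x - S.Th M F * S.T s) + (y - S.Th M G * S.T s) := by
    rw [S.Th_add]; noncomm_ring
  rw [this, add_div]
  exact (R.rho_add _ _).trans (add_le_add (hC M hM) (hC' M hM))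

theorem Ex_C (b : W) : S.Ex b (PowerSeries.C b) 0 := by
  refine ⟨0, fun M hM => ?_⟩
  rw [S.Th_C M hM, S.T_zero, mul_one, sub_self, R.rho_zero]; simp

theorem Ex_alpha (n : Γ) (m : ℤ) : S.Ex (α (n * S.t ^ m)) (PowerSeries.C (α n)) m := by
  refine ⟨0, fun M hM => ?_⟩
  rw [S.Th_C M hM, map_mul]
  unfold T
  rw [sub_self, R.rho_zero]; simp

theorem Ex.eq_zero {x : W} {s : ℤ} (h : S.Ex x 0 s) : x = 0 := by
  obtain ⟨C, hC⟩ := h
  apply R.eq_zero_of_le x C
  intro M hM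
  have := hC M hM
  rwa [S.Th_zero, zero_mul, sub_zero] at this

/-- the series `T z` -/
noncomputable def z : PowerSeries W := PowerSeries.C (S.T 1) * PowerSeries.X

theorem coeff_z (j : ℕ) : PowerSeries.coeff j S.z = if j = 1 then S.T 1 else 0 := by
  unfold z
  rw [PowerSeries.coeff_C_mul, PowerSeries.coeff_X]
  split_ifs <;> simp

theorem z_mem : S.z ∈ S.Gr S.B := by
  intro j
  rw [S.coeff_z]
  split_ifs with h
  · subst h
    have : S.T 1 * S.T (-((1 : ℕ) : ℤ)) = 1 := by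
      have := S.T_mul_neg 1
      simpa using this
    rw [this]; exact S.B.one_mem
  · rw [zero_mul]; exact S.B.zero_mem

theorem Th_z (M : ℕ) (hM : 1 ≤ M) : S.Th M S.z = S.e M := by
  unfold Th
  rcases Nat.lt_or_ge 1 M with h | h
  · rw [sum_eq_single 1]
    · rw [S.coeff_z, if_pos rfl]
      have : S.T 1 * S.T (-((1 : ℕ) : ℤ)) = 1 := by
        have := S.T_mul_neg 1
        simpa using this
      rw [this, pow_one, one_mul]
    · intro j _ hj
      rw [S.coeff_z, if_neg hj]; simp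
    · intro h'; simp at h'; omega
  · have hM1 : M = 1 := le_antisymm h hM
    subst hM1
    have h0 : S.e 1 = 0 := by simpa using S.e_pow_self 1 le_rfl
    rw [h0]
    simp [S.coeff_z]

theorem Ex.shift {x : W} {F : PowerSeries W} {s : ℤ} (h : S.Ex x F s) :
    S.Ex x (F * S.z) (s - 1) := by
  obtain ⟨C, hC⟩ := h
  refine ⟨C + 2, fun M hM => ?_⟩
  have h1 : x - S.Th M (F * S.z) * S.T (s - 1) =
      (x - S.Th M F * S.T s) + S.Th M F * ((S.T 1 - S.e M) * S.T (s - 1)) := by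
    rw [S.Th_mul M hM F S.z S.z_mem, S.Th_z M hM]
    have h2 : S.T 1 * S.T (s - 1) = S.T s := by rw [S.T_mul]; congr 1; ring
    calc x - S.Th M F * S.e M * S.T (s - 1)
        = (x - S.Th M F * (S.T 1 * S.T (s - 1))) +
          S.Th M F * ((S.T 1 - S.e M) * S.T (s - 1)) := by noncomm_ring
      _ = _ := by rw [h2]
  rw [h1, add_div]
  have h3 := R.rho_mul_right (S.Th M F) ((S.T 1 - S.e M) * S.T (s - 1))
  have h4 := R.rho_mul_left (S.T 1 - S.e M) (S.T (s - 1))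
  have h5 := S.rho_T_sub_e M hM
  have h6 := R.rho_add (x - S.Th M F * S.T s) (S.Th M F * ((S.T 1 - S.e M) * S.T (s - 1)))
  have h7 := hC M hM
  linarith

theorem Ex.unshift {x : W} {F : PowerSeries W} {s : ℤ} (h : S.Ex x (F * S.z) s) :
    S.Ex x F (s + 1) := by
  obtain ⟨C, hC⟩ := h
  refine ⟨C + 2, fun M hM => ?_⟩
  have h7 := hC M hM
  rw [S.Th_mul M hM F S.z S.z_mem, S.Th_z M hM] at h7
  have h1 : x - S.Th M F * S.T (s + 1) =
      (x - S.Th M F * S.e M * S.T s) - S.Th M F * ((S.T 1 - S.e M) * S.T s) := by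
    have h2 : S.T 1 * S.T s = S.T (s + 1) := by rw [S.T_mul]; congr 1; ring
    calc x - S.Th M F * S.T (s + 1)
        = x - S.Th M F * (S.T 1 * S.T s) := by rw [h2]
      _ = _ := by noncomm_ring
  rw [h1, add_div]
  have h3 := R.rho_mul_right (S.Th M F) ((S.T 1 - S.e M) * S.T s)
  have h4 := R.rho_mul_left (S.T 1 - S.e M) (S.T s)
  have h5 := S.rho_T_sub_e M hM
  have h6 := R.rho_sub (x - S.Th M F * S.e M * S.T s) (S.Th M F * ((S.T 1 - S.e M) * S.T s))
  linarith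

theorem Ex.shift_pow {x : W} {F : PowerSeries W} {s : ℤ} (h : S.Ex x F s) (m : ℕ) :
    S.Ex x (F * S.z ^ m) (s - m) := by
  induction m with
  | zero => simpa using h
  | succ m ih =>
    have := Ex.shift S ih
    rw [mul_assoc, ← pow_succ, show s - (m : ℤ) - 1 = s - ((m + 1 : ℕ) : ℤ) by push_cast; ring]
      at this
    exact this

theorem Ex.unshift_pow {x : W} {F : PowerSeries W} (m : ℕ) {s : ℤ}
    (h : S.Ex x (F * S.z ^ m) s) : S.Ex x F (s + m) := by
  induction m generalizing s with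
  | zero => simpa using h
  | succ m ih =>
    rw [pow_succ, ← mul_assoc] at h
    have := ih (Ex.unshift S h)
    rw [show s + 1 + (m : ℤ) = s + ((m + 1 : ℕ) : ℤ) by push_cast; ring] at this
    exact this

theorem coeff_tw (m : ℤ) (F : PowerSeries W) (j : ℕ) :
    PowerSeries.coeff j (S.tw m F) = S.T m * PowerSeries.coeff j F * S.T (-m) := by
  unfold tw; rw [PowerSeries.coeff_mk]

theorem comp_tw (m : ℤ) (F : PowerSeries W) (j : ℕ) :
    PowerSeries.coeff j (S.tw m F) * S.T (-(j : ℤ)) =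
      S.T m * (PowerSeries.coeff j F * S.T (-(j : ℤ))) * S.T (-m) := by
  rw [S.coeff_tw]
  calc S.T m * PowerSeries.coeff j F * S.T (-m) * S.T (-(j : ℤ))
      = S.T m * PowerSeries.coeff j F * (S.T (-m) * S.T (-(j : ℤ))) := by noncomm_ring
    _ = S.T m * PowerSeries.coeff j F * (S.T (-(j : ℤ)) * S.T (-m)) := by
        rw [S.T_mul, S.T_mul, add_comm]
    _ = _ := by noncomm_ring

theorem tw_mem {Q : Set W} {F : PowerSeries W} (m : ℤ)
    (hQ : ∀ x ∈ Q, S.T m * x * S.T (-m) ∈ Q) (hF : F ∈ S.Gr Q) : S.tw m F ∈ S.Gr Q := by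
  intro j
  rw [S.comp_tw]
  exact hQ _ (hF j)

theorem tw_mem_B {F : PowerSeries W} (m : ℤ) (hF : F ∈ S.Gr S.B) : S.tw m F ∈ S.Gr S.B :=
  S.tw_mem m (fun _ hx => S.conj_B m hx) hF

theorem tw_tw (m n : ℤ) (F : PowerSeries W) : S.tw m (S.tw n F) = S.tw (m + n) F := by
  ext j
  rw [S.coeff_tw, S.coeff_tw, S.coeff_tw, ← S.T_mul m n,
    show (-(m + n)) = -n + -m by ring, ← S.T_mul (-n) (-m)]
  noncomm_ring

theorem tw_zero (F : PowerSeries W) : S.tw 0 F = F := by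
  ext j
  rw [S.coeff_tw]; simp

theorem rho_T_Th_nat (M : ℕ) (hM : 1 ≤ M) (m : ℕ) (F : PowerSeries W) (hF : F ∈ S.Gr S.B) :
    R.rho (S.T m * S.Th M F - S.Th M (S.tw m F) * S.T m) ≤ 4 * m / M := by
  induction m with
  | zero => simp [S.tw_zero, R.rho_zero]
  | succ m ih =>
    have h1 := S.rho_T_Th M hM (S.tw m F) (S.tw_mem_B m hF)
    rw [S.tw_tw] at h1
    have h2 : S.T ((m + 1 : ℕ) : ℤ) * S.Th M F - S.Th M (S.tw ((m + 1 : ℕ) : ℤ) F) *
        S.T ((m + 1 : ℕ) : ℤ) =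
        S.T 1 * (S.T m * S.Th M F - S.Th M (S.tw m F) * S.T m) +
        (S.T 1 * S.Th M (S.tw m F) - S.Th M (S.tw (1 + m) F) * S.T 1) * S.T m := by
      push_cast
      rw [show (m : ℤ) + 1 = 1 + m by ring, ← S.T_mul 1 m]
      noncomm_ring
    rw [h2]
    have h3 := R.rho_mul_right (S.T 1) (S.T m * S.Th M F - S.Th M (S.tw m F) * S.T m)
    have h4 := R.rho_mul_left (S.T 1 * S.Th M (S.tw m F) - S.Th M (S.tw (1 + m) F) * S.T 1)
      (S.T m)
    have h5 := R.rho_add (S.T 1 * (S.T m * S.Th M F - S.Th M (S.tw m F) * S.T m))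
      ((S.T 1 * S.Th M (S.tw m F) - S.Th M (S.tw (1 + m) F) * S.T 1) * S.T m)
    have h6 : (4 : ℝ) * ((m + 1 : ℕ) : ℝ) / M = 4 * m / M + 4 / M := by push_cast; ring
    rw [h6]
    linarith

theorem rho_T_Th_int (M : ℕ) (hM : 1 ≤ M) (m : ℤ) (F : PowerSeries W) (hF : F ∈ S.Gr S.B) :
    R.rho (S.T m * S.Th M F - S.Th M (S.tw m F) * S.T m) ≤ 4 * m.natAbs / M := by
  rcases Int.natAbs_eq m with h | h
  · have h1 := S.rho_T_Th_nat M hM m.natAbs F hF
    rw [← h] at h1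
    exact h1
  · set k := m.natAbs with hk
    have h1 := S.rho_T_Th_nat M hM k (S.tw m F) (S.tw_mem_B m hF)
    rw [S.tw_tw] at h1
    have h0 : (k : ℤ) + m = 0 := by omega
    rw [h0, S.tw_zero] at h1
    have h2 : S.T m * S.Th M F - S.Th M (S.tw m F) * S.T m =
        - (S.T m * (S.T k * S.Th M (S.tw m F) - S.Th M F * S.T k) * S.T m) := by
      have h3 : S.T m * S.T k = 1 := by rw [S.T_mul, add_comm, h0, S.T_zero]
      have h4 : S.T k * S.T m = 1 := by rw [S.T_mul, h0, S.T_zero]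
      calc S.T m * S.Th M F - S.Th M (S.tw m F) * S.T m
          = S.T m * S.Th M F * (S.T k * S.T m) - (S.T m * S.T k) * S.Th M (S.tw m F) * S.T m := by
            rw [h3, h4]; noncomm_ring
        _ = _ := by noncomm_ring
    rw [h2]
    refine (R.rho_neg _).trans ((R.rho_mul_left _ _).trans ((R.rho_mul_right _ _).trans h1))

theorem Ex.mul {x y : W} {F G : PowerSeries W} {s r : ℤ} (h : S.Ex x F s) (h' : S.Ex y G r)
    (hG : G ∈ S.Gr S.B) : S.Ex (x * y) (F * S.tw s G) (s + r) := by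
  obtain ⟨C, hC⟩ := h
  obtain ⟨C', hC'⟩ := h'
  refine ⟨C + C' + 4 * s.natAbs, fun M hM => ?_⟩
  have h1 := hC M hM
  have h2 := hC' M hM
  have h3 := S.rho_T_Th_int M hM s G hG
  have h4 : x * y - S.Th M (F * S.tw s G) * S.T (s + r) =
      (x - S.Th M F * S.T s) * y + S.Th M F * S.T s * (y - S.Th M G * S.T r) +
      S.Th M F * (S.T s * S.Th M G - S.Th M (S.tw s G) * S.T s) * S.T r := by
    rw [S.Th_mul M hM F _ (S.tw_mem_B s hG), ← S.T_mul s r]
    noncomm_ring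
  rw [h4, add_div, add_div]
  have h5 := R.rho_add ((x - S.Th M F * S.T s) * y + S.Th M F * S.T s * (y - S.Th M G * S.T r))
    (S.Th M F * (S.T s * S.Th M G - S.Th M (S.tw s G) * S.T s) * S.T r)
  have h6 := R.rho_add ((x - S.Th M F * S.T s) * y) (S.Th M F * S.T s * (y - S.Th M G * S.T r))
  have h7 := R.rho_mul_left (x - S.Th M F * S.T s) y
  have h8 := R.rho_mul_right (S.Th M F * S.T s) (y - S.Th M G * S.T r)
  have h9 := R.rho_mul_left (S.Th M F * (S.T s * S.Th M G - S.Th M (S.tw s G) * S.T s)) (S.T r)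
  have h10 := R.rho_mul_right (S.Th M F) (S.T s * S.Th M G - S.Th M (S.tw s G) * S.T s)
  linarith

/-- the key estimate for inverses -/
theorem Ex.rho_unit {x : W} {F G : PowerSeries W} {s : ℤ} (h : S.Ex x F s)
    (hG : G ∈ S.Gr S.B) (hFG : F * G = 1) :
    ∃ C : ℝ, ∀ M : ℕ, 1 ≤ M → R.rho (1 - x * (S.T (-s) * S.Th M G)) ≤ C / M := by
  obtain ⟨C, hC⟩ := h
  refine ⟨C, fun M hM => ?_⟩
  have h1 : S.Th M F * S.Th M G = 1 := by
    rw [← S.Th_mul M hM F G hG, hFG, S.Th_one M hM]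
  have h2 : 1 - x * (S.T (-s) * S.Th M G) =
      -((x - S.Th M F * S.T s) * (S.T (-s) * S.Th M G)) := by
    calc 1 - x * (S.T (-s) * S.Th M G)
        = S.Th M F * S.Th M G - x * (S.T (-s) * S.Th M G) := by rw [h1]
      _ = S.Th M F * (S.T s * S.T (-s)) * S.Th M G - x * (S.T (-s) * S.Th M G) := by
          rw [S.T_mul_neg, mul_one]
      _ = _ := by noncomm_ring
  rw [h2]
  exact (R.rho_neg _).trans ((R.rho_mul_left _ _).trans (hC M hM))

theorem Ex.isUnit {x : W} {F G : PowerSeries W} {s : ℤ} (h : S.Ex x F s)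
    (hG : G ∈ S.Gr S.B) (hFG : F * G = 1) : IsUnit x := by
  obtain ⟨C, hC⟩ := Ex.rho_unit S h hG hFG
  exact R.isUnit_of_le x C (fun M hM => ⟨_, hC M hM⟩)

theorem Ex.inv {x y : W} {F G : PowerSeries W} {s : ℤ} (h : S.Ex x F s)
    (hG : G ∈ S.Gr S.B) (hFG : F * G = 1) (hyx : y * x = 1) :
    S.Ex y (S.tw (-s) G) (-s) := by
  obtain ⟨C, hC⟩ := Ex.rho_unit S h hG hFG
  refine ⟨C + 4 * (-s).natAbs, fun M hM => ?_⟩
  have h1 := hC M hM
  have h2 := S.rho_T_Th_int M hM (-s) G hG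
  have h3 : y - S.Th M (S.tw (-s) G) * S.T (-s) =
      y * (1 - x * (S.T (-s) * S.Th M G)) +
        (S.T (-s) * S.Th M G - S.Th M (S.tw (-s) G) * S.T (-s)) := by
    calc y - S.Th M (S.tw (-s) G) * S.T (-s)
        = y - 1 * (S.T (-s) * S.Th M G) +
        (S.T (-s) * S.Th M G - S.Th M (S.tw (-s) G) * S.T (-s)) := by noncomm_ring
      _ = y - (y * x) * (S.T (-s) * S.Th M G) +
        (S.T (-s) * S.Th M G - S.Th M (S.tw (-s) G) * S.T (-s)) := by rw [hyx]
      _ = _ := by noncomm_ring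
  rw [h3, add_div]
  have h4 := R.rho_add (y * (1 - x * (S.T (-s) * S.Th M G)))
    (S.T (-s) * S.Th M G - S.Th M (S.tw (-s) G) * S.T (-s))
  have h5 := R.rho_mul_right y (1 - x * (S.T (-s) * S.Th M G))
  linarith

end Split

end Pool.Agent.CIR
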