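import Mathlib
import Pool.Agent.CIR.App2

/-!
# CIR / App3 : the lowest coefficient

MP_05b873_al.  If all components of an expansion of `x` are zero or units (with inverses in a
`T`-stable subring `Q` of `B`), then `x` is zero or a unit, and inverses of `x` are expanded with
components in `Q`.
-/

namespace Pool.Agent.CIR

open Finset

namespace Split

variable {Γ : Type*} [Group Γ] {W : Type*} [Ring W] {R : RankData W}
  {α : Γ →* W} {H : Subgroup Γ} (S : Split R α H)

/-- the components -/
noncomputable def comp (F : PowerSeries W) (j : ℕ) : W :=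
  PowerSeries.coeff j F * S.T (-(j : ℤ))

theorem mem_Gr {Q : Set W} {F : PowerSeries W} : F ∈ S.Gr Q ↔ ∀ j, S.comp F j ∈ Q := Iff.rfl

theorem comp_zero_right (F : PowerSeries W) : S.comp F 0 = PowerSeries.coeff 0 F := by
  unfold comp; simp

theorem comp_eq_zero {F : PowerSeries W} {j : ℕ} : S.comp F j = 0 ↔ PowerSeries.coeff j F = 0 := by
  unfold comp
  constructor
  · intro h
    calc PowerSeries.coeff j F = PowerSeries.coeff j F * (S.T (-(j : ℤ)) * S.T j) := by
          rw [S.T_neg_mul, mul_one]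
      _ = (PowerSeries.coeff j F * S.T (-(j : ℤ))) * S.T j := by noncomm_ring
      _ = 0 := by rw [h, zero_mul]
  · intro h; rw [h, zero_mul]

theorem comp_mul_z_zero (F : PowerSeries W) : S.comp (F * S.z) 0 = 0 := by
  unfold comp z
  rw [← mul_assoc, PowerSeries.coeff_zero_mul_X, zero_mul]

theorem comp_mul_z_succ (F : PowerSeries W) (j : ℕ) :
    S.comp (F * S.z) (j + 1) = S.comp F j := by
  unfold comp z
  rw [← mul_assoc, PowerSeries.coeff_succ_mul_X, PowerSeries.coeff_mul_C, mul_assoc, S.T_mul]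
  push_cast
  rw [show (1 : ℤ) + -((j : ℤ) + 1) = -j by ring]

theorem exists_mul_z {F : PowerSeries W} (h : PowerSeries.coeff 0 F = 0) :
    ∃ F', F = F' * S.z := by
  refine ⟨(PowerSeries.mk fun p => PowerSeries.coeff (p + 1) F) * PowerSeries.C (S.T (-1)), ?_⟩
  ext j
  unfold z
  cases j with
  | zero => rw [h, ← mul_assoc, PowerSeries.coeff_zero_mul_X]
  | succ j =>
    rw [← mul_assoc, PowerSeries.coeff_succ_mul_X, PowerSeries.coeff_mul_C,
      PowerSeries.coeff_mul_C, PowerSeries.coeff_mk, mul_assoc, S.T_neg_mul, mul_one]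

theorem exists_unshift {x : W} (m : ℕ) : ∀ (F : PowerSeries W) (s : ℤ), S.Ex x F s →
    (∀ j < m, PowerSeries.coeff j F = 0) →
    ∃ F', S.Ex x F' (s + m) ∧ ∀ j, S.comp F' j = S.comp F (j + m) := by
  induction m with
  | zero => intro F s h _; exact ⟨F, by simpa using h, fun j => rfl⟩
  | succ m ih =>
    intro F s h h0
    obtain ⟨F₁, rfl⟩ := S.exists_mul_z (h0 0 (by omega))
    have h1 := Ex.unshift S h
    have h2 : ∀ j < m, PowerSeries.coeff j F₁ = 0 := by
      intro j hj
      rw [← S.comp_eq_zero, ← S.comp_mul_z_succ, S.comp_eq_zero]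
      exact h0 (j + 1) (by omega)
    obtain ⟨F', hF', hc⟩ := ih F₁ (s + 1) h1 h2
    refine ⟨F', ?_, ?_⟩
    · rw [show s + ((m + 1 : ℕ) : ℤ) = s + 1 + m by push_cast; ring]
      exact hF'
    · intro j
      rw [hc, ← add_assoc, S.comp_mul_z_succ]

/-- components of a product -/
theorem comp_mul (F G : PowerSeries W) (n : ℕ) :
    S.comp (F * G) n = ∑ p ∈ HasAntidiagonal.antidiagonal n,
      S.comp F p.1 * (S.T p.1 * S.comp G p.2 * S.T (-(p.1 : ℤ))) := by
  unfold comp
  rw [PowerSeries.coeff_mul, sum_mul]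
  apply sum_congr rfl
  intro p hp
  rw [HasAntidiagonal.mem_antidiagonal] at hp
  subst hp
  calc PowerSeries.coeff p.1 F * PowerSeries.coeff p.2 G * S.T (-((p.1 + p.2 : ℕ) : ℤ))
      = PowerSeries.coeff p.1 F * (S.T (-(p.1 : ℤ)) * S.T p.1) * PowerSeries.coeff p.2 G *
          (S.T (-(p.2 : ℤ)) * S.T (-(p.1 : ℤ))) := by
        rw [S.T_neg_mul, S.T_mul, mul_one]
        push_cast
        rw [show -((p.2 : ℤ)) + -(p.1 : ℤ) = -((p.1 : ℤ) + p.2) by ring]
    _ = _ := by noncomm_ring

/-- the inverse series -/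
theorem exists_inverse {Q : Subring W} (hQ : ∀ (m : ℤ), ∀ x ∈ Q, S.T m * x * S.T (-m) ∈ Q)
    {F : PowerSeries W} (hF : F ∈ S.Gr Q) {v : W} (hv : v ∈ Q)
    (h1 : PowerSeries.coeff 0 F * v = 1) (h2 : v * PowerSeries.coeff 0 F = 1) :
    ∃ G ∈ S.Gr Q, F * G = 1 := by
  set u : Wˣ := ⟨PowerSeries.coeff 0 F, v, h1, h2⟩ with hu
  refine ⟨PowerSeries.invOfUnit F u, ?_, ?_⟩
  · intro n
    induction n using Nat.strong_induction_on with
    | _ n ih =>
      rw [PowerSeries.coeff_invOfUnit]
      split_ifs with h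
      · subst h
        have : ((u⁻¹ : Wˣ) : W) = v := rfl
        rw [this]; simpa using hv
      · have : ((u⁻¹ : Wˣ) : W) = v := rfl
        rw [this]
        have h3 : (-v * ∑ x ∈ HasAntidiagonal.antidiagonal n, if x.2 < n then
            PowerSeries.coeff x.1 F * PowerSeries.coeff x.2 (PowerSeries.invOfUnit F u) else 0) *
              S.T (-(n : ℤ)) =
            -v * ∑ x ∈ HasAntidiagonal.antidiagonal n, if x.2 < n then
              S.comp F x.1 * (S.T x.1 * S.comp (PowerSeries.invOfUnit F u) x.2 *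
                S.T (-(x.1 : ℤ))) else 0 := by
          rw [mul_assoc, sum_mul]
          congr 1
          apply sum_congr rfl
          intro p hp
          rw [HasAntidiagonal.mem_antidiagonal] at hp
          split_ifs with hlt
          · unfold comp
            calc PowerSeries.coeff p.1 F * PowerSeries.coeff p.2 (PowerSeries.invOfUnit F u) *
                  S.T (-(n : ℤ))
                = PowerSeries.coeff p.1 F * (S.T (-(p.1 : ℤ)) * S.T p.1) *
                  PowerSeries.coeff p.2 (PowerSeries.invOfUnit F u) *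
                  (S.T (-(p.2 : ℤ)) * S.T (-(p.1 : ℤ))) := by
                  rw [S.T_neg_mul, S.T_mul, mul_one]
                  rw [show -((p.2 : ℤ)) + -(p.1 : ℤ) = -(n : ℤ) by omega]
              _ = _ := by noncomm_ring
          · rw [zero_mul]
        rw [h3]
        apply Q.mul_mem (Q.neg_mem hv)
        apply Q.sum_mem
        intro p hp
        split_ifs with hlt
        · apply Q.mul_mem (hF p.1)
          exact hQ _ _ (ih p.2 hlt)
        · exact Q.zero_mem
  · exact PowerSeries.mul_invOfUnit F u (by rw [hu]; simp)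

/-- the lowest coefficient argument -/
theorem zero_or_unit {Q : Subring W} (hQB : ∀ x ∈ Q, x ∈ S.B)
    (hQ : ∀ (m : ℤ), ∀ x ∈ Q, S.T m * x * S.T (-m) ∈ Q)
    {x : W} {F : PowerSeries W} {s : ℤ} (h : S.Ex x F s) (hF : F ∈ S.Gr Q)
    (hu : ∀ j, S.comp F j = 0 ∨ ∃ v ∈ Q, S.comp F j * v = 1 ∧ v * S.comp F j = 1) :
    x = 0 ∨ (IsUnit x ∧ ∀ y, y * x = 1 → ∃ G r, S.Ex y G r ∧ G ∈ S.Gr Q) := by
  classical
  by_cases h0 : ∀ j, PowerSeries.coeff j F = 0
  · left
    have : F = 0 := by ext j; simpa using h0 j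
    subst this
    exact Ex.eq_zero S h
  · push Not at h0
    right
    obtain ⟨F', hF', hc⟩ := S.exists_unshift (Nat.find h0) F s h (fun j hj => by
      have := Nat.find_min h0 hj
      push Not at this
      exact this)
    have hF'Q : F' ∈ S.Gr Q := by
      intro j
      have := hc j
      unfold comp at this
      rw [this]
      exact hF _
    have hne : S.comp F (Nat.find h0) ≠ 0 := by
      intro hcon
      exact Nat.find_spec h0 (S.comp_eq_zero.1 hcon)
    rcases hu (Nat.find h0) with h2 | ⟨v, hv, hv1, hv2⟩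
    · exact absurd h2 hne
    · have h3 : PowerSeries.coeff 0 F' = S.comp F (Nat.find h0) := by
        rw [← S.comp_zero_right, hc 0, zero_add]
      obtain ⟨G, hG, hFG⟩ := S.exists_inverse hQ hF'Q hv (by rw [h3]; exact hv1)
        (by rw [h3]; exact hv2)
      have hGB : G ∈ S.Gr S.B := fun j => hQB _ (hG j)
      refine ⟨Ex.isUnit S hF' hGB hFG, fun y hy => ?_⟩
      exact ⟨_, _, Ex.inv S hF' hGB hFG hy, S.tw_mem _ (hQ _) hG⟩

end Split

end Pool.Agent.CIR
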