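import Mathlib

/-!
# CIR / Orb : a degree function on a finite set with group action

MP_05b873_al.  `X` finite `Γ`-set, `H ≤ Γ`, `φ : H → ℤ` with `φ t = 1`, and all stabilisers are
mapped into `m ℤ`.  Then there is an `N`-invariant subset `Y` (`N = ker φ`) whose complement has
at most `|X| (1/M + 1/m)` elements and which contains no `t`-orbit segment of length `M`.
-/

namespace Pool.Agent.CIR

open Finset

section

variable {Γ : Type*} [Group Γ] {X : Type*} [MulAction Γ X]

/-- the degree function -/
theorem exists_degree (H : Subgroup Γ) (φ : H →* Multiplicative ℤ) (m : ℕ)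
    (hstab : ∀ (h : H) (x : X), (h : Γ) • x = x → (m : ℤ) ∣ Multiplicative.toAdd (φ h)) :
    ∃ d : X → ZMod m, ∀ (h : H) (x : X),
      d ((h : Γ) • x) = ((Multiplicative.toAdd (φ h) : ℤ) : ZMod m) + d x := by
  classical
  -- representatives of orbits
  let r : X → X := fun x => Quotient.out (Quotient.mk (MulAction.orbitRel H X) x)
  have hr : ∀ x, ∃ h : H, (h : Γ) • r x = x := by
    intro x
    have h1 : (MulAction.orbitRel H X).r (r x) x := Quotient.exact (Quotient.out_eq _)
    have h2 := (MulAction.orbitRel_apply).1 ((MulAction.orbitRel H X).symm h1)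
    obtain ⟨h, hh⟩ := h2
    exact ⟨h, hh⟩
  choose k hk using hr
  have hrr : ∀ (h : H) (x : X), r ((h : Γ) • x) = r x := by
    intro h x
    have : Quotient.mk (MulAction.orbitRel H X) ((h : Γ) • x) =
        Quotient.mk (MulAction.orbitRel H X) x := by
      apply Quotient.sound
      exact (MulAction.orbitRel_apply).2 ⟨h, rfl⟩
    change Quotient.out _ = Quotient.out _
    rw [this]
  refine ⟨fun x => ((Multiplicative.toAdd (φ (k x)) : ℤ) : ZMod m), fun h x => ?_⟩
  have h1 : (((h * k x)⁻¹ * k ((h : Γ) • x) : H) : Γ) • r x = r x := by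
    have h2 := hk ((h : Γ) • x)
    rw [hrr] at h2
    have h3 := hk x
    have : (((h * k x)⁻¹ * k ((h : Γ) • x) : H) : Γ) • r x =
        ((h * k x : H) : Γ)⁻¹ • ((k ((h : Γ) • x) : Γ) • r x) := by
      rw [← mul_smul]; simp
    rw [this, h2]
    rw [inv_smul_eq_iff]
    have : ((h * k x : H) : Γ) • r x = (h : Γ) • ((k x : Γ) • r x) := by
      rw [← mul_smul]; simp
    rw [this, h3]
  have h4 := hstab _ _ h1
  rw [map_mul, toAdd_mul, map_inv, toAdd_inv, map_mul, toAdd_mul] at h4
  have h5 := (ZMod.intCast_zmod_eq_zero_iff_dvd _ m).2 h4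
  push_cast at h5
  have h6 : ((Multiplicative.toAdd (φ (k ((h : Γ) • x))) : ℤ) : ZMod m) =
      ((Multiplicative.toAdd (φ h) : ℤ) : ZMod m) +
        ((Multiplicative.toAdd (φ (k x)) : ℤ) : ZMod m) := by
    linear_combination h5
  exact h6

/-- all fibres of the degree function have the same size -/
theorem card_fibre [Fintype X] [DecidableEq X] (t : Γ) (m : ℕ) [NeZero m] (d : X → ZMod m)
    (hd : ∀ x, d (t • x) = 1 + d x) (v : ZMod m) :
    m * (univ.filter fun x => d x = v).card = Fintype.card X := by
  classical
  have h1 : ∀ w : ZMod m, (univ.filter fun x => d x = w + 1).card =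
      (univ.filter fun x => d x = w).card := by
    intro w
    symm
    apply card_bij (fun x _ => t • x)
    · intro x hx
      rw [mem_filter] at hx ⊢
      exact ⟨mem_univ _, by rw [hd, hx.2, add_comm]⟩
    · intro x _ y _ h
      exact (MulAction.injective t) h
    · intro y hy
      rw [mem_filter] at hy
      refine ⟨t⁻¹ • y, ?_, by simp⟩
      rw [mem_filter]
      refine ⟨mem_univ _, ?_⟩
      have h2 := hd (t⁻¹ • y)
      rw [smul_inv_smul, hy.2] at h2
      linear_combination -h2
  have h2 : ∀ n : ℕ, (univ.filter fun x => d x = (n : ZMod m)).card =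
      (univ.filter fun x => d x = 0).card := by
    intro n
    induction n with
    | zero => simp
    | succ n ih => rw [← ih, ← h1 n]; push_cast; rfl
  have h3 : ∀ w : ZMod m, (univ.filter fun x => d x = w).card =
      (univ.filter fun x => d x = 0).card := by
    intro w
    have := h2 w.val
    rwa [ZMod.natCast_zmod_val] at this
  have h4 : Fintype.card X = ∑ w : ZMod m, (univ.filter fun x => d x = w).card := by
    rw [← card_univ]
    exact card_eq_sum_card_fiberwise (fun x _ => mem_univ (d x))
  rw [h4]
  rw [sum_congr rfl (fun w _ => h3 w), h3 v]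
  simp [ZMod.card]

/-- the number of bad residues -/
theorem card_bad (m M : ℕ) :
    ((range m).filter fun v => (v + 1) % M = 0 ∨ v + 1 = m).card ≤ m / M + 1 := by
  classical
  rw [filter_or]
  refine (card_union_le _ _).trans ?_
  have h1 : ((range m).filter fun v => (v + 1) % M = 0).card ≤ m / M := by
    have h2 : ((range m).filter fun v => (v + 1) % M = 0).card =
        ((range (m + 1)).filter fun v => v ≠ 0 ∧ M ∣ v).card := by
      apply card_bij (fun v _ => v + 1)
      · intro v hv
        rw [mem_filter, mem_range] at hv ⊢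
        exact ⟨by omega, by omega, Nat.dvd_of_mod_eq_zero hv.2⟩
      · intro a _ b _ h; omega
      · intro b hb
        rw [mem_filter, mem_range] at hb
        refine ⟨b - 1, ?_, by omega⟩
        rw [mem_filter, mem_range]
        refine ⟨by omega, ?_⟩
        rw [show b - 1 + 1 = b by omega]
        exact Nat.mod_eq_zero_of_dvd hb.2.2
    rw [h2]
    have h3 := Nat.card_multiples m M
    have h4 : ((range (m + 1)).filter fun v => v ≠ 0 ∧ M ∣ v).card = m / M := by
      rw [← Nat.card_multiples' m M]
    rw [h4]
  have h5 : ((range m).filter fun v => v + 1 = m).card ≤ 1 := by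
    rw [card_le_one]
    intro a ha b hb
    rw [mem_filter] at ha hb
    omega
  omega

/-- the combinatorial lemma -/
theorem exists_Y [Fintype X] (H : Subgroup Γ) (φ : H →* Multiplicative ℤ) (t : H)
    (ht : φ t = Multiplicative.ofAdd 1) (m : ℕ) (hm : 1 ≤ m)
    (hstab : ∀ (h : H) (x : X), (h : Γ) • x = x → (m : ℤ) ∣ Multiplicative.toAdd (φ h))
    (M : ℕ) (hM : 1 ≤ M) :
    ∃ Y : Set X, (∀ n : H, φ n = 1 → ∀ x, (n : Γ) • x ∈ Y ↔ x ∈ Y) ∧
      (∀ x, ∃ i < M, (t : Γ) ^ i • x ∉ Y) ∧
      (Nat.card {x // x ∉ Y} : ℝ) ≤ Fintype.card X * (1 / M + 1 / m) := by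
  classical
  have : NeZero m := ⟨by omega⟩
  obtain ⟨d, hd⟩ := exists_degree (X := X) H φ m hstab
  have hdt : ∀ x, d ((t : Γ) • x) = 1 + d x := by
    intro x; rw [hd, ht]; simp
  set bad : X → Prop := fun x => (((d x).val + 1) % M = 0) ∨ (d x).val + 1 = m with hbad
  refine ⟨{x | ¬ bad x}, ?_, ?_, ?_⟩
  · intro n hn x
    have : d ((n : Γ) • x) = d x := by rw [hd, hn]; simp
    have h2 : bad ((n : Γ) • x) ↔ bad x := by rw [hbad]; simp only [this]
    exact not_congr h2
  · intro x
    by_contra hcon0
    push Not at hcon0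
    have hcon : ∀ i < M, ¬ (((d ((t : Γ) ^ i • x)).val + 1) % M = 0) ∧
        ¬ ((d ((t : Γ) ^ i • x)).val + 1 = m) := by
      intro i hi
      have := hcon0 i hi
      exact not_or.1 this
    have h1 : ∀ i ≤ M, (d ((t : Γ) ^ i • x)).val = (d x).val + i := by
      intro i
      induction i with
      | zero => simp
      | succ i ih =>
        intro hi
        have h2 := ih (by omega)
        have h3 := (hcon i (by omega)).2
        rw [pow_succ', mul_smul, hdt]
        rw [h2] at h3
        have h4 : (d ((t : Γ) ^ i • x)).val < m := ZMod.val_lt _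
        rw [h2] at h4
        have h5 : (1 + d ((t : Γ) ^ i • x)) = (((d x).val + i + 1 : ℕ) : ZMod m) := by
          rw [← ZMod.natCast_zmod_val (d ((t : Γ) ^ i • x)), h2]
          push_cast; ring
        rw [h5, ZMod.val_natCast_of_lt (by omega)]
        ring
    -- among M consecutive numbers one is divisible by M
    set a := (d x).val with ha
    have h6 : ∃ i < M, (a + i + 1) % M = 0 := by
      refine ⟨M - 1 - a % M, by omega, ?_⟩
      have h7 : a % M < M := Nat.mod_lt _ (by omega)
      have h8 := Nat.div_add_mod a M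
      have h9 : a + (M - 1 - a % M) + 1 = M * (a / M + 1) := by
        rw [Nat.mul_add]; omega
      rw [h9]; exact Nat.mul_mod_right M _
    obtain ⟨i, hi, h7⟩ := h6
    apply (hcon i hi).1
    rw [h1 i hi.le]; exact h7
  · -- cardinality
    have h1 : Nat.card {x // x ∉ {x | ¬ bad x}} =
        (univ.filter fun x => (((d x).val + 1) % M = 0) ∨ (d x).val + 1 = m).card := by
      rw [Nat.card_eq_fintype_card, Fintype.card_subtype]
      congr 1
      ext x
      rw [mem_filter, mem_filter]
      exact and_congr_right fun _ => not_not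
    rw [h1]
    have h2 : (univ.filter fun x => (((d x).val + 1) % M = 0) ∨ (d x).val + 1 = m).card =
        ∑ v ∈ (range m).filter (fun v => (v + 1) % M = 0 ∨ v + 1 = m),
          (univ.filter fun x => d x = (v : ZMod m)).card := by
      rw [card_eq_sum_card_fiberwise (f := fun x => (d x).val)
        (t := (range m).filter (fun v => (v + 1) % M = 0 ∨ v + 1 = m))]
      · apply sum_congr rfl
        intro v hv
        rw [mem_filter, mem_range] at hv
        congr 1
        ext x
        simp only [mem_filter, mem_univ, true_and]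
        constructor
        · rintro ⟨_, h⟩
          rw [← h, ZMod.natCast_zmod_val]
        · intro h
          have : (d x).val = v := by rw [h]; exact ZMod.val_natCast_of_lt hv.1
          rw [this]; exact ⟨hv.2, rfl⟩
      · intro x hx
        rw [mem_coe, mem_filter] at hx ⊢
        exact ⟨mem_range.2 (ZMod.val_lt _), hx.2⟩
    have h3 : ∀ v : ℕ, ((univ.filter fun x => d x = (v : ZMod m)).card : ℝ) =
        Fintype.card X / m := by
      intro v
      have := card_fibre (t : Γ) m d hdt (v : ZMod m)
      have hm' : (m : ℝ) ≠ 0 := by positivity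
      rw [eq_div_iff hm', mul_comm]
      exact_mod_cast this
    rw [h2]
    push_cast
    rw [sum_congr rfl (fun v _ => h3 v), sum_const, nsmul_eq_mul]
    have h4 := card_bad m M
    have h5 : (((range m).filter fun v => (v + 1) % M = 0 ∨ v + 1 = m).card : ℝ) ≤
        m / M + 1 := by
      calc (((range m).filter fun v => (v + 1) % M = 0 ∨ v + 1 = m).card : ℝ)
          ≤ ((m / M + 1 : ℕ) : ℝ) := by exact_mod_cast h4
        _ = ((m / M : ℕ) : ℝ) + 1 := by push_cast; ring
        _ ≤ m / M + 1 := by gcongr; exact Nat.cast_div_le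
    have hm' : (0 : ℝ) < m := by positivity
    calc (((range m).filter fun v => (v + 1) % M = 0 ∨ v + 1 = m).card : ℝ) *
          (Fintype.card X / m) ≤ (m / M + 1) * (Fintype.card X / m) := by gcongr
      _ = Fintype.card X * (1 / M + 1 / m) := by
        field_simp

end

end Pool.Agent.CIR
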