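import Mathlib
import Pool.Agent.CIR.Defs

/-!
# CIR / Quot : Hausdorff quotient of a ring with a rank pseudo-norm

MP_05b873_al.
-/

namespace Pool.Agent.CIR

/-- a rank pseudo-norm which need not be Hausdorff -/
structure PreRank (P : Type*) [Ring P] where
  rho : P → ℝ
  rho_zero : rho 0 = 0
  rho_nonneg : ∀ x, 0 ≤ rho x
  rho_add : ∀ x y, rho (x + y) ≤ rho x + rho y
  rho_mul_left : ∀ x y, rho (x * y) ≤ rho x
  rho_mul_right : ∀ x y, rho (x * y) ≤ rho y
  inv : ∀ x, (∀ ε > 0, ∃ y, rho (1 - x * y) ≤ ε) → ∃ y, rho (1 - x * y) = 0 ∧ rho (1 - y * x) = 0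

namespace PreRank

variable {P : Type*} [Ring P] (p : PreRank P)

theorem rho_neg (x : P) : p.rho (-x) ≤ p.rho x := by
  have := p.rho_mul_right (-1) x
  simpa using this

theorem rho_sub (x y : P) : p.rho (x - y) ≤ p.rho x + p.rho y := by
  rw [sub_eq_add_neg]
  exact (p.rho_add _ _).trans (by linarith [p.rho_neg y])

theorem rho_congr {x y : P} (h : p.rho (x - y) = 0) : p.rho x = p.rho y := by
  apply le_antisymm
  · have := p.rho_add (x - y) y
    rw [sub_add_cancel] at this
    linarith
  · have := p.rho_sub x (x - y)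
    rw [sub_sub_cancel] at this
    linarith

/-- the congruence of difference of rank zero -/
def con : RingCon P where
  r x y := p.rho (x - y) = 0
  iseqv := {
    refl := fun x => by rw [sub_self]; exact p.rho_zero
    symm := by
      intro x y h
      apply le_antisymm _ (p.rho_nonneg _)
      rw [← h, show y - x = -(x - y) by abel]
      exact p.rho_neg _
    trans := by
      intro x y z h1 h2
      apply le_antisymm _ (p.rho_nonneg _)
      rw [show x - z = (x - y) + (y - z) by abel]
      exact (p.rho_add _ _).trans (by rw [h1, h2, add_zero]) }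
  add' := by
    intro a b c d h1 h2
    change p.rho (a - b) = 0 at h1
    change p.rho (c - d) = 0 at h2
    apply le_antisymm _ (p.rho_nonneg _)
    rw [show a + c - (b + d) = (a - b) + (c - d) by abel]
    exact (p.rho_add _ _).trans (by rw [h1, h2, add_zero])
  mul' := by
    intro a b c d h1 h2
    change p.rho (a - b) = 0 at h1
    change p.rho (c - d) = 0 at h2
    apply le_antisymm _ (p.rho_nonneg _)
    rw [show a * c - b * d = (a - b) * c + b * (c - d) by noncomm_ring]
    have h3 := p.rho_add ((a - b) * c) (b * (c - d))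
    have h4 := p.rho_mul_left (a - b) c
    have h5 := p.rho_mul_right b (c - d)
    linarith

theorem con_iff {x y : P} : p.con x y ↔ p.rho (x - y) = 0 := Iff.rfl

end PreRank

/-- the Hausdorff quotient -/
theorem exists_quot {P : Type*} [Ring P] (p : PreRank P) :
    ∃ R : RankData p.con.Quotient, ∀ x : P, R.rho (p.con.mk' x) = p.rho x := by
  classical
  let f : p.con.Quotient → ℝ := fun w => Quotient.liftOn w p.rho (fun a b h => p.rho_congr h)
  have hf : ∀ x : P, f (p.con.mk' x) = p.rho x := fun x => rfl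
  have hsur : Function.Surjective p.con.mk' := p.con.mk'_surjective
  refine ⟨{ rho := f, rho_zero := ?_, rho_nonneg := ?_, rho_add := ?_, rho_mul_left := ?_,
            rho_mul_right := ?_, eq_zero := ?_, isUnit := ?_ }, hf⟩
  · rw [← map_zero p.con.mk', hf]; exact p.rho_zero
  · intro x; obtain ⟨x, rfl⟩ := hsur x; rw [hf]; exact p.rho_nonneg x
  · intro x y
    obtain ⟨x, rfl⟩ := hsur x; obtain ⟨y, rfl⟩ := hsur y
    rw [← map_add, hf, hf, hf]; exact p.rho_add x y
  · intro x y
    obtain ⟨x, rfl⟩ := hsur x; obtain ⟨y, rfl⟩ := hsur y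
    rw [← map_mul, hf, hf]; exact p.rho_mul_left x y
  · intro x y
    obtain ⟨x, rfl⟩ := hsur x; obtain ⟨y, rfl⟩ := hsur y
    rw [← map_mul, hf, hf]; exact p.rho_mul_right x y
  · intro x hx
    obtain ⟨x, rfl⟩ := hsur x
    rw [hf] at hx
    rw [← map_zero p.con.mk']
    apply (RingCon.eq p.con).2
    rw [p.con_iff, sub_zero]; exact hx
  · intro x hx
    obtain ⟨x, rfl⟩ := hsur x
    obtain ⟨y, h1, h2⟩ := p.inv x (by
      intro ε hε
      obtain ⟨y, hy⟩ := hx ε hε
      obtain ⟨y, rfl⟩ := hsur y
      refine ⟨y, ?_⟩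
      rw [← map_mul, ← map_one p.con.mk', ← map_sub, hf] at hy
      exact hy)
    have e1 : p.con.mk' x * p.con.mk' y = 1 := by
      rw [← map_mul, ← map_one p.con.mk']
      apply ((RingCon.eq p.con).2 _).symm
      exact h1
    have e2 : p.con.mk' y * p.con.mk' x = 1 := by
      rw [← map_mul, ← map_one p.con.mk']
      apply ((RingCon.eq p.con).2 _).symm
      exact h2
    exact ⟨⟨_, _, e1, e2⟩, rfl⟩

end Pool.Agent.CIR
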