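import Mathlib
import Pool.Agent.CIR.Quot

/-!
# CIR / Seq : sequences in rank rings

MP_05b873_al.
-/

namespace Pool.Agent.CIR

open Filter Topology

/-- a ring with a normalised rank function -/
structure RankRing (A : Type*) [Ring A] where
  rk : A → ℝ
  rk_zero : rk 0 = 0
  rk_nonneg : ∀ x, 0 ≤ rk x
  rk_one : rk 1 = 1
  rk_add : ∀ x y, rk (x + y) ≤ rk x + rk y
  rk_mul_left : ∀ x y, rk (x * y) ≤ rk x
  rk_mul_right : ∀ x y, rk (x * y) ≤ rk y
  inv : ∀ x, ∃ y, rk (1 - x * y) ≤ 1 - rk x ∧ rk (1 - y * x) ≤ 1 - rk x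

section

variable {A : ℕ → Type*} [∀ k, Ring (A k)] (r : ∀ k, RankRing (A k))

theorem RankRing.rk_le_one {A : Type*} [Ring A] (r : RankRing A) (x : A) : r.rk x ≤ 1 := by
  have := r.rk_mul_left 1 x
  rwa [one_mul, r.rk_one] at this

/-- the upper limit of the ranks -/
noncomputable def limRk (x : ∀ k, A k) : ℝ :=
  sInf {ε : ℝ | 0 ≤ ε ∧ ∀ᶠ k in atTop, (r k).rk (x k) ≤ ε}

theorem limRk_nonneg (x : ∀ k, A k) : 0 ≤ limRk r x :=
  Real.sInf_nonneg (fun _ h => h.1)

theorem limRk_le {x : ∀ k, A k} {c : ℝ} (hc : 0 ≤ c)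
    (h : ∀ᶠ k in atTop, (r k).rk (x k) ≤ c) : limRk r x ≤ c :=
  csInf_le ⟨0, fun _ h => h.1⟩ ⟨hc, h⟩

theorem limRk_le' {x : ∀ k, A k} {c : ℝ} (hc : 0 ≤ c)
    (h : ∀ δ > c, ∀ᶠ k in atTop, (r k).rk (x k) ≤ δ) : limRk r x ≤ c := by
  apply le_of_forall_gt_imp_ge_of_dense
  intro δ hδ
  exact limRk_le r (le_trans hc hδ.le) (h δ hδ)

theorem eventually_of_limRk_lt {x : ∀ k, A k} {δ : ℝ} (h : limRk r x < δ) :
    ∀ᶠ k in atTop, (r k).rk (x k) ≤ δ := by
  have hne : {ε : ℝ | 0 ≤ ε ∧ ∀ᶠ k in atTop, (r k).rk (x k) ≤ ε}.Nonempty :=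
    ⟨1, zero_le_one, Eventually.of_forall (fun k => (r k).rk_le_one _)⟩
  obtain ⟨ε, ⟨_, hε⟩, hlt⟩ := exists_lt_of_csInf_lt hne h
  exact hε.mono (fun k hk => hk.trans hlt.le)

theorem tendsto_of_limRk {x : ∀ k, A k} (h : limRk r x = 0) :
    Tendsto (fun k => (r k).rk (x k)) atTop (𝓝 0) := by
  rw [Metric.tendsto_atTop]
  intro ε hε
  have h1 := eventually_of_limRk_lt r (x := x) (δ := ε / 2) (by rw [h]; positivity)
  obtain ⟨N, hN⟩ := eventually_atTop.1 h1
  refine ⟨N, fun n hn => ?_⟩
  rw [Real.dist_0_eq_abs, abs_of_nonneg ((r n).rk_nonneg _)]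
  linarith [hN n hn]

/-- the pre-rank on the product -/
noncomputable def preRank : PreRank (∀ k, A k) where
  rho := limRk r
  rho_zero := by
    apply le_antisymm _ (limRk_nonneg r _)
    apply limRk_le r le_rfl
    exact Eventually.of_forall (fun k => by simp [(r k).rk_zero])
  rho_nonneg := limRk_nonneg r
  rho_add := by
    intro x y
    apply limRk_le' r (add_nonneg (limRk_nonneg r _) (limRk_nonneg r _))
    intro δ hδ
    set η := (δ - (limRk r x + limRk r y)) / 2 with hη
    have hη0 : 0 < η := by rw [hη]; linarith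
    have h1 := eventually_of_limRk_lt r (x := x) (δ := limRk r x + η) (by linarith)
    have h2 := eventually_of_limRk_lt r (x := y) (δ := limRk r y + η) (by linarith)
    filter_upwards [h1, h2] with k hk1 hk2
    have h3 := (r k).rk_add (x k) (y k)
    have h4 : (r k).rk ((x + y) k) = (r k).rk (x k + y k) := rfl
    rw [h4]
    have : limRk r x + η + (limRk r y + η) = δ := by rw [hη]; ring
    linarith
  rho_mul_left := by
    intro x y
    apply limRk_le' r (limRk_nonneg r _)
    intro δ hδ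
    filter_upwards [eventually_of_limRk_lt r hδ] with k hk
    exact ((r k).rk_mul_left (x k) (y k)).trans hk
  rho_mul_right := by
    intro x y
    apply limRk_le' r (limRk_nonneg r _)
    intro δ hδ
    filter_upwards [eventually_of_limRk_lt r hδ] with k hk
    exact ((r k).rk_mul_right (x k) (y k)).trans hk
  inv := by
    intro x hx
    choose y hy using fun k => (r k).inv (x k)
    -- the rank of x tends to one
    have key : ∀ δ > 0, ∀ᶠ k in atTop, 1 - (r k).rk (x k) ≤ δ := by
      intro δ hδ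
      obtain ⟨w, hw⟩ := hx (δ / 2) (by positivity)
      have h1 := eventually_of_limRk_lt r (x := 1 - x * w) (δ := δ)
        (lt_of_le_of_lt hw (by linarith))
      filter_upwards [h1] with k hk
      have h2 := (r k).rk_add (1 - x k * w k) (x k * w k)
      rw [sub_add_cancel, (r k).rk_one] at h2
      have h3 := (r k).rk_mul_left (x k) (w k)
      have h4 : (r k).rk ((1 - x * w) k) = (r k).rk (1 - x k * w k) := rfl
      rw [h4] at hk
      linarith
    refine ⟨y, ?_, ?_⟩
    · apply le_antisymm _ (limRk_nonneg r _)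
      apply limRk_le' r le_rfl
      intro δ hδ
      filter_upwards [key δ hδ] with k hk
      exact ((hy k).1).trans hk
    · apply le_antisymm _ (limRk_nonneg r _)
      apply limRk_le' r le_rfl
      intro δ hδ
      filter_upwards [key δ hδ] with k hk
      exact ((hy k).2).trans hk

end

end Pool.Agent.CIR
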