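import Mathlib
import Pool.Agent.CIR.Seq

/-!
# CIR / EndRk : ranks of endomorphisms and of block matrices

MP_05b873_al.
-/

namespace Pool.Agent.CIR

open Module

section

variable {K : Type*} [Field K] {V V' V'' : Type*} [AddCommGroup V] [Module K V]
  [AddCommGroup V'] [Module K V'] [AddCommGroup V''] [Module K V'']
  [FiniteDimensional K V] [FiniteDimensional K V'] [FiniteDimensional K V'']

/-- the rank of a linear map -/
noncomputable def rn (f : V →ₗ[K] V') : ℕ := finrank K (LinearMap.range f)

omit [FiniteDimensional K V] [FiniteDimensional K V'] in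
@[simp] theorem rn_zero : rn (0 : V →ₗ[K] V') = 0 := by
  unfold rn; rw [LinearMap.range_zero]; exact finrank_bot K V'

omit [FiniteDimensional K V] in
theorem rn_add (f g : V →ₗ[K] V') : rn (f + g) ≤ rn f + rn g := by
  unfold rn
  have h1 : LinearMap.range (f + g) ≤ LinearMap.range f ⊔ LinearMap.range g := by
    rintro _ ⟨v, rfl⟩
    exact Submodule.add_mem_sup ⟨v, rfl⟩ ⟨v, rfl⟩
  exact (Submodule.finrank_mono h1).trans (Submodule.finrank_add_le_finrank_add_finrank _ _)

omit [FiniteDimensional K V] in
theorem rn_sum {ι : Type*} (s : Finset ι) (f : ι → V →ₗ[K] V') :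
    rn (∑ i ∈ s, f i) ≤ ∑ i ∈ s, rn (f i) := by
  classical
  induction s using Finset.induction_on with
  | empty => simp
  | insert i s hi ih =>
    rw [Finset.sum_insert hi, Finset.sum_insert hi]
    exact (rn_add _ _).trans (Nat.add_le_add_left ih _)

omit [FiniteDimensional K V] [FiniteDimensional K V'] in
theorem rn_comp_left (g : V' →ₗ[K] V'') (f : V →ₗ[K] V') : rn (g ∘ₗ f) ≤ rn g := by
  unfold rn
  exact Submodule.finrank_mono (LinearMap.range_comp_le_range f g)

omit [FiniteDimensional K V] [FiniteDimensional K V''] in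
theorem rn_comp_right (g : V' →ₗ[K] V'') (f : V →ₗ[K] V') : rn (g ∘ₗ f) ≤ rn f := by
  unfold rn
  rw [LinearMap.range_comp]
  exact Submodule.finrank_map_le g _

omit [FiniteDimensional K V'] in
theorem rn_le_dom (f : V →ₗ[K] V') : rn f ≤ finrank K V := LinearMap.finrank_range_le f

omit [FiniteDimensional K V] in
theorem rn_le_cod (f : V →ₗ[K] V') : rn f ≤ finrank K V' := Submodule.finrank_le _

omit [FiniteDimensional K V] in
@[simp] theorem rn_id : rn (LinearMap.id : V →ₗ[K] V) = finrank K V := by
  unfold rn; rw [LinearMap.range_id]; exact finrank_top K V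

omit [FiniteDimensional K V] [FiniteDimensional K V'] in
theorem rn_neg (f : V →ₗ[K] V') : rn (-f) = rn f := by
  unfold rn; rw [LinearMap.range_neg]

/-- quasi-inverses -/
theorem exists_quasi (x : Module.End K V) :
    ∃ y : Module.End K V, rn (1 - x * y) + rn x ≤ finrank K V ∧
      rn (1 - y * x) + rn x ≤ finrank K V := by
  -- choose y with x y x = x
  obtain ⟨y, hy⟩ : ∃ y : Module.End K V, x * y * x = x := by
    obtain ⟨g, hg⟩ := LinearMap.exists_extend (p := LinearMap.range x)
      (LinearMap.id : LinearMap.range x →ₗ[K] LinearMap.range x)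
    obtain ⟨s, hs⟩ := (LinearMap.rangeRestrict x).exists_rightInverse_of_surjective
      (LinearMap.range_rangeRestrict x)
    refine ⟨s ∘ₗ g, ?_⟩
    ext v
    have h1 : g (x v) = ⟨x v, ⟨v, rfl⟩⟩ := by
      have := LinearMap.congr_fun hg ⟨x v, ⟨v, rfl⟩⟩
      simpa using this
    have h2 : x.rangeRestrict (s ⟨x v, ⟨v, rfl⟩⟩) = ⟨x v, ⟨v, rfl⟩⟩ := by
      exact LinearMap.congr_fun hs ⟨x v, ⟨v, rfl⟩⟩
    have h3 : x (s ⟨x v, ⟨v, rfl⟩⟩) = x v := congrArg Subtype.val h2
    change x (s (g (x v))) = x v
    rw [h1]; exact h3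
  refine ⟨y, ?_, ?_⟩
  · -- range x is in the kernel of 1 - x y
    have h1 : LinearMap.range x ≤ LinearMap.ker (1 - x * y) := by
      rintro _ ⟨v, rfl⟩
      rw [LinearMap.mem_ker]
      have := LinearMap.congr_fun hy v
      change x v - x (y (x v)) = 0
      rw [sub_eq_zero]; exact this.symm
    have h2 := LinearMap.finrank_range_add_finrank_ker (1 - x * y)
    have h3 := Submodule.finrank_mono h1
    unfold rn
    omega
  · have h1 : LinearMap.range (1 - y * x) ≤ LinearMap.ker x := by
      rintro _ ⟨v, rfl⟩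
      rw [LinearMap.mem_ker]
      have := LinearMap.congr_fun hy v
      change x (v - y (x v)) = 0
      rw [map_sub, sub_eq_zero]; exact this.symm
    have h2 := LinearMap.finrank_range_add_finrank_ker x
    have h3 := Submodule.finrank_mono h1
    unfold rn
    omega

/-- the rank ring of endomorphisms of a nonzero finite dimensional space -/
noncomputable def endRk (K : Type*) [Field K] (V : Type*) [AddCommGroup V] [Module K V]
    [FiniteDimensional K V] (hV : 0 < finrank K V) : RankRing (Module.End K V) where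
  rk x := (rn x : ℝ) / finrank K V
  rk_zero := by simp
  rk_nonneg x := by positivity
  rk_one := by
    have : rn (1 : Module.End K V) = finrank K V := rn_id
    rw [this]
    exact div_self (by positivity)
  rk_add x y := by
    rw [← add_div]
    gcongr
    exact_mod_cast rn_add x y
  rk_mul_left x y := by
    gcongr
    exact rn_comp_left x y
  rk_mul_right x y := by
    gcongr
    exact rn_comp_right x y
  inv x := by
    obtain ⟨y, h1, h2⟩ := exists_quasi x
    have hV' : (0 : ℝ) < finrank K V := by exact_mod_cast hV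
    refine ⟨y, ?_, ?_⟩
    · rw [div_le_iff₀ hV', sub_mul, one_mul, div_mul_cancel₀ _ hV'.ne']
      have : (rn (1 - x * y) : ℝ) + rn x ≤ finrank K V := by exact_mod_cast h1
      linarith
    · rw [div_le_iff₀ hV', sub_mul, one_mul, div_mul_cancel₀ _ hV'.ne']
      have : (rn (1 - y * x) : ℝ) + rn x ≤ finrank K V := by exact_mod_cast h2
      linarith

/-! ### block matrices -/

omit [FiniteDimensional K V] in
/-- the linear map of a matrix of endomorphisms -/
noncomputable def bl {m n : ℕ} (A : Matrix (Fin m) (Fin n) (Module.End K V)) :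
    (Fin n → V) →ₗ[K] (Fin m → V) :=
  LinearMap.pi fun i => ∑ j, (A i j) ∘ₗ LinearMap.proj j

omit [FiniteDimensional K V] in
theorem bl_apply {m n : ℕ} (A : Matrix (Fin m) (Fin n) (Module.End K V)) (v : Fin n → V)
    (i : Fin m) : bl A v i = ∑ j, A i j (v j) := by
  simp [bl]

omit [FiniteDimensional K V] in
theorem bl_mul {m n l : ℕ} (A : Matrix (Fin m) (Fin n) (Module.End K V))
    (B : Matrix (Fin n) (Fin l) (Module.End K V)) : bl (A * B) = bl A ∘ₗ bl B := by
  apply LinearMap.ext; intro v
  funext i
  rw [bl_apply, LinearMap.comp_apply, bl_apply]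
  simp only [Matrix.mul_apply, bl_apply, map_sum]
  rw [Finset.sum_comm]
  apply Finset.sum_congr rfl; intro j _
  rw [LinearMap.sum_apply]
  rfl

omit [FiniteDimensional K V] in
theorem bl_add {m n : ℕ} (A B : Matrix (Fin m) (Fin n) (Module.End K V)) :
    bl (A + B) = bl A + bl B := by
  apply LinearMap.ext; intro v
  funext i
  rw [bl_apply, LinearMap.add_apply, Pi.add_apply, bl_apply, bl_apply, ← Finset.sum_add_distrib]
  rfl

omit [FiniteDimensional K V] in
theorem bl_one {m : ℕ} : bl (1 : Matrix (Fin m) (Fin m) (Module.End K V)) = LinearMap.id := by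
  apply LinearMap.ext; intro v
  funext i
  rw [bl_apply]
  rw [Finset.sum_eq_single i]
  · simp
  · intro j _ hj
    rw [Matrix.one_apply_ne hj.symm]; rfl
  · intro h; exact absurd (Finset.mem_univ i) h

theorem rn_bl_le {m n : ℕ} (A : Matrix (Fin m) (Fin n) (Module.End K V)) :
    rn (bl A) ≤ ∑ i, ∑ j, rn (A i j) := by
  have h1 : bl A = ∑ i, ∑ j, (LinearMap.single K (fun _ : Fin m => V) i) ∘ₗ (A i j) ∘ₗ
      LinearMap.proj j := by
    apply LinearMap.ext; intro v
    funext i
    rw [bl_apply]
    simp only [LinearMap.sum_apply, Finset.sum_apply, LinearMap.comp_apply, LinearMap.proj_apply,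
      LinearMap.coe_single, Pi.single_apply]
    rw [Finset.sum_eq_single i]
    · simp
    · intro i' _ hi'
      apply Finset.sum_eq_zero; intro j _
      rw [if_neg hi'.symm]
    · intro h; exact absurd (Finset.mem_univ i) h
  rw [h1]
  refine (rn_sum _ _).trans (Finset.sum_le_sum fun i _ => ?_)
  refine (rn_sum _ _).trans (Finset.sum_le_sum fun j _ => ?_)
  exact (rn_comp_right _ _).trans (rn_comp_left _ _)

/-- approximate rank factorisations determine the rank -/
theorem rn_bl_close {m n r : ℕ} (A : Matrix (Fin m) (Fin n) (Module.End K V))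
    (U : Matrix (Fin m) (Fin r) (Module.End K V)) (Y : Matrix (Fin r) (Fin n) (Module.End K V))
    (U' : Matrix (Fin r) (Fin m) (Module.End K V)) (Y' : Matrix (Fin n) (Fin r) (Module.End K V)) :
    rn (bl A) ≤ r * finrank K V + ∑ i, ∑ j, rn ((A - U * Y) i j) ∧
    r * finrank K V ≤ rn (bl A) +
      ∑ i, ∑ j, rn ((1 - U' * A * Y' : Matrix (Fin r) (Fin r) (Module.End K V)) i j) := by
  have hdim : finrank K (Fin r → V) = r * finrank K V := by
    rw [Module.finrank_pi_fintype]; simp
  constructor
  · have h1 : bl A = bl (A - U * Y) + bl (U * Y) := by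
      rw [← bl_add, sub_add_cancel]
    rw [h1]
    refine (rn_add _ _).trans ?_
    have h2 := rn_bl_le (A - U * Y)
    have h3 : rn (bl (U * Y)) ≤ r * finrank K V := by
      rw [bl_mul, ← hdim]
      exact (rn_comp_left _ _).trans (rn_le_dom _)
    omega
  · have h1 : (LinearMap.id : (Fin r → V) →ₗ[K] (Fin r → V)) =
        bl (1 - U' * A * Y') + bl (U' * A * Y') := by
      rw [← bl_add, sub_add_cancel, bl_one]
    have h2 : rn (LinearMap.id : (Fin r → V) →ₗ[K] (Fin r → V)) = r * finrank K V := by
      rw [rn_id, hdim]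
    rw [← h2, h1]
    refine (rn_add _ _).trans ?_
    have h3 := rn_bl_le (1 - U' * A * Y')
    have h4 : rn (bl (U' * A * Y')) ≤ rn (bl A) := by
      rw [bl_mul, bl_mul]
      exact (rn_comp_left _ _).trans (rn_comp_right _ _)
    omega

end

end Pool.Agent.CIR
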