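import Mathlib
import Pool.Agent.CIR.EndRk

/-!
# CIR / Perm : permutation representations and multiplication operators

MP_05b873_al.
-/

namespace Pool.Agent.CIR

open Module

section

variable (K : Type*) [Field K] {Γ : Type*} [Group Γ] (X : Type*) [MulAction Γ X]

/-- the permutation representation on functions -/
def perm : Γ →* Module.End K (X → K) where
  toFun g := LinearMap.funLeft K K (fun x => g⁻¹ • x)
  map_one' := by
    apply LinearMap.ext; intro f; funext x
    simp [LinearMap.funLeft]
  map_mul' g h := by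
    apply LinearMap.ext; intro f; funext x
    simp [LinearMap.funLeft, mul_smul]

variable {X}

@[simp] theorem perm_apply (g : Γ) (f : X → K) (x : X) : perm K X g f x = f (g⁻¹ • x) := rfl

/-- multiplication operators -/
def mulOp (p : X → K) : Module.End K (X → K) where
  toFun f := fun x => p x * f x
  map_add' f g := by funext x; simp [mul_add]
  map_smul' c f := by funext x; simp; ring

omit [MulAction Γ X] in
@[simp] theorem mulOp_apply (p f : X → K) (x : X) : mulOp K p f x = p x * f x := rfl

theorem perm_mulOp (g : Γ) (p : X → K) :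
    perm K X g * mulOp K p = mulOp K (fun x => p (g⁻¹ • x)) * perm K X g := by
  apply LinearMap.ext; intro f; funext x
  rfl

theorem perm_mulOp_perm (g : Γ) (p : X → K) :
    perm K X g * mulOp K p * perm K X g⁻¹ = mulOp K (fun x => p (g⁻¹ • x)) := by
  rw [perm_mulOp, mul_assoc, ← map_mul]; simp

theorem pow_apply (t : Γ) (p : X → K) (M : ℕ) (f : X → K) (x : X) :
    ((perm K X t * mulOp K p) ^ M) f x =
      (∏ i ∈ Finset.range M, p ((t ^ (i + 1))⁻¹ • x)) * f ((t ^ M)⁻¹ • x) := by
  induction M generalizing x with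
  | zero => simp
  | succ M ih =>
    rw [pow_succ']
    have h1 : ((perm K X t * mulOp K p) * (perm K X t * mulOp K p) ^ M) f x =
        p (t⁻¹ • x) * (((perm K X t * mulOp K p) ^ M) f (t⁻¹ • x)) := rfl
    rw [h1, ih, Finset.prod_range_succ']
    have h2 : ∀ i : ℕ, (t ^ (i + 1))⁻¹ • t⁻¹ • x = (t ^ (i + 1 + 1))⁻¹ • x := by
      intro i
      rw [← mul_smul]; congr 1; group
    simp only [h2]
    have h3 : (t ^ M)⁻¹ • t⁻¹ • x = (t ^ (M + 1))⁻¹ • x := by
      rw [← mul_smul]; congr 1; group
    rw [h3]
    have h4 : (t ^ (0 + 1))⁻¹ • x = t⁻¹ • x := by simp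
    rw [h4]
    ring

theorem nilpotent_of (t : Γ) (p : X → K) (M : ℕ)
    (h : ∀ x, ∃ i < M, p (t ^ i • x) = 0) : (perm K X t * mulOp K p) ^ M = 0 := by
  apply LinearMap.ext; intro f; funext x
  rw [pow_apply]
  obtain ⟨i, hi, h0⟩ := h ((t ^ M)⁻¹ • x)
  have h1 : ∏ i ∈ Finset.range M, p ((t ^ (i + 1))⁻¹ • x) = 0 := by
    apply Finset.prod_eq_zero (i := M - 1 - i) (by simp; omega)
    rw [← h0]
    congr 1
    rw [← mul_smul]
    congr 1
    have h2 : M = i + (M - 1 - i + 1) := by omega
    calc (t ^ (M - 1 - i + 1))⁻¹ = t ^ i * (t ^ (i + (M - 1 - i + 1)))⁻¹ := by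
          rw [pow_add]; group
      _ = t ^ i * (t ^ M)⁻¹ := by rw [← h2]
  rw [h1, zero_mul]; rfl

omit [MulAction Γ X] in
theorem rn_mulOp [Fintype X] [DecidableEq K] (p : X → K) :
    rn (mulOp K p) ≤ (Finset.univ.filter fun x => p x ≠ 0).card := by
  classical
  have h1 : mulOp K p = ∑ x ∈ Finset.univ.filter (fun x => p x ≠ 0),
      (LinearMap.single K (fun _ : X => K) x) ∘ₗ (p x • LinearMap.proj x) := by
    apply LinearMap.ext; intro f; funext y
    rw [LinearMap.sum_apply, Finset.sum_apply, mulOp_apply]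
    simp only [LinearMap.comp_apply, LinearMap.smul_apply, LinearMap.proj_apply,
      LinearMap.coe_single, Pi.single_apply, smul_eq_mul]
    by_cases hy : p y = 0
    · rw [hy, zero_mul]
      symm
      apply Finset.sum_eq_zero
      intro x hx
      rw [Finset.mem_filter] at hx
      rw [if_neg]
      rintro rfl
      exact hx.2 hy
    · rw [Finset.sum_eq_single y]
      · simp
      · intro x _ hx
        rw [if_neg (Ne.symm hx)]
      · intro h
        exact absurd (Finset.mem_filter.2 ⟨Finset.mem_univ y, hy⟩) h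
  rw [h1]
  refine (rn_sum _ _).trans ?_
  calc ∑ x ∈ Finset.univ.filter (fun x => p x ≠ 0),
        rn ((LinearMap.single K (fun _ : X => K) x) ∘ₗ (p x • LinearMap.proj x))
      ≤ ∑ x ∈ Finset.univ.filter (fun x => p x ≠ 0), 1 := by
        apply Finset.sum_le_sum
        intro x _
        refine (rn_comp_left _ _).trans ?_
        refine (rn_le_dom _).trans ?_
        simp
    _ = _ := by simp

end

end Pool.Agent.CIR
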