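import Mathlib
import Pool.Agent.CIR.Perm
import Pool.Agent.CIR.Orb

/-!
# CIR / Conc : the concrete ring of a sequence of finite `Γ`-sets

MP_05b873_al.
-/

namespace Pool.Agent.CIR

open Module Filter Topology

section

variable (K : Type*) [Field K] {Γ : Type*} [Group Γ] (X : ℕ → Type*)
  [∀ k, MulAction Γ (X k)] [∀ k, Fintype (X k)] [∀ k, Nonempty (X k)]

omit [∀ k, MulAction Γ (X k)] [∀ k, Nonempty (X k)] in
theorem finrank_fun (k : ℕ) : finrank K (X k → K) = Fintype.card (X k) := by simp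

omit [∀ k, MulAction Γ (X k)] in
theorem finrank_fun_pos (k : ℕ) : 0 < finrank K (X k → K) := by
  rw [finrank_fun]; exact Fintype.card_pos

/-- the rank rings `End (X k → K)` -/
noncomputable def rr (k : ℕ) : RankRing (Module.End K (X k → K)) :=
  endRk K (X k → K) (finrank_fun_pos K X k)

/-- the pre-rank on the product -/
noncomputable def pr : PreRank (∀ k, Module.End K (X k → K)) := preRank (rr K X)

/-- the ring `W` -/
abbrev WW : Type _ := (pr K X).con.Quotient

/-- the projection -/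
noncomputable def mkW : (∀ k, Module.End K (X k → K)) →+* WW K X := (pr K X).con.mk'

omit [∀ k, MulAction Γ (X k)] in
theorem mkW_surjective : Function.Surjective (mkW K X) := (pr K X).con.mk'_surjective

/-- scalars -/
noncomputable def iotaW : K →+* WW K X :=
  (mkW K X).comp (RingHom.pi fun k => algebraMap K (Module.End K (X k → K)))

omit [∀ k, MulAction Γ (X k)] in
theorem iotaW_comm (c : K) (x : WW K X) : iotaW K X c * x = x * iotaW K X c := by
  obtain ⟨x, rfl⟩ := mkW_surjective K X x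
  unfold iotaW
  rw [RingHom.comp_apply, ← map_mul, ← map_mul]
  congr 1
  funext k
  exact Algebra.commutes c (x k)

/-- group elements -/
noncomputable def alphaW : Γ →* WW K X :=
  (mkW K X : (∀ k, Module.End K (X k → K)) →* WW K X).comp
    (MonoidHom.pi fun k => perm K (X k))

theorem alphaW_apply (g : Γ) : alphaW K X g = mkW K X (fun k => perm K (X k) g) := rfl

/-- the stabiliser condition for `φ : H → ℤ` -/
def StabCond (H : Subgroup Γ) (φ : H →* Multiplicative ℤ) : Prop :=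
  ∀ C : ℕ, ∀ᶠ k in atTop, ∃ m : ℕ, C ≤ m ∧ ∀ (h : H) (x : X k), (h : Γ) • x = x →
    (m : ℤ) ∣ Multiplicative.toAdd (φ h)

variable {X}

/-- the choice of the sets `Y` -/
theorem exists_Yseq (H : Subgroup Γ) (φ : H →* Multiplicative ℤ) (t : H)
    (ht : φ t = Multiplicative.ofAdd 1) (hst : StabCond X H φ) (M : ℕ) (hM : 1 ≤ M) :
    ∃ Y : ∀ k, Set (X k),
      (∀ k, ∀ n : H, φ n = 1 → ∀ x : X k, (n : Γ) • x ∈ Y k ↔ x ∈ Y k) ∧
      (∀ k, ∀ x : X k, ∃ i < M, (t : Γ) ^ i • x ∉ Y k) ∧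
      (∀ᶠ k in atTop, (Nat.card {x // x ∉ Y k} : ℝ) ≤ Fintype.card (X k) * (2 / M)) := by
  classical
  have key : ∀ k, ∃ Y : Set (X k),
      (∀ n : H, φ n = 1 → ∀ x : X k, (n : Γ) • x ∈ Y ↔ x ∈ Y) ∧
      (∀ x : X k, ∃ i < M, (t : Γ) ^ i • x ∉ Y) ∧
      ((∃ m : ℕ, M ≤ m ∧ ∀ (h : H) (x : X k), (h : Γ) • x = x →
        (m : ℤ) ∣ Multiplicative.toAdd (φ h)) →
        (Nat.card {x // x ∉ Y} : ℝ) ≤ Fintype.card (X k) * (2 / M)) := by
    intro k
    by_cases h : ∃ m : ℕ, M ≤ m ∧ ∀ (h : H) (x : X k), (h : Γ) • x = x →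
        (m : ℤ) ∣ Multiplicative.toAdd (φ h)
    · obtain ⟨m, hm, hm2⟩ := h
      obtain ⟨Y, h1, h2, h3⟩ := exists_Y (X := X k) H φ t ht m (by omega) hm2 M hM
      refine ⟨Y, h1, h2, fun _ => h3.trans ?_⟩
      have hM0 : (0 : ℝ) < M := by exact_mod_cast (by omega : 0 < M)
      have : (1 : ℝ) / m ≤ 1 / M := by
        apply one_div_le_one_div_of_le hM0
        exact_mod_cast hm
      have h4 : (1 : ℝ) / M + 1 / m ≤ 2 / M := by
        have : (2 : ℝ) / M = 1 / M + 1 / M := by ring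
        linarith
      gcongr
    · refine ⟨∅, fun n _ x => Iff.rfl, fun x => ⟨0, by omega, fun h => h⟩, fun h' => absurd h' h⟩
  choose Y h1 h2 h3 using key
  refine ⟨Y, h1, h2, ?_⟩
  filter_upwards [hst M] with k hk
  exact h3 k hk

variable (X)

/-- the split of `H` -/
theorem exists_split (R : RankData (WW K X)) (hR : ∀ x, R.rho (mkW K X x) = limRk (rr K X) x)
    (H : Subgroup Γ) (φ : H →* Multiplicative ℤ) (hφ : Function.Surjective φ)
    (hst : StabCond X H φ) : Nonempty (Split R (alphaW K X) H) := by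
  classical
  obtain ⟨t, ht⟩ := hφ (Multiplicative.ofAdd 1)
  have hY := fun M : ℕ => exists_Yseq (X := X) H φ t ht hst (M + 1) (by omega)
  choose Y hY1 hY2 hY3 using hY
  let ind : ∀ M k, X k → K := fun M k x => if x ∈ Y (M - 1) k then 1 else 0
  let Pi : Set (WW K X) := {w | ∃ p : ∀ k, X k → K,
    (∀ k, ∀ n : H, φ n = 1 → ∀ x, p k ((n : Γ) • x) = p k x) ∧
      w = mkW K X (fun k => mulOp K (p k))}
  let N : Subgroup Γ := φ.ker.map H.subtype
  have hN : ∀ n ∈ N, ∃ n' : H, (n' : Γ) = n ∧ φ n' = 1 := by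
    rintro _ ⟨n', hn', rfl⟩
    exact ⟨n', rfl, hn'⟩
  have hN' : ∀ n' : H, φ n' = 1 → (n' : Γ) ∈ N := fun n' hn' => ⟨n', hn', rfl⟩
  refine ⟨{ N := N, t := t, Pi := Pi,
            q := fun M => mkW K X (fun k => mulOp K (ind M k)),
            N_le := ?_, t_mem := t.2, conj_mem := ?_, conj_mem' := ?_, exists_eq := ?_,
            not_le := ?_, comm := ?_, conj_Pi := ?_, conj_Pi' := ?_, q_mem := ?_, nil := ?_,
            small := ?_ }⟩
  · rintro n hn
    obtain ⟨n', rfl, _⟩ := hN n hn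
    exact n'.2
  · intro n hn
    obtain ⟨n', rfl, h⟩ := hN n hn
    exact hN' (t * n' * t⁻¹) (by rw [map_mul, map_mul, h, map_inv]; simp)
  · intro n hn
    obtain ⟨n', rfl, h⟩ := hN n hn
    exact hN' (t⁻¹ * n' * t) (by rw [map_mul, map_mul, h, map_inv]; simp)
  · intro h hh
    refine ⟨((⟨h, hh⟩ * t ^ (-(Multiplicative.toAdd (φ ⟨h, hh⟩)) : ℤ) : H) : Γ), hN' _ ?_,
      Multiplicative.toAdd (φ ⟨h, hh⟩), ?_⟩
    · rw [map_mul, map_zpow, ht]
      apply Multiplicative.toAdd.injective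
      rw [toAdd_mul, toAdd_zpow]
      simp
    · simp
  · intro hle
    obtain ⟨t', ht', h1⟩ := hN t (hle t.2)
    have : t' = t := Subtype.ext ht'
    rw [this, ht] at h1
    have h2 := congrArg Multiplicative.toAdd h1
    simp at h2
  · rintro n hn _ ⟨p, hp, rfl⟩
    obtain ⟨n', rfl, h⟩ := hN n hn
    rw [alphaW_apply, ← map_mul, ← map_mul]
    congr 1
    funext k
    change perm K (X k) (n' : Γ) * mulOp K (p k) = mulOp K (p k) * perm K (X k) (n' : Γ)
    rw [perm_mulOp]
    congr 2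
    funext x
    exact hp k n'⁻¹ (by rw [map_inv, h, inv_one]) x
  · rintro _ ⟨p, hp, rfl⟩
    refine ⟨fun k x => p k ((t : Γ)⁻¹ • x), ?_, ?_⟩
    · intro k n hn x
      have h1 : (t : Γ)⁻¹ • (n : Γ) • x = ((t⁻¹ * n * t : H) : Γ) • (t : Γ)⁻¹ • x := by
        rw [← mul_smul, ← mul_smul]; congr 1; push_cast; group
      beta_reduce
      rw [h1, hp k _ (by rw [map_mul, map_mul, hn, map_inv]; simp)]
    · rw [alphaW_apply, alphaW_apply, ← map_mul, ← map_mul]
      congr 1
      funext k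
      exact perm_mulOp_perm K (t : Γ) (p k)
  · rintro _ ⟨p, hp, rfl⟩
    refine ⟨fun k x => p k (((t : Γ)⁻¹)⁻¹ • x), ?_, ?_⟩
    · intro k n hn x
      have h1 : ((t : Γ)⁻¹)⁻¹ • (n : Γ) • x = ((t * n * t⁻¹ : H) : Γ) • ((t : Γ)⁻¹)⁻¹ • x := by
        rw [← mul_smul, ← mul_smul]; congr 1; push_cast; group
      beta_reduce
      rw [h1, hp k _ (by rw [map_mul, map_mul, hn, map_inv]; simp)]
    · have h2 : (t : Γ) = ((t : Γ)⁻¹)⁻¹ := by group
      rw [alphaW_apply, alphaW_apply, ← map_mul, ← map_mul]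
      congr 1
      funext k
      have := perm_mulOp_perm K ((t : Γ)⁻¹) (p k)
      rw [← h2] at this
      rw [← h2]
      exact this
  · intro M
    refine ⟨fun k => ind M k, fun k n hn x => ?_, rfl⟩
    simp only [ind, hY1 (M - 1) k n hn x]
  · intro M hM
    rw [alphaW_apply, ← map_mul, ← map_pow, ← map_zero (mkW K X)]
    congr 1
    funext k
    change (perm K (X k) (t : Γ) * mulOp K (ind M k)) ^ M = 0
    apply nilpotent_of
    intro x
    obtain ⟨i, hi, h⟩ := hY2 (M - 1) k x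
    exact ⟨i, by omega, by simp only [ind]; rw [if_neg h]⟩
  · intro M hM
    rw [← map_one (mkW K X), ← map_sub, hR]
    apply limRk_le _ (by positivity)
    filter_upwards [hY3 (M - 1)] with k hk
    have h1 : (1 - fun k => mulOp K (ind M k) : ∀ k, Module.End K (X k → K)) k =
        mulOp K (fun x => 1 - ind M k x) := by
      apply LinearMap.ext; intro f; funext x
      change f x - ind M k x * f x = (1 - ind M k x) * f x
      ring
    rw [h1]
    change (rn (mulOp K (fun x => 1 - ind M k x)) : ℝ) / finrank K (X k → K) ≤ 2 / M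
    rw [finrank_fun]
    have hpos : (0 : ℝ) < Fintype.card (X k) := by exact_mod_cast Fintype.card_pos
    rw [div_le_iff₀ hpos]
    have h2 := rn_mulOp K (fun x => 1 - ind M k x)
    have h3 : (Finset.univ.filter fun x => 1 - ind M k x ≠ 0).card =
        Nat.card {x // x ∉ Y (M - 1) k} := by
      rw [Nat.card_eq_fintype_card, Fintype.card_subtype]
      congr 1
      ext x
      rw [Finset.mem_filter, Finset.mem_filter]
      apply and_congr_right; intro _
      simp only [ind]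
      split_ifs with h
      · simp [h]
      · simp [h]
    rw [h3] at h2
    have h4 : ((M - 1 + 1 : ℕ) : ℝ) = M := by
      congr 1; omega
    rw [h4] at hk
    calc (rn (mulOp K (fun x => 1 - ind M k x)) : ℝ) ≤ Nat.card {x // x ∉ Y (M - 1) k} := by
          exact_mod_cast h2
      _ ≤ _ := hk
      _ = _ := by ring

end

end Pool.Agent.CIR
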