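import Mathlib

/-!
# CIR / Fact : rank factorisation over a division ring

MP_05b873_al.
-/

namespace Pool.Agent.CIR

open Matrix

/-- Rank factorisation over a division ring. -/
theorem exists_factor {D : Type*} [DivisionRing D] {m n : ℕ} (A : Matrix (Fin m) (Fin n) D) :
    ∃ (r : ℕ) (U : Matrix (Fin m) (Fin r) D) (V : Matrix (Fin r) (Fin n) D)
      (U' : Matrix (Fin r) (Fin m) D) (V' : Matrix (Fin n) (Fin r) D),
      A = U * V ∧ U' * A * V' = 1 := by
  classical
  -- the left linear map `v ↦ v ᵥ* A`
  set f : (Fin m → D) →ₗ[D] (Fin n → D) := Matrix.vecMulLinear A with hf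
  set P := LinearMap.range f with hP
  set r := Module.finrank D P with hr
  let b : Module.Basis (Fin r) D P := Module.finBasis D P
  -- rows of V
  let V : Matrix (Fin r) (Fin n) D := fun i => (b i : Fin n → D)
  have hmem : ∀ i : Fin m, A i ∈ P := by
    intro i
    refine ⟨Pi.single i 1, ?_⟩
    rw [hf]
    simp
    rfl
  let U : Matrix (Fin m) (Fin r) D := fun i j => b.repr ⟨A i, hmem i⟩ j
  have hUV : A = U * V := by
    ext i k
    have h1 := b.sum_repr ⟨A i, hmem i⟩
    have h2 := congrArg (fun w : P => (w : Fin n → D) k) h1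
    simp only [Submodule.coe_sum, Submodule.coe_smul, Finset.sum_apply, Pi.smul_apply] at h2
    rw [Matrix.mul_apply]
    exact h2.symm
  -- preimages
  have hex : ∀ i : Fin r, ∃ u : Fin m → D, f u = b i := fun i => (b i).2
  choose u hu using hex
  let U' : Matrix (Fin r) (Fin m) D := fun i => u i
  have hU'A : U' * A = V := by
    ext i k
    have h1 := congrFun (hu i) k
    rw [hf, Matrix.vecMulLinear_apply] at h1
    exact h1
  -- left inverse
  have hli : LinearIndependent D (fun i => (b i : Fin n → D)) :=
    b.linearIndependent.map' P.subtype (Submodule.ker_subtype P)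
  set g : (Fin r → D) →ₗ[D] (Fin n → D) := Matrix.vecMulLinear V with hg
  have hginj : LinearMap.ker g = ⊥ := by
    rw [LinearMap.ker_eq_bot']
    intro w hw
    rw [Fintype.linearIndependent_iff] at hli
    funext i
    apply hli w
    rw [← hw, hg, Matrix.vecMulLinear_apply]
    ext k
    simp [Matrix.vecMul, dotProduct, V]
  obtain ⟨h, hh⟩ := g.exists_leftInverse_of_injective hginj
  let V' : Matrix (Fin n) (Fin r) D := fun k j => h (Pi.single k 1) j
  have hVV' : V * V' = 1 := by
    ext i j
    have h1 : h (g (Pi.single i 1)) = Pi.single i 1 := by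
      have := LinearMap.congr_fun hh (Pi.single i 1)
      simpa using this
    have h2 : g (Pi.single i 1) = V i := by
      rw [hg, Matrix.vecMulLinear_apply]
      ext k; simp
    rw [h2] at h1
    have h3 : V i = ∑ k, V i k • (Pi.single k 1 : Fin n → D) := by
      ext k
      simp [Finset.sum_apply, Pi.single_apply]
    rw [h3, map_sum] at h1
    have h4 := congrFun h1 j
    simp only [map_smul, Finset.sum_apply, Pi.smul_apply, smul_eq_mul] at h4
    rw [Matrix.mul_apply]
    rw [h4, Matrix.one_apply, Pi.single_apply]
    simp only [eq_comm]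
  refine ⟨r, U, V, U', V', hUV, ?_⟩
  rw [hU'A, hVV']

end Pool.Agent.CIR
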