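import Mathlib
import Pool.Agent.CIR.Expand
import Pool.Agent.CIR.Fact

/-!
# CIR / Div : the division ring generated by the group elements

MP_05b873_al.  The set of all elements `x` such that `x = 0` or `x * α g⁻¹` has a derivation is a
subring of `W` containing the scalars and the group elements, and all its nonzero elements are
invertible in it.  Hence matrices over it have a rank factorisation.
-/

namespace Pool.Agent.CIR

open Matrix

section

variable {K : Type*} [Field K] {Γ : Type*} [Group Γ] {W : Type*} [Ring W]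
  {O : Ops} {ι : K →+* W} {R : RankData W} {α : Γ →* W}

variable (O ι α) in
/-- the division ring of all elements with a derivation -/
def Erng (hι : ∀ c x, ι c * x = x * ι c) : Subring W where
  carrier := {x | ∃ c, De O ι α ⊤ c x}
  zero_mem' := by
    refine ⟨0, ?_⟩
    have := De.scalar (O := O) (ι := ι) (α := α) ⊤ 0
    rwa [map_zero] at this
  one_mem' := by
    refine ⟨0, ?_⟩
    have := De.scalar (O := O) (ι := ι) (α := α) ⊤ 1
    rwa [map_one] at this
  add_mem' := fun ⟨_, hx⟩ ⟨_, hy⟩ => ⟨_, hx.add hy⟩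
  mul_mem' := fun ⟨_, hx⟩ ⟨_, hy⟩ => ⟨_, hx.mul hι hy⟩
  neg_mem' := by
    rintro x ⟨c, hx⟩
    have h1 := De.scalar (O := O) (ι := ι) (α := α) ⊤ (-1)
    have h2 := h1.mul hι hx
    rw [map_neg, map_one, neg_one_mul] at h2
    exact ⟨_, h2⟩

theorem scalar_mem (hι : ∀ c x, ι c * x = x * ι c) (c : K) : ι c ∈ Erng O ι α hι :=
  ⟨0, De.scalar ⊤ c⟩

theorem alpha_mem (hι : ∀ c x, ι c * x = x * ι c) (g : Γ) : α g ∈ Erng O ι α hι := by
  refine ⟨0, ?_⟩
  have h1 := De.scalar (O := O) (ι := ι) (α := α) ⊤ 1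
  rw [map_one] at h1
  have h2 := h1.mul_alpha (Subgroup.mem_top g)
  rwa [one_mul] at h2

theorem Erng_inv (hι : ∀ c x, ι c * x = x * ι c)
    (hS : ∀ H : Subgroup Γ, H.FG → H ≠ ⊥ → Nonempty (Split R α H)) {x : W}
    (hx : x ∈ Erng O ι α hι) (h0 : x ≠ 0) : ∃ y ∈ Erng O ι α hι, x * y = 1 ∧ y * x = 1 := by
  obtain ⟨c, hc⟩ := hx
  have hc' := hc
  obtain ⟨H', _, g, _, hD⟩ := hc'
  rcases hD.zero_or_unit hι hS with h1 | h1
  · exfalso
    apply h0
    calc x = x * α g⁻¹ * α g := by rw [mul_assoc, alpha_inv_mul, mul_one]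
      _ = 0 := by rw [h1, zero_mul]
  · have h2 : IsUnit (α g) := ⟨⟨α g, α g⁻¹, alpha_mul_inv α g, alpha_inv_mul α g⟩, rfl⟩
    have h3 : IsUnit x := by
      have h4 := h1.mul h2
      rw [mul_assoc, alpha_inv_mul, mul_one] at h4
      exact h4
    obtain ⟨u, rfl⟩ := h3
    exact ⟨((u⁻¹ : Wˣ) : W), ⟨_, hc.inv hι (by simp) (by simp)⟩, by simp, by simp⟩

/-- rank factorisation of matrices with entries in the division ring -/
theorem exists_factor_W [Nontrivial W] (hι : ∀ c x, ι c * x = x * ι c)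
    (hS : ∀ H : Subgroup Γ, H.FG → H ≠ ⊥ → Nonempty (Split R α H)) {m n : ℕ}
    (A : Matrix (Fin m) (Fin n) W) (hA : ∀ i j, A i j ∈ Erng O ι α hι) :
    ∃ (r : ℕ) (U : Matrix (Fin m) (Fin r) W) (V : Matrix (Fin r) (Fin n) W)
      (U' : Matrix (Fin r) (Fin m) W) (V' : Matrix (Fin n) (Fin r) W),
      A = U * V ∧ U' * A * V' = 1 := by
  classical
  set E := Erng O ι α hι with hE
  have : Nontrivial E := inferInstance
  have hdiv : ∀ a : E, IsUnit a ∨ a = 0 := by
    intro a
    by_cases ha : a = 0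
    · exact Or.inr ha
    · left
      obtain ⟨y, hy, h1, h2⟩ := Erng_inv hι hS a.2 (fun h => ha (Subtype.ext h))
      exact ⟨⟨a, ⟨y, hy⟩, Subtype.ext h1, Subtype.ext h2⟩, rfl⟩
  let _ : DivisionRing E := DivisionRing.ofIsUnitOrEqZero hdiv
  let A' : Matrix (Fin m) (Fin n) E := fun i j => ⟨A i j, hA i j⟩
  obtain ⟨r, U, V, U', V', h1, h2⟩ := exists_factor A'
  have key : ∀ {a b c : ℕ} (X : Matrix (Fin a) (Fin b) E) (Y : Matrix (Fin b) (Fin c) E),
      (X * Y).map E.subtype = X.map E.subtype * Y.map E.subtype := by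
    intro a b c X Y
    exact Matrix.map_mul
  have hAmap : A'.map E.subtype = A := by ext i j; rfl
  refine ⟨r, U.map E.subtype, V.map E.subtype, U'.map E.subtype, V'.map E.subtype, ?_, ?_⟩
  · rw [← key, ← h1, hAmap]
  · rw [← hAmap, ← key, ← key, h2]
    exact Matrix.map_one _ (map_zero _) (map_one _)

end

end Pool.Agent.CIR
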