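import Mathlib
import Pool.Agent.CIR.Conc
import Pool.Agent.CIR.Div

/-!
# CIR / Conv : convergence of normalised ranks

MP_05b873_al.
-/

namespace Pool.Agent.CIR

open Module Filter Topology

section

variable (K : Type*) [Field K] {Γ : Type*} [Group Γ]

/-- the permutation representation of the group algebra -/
noncomputable def permAlg (X : Type*) [MulAction Γ X] :
    MonoidAlgebra K Γ →ₐ[K] Module.End K (X → K) :=
  MonoidAlgebra.lift K (Module.End K (X → K)) Γ (perm K X)

theorem permAlg_single (X : Type*) [MulAction Γ X] (g : Γ) (c : K) :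
    permAlg K X (MonoidAlgebra.single g c) = c • perm K X g := by
  unfold permAlg
  rw [MonoidAlgebra.lift_single]

/-- the rank of the matrix `A` over the group algebra on functions on `X` -/
noncomputable def rkX {K : Type*} [Field K] (X : Type*) [MulAction Γ X] {m n : ℕ}
    (A : Matrix (Fin m) (Fin n) (MonoidAlgebra K Γ)) : ℕ :=
  rn (bl (A.map (permAlg K X)))

variable (X : ℕ → Type*) [∀ k, MulAction Γ (X k)] [∀ k, Fintype (X k)] [∀ k, Nonempty (X k)]

/-- the image of the group algebra in `W` -/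
noncomputable def algW (a : MonoidAlgebra K Γ) : WW K X := mkW K X (fun k => permAlg K (X k) a)

theorem algW_mem (O : Ops) (a : MonoidAlgebra K Γ) :
    algW K X a ∈ Erng O (iotaW K X) (alphaW (Γ := Γ) K X) (iotaW_comm K X) := by
  induction a using MonoidAlgebra.induction_linear with
  | zero =>
    have : algW K X (0 : MonoidAlgebra K Γ) = 0 := by
      unfold algW
      rw [← map_zero (mkW K X)]; congr 1
    rw [this]; exact Subring.zero_mem _
  | add a b ha hb =>
    have : algW K X (a + b) = algW K X a + algW K X b := by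
      unfold algW
      rw [← map_add]; congr 1; funext k; exact map_add _ _ _
    rw [this]; exact Subring.add_mem _ ha hb
  | single g c =>
    have : algW K X (MonoidAlgebra.single g c) = iotaW K X c * alphaW K X g := by
      unfold algW
      rw [alphaW_apply]
      unfold iotaW
      rw [RingHom.comp_apply, ← map_mul]; congr 1; funext k
      rw [permAlg_single]
      exact Algebra.smul_def c _
    rw [this]
    exact Subring.mul_mem _ (scalar_mem _ c) (alpha_mem _ g)

omit [∀ k, MulAction Γ (X k)] in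
theorem nontrivial_W (R : RankData (WW K X))
    (hR : ∀ x, R.rho (mkW K X x) = limRk (rr K X) x) : Nontrivial (WW K X) := by
  refine ⟨⟨0, 1, fun h => ?_⟩⟩
  have h1 : R.rho (mkW K X 1) = 0 := by
    rw [map_one, ← h]; exact R.rho_zero
  rw [hR] at h1
  have h2 := eventually_of_limRk_lt (rr K X) (x := 1) (δ := 1 / 2) (by rw [h1]; norm_num)
  obtain ⟨k, hk⟩ := h2.exists
  have h3 : (rr K X k).rk ((1 : ∀ k, Module.End K (X k → K)) k) = 1 := (rr K X k).rk_one
  rw [h3] at hk
  norm_num at hk

/-- **Convergence of the normalised ranks** -/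
theorem tendsto_rkX
    (hst : ∀ H : Subgroup Γ, H.FG → H ≠ ⊥ →
      ∃ φ : H →* Multiplicative ℤ, Function.Surjective φ ∧ StabCond X H φ)
    {m n : ℕ} (A : Matrix (Fin m) (Fin n) (MonoidAlgebra K Γ)) :
    ∃ r : ℕ, Tendsto (fun k => (rkX (X k) A : ℝ) / Fintype.card (X k)) atTop (𝓝 r) := by
  classical
  obtain ⟨O⟩ := exists_ops
  obtain ⟨R, hR⟩ : ∃ R : RankData (WW K X), ∀ x, R.rho (mkW K X x) = limRk (rr K X) x :=
    exists_quot (pr K X)
  have hS : ∀ H : Subgroup Γ, H.FG → H ≠ ⊥ → Nonempty (Split R (alphaW K X) H) := by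
    intro H h1 h2
    obtain ⟨φ, hφ, hst'⟩ := hst H h1 h2
    exact exists_split K X R hR H φ hφ hst'
  have hnt := nontrivial_W K X R hR
  -- the matrix over W
  let AW : Matrix (Fin m) (Fin n) (WW K X) := A.map (algW K X)
  obtain ⟨r, U, Y, U', Y', h1, h2⟩ := exists_factor_W (O := O) (iotaW_comm K X) hS AW
    (fun i j => algW_mem K X O (A i j))
  refine ⟨r, ?_⟩
  -- lifts
  choose lift hlift using mkW_surjective K X
  let P := ∀ k, Module.End K (X k → K)
  let A' : Matrix (Fin m) (Fin n) P := A.map fun a k => permAlg K (X k) a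
  let U₁ : Matrix (Fin m) (Fin r) P := U.map lift
  let Y₁ : Matrix (Fin r) (Fin n) P := Y.map lift
  let U₂ : Matrix (Fin r) (Fin m) P := U'.map lift
  let Y₂ : Matrix (Fin n) (Fin r) P := Y'.map lift
  have hmap : ∀ {a b : ℕ} (Z : Matrix (Fin a) (Fin b) (WW K X)),
      (Z.map lift).map (mkW K X) = Z := by
    intro a b Z; ext i j; exact hlift _
  have hA' : A'.map (mkW K X) = AW := by ext i j; rfl
  have e1 : (A' - U₁ * Y₁).map (mkW K X) = 0 := by
    rw [Matrix.map_sub _ (map_sub (mkW K X)), Matrix.map_mul, hmap, hmap, hA', h1, sub_self]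
  have e2 : (1 - U₂ * A' * Y₂).map (mkW K X) = 0 := by
    rw [Matrix.map_sub _ (map_sub (mkW K X)), Matrix.map_mul, Matrix.map_mul, hmap, hmap, hA', h2,
      Matrix.map_one _ (map_zero _) (map_one _), sub_self]
  have key : ∀ x : P, mkW K X x = 0 →
      Tendsto (fun k => (rn (x k) : ℝ) / Fintype.card (X k)) atTop (𝓝 0) := by
    intro x hx
    have h3 : limRk (rr K X) x = 0 := by rw [← hR, hx, R.rho_zero]
    have h4 := tendsto_of_limRk (rr K X) h3
    refine h4.congr (fun k => ?_)
    change (rn (x k) : ℝ) / finrank K (X k → K) = _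
    rw [finrank_fun]
  have t1 : Tendsto (fun k => ∑ i, ∑ j, (rn ((A' - U₁ * Y₁) i j k) : ℝ) / Fintype.card (X k))
      atTop (𝓝 0) := by
    have : (0 : ℝ) = ∑ i : Fin m, ∑ j : Fin n, 0 := by simp
    rw [this]
    refine tendsto_finsetSum _ fun i _ => tendsto_finsetSum _ fun j _ => key _ ?_
    exact congrFun (congrFun e1 i) j
  have t2 : Tendsto (fun k => ∑ i, ∑ j,
      (rn ((1 - U₂ * A' * Y₂ : Matrix (Fin r) (Fin r) P) i j k) : ℝ) / Fintype.card (X k))
      atTop (𝓝 0) := by
    have : (0 : ℝ) = ∑ i : Fin r, ∑ j : Fin r, 0 := by simp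
    rw [this]
    refine tendsto_finsetSum _ fun i _ => tendsto_finsetSum _ fun j _ => key _ ?_
    exact congrFun (congrFun e2 i) j
  -- evaluation at k
  let ev : ∀ k, P →+* Module.End K (X k → K) := fun k => Pi.evalRingHom _ k
  have hk : ∀ k, (rkX (X k) A : ℝ) / Fintype.card (X k) ≤
      r + ∑ i, ∑ j, (rn ((A' - U₁ * Y₁) i j k) : ℝ) / Fintype.card (X k) ∧
      (r : ℝ) - ∑ i, ∑ j, (rn ((1 - U₂ * A' * Y₂ : Matrix (Fin r) (Fin r) P) i j k) : ℝ) /
        Fintype.card (X k) ≤ (rkX (X k) A : ℝ) / Fintype.card (X k) := by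
    intro k
    have hpos : (0 : ℝ) < Fintype.card (X k) := by exact_mod_cast Fintype.card_pos
    have h5 := rn_bl_close (A.map (permAlg K (X k))) (U₁.map (ev k)) (Y₁.map (ev k))
      (U₂.map (ev k)) (Y₂.map (ev k))
    have h6 : A'.map (ev k) = A.map (permAlg K (X k)) := by ext i j; rfl
    have h7 : A.map (permAlg K (X k)) - U₁.map (ev k) * Y₁.map (ev k) =
        (A' - U₁ * Y₁).map (ev k) := by
      rw [Matrix.map_sub _ (map_sub (ev k)), Matrix.map_mul, h6]
    have h8 : (1 : Matrix (Fin r) (Fin r) (Module.End K (X k → K))) -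
        U₂.map (ev k) * A.map (permAlg K (X k)) * Y₂.map (ev k) =
        (1 - U₂ * A' * Y₂).map (ev k) := by
      rw [Matrix.map_sub _ (map_sub (ev k)), Matrix.map_mul, Matrix.map_mul, h6,
        Matrix.map_one _ (map_zero _) (map_one _)]
    rw [h7, h8, finrank_fun] at h5
    obtain ⟨h9, h10⟩ := h5
    constructor
    · rw [div_le_iff₀ hpos, add_mul, Finset.sum_mul]
      have h11 : (rn (bl (A.map (permAlg K (X k)))) : ℝ) ≤ r * Fintype.card (X k) +
          ∑ i, ∑ j, (rn ((A' - U₁ * Y₁).map (ev k) i j) : ℝ) := by exact_mod_cast h9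
      refine h11.trans (le_of_eq ?_)
      congr 1
      apply Finset.sum_congr rfl; intro i _
      rw [Finset.sum_mul]
      apply Finset.sum_congr rfl; intro j _
      rw [div_mul_cancel₀ _ hpos.ne']
      rfl
    · rw [le_div_iff₀ hpos, sub_mul, Finset.sum_mul, sub_le_iff_le_add]
      have h11 : (r : ℝ) * Fintype.card (X k) ≤ (rn (bl (A.map (permAlg K (X k)))) : ℝ) +
          ∑ i, ∑ j, (rn ((1 - U₂ * A' * Y₂ : Matrix (Fin r) (Fin r) P).map (ev k) i j) : ℝ) := by
        exact_mod_cast h10
      refine h11.trans (le_of_eq ?_)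
      congr 1
      apply Finset.sum_congr rfl; intro i _
      rw [Finset.sum_mul]
      apply Finset.sum_congr rfl; intro j _
      rw [div_mul_cancel₀ _ hpos.ne']
      rfl
  have t3 := (tendsto_const_nhds (x := (r : ℝ)) (f := atTop (α := ℕ))).add t1
  have t4 := (tendsto_const_nhds (x := (r : ℝ)) (f := atTop (α := ℕ))).sub t2
  rw [add_zero] at t3
  rw [sub_zero] at t4
  exact tendsto_of_tendsto_of_tendsto_of_le_of_le t4 t3 (fun k => (hk k).2) (fun k => (hk k).1)

end

end Pool.Agent.CIR
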