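import Mathlib
import Pool.Agent.CIR.Conv

/-!
# CIR / Seqs : sequences of finite index normal subgroups

MP_05b873_al.
-/

namespace Pool.Agent.CIR

open Module Filter Topology

section

variable {K : Type*} [Field K] {Γ : Type*} [Group Γ]

/-- A family `Φ` of homomorphisms to the integers, one for each subgroup, is *indicating* if
`Φ H` is surjective for every nontrivial finitely generated subgroup `H`. -/
def Indicating (Φ : ∀ H : Subgroup Γ, H →* Multiplicative ℤ) : Prop :=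
  ∀ H : Subgroup Γ, H.FG → H ≠ ⊥ → Function.Surjective (Φ H)

/-- A sequence of subgroups is `Φ`-compatible if for every nontrivial finitely generated subgroup
`H` the index of `Φ H (H ∩ Δ k)` in `ℤ` tends to infinity. -/
def Compatible (Φ : ∀ H : Subgroup Γ, H →* Multiplicative ℤ) (Δ : ℕ → Subgroup Γ) : Prop :=
  ∀ H : Subgroup Γ, H.FG → H ≠ ⊥ → ∀ C : ℕ, ∀ᶠ k in atTop, ∃ m : ℕ, C ≤ m ∧
    ∀ h : H, (h : Γ) ∈ Δ k → (m : ℤ) ∣ Multiplicative.toAdd (Φ H h)

theorem Compatible.interlace {Φ : ∀ H : Subgroup Γ, H →* Multiplicative ℤ}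
    {Δ Δ' : ℕ → Subgroup Γ} (h : Compatible Φ Δ) (h' : Compatible Φ Δ') :
    Compatible Φ (fun k => if k % 2 = 0 then Δ (k / 2) else Δ' (k / 2)) := by
  intro H h1 h2 C
  obtain ⟨a, ha⟩ := eventually_atTop.1 (h H h1 h2 C)
  obtain ⟨b, hb⟩ := eventually_atTop.1 (h' H h1 h2 C)
  rw [eventually_atTop]
  refine ⟨2 * (a + b), fun k hk => ?_⟩
  dsimp only
  split_ifs with hk2
  · exact ha (k / 2) (by omega)
  · exact hb (k / 2) (by omega)

/-- the rank of `A` on functions on `Γ ⧸ D` divided by the index of `D` -/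
noncomputable def nrk {m n : ℕ} (A : Matrix (Fin m) (Fin n) (MonoidAlgebra K Γ))
    (D : Subgroup Γ) : ℝ := (rkX (Γ ⧸ D) A : ℝ) / D.index

/-- convergence for one sequence -/
theorem tendsto_rk_one (Φ : ∀ H : Subgroup Γ, H →* Multiplicative ℤ) (hΦ : Indicating Φ)
    {m n : ℕ} (A : Matrix (Fin m) (Fin n) (MonoidAlgebra K Γ)) (Δ : ℕ → Subgroup Γ)
    (hn : ∀ k, (Δ k).Normal) (hf : ∀ k, (Δ k).FiniteIndex) (hc : Compatible Φ Δ) :
    ∃ r : ℕ, Tendsto (fun k => nrk A (Δ k)) atTop (𝓝 r) := by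
  classical
  let _ : ∀ k, Fintype (Γ ⧸ Δ k) := fun k => Fintype.ofFinite _
  obtain ⟨r, hr⟩ := tendsto_rkX K (fun k => Γ ⧸ Δ k) (fun H h1 h2 => ⟨Φ H, hΦ H h1 h2, by
    intro C
    filter_upwards [hc H h1 h2 C] with k hk
    obtain ⟨m, hm, hm2⟩ := hk
    refine ⟨m, hm, fun h x hx => hm2 h ?_⟩
    induction x using QuotientGroup.induction_on with
    | H g =>
      have h3 : ((((h : Γ) * g : Γ)) : Γ ⧸ Δ k) = ((g : Γ) : Γ ⧸ Δ k) := hx
      have h4 := (QuotientGroup.eq.1 h3.symm)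
      have h5 := (hn k).conj_mem _ h4 g
      have h6 : g * (g⁻¹ * ((h : Γ) * g)) * g⁻¹ = (h : Γ) := by group
      rwa [h6] at h5⟩) A
  refine ⟨r, hr.congr (fun k => ?_)⟩
  unfold nrk
  rw [Subgroup.index_eq_card, Nat.card_eq_fintype_card]

/-- **Convergence and independence of the sequence.** -/
theorem tendsto_rk (Φ : ∀ H : Subgroup Γ, H →* Multiplicative ℤ) (hΦ : Indicating Φ)
    {m n : ℕ} (A : Matrix (Fin m) (Fin n) (MonoidAlgebra K Γ)) :
    ∃ r : ℕ, ∀ Δ : ℕ → Subgroup Γ, (∀ k, (Δ k).Normal) → (∀ k, (Δ k).FiniteIndex) →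
      Compatible Φ Δ →
      Tendsto (fun k => nrk A (Δ k)) atTop (𝓝 r) := by
  classical
  by_cases hex : ∃ Δ : ℕ → Subgroup Γ, (∀ k, (Δ k).Normal) ∧ (∀ k, (Δ k).FiniteIndex) ∧
      Compatible Φ Δ
  · obtain ⟨Δ₀, hn₀, hf₀, hc₀⟩ := hex
    obtain ⟨r, hr⟩ := tendsto_rk_one Φ hΦ A Δ₀ hn₀ hf₀ hc₀
    refine ⟨r, fun Δ hn hf hc => ?_⟩
    obtain ⟨r', hr'⟩ := tendsto_rk_one Φ hΦ A Δ hn hf hc
    obtain ⟨s, hs⟩ := tendsto_rk_one Φ hΦ A
      (fun k => if k % 2 = 0 then Δ₀ (k / 2) else Δ (k / 2))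
      (fun k => by split_ifs; exacts [hn₀ _, hn _])
      (fun k => by split_ifs; exacts [hf₀ _, hf _]) (hc₀.interlace hc)
    have h1 : (r : ℝ) = s := by
      have h2 := hs.comp (tendsto_id.const_mul_atTop' (by norm_num : (0 : ℕ) < 2))
      refine tendsto_nhds_unique hr (h2.congr (fun k => ?_))
      have e1 : (2 * k) % 2 = 0 := by omega
      have e2 : (2 * k) / 2 = k := by omega
      simp only [Function.comp_apply, id, e2, if_pos e1]
    have h3 : (r' : ℝ) = s := by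
      have h2 := hs.comp ((tendsto_add_atTop_nat 1).comp
        (tendsto_id.const_mul_atTop' (by norm_num : (0 : ℕ) < 2)))
      refine tendsto_nhds_unique hr' (h2.congr (fun k => ?_))
      have e1 : ¬ (2 * k + 1) % 2 = 0 := by omega
      have e2 : (2 * k + 1) / 2 = k := by omega
      simp only [Function.comp_apply, id, e2, if_neg e1]
    rw [h1, ← h3]
    exact hr'
  · refine ⟨0, fun Δ hn hf hc => absurd ⟨Δ, hn, hf, hc⟩ hex⟩

end

end Pool.Agent.CIR
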