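import Mathlib
import Pool.Agent.CIR.Seqs

/-!
# CIR / GH1 : coinvariants of free modules

MP_05b873_al.  `V`, `V'` are free `K[Γ]`-modules of finite rank, `f : V → V'` is equivariant and
`g : C → C'` is the induced map of the coinvariants under a subgroup `D`.  Then the rank of `g` is
the rank of the matrix of `f` acting on functions on `Γ ⧸ D`.
-/

namespace Pool.Agent.CIR

open Module

section

variable {K : Type*} [Field K] {Γ : Type*} [Group Γ]

/-- `b` is a `Γ`-free basis -/
def FreeBasis {V : Type*} [AddCommGroup V] [Module K V] (ρ : Representation K Γ V) (c : ℕ)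
    (b : Basis (Fin c × Γ) K V) : Prop :=
  ∀ (g : Γ) (j : Fin c) (h : Γ), ρ g (b (j, h)) = b (j, g * h)

/-- `q : V → C` is the quotient of coinvariants under `D` -/
structure IsCoinv {V C : Type*} [AddCommGroup V] [Module K V] [AddCommGroup C] [Module K C]
    (ρ : Representation K Γ V) (D : Subgroup Γ) (q : V →ₗ[K] C) : Prop where
  surj : Function.Surjective q
  inv : ∀ d ∈ D, ∀ v, q (ρ d v) = q v
  univ : ∀ u : V →ₗ[K] K, (∀ d ∈ D, ∀ v, u (ρ d v) = u v) → ∃ F : C →ₗ[K] K, F ∘ₗ q = u

theorem rn_eq_of_equiv {V₁ V₂ W₁ W₂ : Type*} [AddCommGroup V₁] [Module K V₁] [AddCommGroup V₂]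
    [Module K V₂] [AddCommGroup W₁] [Module K W₁] [AddCommGroup W₂] [Module K W₂]
    (e₁ : V₁ ≃ₗ[K] V₂) (e₂ : W₁ ≃ₗ[K] W₂) (f : V₁ →ₗ[K] W₁) (g : V₂ →ₗ[K] W₂)
    (h : ∀ v, e₂ (f v) = g (e₁ v)) : rn f = rn g := by
  unfold rn
  have h1 : LinearMap.range g = (LinearMap.range f).map (e₂ : W₁ →ₗ[K] W₂) := by
    ext w
    constructor
    · rintro ⟨v, rfl⟩
      refine ⟨f (e₁.symm v), ⟨_, rfl⟩, ?_⟩
      change e₂ (f (e₁.symm v)) = g v
      rw [h]; simp
    · rintro ⟨_, ⟨v, rfl⟩, rfl⟩
      exact ⟨e₁ v, (h v).symm⟩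
  rw [h1]
  exact (LinearEquiv.finrank_map_eq e₂ _).symm

variable {V C : Type*} [AddCommGroup V] [Module K V] [AddCommGroup C] [Module K C]
  {ρ : Representation K Γ V} {c : ℕ} {b : Basis (Fin c × Γ) K V} {D : Subgroup Γ}
  {q : V →ₗ[K] C}

/-- the dual of the coinvariants -/
noncomputable def dualEquiv (hb : FreeBasis ρ c b) (hq : IsCoinv ρ D q) :
    (C →ₗ[K] K) ≃ₗ[K] (Fin c → (Γ ⧸ D) → K) :=
  LinearEquiv.ofBijective
    { toFun := fun F i x => Quotient.liftOn' x (fun g => F (q (b (i, g⁻¹)))) (by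
        intro g g' hgg
        rw [QuotientGroup.leftRel_apply] at hgg
        have h1 := hq.inv _ (D.inv_mem hgg) (b (i, g⁻¹))
        rw [hb] at h1
        have h2 : (g⁻¹ * g')⁻¹ * g⁻¹ = g'⁻¹ := by group
        rw [h2] at h1
        change F (q (b (i, g⁻¹))) = F (q (b (i, g'⁻¹)))
        rw [h1])
      map_add' := by
        intro F G; funext i x
        induction x using Quotient.inductionOn'
        rfl
      map_smul' := by
        intro r F; funext i x
        induction x using Quotient.inductionOn'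
        rfl }
    (by
      constructor
      · refine (injective_iff_map_eq_zero _).2 (fun F hF => ?_)
        have h1 : F ∘ₗ q = 0 := by
          apply b.ext
          rintro ⟨i, h⟩
          have h2 := congrFun (congrFun hF i) (QuotientGroup.mk h⁻¹)
          have h3 : F (q (b (i, (h⁻¹)⁻¹))) = 0 := h2
          rw [inv_inv] at h3
          exact h3
        apply LinearMap.ext
        intro x
        obtain ⟨v, rfl⟩ := hq.surj x
        exact LinearMap.congr_fun h1 v
      · intro f
        let u : V →ₗ[K] K := b.constr K (fun p => f p.1 (QuotientGroup.mk p.2⁻¹))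
        have hub : ∀ j h, u (b (j, h)) = f j (QuotientGroup.mk h⁻¹) := by
          intro j h; simp [u, Basis.constr_basis]
        obtain ⟨F, hF⟩ := hq.univ u (by
          intro d hd v
          have h1 : u ∘ₗ ρ d = u := by
            apply b.ext
            rintro ⟨j, h⟩
            rw [LinearMap.comp_apply, hb, hub, hub]
            congr 1
            rw [QuotientGroup.eq]
            have : (d * h)⁻¹⁻¹ * h⁻¹ = d := by group
            rw [this]; exact hd
          exact LinearMap.congr_fun h1 v)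
        refine ⟨F, ?_⟩
        funext i x
        induction x using Quotient.inductionOn' with
        | h g =>
          have h1 := LinearMap.congr_fun hF (b (i, g⁻¹))
          rw [hub, inv_inv] at h1
          exact h1)

theorem dualEquiv_apply (hb : FreeBasis ρ c b) (hq : IsCoinv ρ D q) (F : C →ₗ[K] K) (i : Fin c)
    (g : Γ) : dualEquiv hb hq F i (QuotientGroup.mk g) = F (q (b (i, g⁻¹))) := rfl

theorem finrank_coinv (hb : FreeBasis ρ c b) (hq : IsCoinv ρ D q) [D.FiniteIndex] :
    FiniteDimensional K C ∧ finrank K C = c * D.index := by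
  classical
  let _ : Fintype (Γ ⧸ D) := Fintype.ofFinite _
  have e := dualEquiv hb hq
  have : FiniteDimensional K (Module.Dual K C) := LinearEquiv.finiteDimensional e.symm
  refine ⟨(finite_dual_iff K).mp this, ?_⟩
  rw [← Subspace.dual_finrank_eq]
  change finrank K (C →ₗ[K] K) = _
  rw [e.finrank_eq, Module.finrank_pi_fintype]
  simp only [Module.finrank_pi, Finset.sum_const, Finset.card_univ, Fintype.card_fin,
    smul_eq_mul]
  rw [Subgroup.index_eq_card, Nat.card_eq_fintype_card]

variable {V' C' : Type*} [AddCommGroup V'] [Module K V'] [AddCommGroup C'] [Module K C']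
  {ρ' : Representation K Γ V'} {c' : ℕ} {b' : Basis (Fin c' × Γ) K V'}
  {q' : V' →ₗ[K] C'}

/-- the map `K[Γ] → V'`, `h ↦ b' (j, h)` -/
noncomputable def Lb (b' : Basis (Fin c' × Γ) K V') (j : Fin c') : MonoidAlgebra K Γ →ₗ[K] V' :=
  (Finsupp.lift V' K Γ (fun h => b' (j, h))) ∘ₗ (MonoidAlgebra.coeffLinearEquiv K).toLinearMap

omit [Group Γ] in
theorem Lb_single (b' : Basis (Fin c' × Γ) K V') (j : Fin c') (h : Γ) (r : K) :
    Lb b' j (MonoidAlgebra.single h r) = r • b' (j, h) := by
  unfold Lb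
  simp

theorem exists_coeff (b' : Basis (Fin c' × Γ) K V') (v : V') :
    ∃ a : Fin c' → MonoidAlgebra K Γ, v = ∑ j, Lb b' j (a j) := by
  classical
  let Φ : (Fin c' → MonoidAlgebra K Γ) →ₗ[K] V' := ∑ j, (Lb b' j) ∘ₗ LinearMap.proj j
  have h1 : LinearMap.range Φ = ⊤ := by
    rw [eq_top_iff, ← b'.span_eq, Submodule.span_le]
    rintro _ ⟨⟨j, h⟩, rfl⟩
    refine ⟨Pi.single j (MonoidAlgebra.single h 1), ?_⟩
    simp only [Φ, LinearMap.sum_apply, LinearMap.comp_apply, LinearMap.proj_apply]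
    rw [Finset.sum_eq_single j]
    · rw [Pi.single_eq_same, Lb_single, one_smul]
    · intro i _ hi
      rw [Pi.single_eq_of_ne hi, map_zero]
    · intro h; exact absurd (Finset.mem_univ j) h
  have h2 : v ∈ LinearMap.range Φ := by rw [h1]; trivial
  obtain ⟨a, ha⟩ := h2
  refine ⟨a, ?_⟩
  rw [← ha]
  simp only [Φ, LinearMap.sum_apply, LinearMap.comp_apply, LinearMap.proj_apply]

theorem permAlg_dual (hb' : FreeBasis ρ' c' b') (hq' : IsCoinv ρ' D q') (F : C' →ₗ[K] K)
    (j : Fin c') (a : MonoidAlgebra K Γ) (g : Γ) :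
    permAlg K (Γ ⧸ D) a (dualEquiv hb' hq' F j) (QuotientGroup.mk g) =
      F (q' (ρ' g⁻¹ (Lb b' j a))) := by
  induction a using MonoidAlgebra.induction_linear with
  | zero => rw [map_zero, map_zero, map_zero, map_zero, map_zero]; rfl
  | add a₁ a₂ h1 h2 =>
    rw [map_add, map_add, map_add, map_add, map_add, ← h1, ← h2]; rfl
  | single h r =>
    rw [permAlg_single, Lb_single, map_smul, map_smul, map_smul, hb']
    change r • perm K (Γ ⧸ D) h (dualEquiv hb' hq' F j) (QuotientGroup.mk g) = _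
    rw [perm_apply]
    congr 1
    change dualEquiv hb' hq' F j (QuotientGroup.mk (h⁻¹ * g)) = _
    rw [dualEquiv_apply]
    congr 3
    group

/-- **The rank of the induced map on coinvariants.** -/
theorem rn_coinv (hb : FreeBasis ρ c b) (hq : IsCoinv ρ D q) (hb' : FreeBasis ρ' c' b')
    (hq' : IsCoinv ρ' D q') (f : V →ₗ[K] V') (hf : ∀ g v, f (ρ g v) = ρ' g (f v))
    (M : Matrix (Fin c) (Fin c') (MonoidAlgebra K Γ))
    (hM : ∀ i, f (b (i, 1)) = ∑ j, Lb b' j (M i j))
    (g : C →ₗ[K] C') (hg : g ∘ₗ q = q' ∘ₗ f) : rn g = rkX (Γ ⧸ D) M := by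
  have h1 : rn g = rn g.dualMap := by
    unfold rn
    exact (LinearMap.finrank_range_dualMap_eq_finrank_range g).symm
  rw [h1]
  unfold rkX
  refine rn_eq_of_equiv (dualEquiv hb' hq') (dualEquiv hb hq) _ _ ?_
  intro F
  funext i x
  induction x using Quotient.inductionOn' with
  | h y =>
    change dualEquiv hb hq (g.dualMap F) i (QuotientGroup.mk y) =
      bl (M.map (permAlg K (Γ ⧸ D))) (dualEquiv hb' hq' F) i (QuotientGroup.mk y)
    rw [dualEquiv_apply, bl_apply, Finset.sum_apply]
    have h2 : ∀ j, (M.map (permAlg K (Γ ⧸ D))) i j (dualEquiv hb' hq' F j) (QuotientGroup.mk y) =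
        F (q' (ρ' y⁻¹ (Lb b' j (M i j)))) := fun j => permAlg_dual hb' hq' F j (M i j) y
    rw [Finset.sum_congr rfl (fun j _ => h2 j)]
    have h3 : b (i, y⁻¹) = ρ y⁻¹ (b (i, 1)) := by rw [hb, mul_one]
    have h4 : g (q (b (i, y⁻¹))) = q' (f (b (i, y⁻¹))) := LinearMap.congr_fun hg _
    change F (g (q (b (i, y⁻¹)))) = _
    rw [h4, h3, hf, hM, map_sum, map_sum, map_sum]

end

end Pool.Agent.CIR
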