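import Mathlib
import Pool.Agent.CIR.GH1

/-!
# CIR / GH2 : dimension of homology

MP_05b873_al.
-/

namespace Pool.Agent.CIR

open Module CategoryTheory

universe u v

section

variable {K : Type u} [Field K]

theorem finrank_homology (S : ShortComplex (ModuleCat.{v} K)) [FiniteDimensional K S.X₂] :
    finrank K S.homology + rn S.f.hom + rn S.g.hom = finrank K S.X₂ := by
  have e : S.homology ≅ S.moduleCatLeftHomologyData.H := S.moduleCatHomologyIso
  have h1 : finrank K S.homology = finrank K S.moduleCatLeftHomologyData.H :=
    e.toLinearEquiv.finrank_eq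
  rw [h1]
  change finrank K (LinearMap.ker S.g.hom ⧸ LinearMap.range S.moduleCatToCycles) + _ + _ = _
  have h2 := Submodule.finrank_quotient_add_finrank (LinearMap.range S.moduleCatToCycles)
  have h3 : finrank K (LinearMap.range S.moduleCatToCycles) = rn S.f.hom := by
    unfold rn
    have h4 : LinearMap.range S.f.hom =
        (LinearMap.range S.moduleCatToCycles).map (LinearMap.ker S.g.hom).subtype := by
      ext w
      constructor
      · rintro ⟨v, rfl⟩
        exact ⟨_, ⟨v, rfl⟩, rfl⟩
      · rintro ⟨_, ⟨v, rfl⟩, rfl⟩
        exact ⟨v, rfl⟩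
    rw [h4]
    exact (LinearEquiv.finrank_eq (Submodule.equivMapOfInjective _
      (Submodule.injective_subtype _) _))
  have h5 := LinearMap.finrank_range_add_finrank_ker S.g.hom
  unfold rn at h3 ⊢
  omega

end

end Pool.Agent.CIR
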