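import Mathlib
import Pool.Agent.CIR.GH2

/-!
# CIR / GH3 : group homology of finite index subgroups

MP_05b873_al.
-/

namespace Pool.Agent.CIR

open Module CategoryTheory

universe u

section

variable {K : Type u} {Γ : Type u} [Field K] [Group Γ]

/-- the complex of coinvariants -/
noncomputable abbrev coinvObj (D : Subgroup Γ) (B : Rep.{u} K Γ) : ModuleCat.{u} K :=
  ((Rep.coinvariantsTensor K D).obj (Rep.trivial K D K)).obj ((Rep.resFunctor D.subtype).obj B)

/-- the quotient map -/
noncomputable def coinvQ (D : Subgroup Γ) (B : Rep.{u} K Γ) : B.V →ₗ[K] coinvObj D B :=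
  Rep.coinvariantsTensorMk (Rep.trivial K D K) ((Rep.resFunctor D.subtype).obj B) (1 : K)

theorem coinvQ_apply (D : Subgroup Γ) (B : Rep.{u} K Γ) (v : B.V) :
    coinvQ D B v = Representation.Coinvariants.mk
      ((Rep.trivial K D K).ρ.tprod ((Rep.resFunctor D.subtype).obj B).ρ)
      (TensorProduct.tmul K (1 : K) v) := rfl

theorem isCoinv_coinvQ (D : Subgroup Γ) (B : Rep.{u} K Γ) : IsCoinv B.ρ D (coinvQ D B) where
  surj := by
    intro x
    obtain ⟨y, rfl⟩ := Representation.Coinvariants.mk_surjective _ x
    induction y using TensorProduct.induction_on with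
    | zero => exact ⟨0, by rw [map_zero]; exact (map_zero _).symm⟩
    | tmul r v =>
      refine ⟨(r : K) • v, ?_⟩
      rw [coinvQ_apply]
      congr 1
      have h1 : TensorProduct.tmul K (1 : K) ((r : K) • v) =
          TensorProduct.tmul K ((r : K) • (1 : K)) v := (TensorProduct.smul_tmul _ _ _).symm
      have h2 : (r : K) • (1 : K) = r := mul_one r
      rw [h2] at h1
      exact h1
    | add y z hy hz =>
      obtain ⟨v, hv⟩ := hy
      obtain ⟨w, hw⟩ := hz
      refine ⟨v + w, ?_⟩
      rw [map_add, hv, hw]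
      exact (map_add _ _ _).symm
  inv := by
    intro d hd v
    rw [coinvQ_apply, coinvQ_apply]
    have h := Representation.Coinvariants.mk_self_apply
      ((Rep.trivial K D K).ρ.tprod ((Rep.resFunctor D.subtype).obj B).ρ) ⟨d, hd⟩
      (TensorProduct.tmul K (1 : K) v)
    exact h
  univ := by
    intro u hu
    refine ⟨Representation.Coinvariants.lift _
      (TensorProduct.lift ((LinearMap.lsmul K (B.V →ₗ[K] K)).flip u)) ?_, ?_⟩
    · intro x
      apply TensorProduct.ext'
      intro r v
      change r • u (B.ρ (x : Γ) v) = r • u v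
      rw [hu x x.2]
    · apply LinearMap.ext
      intro v
      change (1 : K) • u v = u v
      rw [one_smul]

theorem coinvQ_nat (D : Subgroup Γ) {B B' : Rep.{u} K Γ} (f : B ⟶ B') :
    (((Rep.coinvariantsTensor K D).obj (Rep.trivial K D K)).map
      ((Rep.resFunctor D.subtype).map f)).hom ∘ₗ coinvQ D B =
        coinvQ D B' ∘ₗ f.hom.toLinearMap := by
  apply LinearMap.ext
  intro v
  rfl

end

end Pool.Agent.CIR
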