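import Mathlib
import Pool.Agent.CIR.GH3

/-!
# CIR / GH4 : group homology of finite index subgroups and matrices

MP_05b873_al.
-/

namespace Pool.Agent.CIR

open Module CategoryTheory

universe u

section

variable {K : Type u} {Γ : Type u} [Field K] [Group Γ]

/-- the standard basis of the free representation -/
noncomputable def stdBasis (K Γ : Type u) [Field K] [Group Γ] (c : ℕ) :
    Basis (Fin c × Γ) K (Rep.free K Γ (Fin c)).V :=
  Basis.ofRepr ((Finsupp.mapRange.linearEquiv (MonoidAlgebra.coeffLinearEquiv K)).trans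
    (Finsupp.curryLinearEquiv K).symm)

theorem stdBasis_apply (c : ℕ) (j : Fin c) (h : Γ) :
    stdBasis K Γ c (j, h) = Finsupp.single j (MonoidAlgebra.single h 1) := by
  unfold stdBasis
  rw [Basis.coe_ofRepr]
  simp only [LinearEquiv.trans_symm, LinearEquiv.symm_symm, LinearEquiv.trans_apply]
  have h1 : (Finsupp.curryLinearEquiv K) (Finsupp.single (j, h) (1 : K)) =
      Finsupp.single j (Finsupp.single h (1 : K)) := Finsupp.curry_single _ _
  rw [h1]
  simp

theorem stdBasis_free (c : ℕ) : FreeBasis (Rep.free K Γ (Fin c)).ρ c (stdBasis K Γ c) := by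
  intro g j h
  rw [stdBasis_apply, stdBasis_apply]
  change Representation.free K Γ (Fin c) g _ = _
  simp

theorem exists_freeBasis {B : Rep.{u} K Γ} {c : ℕ} (h : Nonempty (B ≅ Rep.free K Γ (Fin c))) :
    ∃ b : Basis (Fin c × Γ) K B.V, FreeBasis B.ρ c b := by
  obtain ⟨e⟩ := h
  let e' := Representation.equivOfIso e.symm
  refine ⟨(stdBasis K Γ c).map e'.toLinearEquiv, ?_⟩
  intro g j h
  rw [Basis.map_apply, Basis.map_apply, ← stdBasis_free c g j h]
  exact (Rep.hom_comm_apply e.inv g _).symm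

/-- `Γ` has a projective resolution of the trivial module which is finitely generated free up to
degree `N` -/
def FPres (K Γ : Type u) [Field K] [Group Γ] (N : ℕ) : Prop :=
  ∃ P : ProjectiveResolution (Rep.trivial K Γ K), ∀ i ≤ N, ∃ c : ℕ,
    Nonempty (P.complex.X i ≅ Rep.free K Γ (Fin c))

theorem rkX_zero_right {m : ℕ} (D : Subgroup Γ) [D.FiniteIndex]
    (A : Matrix (Fin m) (Fin 0) (MonoidAlgebra K Γ)) : rkX (Γ ⧸ D) A = 0 := by
  classical
  let _ : Fintype (Γ ⧸ D) := Fintype.ofFinite _
  have h := rn_le_dom (bl (A.map (permAlg K (Γ ⧸ D))))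
  have h2 : finrank K (Fin 0 → (Γ ⧸ D → K)) = 0 := by
    rw [Module.finrank_pi_fintype]; simp
  unfold rkX
  omega

theorem exists_matrix {V V' : Type*} [AddCommGroup V] [Module K V] [AddCommGroup V'] [Module K V']
    {c c' : ℕ} (b : Basis (Fin c × Γ) K V) (b' : Basis (Fin c' × Γ) K V') (f : V →ₗ[K] V') :
    ∃ M : Matrix (Fin c) (Fin c') (MonoidAlgebra K Γ), ∀ i, f (b (i, 1)) = ∑ j, Lb b' j (M i j) := by
  choose a ha using fun i => exists_coeff b' (f (b (i, 1)))
  exact ⟨fun i j => a i j, ha⟩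

/-- **Group homology of finite index subgroups in terms of ranks of matrices.** -/
theorem exists_rank_formula (n : ℕ) (hP : FPres K Γ (n + 1)) :
    ∃ (c a a' : ℕ) (M : Matrix (Fin a) (Fin c) (MonoidAlgebra K Γ))
      (M' : Matrix (Fin c) (Fin a') (MonoidAlgebra K Γ)), ∀ D : Subgroup Γ, D.FiniteIndex →
      finrank K (groupHomology (Rep.trivial K D K) n) + rkX (Γ ⧸ D) M + rkX (Γ ⧸ D) M' =
        c * D.index := by
  classical
  obtain ⟨P, hP⟩ := hP
  obtain ⟨c, hc⟩ := hP n (by omega)
  obtain ⟨b, hb⟩ := exists_freeBasis hc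
  obtain ⟨a, ha⟩ := hP (n + 1) le_rfl
  obtain ⟨b₁, hb₁⟩ := exists_freeBasis ha
  obtain ⟨M, hM⟩ := exists_matrix b₁ b (P.complex.d (n + 1) n).hom.toLinearMap
  -- the general computation of the rank of a differential
  have key : ∀ (D : Subgroup Γ) {i j : ℕ} {ci cj : ℕ} (bi : Basis (Fin ci × Γ) K (P.complex.X i).V)
      (bj : Basis (Fin cj × Γ) K (P.complex.X j).V) (_ : FreeBasis (P.complex.X i).ρ ci bi)
      (_ : FreeBasis (P.complex.X j).ρ cj bj) (M : Matrix (Fin ci) (Fin cj) (MonoidAlgebra K Γ))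
      (_ : ∀ i', (P.complex.d i j).hom.toLinearMap (bi (i', 1)) = ∑ j', Lb bj j' (M i' j')),
      rn ((((Rep.resFunctor.{u} D.subtype).mapProjectiveResolution P).complex.coinvariantsTensorObj
        (Rep.trivial K D K)).d i j).hom = rkX (Γ ⧸ D) M := by
    intro D i j ci cj bi bj hbi hbj M hM
    exact rn_coinv hbi (isCoinv_coinvQ D _) hbj (isCoinv_coinvQ D _) _
      (fun g v => Rep.hom_comm_apply (P.complex.d i j) g v) M hM _ (coinvQ_nat D (P.complex.d i j))
  have main : ∀ (D : Subgroup Γ), D.FiniteIndex →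
      finrank K (groupHomology (Rep.trivial K D K) n) + rkX (Γ ⧸ D) M +
      rn ((((Rep.resFunctor.{u} D.subtype).mapProjectiveResolution P).complex.coinvariantsTensorObj
        (Rep.trivial K D K)).d n ((ComplexShape.down ℕ).next n)).hom = c * D.index := by
    intro D hD
    set C := (((Rep.resFunctor.{u} D.subtype).mapProjectiveResolution
      P).complex.coinvariantsTensorObj (Rep.trivial K D K)) with hC
    have e := groupHomologyIso (Rep.trivial K D K) n
      ((Rep.resFunctor.{u} D.subtype).mapProjectiveResolution P)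
    have h1 : finrank K (groupHomology (Rep.trivial K D K) n) = finrank K (C.homology n) :=
      e.toLinearEquiv.finrank_eq
    obtain ⟨h2, h3⟩ := finrank_coinv hb (isCoinv_coinvQ D _) (D := D)
    have h4 : FiniteDimensional K (C.sc n).X₂ := h2
    have h5 := finrank_homology (C.sc n)
    have h6 : finrank K (C.sc n).X₂ = c * D.index := h3
    rw [h6] at h5
    have h7 : rn (C.sc n).f.hom = rkX (Γ ⧸ D) M := by
      have h8 : (ComplexShape.down ℕ).prev n = n + 1 := ChainComplex.prev ℕ n
      have h9 : rn (C.sc n).f.hom = rn (C.d (n + 1) n).hom := by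
        change rn (C.d ((ComplexShape.down ℕ).prev n) n).hom = _
        rw [h8]
      rw [h9]
      exact key D b₁ b hb₁ hb M hM
    rw [h7] at h5
    rw [h1]
    exact h5
  rcases Nat.eq_zero_or_pos n with hn | hn
  · subst hn
    refine ⟨c, a, 0, M, 0, fun D hD => ?_⟩
    have h1 := main D hD
    rw [rkX_zero_right]
    have h2 : (ComplexShape.down ℕ).next 0 = 0 := ChainComplex.next_nat_zero
    rw [h2] at h1
    have h3 : rn ((((Rep.resFunctor.{u} D.subtype).mapProjectiveResolution
        P).complex.coinvariantsTensorObj (Rep.trivial K D K)).d 0 0).hom = 0 := by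
      rw [HomologicalComplex.shape _ _ _ (by simp)]
      exact rn_zero
    rw [h3] at h1
    exact h1
  · obtain ⟨m, rfl⟩ : ∃ m, n = m + 1 := ⟨n - 1, by omega⟩
    obtain ⟨a', ha'⟩ := hP m (by omega)
    obtain ⟨b₂, hb₂⟩ := exists_freeBasis ha'
    obtain ⟨M', hM'⟩ := exists_matrix b b₂ (P.complex.d (m + 1) m).hom.toLinearMap
    refine ⟨c, a, a', M, M', fun D hD => ?_⟩
    have h1 := main D hD
    have h2 : (ComplexShape.down ℕ).next (m + 1) = m := ChainComplex.next_nat_succ m
    rw [h2] at h1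
    rw [key D b b₂ hb hb₂ M' hM'] at h1
    exact h1

end

end Pool.Agent.CIR
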