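import Mathlib
import Pool.Agent.CIR.GH4

/-!
# CIR / Betti : convergence of normalised Betti numbers

MP_05b873_al.
-/

namespace Pool.Agent.CIR

open Module CategoryTheory Filter Topology

universe u

section

variable {K : Type u} {Γ : Type u} [Field K] [Group Γ]

/-- the normalised Betti number of a subgroup -/
noncomputable def nbetti (K : Type u) {Γ : Type u} [Field K] [Group Γ] (n : ℕ)
    (D : Subgroup Γ) : ℝ :=
  (finrank K (groupHomology (Rep.trivial K D K) n) : ℝ) / D.index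

theorem tendsto_nbetti (Φ : ∀ H : Subgroup Γ, H →* Multiplicative ℤ) (hΦ : Indicating Φ)
    (n : ℕ) (hP : FPres K Γ (n + 1)) :
    ∃ β : ℕ, ∀ Δ : ℕ → Subgroup Γ, (∀ k, (Δ k).Normal) → (∀ k, (Δ k).FiniteIndex) →
      Compatible Φ Δ → Tendsto (fun k => nbetti K n (Δ k)) atTop (𝓝 β) := by
  classical
  obtain ⟨c, a, a', M, M', hM⟩ := exists_rank_formula n hP
  obtain ⟨r, hr⟩ := tendsto_rk Φ hΦ M
  obtain ⟨r', hr'⟩ := tendsto_rk Φ hΦ M'
  have key : ∀ Δ : ℕ → Subgroup Γ, (∀ k, (Δ k).Normal) → (∀ k, (Δ k).FiniteIndex) →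
      Compatible Φ Δ → Tendsto (fun k => nbetti K n (Δ k)) atTop (𝓝 ((c : ℝ) - r - r')) := by
    intro Δ hn hf hc
    have h1 := ((tendsto_const_nhds (x := (c : ℝ)) (f := atTop (α := ℕ))).sub
      (hr Δ hn hf hc)).sub (hr' Δ hn hf hc)
    refine h1.congr (fun k => ?_)
    unfold nbetti nrk
    have h2 := hM (Δ k) (hf k)
    have h3 : ((Δ k).index : ℝ) ≠ 0 := by
      exact_mod_cast (hf k).index_ne_zero
    have h4 : (finrank K (groupHomology (Rep.trivial K (Δ k) K) n) : ℝ) + rkX (Γ ⧸ Δ k) M +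
        rkX (Γ ⧸ Δ k) M' = c * (Δ k).index := by exact_mod_cast h2
    field_simp
    linarith
  by_cases hex : ∃ Δ : ℕ → Subgroup Γ, (∀ k, (Δ k).Normal) ∧ (∀ k, (Δ k).FiniteIndex) ∧
      Compatible Φ Δ
  · obtain ⟨Δ, hn, hf, hc⟩ := hex
    have h1 : (0 : ℝ) ≤ (c : ℝ) - r - r' := by
      refine ge_of_tendsto' (key Δ hn hf hc) (fun k => ?_)
      unfold nbetti; positivity
    refine ⟨c - r - r', fun Δ' hn' hf' hc' => ?_⟩
    have h2 : ((c - r - r' : ℕ) : ℝ) = (c : ℝ) - r - r' := by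
      have h3 : r + r' ≤ c := by
        have : (r : ℝ) + r' ≤ c := by linarith
        exact_mod_cast this
      rw [Nat.sub_sub, Nat.cast_sub h3]; push_cast; ring
    rw [h2]
    exact key Δ' hn' hf' hc'
  · exact ⟨0, fun Δ hn hf hc => absurd ⟨Δ, hn, hf, hc⟩ hex⟩

end

end Pool.Agent.CIR
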