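import Mathlib
import Pool.Agent.CIR.Seqs

/-!
# CIR / Classes : classes of groups

MP_05b873_al.
-/

namespace Pool.Agent.CIR

open Filter Topology

section

variable {Γ : Type*} [Group Γ]

/-- `Γ` is *profinitely indicable*: every nontrivial finitely generated subgroup `H` has an
epimorphism `φ` onto the integers which is continuous for the topology induced on `H` by the
profinite topology of `Γ` (and for the profinite topology of the integers). -/
def ProfIndicable (Γ : Type*) [Group Γ] : Prop :=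
  ∀ H : Subgroup Γ, H.FG → H ≠ ⊥ → ∃ φ : H →* Multiplicative ℤ, Function.Surjective φ ∧
    ∀ m : ℕ, 1 ≤ m → ∃ D : Subgroup Γ, D.FiniteIndex ∧
      ∀ h : H, (h : Γ) ∈ D → (m : ℤ) ∣ Multiplicative.toAdd (φ h)

/-- every finite index subgroup contains almost all members of the sequence -/
def Cofinal (Δ : ℕ → Subgroup Γ) : Prop :=
  ∀ D : Subgroup Γ, D.FiniteIndex → ∀ᶠ k in atTop, Δ k ≤ D

theorem ProfIndicable.exists_family (h : ProfIndicable Γ) :
    ∃ Φ : ∀ H : Subgroup Γ, H →* Multiplicative ℤ, Indicating Φ ∧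
      ∀ Δ : ℕ → Subgroup Γ, Cofinal Δ → Compatible Φ Δ := by
  classical
  have key : ∀ H : Subgroup Γ, ∃ φ : H →* Multiplicative ℤ, H.FG → H ≠ ⊥ →
      Function.Surjective φ ∧ ∀ m : ℕ, 1 ≤ m → ∃ D : Subgroup Γ, D.FiniteIndex ∧
      ∀ h : H, (h : Γ) ∈ D → (m : ℤ) ∣ Multiplicative.toAdd (φ h) := by
    intro H
    by_cases h1 : H.FG ∧ H ≠ ⊥
    · obtain ⟨φ, hφ⟩ := h H h1.1 h1.2
      exact ⟨φ, fun _ _ => hφ⟩
    · exact ⟨1, fun h2 h3 => absurd ⟨h2, h3⟩ h1⟩
  choose Φ hΦ using key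
  refine ⟨Φ, fun H h1 h2 => (hΦ H h1 h2).1, fun Δ hΔ H h1 h2 C => ?_⟩
  obtain ⟨D, hD, hD2⟩ := (hΦ H h1 h2).2 (C + 1) (by omega)
  filter_upwards [hΔ D hD] with k hk
  exact ⟨C + 1, by omega, fun h hh => hD2 h (hk hh)⟩

/-- a nonzero homomorphism to the integers is a multiple of a surjective one -/
theorem exists_surjective {H : Type*} [Group H] (θ : H →* Multiplicative ℤ)
    (h : ∃ x, θ x ≠ 1) : ∃ (φ : H →* Multiplicative ℤ) (d : ℤ), d ≠ 0 ∧ Function.Surjective φ ∧
      ∀ x, Multiplicative.toAdd (θ x) = d * Multiplicative.toAdd (φ x) := by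
  classical
  -- the range as a subgroup of ℤ
  let S : AddSubgroup ℤ :=
    { carrier := {z | ∃ x, Multiplicative.toAdd (θ x) = z}
      zero_mem' := ⟨1, by simp⟩
      add_mem' := by
        rintro _ _ ⟨x, rfl⟩ ⟨y, rfl⟩
        exact ⟨x * y, by simp⟩
      neg_mem' := by
        rintro _ ⟨x, rfl⟩
        exact ⟨x⁻¹, by simp⟩ }
  obtain ⟨d, hd⟩ := Int.subgroup_cyclic S
  have hmem : ∀ x, ∃ z : ℤ, Multiplicative.toAdd (θ x) = d * z := by
    intro x
    have h1 : Multiplicative.toAdd (θ x) ∈ S := ⟨x, rfl⟩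
    rw [hd, AddSubgroup.mem_closure_singleton] at h1
    obtain ⟨z, hz⟩ := h1
    exact ⟨z, by rw [← hz, smul_eq_mul, mul_comm]⟩
  have hd0 : d ≠ 0 := by
    rintro rfl
    obtain ⟨x, hx⟩ := h
    obtain ⟨z, hz⟩ := hmem x
    apply hx
    apply Multiplicative.toAdd.injective
    rw [hz]; simp
  choose z hz using hmem
  refine ⟨{ toFun := fun x => Multiplicative.ofAdd (z x), map_one' := ?_, map_mul' := ?_ }, d,
    hd0, ?_, ?_⟩
  · have h1 := hz 1
    rw [map_one, toAdd_one] at h1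
    have h2 : z 1 = 0 := by
      rcases mul_eq_zero.1 h1.symm with h | h
      · exact absurd h hd0
      · exact h
    rw [h2]; rfl
  · intro x y
    have h1 := hz (x * y)
    rw [map_mul, toAdd_mul, hz x, hz y] at h1
    have h2 : z (x * y) = z x + z y := by
      apply mul_left_cancel₀ hd0
      rw [← h1]; ring
    rw [h2]; rfl
  · intro w
    have h1 : d ∈ S := by
      rw [hd]; exact AddSubgroup.subset_closure rfl
    obtain ⟨x, hx⟩ := h1
    have h2 : z x = 1 := by
      apply mul_left_cancel₀ hd0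
      rw [← hz x, hx, mul_one]
    refine ⟨x ^ (Multiplicative.toAdd w), ?_⟩
    have h3 : z (x ^ (Multiplicative.toAdd w)) = Multiplicative.toAdd w := by
      apply mul_left_cancel₀ hd0
      rw [← hz, map_zpow, toAdd_zpow, hz x, h2, smul_eq_mul]; ring
    change Multiplicative.ofAdd (z (x ^ (Multiplicative.toAdd w))) = w
    rw [h3]; rfl
  · intro x; exact hz x

/-! ### LERF groups -/

/-- locally indicable groups -/
def LocallyIndicable (Γ : Type*) [Group Γ] : Prop :=
  ∀ H : Subgroup Γ, H.FG → H ≠ ⊥ → ∃ φ : H →* Multiplicative ℤ, Function.Surjective φ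

/-- subgroup separable groups -/
def LERF (Γ : Type*) [Group Γ] : Prop :=
  ∀ H : Subgroup Γ, H.FG → ∀ g ∉ H, ∃ D : Subgroup Γ, D.FiniteIndex ∧ H ≤ D ∧ g ∉ D

theorem profIndicable_of_LERF (h1 : LocallyIndicable Γ) (h2 : LERF Γ) : ProfIndicable Γ := by
  classical
  intro H hFG hne
  obtain ⟨φ, hφ⟩ := h1 H hFG hne
  refine ⟨φ, hφ, fun m hm => ?_⟩
  obtain ⟨t, ht⟩ := hφ (Multiplicative.ofAdd 1)
  -- the preimage of mℤ
  let Hm : Subgroup H :=
    { carrier := {h | (m : ℤ) ∣ Multiplicative.toAdd (φ h)}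
      one_mem' := by simp
      mul_mem' := by
        intro a b ha hb
        change (m : ℤ) ∣ _
        rw [map_mul, toAdd_mul]
        exact dvd_add ha hb
      inv_mem' := by
        intro a ha
        change (m : ℤ) ∣ _
        rw [map_inv, toAdd_inv]
        exact (dvd_neg).2 ha }
  have hmem : ∀ h : H, h ∈ Hm ↔ (m : ℤ) ∣ Multiplicative.toAdd (φ h) := fun h => Iff.rfl
  have hfi : Hm.FiniteIndex := by
    let ψ : H →* Multiplicative (ZMod m) :=
      (AddMonoidHom.toMultiplicative (Int.castAddHom (ZMod m))).comp φ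
    have hm' : NeZero m := ⟨by omega⟩
    have hker : ψ.ker = Hm := by
      ext h
      rw [MonoidHom.mem_ker, hmem, ← ZMod.intCast_zmod_eq_zero_iff_dvd]
      constructor
      · intro h3
        exact congrArg Multiplicative.toAdd h3
      · intro h3
        apply Multiplicative.toAdd.injective
        exact h3
    rw [← hker]
    infer_instance
  have hHFG : Group.FG H := (Group.fg_iff_subgroup_fg H).2 hFG
  have hHmFG : Hm.FG := by
    have : Group.FG Hm := Subgroup.fg_of_index_ne_zero Hm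
    exact (Group.fg_iff_subgroup_fg Hm).1 this
  let H' : Subgroup Γ := Hm.map H.subtype
  have hH'FG : H'.FG := by
    obtain ⟨S, hS⟩ := hHmFG
    refine ⟨S.image H.subtype, ?_⟩
    rw [Finset.coe_image, ← MonoidHom.map_closure, hS]
  -- separate the powers of t
  have hsep : ∀ i ∈ Finset.Ico 1 m, ∃ D : Subgroup Γ, D.FiniteIndex ∧ H' ≤ D ∧
      ((t ^ i : H) : Γ) ∉ D := by
    intro i hi
    rw [Finset.mem_Ico] at hi
    apply h2 H' hH'FG
    rintro ⟨y, hy, hyt⟩
    have h3 : y = t ^ i := Subtype.ext hyt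
    rw [h3] at hy
    have h4 : (m : ℤ) ∣ Multiplicative.toAdd (φ (t ^ i)) := hy
    rw [map_pow, ht, toAdd_pow, toAdd_ofAdd] at h4
    simp only [nsmul_eq_mul, mul_one] at h4
    have h5 : m ∣ i := by exact_mod_cast h4
    exact absurd (Nat.le_of_dvd (by omega) h5) (by omega)
  choose! D hD1 hD2 hD3 using hsep
  refine ⟨⨅ i ∈ Finset.Ico 1 m, D i, ?_, fun h hh => ?_⟩
  · exact Subgroup.finiteIndex_iInf' (s := Finset.Ico 1 m) D (fun i hi => hD1 i hi)
  · -- write φ h = m q + i
    by_contra hcon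
    set a := Multiplicative.toAdd (φ h) with ha
    set i : ℕ := (a % (m : ℤ)).toNat with hi
    have hm0 : (0 : ℤ) < m := by exact_mod_cast (by omega : 0 < m)
    have h3 : (i : ℤ) = a % (m : ℤ) := by
      rw [hi, Int.toNat_of_nonneg (Int.emod_nonneg _ hm0.ne')]
    have h4 : (i : ℤ) < m := by rw [h3]; exact Int.emod_lt_of_pos _ hm0
    have h5 : i ≠ 0 := by
      intro h0
      apply hcon
      apply Int.dvd_of_emod_eq_zero
      rw [← h3, h0]; rfl
    have hmem' : i ∈ Finset.Ico 1 m := by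
      rw [Finset.mem_Ico]; omega
    -- y = t^{-i} h ∈ Hm
    have hy : (t ^ i)⁻¹ * h ∈ Hm := by
      rw [hmem, map_mul, map_inv, map_pow, ht, toAdd_mul, toAdd_inv, toAdd_pow, toAdd_ofAdd]
      simp only [nsmul_eq_mul, mul_one]
      rw [← ha, h3]
      have := Int.emod_add_mul_ediv a m
      exact ⟨a / m, by linarith⟩
    have hy' : (((t ^ i)⁻¹ * h : H) : Γ) ∈ D i := hD2 i hmem' ⟨_, hy, rfl⟩
    have hh' : (h : Γ) ∈ D i := by
      rw [Subgroup.mem_iInf] at hh
      have := hh i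
      rw [Subgroup.mem_iInf] at this
      exact this hmem'
    apply hD3 i hmem'
    have h6 : ((t ^ i : H) : Γ) = (h : Γ) * (((t ^ i)⁻¹ * h : H) : Γ)⁻¹ := by
      push_cast; group
    rw [h6]
    exact (D i).mul_mem hh' ((D i).inv_mem hy')

end

end Pool.Agent.CIR
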