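import Mathlib
import Pool.Agent.CIR.Classes

/-!
# CIR / Classes2 : RFRS groups and residually unitriangular groups

MP_05b873_al.
-/

namespace Pool.Agent.CIR

open Filter Topology

section

/-- an element of infinite order of a finitely generated abelian group is detected by a
homomorphism to the integers -/
theorem exists_hom_ne (A : Type*) [CommGroup A] [Group.FG A] (x : A)
    (hx : ∀ n : ℕ, 0 < n → x ^ n ≠ 1) : ∃ ψ : A →* Multiplicative ℤ, ψ x ≠ 1 := by
  classical
  have hfin : Module.Finite ℤ (Additive A) := by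
    have : AddGroup.FG (Additive A) := inferInstance
    exact Module.Finite.iff_addGroup_fg.2 this
  set T := Submodule.torsion ℤ (Additive A) with hT
  have hfree : Module.Free ℤ (Additive A ⧸ T) := inferInstance
  have hne : Submodule.Quotient.mk (p := T) (Additive.ofMul x) ≠ 0 := by
    intro h
    rw [Submodule.Quotient.mk_eq_zero] at h
    obtain ⟨a, ha⟩ := (Submodule.mem_torsion_iff _).1 h
    have ha0 : (a : ℤ) ≠ 0 := nonZeroDivisors.coe_ne_zero a
    have h2 : (a : ℤ) • Additive.ofMul x = 0 := ha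
    have h3 : x ^ (a : ℤ) = 1 := h2
    have h4 : x ^ (a : ℤ).natAbs = 1 := by
      rcases Int.natAbs_eq (a : ℤ) with h5 | h5
      · rw [h5, zpow_natCast] at h3; exact h3
      · rw [h5, zpow_neg, zpow_natCast, inv_eq_one] at h3; exact h3
    exact hx _ (Int.natAbs_pos.2 ha0) h4
  let b := Module.Free.chooseBasis ℤ (Additive A ⧸ T)
  obtain ⟨i, hi⟩ : ∃ i, b.repr (Submodule.Quotient.mk (p := T) (Additive.ofMul x)) i ≠ 0 := by
    by_contra hcon
    push Not at hcon
    apply hne
    apply b.repr.injective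
    rw [map_zero]
    ext i; exact hcon i
  let f : Additive A →ₗ[ℤ] ℤ := (b.coord i) ∘ₗ T.mkQ
  refine ⟨{ toFun := fun y => Multiplicative.ofAdd (f (Additive.ofMul y)),
            map_one' := ?_, map_mul' := ?_ }, ?_⟩
  · have : f (Additive.ofMul (1 : A)) = 0 := map_zero f
    rw [this]; rfl
  · intro y z
    have : f (Additive.ofMul (y * z)) = f (Additive.ofMul y) + f (Additive.ofMul z) :=
      map_add f _ _
    rw [this]; rfl
  · intro h
    apply hi
    exact congrArg Multiplicative.toAdd h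

variable {Γ : Type*} [Group Γ]

/-- a subgroup `H` which lies in a finite index subgroup `G` with a homomorphism to the integers
which is nontrivial on `H` -/
theorem exists_of_virtual (H G : Subgroup Γ) [G.FiniteIndex] (hHG : H ≤ G)
    (ψ : G →* Multiplicative ℤ) (h : ∃ x : H, ψ ⟨x, hHG x.2⟩ ≠ 1) :
    ∃ φ : H →* Multiplicative ℤ, Function.Surjective φ ∧
    ∀ m : ℕ, 1 ≤ m → ∃ D : Subgroup Γ, D.FiniteIndex ∧
      ∀ h : H, (h : Γ) ∈ D → (m : ℤ) ∣ Multiplicative.toAdd (φ h) := by
  classical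
  let θ : H →* Multiplicative ℤ := ψ.comp (Subgroup.inclusion hHG)
  obtain ⟨φ, d, hd, hφ, hθ⟩ := exists_surjective θ (by
    obtain ⟨x, hx⟩ := h
    exact ⟨x, hx⟩)
  refine ⟨φ, hφ, fun m hm => ?_⟩
  -- D = the preimage of d m ℤ in G
  set M : ℕ := d.natAbs * m with hM
  have hM0 : NeZero M := ⟨by
    have : d.natAbs ≠ 0 := Int.natAbs_ne_zero.2 hd
    rw [hM]; exact Nat.mul_ne_zero this (by omega)⟩
  let χ : G →* Multiplicative (ZMod M) :=
    (AddMonoidHom.toMultiplicative (Int.castAddHom (ZMod M))).comp ψ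
  have hfi : χ.ker.FiniteIndex := inferInstance
  refine ⟨χ.ker.map G.subtype, ?_, ?_⟩
  · constructor
    rw [Subgroup.index_map_subtype]
    exact Nat.mul_ne_zero hfi.index_ne_zero (Subgroup.FiniteIndex.index_ne_zero)
  · rintro h ⟨y, hy, hyh⟩
    have h1 : y = Subgroup.inclusion hHG h := Subtype.ext hyh
    have h2 : ((Multiplicative.toAdd (ψ y) : ℤ) : ZMod M) = 0 := by
      have := congrArg Multiplicative.toAdd ((MonoidHom.mem_ker).1 hy)
      exact this
    rw [ZMod.intCast_zmod_eq_zero_iff_dvd] at h2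
    have h3 : Multiplicative.toAdd (ψ y) = d * Multiplicative.toAdd (φ h) := by
      rw [← hθ h, h1]; rfl
    rw [h3, hM] at h2
    have h4 : (d.natAbs : ℤ) * (m : ℤ) ∣ d * Multiplicative.toAdd (φ h) := by
      exact_mod_cast h2
    have h5 : |d| * (m : ℤ) ∣ |d| * Multiplicative.toAdd (φ h) := by
      rw [← Int.natCast_natAbs]
      refine h4.trans ?_
      rw [Int.natCast_natAbs]
      rcases abs_choice d with h6 | h6
      · rw [h6]
      · rw [h6, neg_mul, dvd_neg]
    exact (mul_dvd_mul_iff_left (abs_ne_zero.2 hd)).1 h5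

/-- residually finite rationally solvable groups (Agol) -/
def IsRFRS (Γ : Type*) [Group Γ] : Prop :=
  ∃ G : ℕ → Subgroup Γ, G 0 = ⊤ ∧ Antitone G ∧ (∀ i, (G i).Normal) ∧
    (∀ i, (G i).FiniteIndex) ∧ (⨅ i, G i = ⊥) ∧
    ∀ (i : ℕ) (g : G i), (∃ n : ℕ, 0 < n ∧ (Abelianization.of g) ^ n = 1) → (g : Γ) ∈ G (i + 1)

theorem profIndicable_of_RFRS (hfg : Group.FG Γ) (h : IsRFRS Γ) : ProfIndicable Γ := by
  classical
  obtain ⟨G, h0, hanti, _, hfi, hinf, hG⟩ := h
  intro H _ hne
  -- the maximal i with H ≤ G i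
  have hex : ∃ i, ¬ H ≤ G i := by
    by_contra hcon
    push Not at hcon
    apply hne
    rw [eq_bot_iff, ← hinf]
    exact le_iInf hcon
  set j := Nat.find hex with hj
  have hj0 : j ≠ 0 := by
    intro h1
    have := Nat.find_spec hex
    rw [← hj, h1, h0] at this
    exact this le_top
  obtain ⟨i, hi⟩ : ∃ i, j = i + 1 := ⟨j - 1, by omega⟩
  have hHi : H ≤ G i := by
    have := Nat.find_min hex (m := i) (by omega)
    push Not at this
    exact this
  have hHj : ¬ H ≤ G (i + 1) := by rw [← hi]; exact Nat.find_spec hex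
  obtain ⟨x, hxH, hx⟩ := SetLike.not_le_iff_exists.1 hHj
  have hfii := hfi i
  have hGFG : Group.FG (G i) := Subgroup.fg_of_index_ne_zero (G i)
  have hAFG : Group.FG (Abelianization (G i)) :=
    Group.fg_of_surjective (f := Abelianization.of) (QuotientGroup.mk'_surjective _)
  obtain ⟨ψ, hψ⟩ := exists_hom_ne (Abelianization (G i)) (Abelianization.of ⟨x, hHi hxH⟩) (by
    intro n hn hcon
    exact hx (hG i ⟨x, hHi hxH⟩ ⟨n, hn, hcon⟩))
  exact exists_of_virtual H (G i) hHi (ψ.comp Abelianization.of) ⟨⟨x, hxH⟩, hψ⟩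

/-- residually unitriangular groups: every nontrivial element is mapped to a nontrivial element by
some homomorphism to a group of integral upper unitriangular matrices -/
def ResUnitriangular (Γ : Type*) [Group Γ] : Prop :=
  ∀ g : Γ, g ≠ 1 → ∃ (n : ℕ) (ψ : Γ →* Matrix (Fin n) (Fin n) ℤ),
    (∀ x i, ψ x i i = 1) ∧ (∀ x i j, j < i → ψ x i j = 0) ∧ ψ g ≠ 1

/-- for every nontrivial finitely generated subgroup there is an epimorphism to the integers and
there are congruence subgroups -/
theorem exists_of_unitriangular {H : Subgroup Γ} {n : ℕ} (ψ : Γ →* Matrix (Fin n) (Fin n) ℤ)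
    (h1 : ∀ x i, ψ x i i = 1) (h2 : ∀ x i j, j < i → ψ x i j = 0) {g : Γ} (hg : g ∈ H)
    (h3 : ψ g ≠ 1) :
    ∃ φ : H →* Multiplicative ℤ, Function.Surjective φ ∧
    ∀ m : ℕ, 1 ≤ m → ∃ D : Subgroup Γ, D.FiniteIndex ∧
      ∀ h : H, (h : Γ) ∈ D → (m : ℤ) ∣ Multiplicative.toAdd (φ h) := by
  classical
  -- pairs with a nonzero entry above the diagonal
  have hex : ∃ d : ℕ, ∃ i j : Fin n, (i : ℕ) + d = j ∧ 0 < d ∧ ∃ h ∈ H, ψ h i j ≠ 0 := by
    by_contra hcon
    push Not at hcon
    apply h3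
    ext i j
    rcases lt_trichotomy i j with hij | hij | hij
    · rw [Matrix.one_apply_ne hij.ne]
      exact hcon (j - i) i j (by have := Fin.lt_def.1 hij; omega)
        (by have := Fin.lt_def.1 hij; omega) g hg
    · subst hij; rw [h1, Matrix.one_apply_eq]
    · rw [Matrix.one_apply_ne hij.ne', h2 g i j hij]
  set d := Nat.find hex with hd
  obtain ⟨i, j, hij, hd0, x, hxH, hx⟩ := Nat.find_spec hex
  rw [← hd] at hij hd0
  have hmin : ∀ h ∈ H, ∀ k l : Fin n, k < l → (l : ℕ) < k + d → ψ h k l = 0 := by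
    intro h hh k l hkl hlt
    by_contra hcon
    have hkl' := Fin.lt_def.1 hkl
    exact Nat.find_min hex (m := l - k) (by omega) ⟨k, l, by omega, by omega, h, hh, hcon⟩
  have hijlt : i < j := by rw [Fin.lt_def]; omega
  -- the homomorphism
  let θ : H →* Multiplicative ℤ :=
    { toFun := fun h => Multiplicative.ofAdd (ψ h i j)
      map_one' := by
        have : ψ ((1 : H) : Γ) i j = 0 := by
          rw [Subgroup.coe_one, map_one, Matrix.one_apply_ne hijlt.ne]
        rw [this]; rfl
      map_mul' := by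
        intro a b
        have : ψ ((a * b : H) : Γ) i j = ψ (a : Γ) i j + ψ (b : Γ) i j := by
          rw [Subgroup.coe_mul, map_mul, Matrix.mul_apply]
          rw [Finset.sum_eq_add (a := i) (b := j) hijlt.ne]
          · rw [h1, h1, one_mul, mul_one, add_comm]
          · intro k _ hk
            rcases lt_or_ge k i with hki | hki
            · rw [h2 _ _ _ hki, zero_mul]
            · rcases lt_or_ge j k with hkj | hkj
              · rw [h2 _ _ _ hkj, mul_zero]
              · have hki' : i < k := lt_of_le_of_ne hki (Ne.symm hk.1)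
                have hkj' : k < j := lt_of_le_of_ne hkj hk.2
                rw [hmin a a.2 i k hki' (by
                  have := Fin.lt_def.1 hkj'; omega), zero_mul]
          · intro h; exact absurd (Finset.mem_univ _) h
          · intro h; exact absurd (Finset.mem_univ _) h
        rw [this]; rfl }
  obtain ⟨φ, e, he, hφ, hθ⟩ := exists_surjective θ ⟨⟨x, hxH⟩, fun h => hx (by
    exact congrArg Multiplicative.toAdd h)⟩
  refine ⟨φ, hφ, fun m hm => ?_⟩
  set M : ℕ := e.natAbs * m with hM
  have hM0 : NeZero M := ⟨by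
    have : e.natAbs ≠ 0 := Int.natAbs_ne_zero.2 he
    rw [hM]; exact Nat.mul_ne_zero this (by omega)⟩
  let χ : Γ →* (Matrix (Fin n) (Fin n) (ZMod M))ˣ :=
    MonoidHom.toHomUnits
      ((RingHom.mapMatrix (Int.castRingHom (ZMod M)) : Matrix (Fin n) (Fin n) ℤ →+*
        Matrix (Fin n) (Fin n) (ZMod M)).toMonoidHom.comp ψ)
  refine ⟨χ.ker, inferInstance, fun h hh => ?_⟩
  have h4 : χ h = 1 := hh
  have h5 : ((ψ h).map (Int.castRingHom (ZMod M))) = 1 := congrArg Units.val h4
  have h6 : ((ψ h i j : ℤ) : ZMod M) = 0 := by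
    have := congrFun (congrFun h5 i) j
    rw [Matrix.map_apply, Matrix.one_apply_ne hijlt.ne] at this
    exact this
  rw [ZMod.intCast_zmod_eq_zero_iff_dvd] at h6
  have h7 : ψ h i j = e * Multiplicative.toAdd (φ h) := hθ h
  rw [h7, hM] at h6
  have h8 : (e.natAbs : ℤ) * (m : ℤ) ∣ e * Multiplicative.toAdd (φ h) := by exact_mod_cast h6
  have h9 : |e| * (m : ℤ) ∣ |e| * Multiplicative.toAdd (φ h) := by
    rw [← Int.natCast_natAbs]
    refine h8.trans ?_
    rw [Int.natCast_natAbs]
    rcases abs_choice e with h6 | h6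
    · rw [h6]
    · rw [h6, neg_mul, dvd_neg]
  exact (mul_dvd_mul_iff_left (abs_ne_zero.2 he)).1 h9

theorem profIndicable_of_resUnitriangular (h : ResUnitriangular Γ) : ProfIndicable Γ := by
  intro H _ hne
  obtain ⟨g, hg, hg2⟩ : ∃ g ∈ H, g ≠ 1 := by
    by_contra hcon
    push Not at hcon
    apply hne
    rw [eq_bot_iff]
    intro x hx
    exact Subgroup.mem_bot.2 (hcon x hx)
  obtain ⟨n, ψ, h1, h2, h3⟩ := h g hg2
  exact exists_of_unitriangular ψ h1 h2 hg h3

end

end Pool.Agent.CIR
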