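import Mathlib
import Pool.Agent.CIR.Classes2

/-!
# CIR / Classes3 : residual closure and extensions by the integers

MP_05b873_al.
-/

namespace Pool.Agent.CIR

open Filter Topology

universe u

section

variable {Γ : Type u} [Group Γ]

/-- groups which are residually profinitely indicable are profinitely indicable -/
theorem profIndicable_of_residual
    (h : ∀ g : Γ, g ≠ 1 → ∃ (P : Type u) (_ : Group P) (π : Γ →* P), π g ≠ 1 ∧
      ProfIndicable P) : ProfIndicable Γ := by
  classical
  intro H hFG hne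
  obtain ⟨g, hg, hg2⟩ : ∃ g ∈ H, g ≠ 1 := by
    by_contra hcon
    push Not at hcon
    apply hne
    rw [eq_bot_iff]
    intro x hx
    exact Subgroup.mem_bot.2 (hcon x hx)
  obtain ⟨P, _, π, hπ, hP⟩ := h g hg2
  have hne' : H.map π ≠ ⊥ := by
    intro hcon
    have h1 : π g ∈ H.map π := ⟨g, hg, rfl⟩
    rw [hcon] at h1
    exact hπ (Subgroup.mem_bot.1 h1)
  have hfg' : (H.map π).FG := by
    have h1 : Group.FG H := (Group.fg_iff_subgroup_fg H).2 hFG
    have h2 : Group.FG (H.map π) :=
      Group.fg_of_surjective (f := π.subgroupMap H) (MonoidHom.subgroupMap_surjective π H)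
    exact (Group.fg_iff_subgroup_fg _).1 h2
  obtain ⟨φ, hφ, hD⟩ := hP (H.map π) hfg' hne'
  refine ⟨φ.comp (π.subgroupMap H), hφ.comp (MonoidHom.subgroupMap_surjective π H),
    fun m hm => ?_⟩
  obtain ⟨D, hD1, hD2⟩ := hD m hm
  have hci : (D.comap π).FiniteIndex := by
    constructor
    rw [Subgroup.index_comap]
    have h0 : (D.subgroupOf π.range).FiniteIndex := inferInstance
    exact h0.index_ne_zero
  refine ⟨D.comap π, hci, fun x hx => ?_⟩
  exact hD2 (π.subgroupMap H x) hx

/-- finitely many homomorphisms to a finite group -/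
theorem finite_hom (N F : Type*) [Group N] [Group F] [Finite F] [Group.FG N] :
    Finite (N →* F) := by
  classical
  obtain ⟨S, hS⟩ := Group.FG.out (G := N)
  have hinj : Function.Injective (fun (f : N →* F) (s : S) => f s) := by
    intro f f' h
    apply MonoidHom.eq_of_eqOn_top
    rw [← hS]
    apply MonoidHom.eqOn_closure
    intro s hs
    exact congrFun h ⟨s, hs⟩
  exact Finite.of_injective _ hinj

/-- every finite index subgroup of a finitely generated group contains a characteristic one -/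
theorem exists_char (N : Type*) [Group N] [Group.FG N] (D : Subgroup N) (hD : D.FiniteIndex) :
    ∃ E : Subgroup N, E.FiniteIndex ∧ E ≤ D ∧ ∀ (σ : N ≃* N), ∀ x ∈ E, σ x ∈ E := by
  classical
  have hf : Finite (N ⧸ D) := inferInstance
  have hfin : Finite (N →* Equiv.Perm (N ⧸ D)) := finite_hom _ _
  refine ⟨⨅ f : N →* Equiv.Perm (N ⧸ D), f.ker, ?_, ?_, ?_⟩
  · exact Subgroup.finiteIndex_iInf (fun f => inferInstance)
  · intro x hx
    have h1 := (Subgroup.mem_iInf.1 hx) (MulAction.toPermHom N (N ⧸ D))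
    rw [MonoidHom.mem_ker] at h1
    have h2 := congrArg (fun e : Equiv.Perm (N ⧸ D) => e ((1 : N) : N ⧸ D)) h1
    simp only [MulAction.toPermHom_apply, MulAction.toPerm_apply, Equiv.Perm.coe_one, id] at h2
    have h3 : ((x * 1 : N) : N ⧸ D) = ((1 : N) : N ⧸ D) := h2
    rw [mul_one] at h3
    have := QuotientGroup.eq.1 h3.symm
    simpa using this
  · intro σ x hx
    rw [Subgroup.mem_iInf] at hx ⊢
    intro f
    exact hx (f.comp σ.toMonoidHom)

variable (φ₀ : Γ →* Multiplicative ℤ)

/-- the profinite topology on the kernel of an epimorphism to the integers -/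
theorem exists_ext (hφ₀ : Function.Surjective φ₀) (hN : Group.FG φ₀.ker) (D : Subgroup φ₀.ker)
    (hD : D.FiniteIndex) : ∃ E : Subgroup Γ, E.FiniteIndex ∧ ∀ x : φ₀.ker, (x : Γ) ∈ E → x ∈ D := by
  classical
  obtain ⟨C, hC, hCD, hchar⟩ := exists_char φ₀.ker D hD
  obtain ⟨t, ht⟩ := hφ₀ (Multiplicative.ofAdd 1)
  -- C as a normal subgroup of Γ
  have hnorm : (C.map φ₀.ker.subtype).Normal := by
    constructor
    rintro _ ⟨c, hc, rfl⟩ g
    exact ⟨MulAut.conjNormal g c, hchar (MulAut.conjNormal g) c hc,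
      MulAut.conjNormal_apply g c⟩
  refine ⟨C.map φ₀.ker.subtype ⊔ Subgroup.zpowers t, ?_, ?_⟩
  · -- finitely many cosets, represented by N / C
    have hfin : Finite (φ₀.ker ⧸ C) := inferInstance
    have hsurj : Function.Surjective (fun x : φ₀.ker ⧸ C =>
        ((x.out : Γ) : Γ ⧸ (C.map φ₀.ker.subtype ⊔ Subgroup.zpowers t))) := by
      intro y
      induction y using QuotientGroup.induction_on with
      | H g =>
        set m : ℤ := Multiplicative.toAdd (φ₀ g) with hm
        have hn : g * t ^ (-m) ∈ φ₀.ker := by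
          rw [MonoidHom.mem_ker, map_mul, map_zpow, ht]
          apply Multiplicative.toAdd.injective
          rw [toAdd_mul, toAdd_zpow]
          simp [hm]
        refine ⟨((⟨g * t ^ (-m), hn⟩ : φ₀.ker) : φ₀.ker ⧸ C), ?_⟩
        obtain ⟨c, hc⟩ := QuotientGroup.mk_out_eq_mul C (⟨g * t ^ (-m), hn⟩ : φ₀.ker)
        beta_reduce
        rw [hc]
        apply QuotientGroup.eq.2
        have h1 : ((((⟨g * t ^ (-m), hn⟩ : φ₀.ker) * c : φ₀.ker) : Γ))⁻¹ * g =
            ((c : φ₀.ker) : Γ)⁻¹ * t ^ m := by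
          push_cast
          group
        rw [h1]
        exact Subgroup.mul_mem_sup (Subgroup.inv_mem _ ⟨c, c.2, rfl⟩)
          (Subgroup.zpow_mem _ (Subgroup.mem_zpowers t) m)
    have : Finite (Γ ⧸ (C.map φ₀.ker.subtype ⊔ Subgroup.zpowers t)) :=
      Finite.of_surjective _ hsurj
    exact Subgroup.finiteIndex_of_finite_quotient
  · intro x hx
    obtain ⟨a, ⟨c, hc, rfl⟩, b, ⟨i, rfl⟩, hab⟩ := Subgroup.mem_sup_of_normal_left.1 hx
    have h1 : φ₀ (t ^ i) = 1 := by
      have h2 : φ₀ (φ₀.ker.subtype c * t ^ i) = 1 := by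
        have : φ₀ (x : Γ) = 1 := x.2
        rw [← this]
        exact congrArg φ₀ hab
      rw [map_mul] at h2
      have h3 : φ₀ (φ₀.ker.subtype c) = 1 := c.2
      rwa [h3, one_mul] at h2
    have hi : i = 0 := by
      rw [map_zpow, ht] at h1
      have := congrArg Multiplicative.toAdd h1
      rw [toAdd_zpow] at this
      simpa using this
    subst hi
    apply hCD
    have : x = c := by
      apply Subtype.ext
      rw [← hab]
      simp
    rw [this]; exact hc

/-- extensions of finitely generated profinitely indicable groups by the integers -/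
theorem profIndicable_ext (hφ₀ : Function.Surjective φ₀) (hN : Group.FG φ₀.ker)
    (hI : ProfIndicable φ₀.ker) : ProfIndicable Γ := by
  classical
  intro H hFG hne
  by_cases hle : H ≤ φ₀.ker
  · -- H in the kernel
    have hne' : H.subgroupOf φ₀.ker ≠ ⊥ := by
      intro hcon
      apply hne
      rw [Subgroup.subgroupOf_eq_bot] at hcon
      rw [eq_bot_iff]
      intro x hx
      exact (disjoint_iff_inf_le.1 hcon) ⟨hx, hle hx⟩
    have hfg : (H.subgroupOf φ₀.ker).FG := by
      have h1 : Group.FG H := (Group.fg_iff_subgroup_fg H).2 hFG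
      have h2 : Group.FG (H.subgroupOf φ₀.ker) :=
        Group.fg_of_surjective (f := (Subgroup.subgroupOfEquivOfLe hle).symm.toMonoidHom)
          (Subgroup.subgroupOfEquivOfLe hle).symm.surjective
      exact (Group.fg_iff_subgroup_fg _).1 h2
    obtain ⟨φ, hφ, hD⟩ := hI _ hfg hne'
    refine ⟨φ.comp (Subgroup.subgroupOfEquivOfLe hle).symm.toMonoidHom,
      hφ.comp (Subgroup.subgroupOfEquivOfLe hle).symm.surjective, fun m hm => ?_⟩
    obtain ⟨D, hD1, hD2⟩ := hD m hm
    obtain ⟨E, hE1, hE2⟩ := exists_ext φ₀ hφ₀ hN D hD1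
    refine ⟨E, hE1, fun h hh => ?_⟩
    exact hD2 ((Subgroup.subgroupOfEquivOfLe hle).symm h) (hE2 ⟨h, hle h.2⟩ hh)
  · obtain ⟨x, hx, hx2⟩ := SetLike.not_le_iff_exists.1 hle
    refine exists_of_virtual H ⊤ le_top (φ₀.comp (⊤ : Subgroup Γ).subtype) ⟨⟨x, hx⟩, ?_⟩
    exact fun h => hx2 h

end

/-- poly-infinite-cyclic groups -/
inductive PolyZ : ∀ (P : Type u) [Group P], Prop
  | trivial (P : Type u) [Group P] [Subsingleton P] : PolyZ P
  | step (P : Type u) [Group P] (φ : P →* Multiplicative ℤ) (hφ : Function.Surjective φ)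
      (h : PolyZ φ.ker) : PolyZ P

theorem fg_of_ker {P : Type u} [Group P] (φ : P →* Multiplicative ℤ) (hφ : Function.Surjective φ)
    (h : Group.FG φ.ker) : Group.FG P := by
  classical
  obtain ⟨t, ht⟩ := hφ (Multiplicative.ofAdd 1)
  rw [Group.fg_def]
  have h1 : (⊤ : Subgroup P) = φ.ker ⊔ Subgroup.zpowers t := by
    symm
    rw [eq_top_iff]
    intro g _
    set m : ℤ := Multiplicative.toAdd (φ g) with hm
    have hn : g * t ^ (-m) ∈ φ.ker := by
      rw [MonoidHom.mem_ker, map_mul, map_zpow, ht]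
      apply Multiplicative.toAdd.injective
      rw [toAdd_mul, toAdd_zpow]
      simp [hm]
    have h2 : g = (g * t ^ (-m)) * t ^ m := by group
    rw [h2]
    exact Subgroup.mul_mem_sup hn (Subgroup.zpow_mem _ (Subgroup.mem_zpowers t) m)
  rw [h1]
  refine Subgroup.FG.sup ((Group.fg_iff_subgroup_fg _).1 h) ?_
  exact (Subgroup.fg_iff _).2 ⟨{t}, (Subgroup.zpowers_eq_closure t).symm, Set.finite_singleton t⟩

theorem PolyZ.fg_and {P : Type u} [Group P] (h : PolyZ P) : Group.FG P ∧ ProfIndicable P := by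
  induction h with
  | trivial P =>
    refine ⟨Group.fg_of_finite, fun H _ hne => ?_⟩
    exact absurd (Subsingleton.elim _ _) hne
  | step P φ hφ _ ih => exact ⟨fg_of_ker φ hφ ih.1, profIndicable_ext φ hφ ih.1 ih.2⟩

/-- `P` is finitely generated RFRS, or poly-`ℤ`, or LERF and locally indicable -/
def Nice (P : Type u) [Group P] : Prop :=
  (Group.FG P ∧ IsRFRS P) ∨ PolyZ P ∨ (LocallyIndicable P ∧ LERF P)

theorem Nice.profIndicable {P : Type u} [Group P] (h : Nice P) : ProfIndicable P := by
  rcases h with ⟨h1, h2⟩ | h1 | ⟨h1, h2⟩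
  · exact profIndicable_of_RFRS h1 h2
  · exact h1.fg_and.2
  · exact profIndicable_of_LERF h1 h2

/-- every nontrivial element of `G` survives in some nice group -/
def ResNice (G : Type u) [Group G] : Prop :=
  ∀ g : G, g ≠ 1 → ∃ (P : Type u) (_ : Group P) (π : G →* P), π g ≠ 1 ∧ Nice P

theorem ResNice.profIndicable {G : Type u} [Group G] (h : ResNice G) : ProfIndicable G :=
  profIndicable_of_residual (fun g hg => by
    obtain ⟨P, i, π, h1, h2⟩ := h g hg
    exact ⟨P, i, π, h1, h2.profIndicable⟩)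

end Pool.Agent.CIR
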