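import Mathlib
import Pool.Agent.CIR.Div

/-!
# CIR / DivD : the division ring generated by the group elements, from the zero-or-unit property

MP_05b873_al.
-/

namespace Pool.Agent.CIR

open Matrix

section

variable {K : Type*} [Field K] {Γ : Type*} [Group Γ] {W : Type*} [Ring W]
  {O : Ops} {ι : K →+* W} {α : Γ →* W}

theorem Erng_invD (hι : ∀ c x, ι c * x = x * ι c)
    (hD : ∀ (H : Subgroup Γ) (c : Ordinal.{0}) (x : W), Der O ι α H c x → x = 0 ∨ IsUnit x) {x : W}
    (hx : x ∈ Erng O ι α hι) (h0 : x ≠ 0) : ∃ y ∈ Erng O ι α hι, x * y = 1 ∧ y * x = 1 := by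
  obtain ⟨c, hc⟩ := hx
  have hc' := hc
  obtain ⟨H', _, g, _, hDe⟩ := hc'
  rcases hD _ _ _ hDe with h1 | h1
  · exfalso
    apply h0
    calc x = x * α g⁻¹ * α g := by rw [mul_assoc, alpha_inv_mul, mul_one]
      _ = 0 := by rw [h1, zero_mul]
  · have h2 : IsUnit (α g) := ⟨⟨α g, α g⁻¹, alpha_mul_inv α g, alpha_inv_mul α g⟩, rfl⟩
    have h3 : IsUnit x := by
      have h4 := h1.mul h2
      rw [mul_assoc, alpha_inv_mul, mul_one] at h4
      exact h4
    obtain ⟨u, rfl⟩ := h3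
    exact ⟨((u⁻¹ : Wˣ) : W), ⟨_, hc.inv hι (by simp) (by simp)⟩, by simp, by simp⟩

/-- rank factorisation of matrices with entries in the division ring -/
theorem exists_factor_D [Nontrivial W] (hι : ∀ c x, ι c * x = x * ι c)
    (hD : ∀ (H : Subgroup Γ) (c : Ordinal.{0}) (x : W), Der O ι α H c x → x = 0 ∨ IsUnit x) {m n : ℕ}
    (A : Matrix (Fin m) (Fin n) W) (hA : ∀ i j, A i j ∈ Erng O ι α hι) :
    ∃ (r : ℕ) (U : Matrix (Fin m) (Fin r) W) (V : Matrix (Fin r) (Fin n) W)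
      (U' : Matrix (Fin r) (Fin m) W) (V' : Matrix (Fin n) (Fin r) W),
      A = U * V ∧ U' * A * V' = 1 := by
  classical
  set E := Erng O ι α hι with hE
  have : Nontrivial E := inferInstance
  have hdiv : ∀ a : E, IsUnit a ∨ a = 0 := by
    intro a
    by_cases ha : a = 0
    · exact Or.inr ha
    · left
      obtain ⟨y, hy, h1, h2⟩ := Erng_invD hι hD a.2 (fun h => ha (Subtype.ext h))
      exact ⟨⟨a, ⟨y, hy⟩, Subtype.ext h1, Subtype.ext h2⟩, rfl⟩
  let _ : DivisionRing E := DivisionRing.ofIsUnitOrEqZero hdiv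
  let A' : Matrix (Fin m) (Fin n) E := fun i j => ⟨A i j, hA i j⟩
  obtain ⟨r, U, V, U', V', h1, h2⟩ := exists_factor A'
  have key : ∀ {a b c : ℕ} (X : Matrix (Fin a) (Fin b) E) (Y : Matrix (Fin b) (Fin c) E),
      (X * Y).map E.subtype = X.map E.subtype * Y.map E.subtype := by
    intro a b c X Y
    exact Matrix.map_mul
  have hAmap : A'.map E.subtype = A := by ext i j; rfl
  refine ⟨r, U.map E.subtype, V.map E.subtype, U'.map E.subtype, V'.map E.subtype, ?_, ?_⟩
  · rw [← key, ← h1, hAmap]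
  · rw [← hAmap, ← key, ← key, h2]
    exact Matrix.map_one _ (map_zero _) (map_one _)

end

end Pool.Agent.CIR
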