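import Mathlib
import Pool.Agent.CIR.Conv
import Pool.Agent.CIR.DivD

/-!
# CIR / ConvD : convergence of normalised ranks from the zero-or-unit property

MP_05b873_al.
-/

namespace Pool.Agent.CIR

open Module Filter Topology

section

variable (K : Type*) [Field K] {Γ : Type*} [Group Γ]
variable (X : ℕ → Type*) [∀ k, MulAction Γ (X k)] [∀ k, Fintype (X k)] [∀ k, Nonempty (X k)]

/-- **Convergence of the normalised ranks** -/
theorem tendsto_rkXD (O : Ops) (R : RankData (WW K X))
    (hR : ∀ x, R.rho (mkW K X x) = limRk (rr K X) x)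
    (hD : ∀ (H : Subgroup Γ) (c : Ordinal.{0}) (x : WW K X),
      Der O (iotaW K X) (alphaW (Γ := Γ) K X) H c x → x = 0 ∨ IsUnit x)
    {m n : ℕ} (A : Matrix (Fin m) (Fin n) (MonoidAlgebra K Γ)) :
    ∃ r : ℕ, Tendsto (fun k => (rkX (X k) A : ℝ) / Fintype.card (X k)) atTop (𝓝 r) := by
  classical
  have hnt := nontrivial_W K X R hR
  -- the matrix over W
  let AW : Matrix (Fin m) (Fin n) (WW K X) := A.map (algW K X)
  obtain ⟨r, U, Y, U', Y', h1, h2⟩ := exists_factor_D (O := O) (iotaW_comm K X) hD AW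
    (fun i j => algW_mem K X O (A i j))
  refine ⟨r, ?_⟩
  -- lifts
  choose lift hlift using mkW_surjective K X
  let P := ∀ k, Module.End K (X k → K)
  let A' : Matrix (Fin m) (Fin n) P := A.map fun a k => permAlg K (X k) a
  let U₁ : Matrix (Fin m) (Fin r) P := U.map lift
  let Y₁ : Matrix (Fin r) (Fin n) P := Y.map lift
  let U₂ : Matrix (Fin r) (Fin m) P := U'.map lift
  let Y₂ : Matrix (Fin n) (Fin r) P := Y'.map lift
  have hmap : ∀ {a b : ℕ} (Z : Matrix (Fin a) (Fin b) (WW K X)),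
      (Z.map lift).map (mkW K X) = Z := by
    intro a b Z; ext i j; exact hlift _
  have hA' : A'.map (mkW K X) = AW := by ext i j; rfl
  have e1 : (A' - U₁ * Y₁).map (mkW K X) = 0 := by
    rw [Matrix.map_sub _ (map_sub (mkW K X)), Matrix.map_mul, hmap, hmap, hA', h1, sub_self]
  have e2 : (1 - U₂ * A' * Y₂).map (mkW K X) = 0 := by
    rw [Matrix.map_sub _ (map_sub (mkW K X)), Matrix.map_mul, Matrix.map_mul, hmap, hmap, hA', h2,
      Matrix.map_one _ (map_zero _) (map_one _), sub_self]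
  have key : ∀ x : P, mkW K X x = 0 →
      Tendsto (fun k => (rn (x k) : ℝ) / Fintype.card (X k)) atTop (𝓝 0) := by
    intro x hx
    have h3 : limRk (rr K X) x = 0 := by rw [← hR, hx, R.rho_zero]
    have h4 := tendsto_of_limRk (rr K X) h3
    refine h4.congr (fun k => ?_)
    change (rn (x k) : ℝ) / finrank K (X k → K) = _
    rw [finrank_fun]
  have t1 : Tendsto (fun k => ∑ i, ∑ j, (rn ((A' - U₁ * Y₁) i j k) : ℝ) / Fintype.card (X k))
      atTop (𝓝 0) := by
    have : (0 : ℝ) = ∑ i : Fin m, ∑ j : Fin n, 0 := by simp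
    rw [this]
    refine tendsto_finsetSum _ fun i _ => tendsto_finsetSum _ fun j _ => key _ ?_
    exact congrFun (congrFun e1 i) j
  have t2 : Tendsto (fun k => ∑ i, ∑ j,
      (rn ((1 - U₂ * A' * Y₂ : Matrix (Fin r) (Fin r) P) i j k) : ℝ) / Fintype.card (X k))
      atTop (𝓝 0) := by
    have : (0 : ℝ) = ∑ i : Fin r, ∑ j : Fin r, 0 := by simp
    rw [this]
    refine tendsto_finsetSum _ fun i _ => tendsto_finsetSum _ fun j _ => key _ ?_
    exact congrFun (congrFun e2 i) j
  -- evaluation at k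
  let ev : ∀ k, P →+* Module.End K (X k → K) := fun k => Pi.evalRingHom _ k
  have hk : ∀ k, (rkX (X k) A : ℝ) / Fintype.card (X k) ≤
      r + ∑ i, ∑ j, (rn ((A' - U₁ * Y₁) i j k) : ℝ) / Fintype.card (X k) ∧
      (r : ℝ) - ∑ i, ∑ j, (rn ((1 - U₂ * A' * Y₂ : Matrix (Fin r) (Fin r) P) i j k) : ℝ) /
        Fintype.card (X k) ≤ (rkX (X k) A : ℝ) / Fintype.card (X k) := by
    intro k
    have hpos : (0 : ℝ) < Fintype.card (X k) := by exact_mod_cast Fintype.card_pos
    have h5 := rn_bl_close (A.map (permAlg K (X k))) (U₁.map (ev k)) (Y₁.map (ev k))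
      (U₂.map (ev k)) (Y₂.map (ev k))
    have h6 : A'.map (ev k) = A.map (permAlg K (X k)) := by ext i j; rfl
    have h7 : A.map (permAlg K (X k)) - U₁.map (ev k) * Y₁.map (ev k) =
        (A' - U₁ * Y₁).map (ev k) := by
      rw [Matrix.map_sub _ (map_sub (ev k)), Matrix.map_mul, h6]
    have h8 : (1 : Matrix (Fin r) (Fin r) (Module.End K (X k → K))) -
        U₂.map (ev k) * A.map (permAlg K (X k)) * Y₂.map (ev k) =
        (1 - U₂ * A' * Y₂).map (ev k) := by
      rw [Matrix.map_sub _ (map_sub (ev k)), Matrix.map_mul, Matrix.map_mul, h6,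
        Matrix.map_one _ (map_zero _) (map_one _)]
    rw [h7, h8, finrank_fun] at h5
    obtain ⟨h9, h10⟩ := h5
    constructor
    · rw [div_le_iff₀ hpos, add_mul, Finset.sum_mul]
      have h11 : (rn (bl (A.map (permAlg K (X k)))) : ℝ) ≤ r * Fintype.card (X k) +
          ∑ i, ∑ j, (rn ((A' - U₁ * Y₁).map (ev k) i j) : ℝ) := by exact_mod_cast h9
      refine h11.trans (le_of_eq ?_)
      congr 1
      apply Finset.sum_congr rfl; intro i _
      rw [Finset.sum_mul]
      apply Finset.sum_congr rfl; intro j _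
      rw [div_mul_cancel₀ _ hpos.ne']
      rfl
    · rw [le_div_iff₀ hpos, sub_mul, Finset.sum_mul, sub_le_iff_le_add]
      have h11 : (r : ℝ) * Fintype.card (X k) ≤ (rn (bl (A.map (permAlg K (X k)))) : ℝ) +
          ∑ i, ∑ j, (rn ((1 - U₂ * A' * Y₂ : Matrix (Fin r) (Fin r) P).map (ev k) i j) : ℝ) := by
        exact_mod_cast h10
      refine h11.trans (le_of_eq ?_)
      congr 1
      apply Finset.sum_congr rfl; intro i _
      rw [Finset.sum_mul]
      apply Finset.sum_congr rfl; intro j _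
      rw [div_mul_cancel₀ _ hpos.ne']
      rfl
  have t3 := (tendsto_const_nhds (x := (r : ℝ)) (f := atTop (α := ℕ))).add t1
  have t4 := (tendsto_const_nhds (x := (r : ℝ)) (f := atTop (α := ℕ))).sub t2
  rw [add_zero] at t3
  rw [sub_zero] at t4
  exact tendsto_of_tendsto_of_tendsto_of_le_of_le t4 t3 (fun k => (hk k).2) (fun k => (hk k).1)

end

end Pool.Agent.CIR
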