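import Mathlib

/-!
# CIR / RG : region growing in finite abelian groups

MP_05b873_al.  For homomorphisms `ψ : ℤ^d → B` (`B` finite) and `φ : ℤ^d → ℤ` such that `φ`
vanishes on the short vectors of `ker ψ` there is a bounded function `f` on `B` with
`f (b + ψ e_i) = f b + φ e_i` outside a small set.
-/

namespace Pool.Agent.CIR

open Finset

section

set_option linter.unusedSectionVars false

variable {d : ℕ} {B : Type*} [AddCommGroup B] [Fintype B] [DecidableEq B]

/-- the box of size `r` -/
noncomputable def box (d r : ℕ) : Finset (Fin d → ℤ) := Fintype.piFinset fun _ => Finset.Icc (-(r : ℤ)) r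

theorem mem_box {r : ℕ} {v : Fin d → ℤ} : v ∈ box d r ↔ ∀ i, |v i| ≤ r := by
  unfold box
  rw [Fintype.mem_piFinset]
  simp only [Finset.mem_Icc, abs_le]

theorem card_box (d r : ℕ) : (box d r).card = (2 * r + 1) ^ d := by
  unfold box
  rw [Fintype.card_piFinset]
  simp only [Int.card_Icc, prod_const, card_univ, Fintype.card_fin]
  congr 1
  omega

theorem box_add {r s : ℕ} {v w : Fin d → ℤ} (hv : v ∈ box d r) (hw : w ∈ box d s) :
    v + w ∈ box d (r + s) := by
  rw [mem_box] at *
  intro i
  have h1 := abs_add_le (v i) (w i)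
  have h2 := hv i
  have h3 := hw i
  push_cast
  exact h1.trans (add_le_add h2 h3)

theorem box_neg {r : ℕ} {v : Fin d → ℤ} (hv : v ∈ box d r) : -v ∈ box d r := by
  rw [mem_box] at *
  intro i
  rw [Pi.neg_apply, abs_neg]
  exact hv i

theorem box_mono {r s : ℕ} (h : r ≤ s) {v : Fin d → ℤ} (hv : v ∈ box d r) : v ∈ box d s := by
  rw [mem_box] at *
  intro i
  exact (hv i).trans (by exact_mod_cast h)

theorem single_mem_box (i : Fin d) : (Pi.single i 1 : Fin d → ℤ) ∈ box d 1 := by
  rw [mem_box]
  intro j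
  by_cases h : j = i
  · subst h; simp
  · rw [Pi.single_eq_of_ne h]; simp

/-- the ball -/
noncomputable def ball' (ψ : (Fin d → ℤ) →+ B) (z : B) (r : ℕ) : Finset B := (box d r).image fun v => z + ψ v

theorem mem_ball' {ψ : (Fin d → ℤ) →+ B} {z b : B} {r : ℕ} :
    b ∈ ball' ψ z r ↔ ∃ v ∈ box d r, z + ψ v = b := by
  unfold ball'; rw [mem_image]

theorem card_ball' (ψ : (Fin d → ℤ) →+ B) (z : B) (r : ℕ) : (ball' ψ z r).card ≤ (2 * r + 1) ^ d := by
  rw [← card_box]; exact card_image_le

theorem ball'_mono (ψ : (Fin d → ℤ) →+ B) (z : B) {r s : ℕ} (h : r ≤ s) :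
    ball' ψ z r ⊆ ball' ψ z s := by
  intro b hb
  obtain ⟨v, hv, rfl⟩ := mem_ball'.1 hb
  exact mem_ball'.2 ⟨v, box_mono h hv, rfl⟩

theorem ball'_step (ψ : (Fin d → ℤ) →+ B) (z b : B) {r : ℕ} (i : Fin d) (h : b ∈ ball' ψ z r) :
    b + ψ (Pi.single i 1) ∈ ball' ψ z (r + 1) := by
  obtain ⟨v, hv, rfl⟩ := mem_ball'.1 h
  exact mem_ball'.2 ⟨v + Pi.single i 1, box_add hv (single_mem_box i), by rw [map_add]; abel⟩

theorem ball'_step' (ψ : (Fin d → ℤ) →+ B) (z b : B) {r : ℕ} (i : Fin d)
    (h : b + ψ (Pi.single i 1) ∈ ball' ψ z r) : b ∈ ball' ψ z (r + 1) := by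
  obtain ⟨v, hv, hvb⟩ := mem_ball'.1 h
  refine mem_ball'.2 ⟨v + -Pi.single i 1, box_add hv (box_neg (single_mem_box i)), ?_⟩
  rw [map_add, map_neg, ← add_assoc, hvb]
  abel

/-- the growth argument -/
theorem exists_radius (u : ℕ → ℕ) (hu : 1 ≤ u 0) (M : ℕ) (δ : ℝ) (hδ : 0 < δ)
    (hM : (u M : ℝ) < (1 + δ) ^ M) : ∃ i < M, (u (i + 1) : ℝ) ≤ (1 + δ) * u i := by
  by_contra hcon
  push Not at hcon
  have key : ∀ i ≤ M, (1 + δ) ^ i ≤ u i := by
    intro i
    induction i with
    | zero => intro _; simpa using (by exact_mod_cast hu : (1 : ℝ) ≤ u 0)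
    | succ i ih =>
      intro hi
      have h1 := ih (by omega)
      have h2 := hcon i (by omega)
      rw [pow_succ]
      nlinarith
  have := key M le_rfl
  linarith

/-- the constant -/
noncomputable def cst (φ : (Fin d → ℤ) →+ ℤ) : ℕ := ∑ i, (φ (Pi.single i 1)).natAbs

theorem abs_le_cst (φ : (Fin d → ℤ) →+ ℤ) {r : ℕ} {v : Fin d → ℤ} (hv : v ∈ box d r) :
    |φ v| ≤ r * cst φ := by
  have h1 : φ v = ∑ i, v i * φ (Pi.single i 1) := by
    have h2 : v = ∑ i, v i • (Pi.single i (1 : ℤ) : Fin d → ℤ) := by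
      ext j; simp [Finset.sum_apply, Pi.single_apply]
    conv_lhs => rw [h2, map_sum]
    apply sum_congr rfl; intro i _
    rw [map_zsmul, smul_eq_mul]
  rw [h1]
  refine (abs_sum_le_sum_abs _ _).trans ?_
  unfold cst
  push_cast
  rw [mul_sum]
  apply sum_le_sum; intro i _
  rw [abs_mul]
  exact mul_le_mul_of_nonneg_right ((mem_box.1 hv) i) (abs_nonneg _)

/-- **region growing** -/
theorem region (ψ : (Fin d → ℤ) →+ B) (φ : (Fin d → ℤ) →+ ℤ) (δ : ℝ) (hδ : 0 < δ) (M : ℕ)
    (hM : (((2 * (2 * M) + 1) ^ d : ℕ) : ℝ) < (1 + δ) ^ M)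
    (hker : ∀ v ∈ box d (4 * M), ψ v = 0 → φ v = 0) :
    ∃ f : B → ℕ, (∀ b, f b ≤ 4 * M * cst φ) ∧
      (((univ.filter fun b => ∃ i, (f (b + ψ (Pi.single i 1)) : ℤ) ≠
        f b + φ (Pi.single i 1)).card : ℕ) : ℝ) ≤ δ * Fintype.card B := by
  classical
  set C : ℤ := ((2 * M * cst φ : ℕ) : ℤ) with hC
  have key : ∀ (n : ℕ) (E : Finset B), E.card = n → ∃ (f : B → ℤ) (Bd : Finset B),
      (∀ b, 0 ≤ f b ∧ f b ≤ 2 * C) ∧ ((Bd.card : ℕ) : ℝ) ≤ δ * E.card ∧
      ∀ b ∈ E, b ∉ Bd → ∀ i, b + ψ (Pi.single i 1) ∈ E →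
        f (b + ψ (Pi.single i 1)) = f b + φ (Pi.single i 1) := by
    intro n
    induction n using Nat.strong_induction_on with
    | _ n ih =>
      intro E hE
      by_cases hne : E = ∅
      · subst hne
        refine ⟨fun _ => 0, ∅, fun b => ⟨le_rfl, ?_⟩, by simp, by simp⟩
        positivity
      · obtain ⟨z, hz⟩ := nonempty_iff_ne_empty.2 hne
        -- the radius
        obtain ⟨i, hi, hri⟩ := exists_radius (fun i => (ball' ψ z (2 * i) ∩ E).card) (by
          apply Finset.card_pos.2
          refine ⟨z, mem_inter.2 ⟨mem_ball'.2 ⟨0, ?_, by simp⟩, hz⟩⟩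
          rw [mem_box]; intro i; simp) M δ hδ (by
          refine lt_of_le_of_lt ?_ hM
          exact_mod_cast (card_le_card inter_subset_left).trans (card_ball' ψ z (2 * M)))

        set P := ball' ψ z (2 * i + 1) ∩ E with hP
        set E' := E \ ball' ψ z (2 * i + 1) with hE'
        have hPE : P.card + E'.card = E.card := by
          rw [hP, hE', inter_comm]
          exact card_inter_add_card_sdiff E (ball' ψ z (2 * i + 1))
        have hPpos : 0 < P.card := by
          apply Finset.card_pos.2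
          refine ⟨z, mem_inter.2 ⟨mem_ball'.2 ⟨0, ?_, by simp⟩, hz⟩⟩
          rw [mem_box]; intro j
          rw [Pi.zero_apply, abs_zero]
          positivity
        obtain ⟨f', Bd', hf', hBd', hgood'⟩ := ih E'.card (by omega) E' rfl
        -- the local function
        have hloc : ∃ g : B → ℤ, (∀ b, 0 ≤ g b ∧ g b ≤ 2 * C) ∧
            ∀ v ∈ box d (2 * M), g (z + ψ v) = C + φ v := by
          refine ⟨fun b => if h : ∃ v ∈ box d (2 * M), z + ψ v = b then C + φ h.choose else 0,
            fun b => ?_, fun v hv => ?_⟩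
          · dsimp only
            split_ifs with h
            · have h1 := abs_le_cst φ h.choose_spec.1
              rw [abs_le] at h1
              have h2 : ((2 * M : ℕ) : ℤ) * cst φ = C := by rw [hC]; push_cast; ring
              rw [h2] at h1
              constructor <;> linarith [h1.1, h1.2]
            · refine ⟨le_rfl, ?_⟩
              positivity
          · have h : ∃ w ∈ box d (2 * M), z + ψ w = z + ψ v := ⟨v, hv, rfl⟩
            dsimp only
            rw [dif_pos h]
            have h1 := h.choose_spec.2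
            have h2 : ψ (h.choose + -v) = 0 := by
              rw [map_add, map_neg]
              have := add_left_cancel h1
              rw [this]; abel
            have h3 := hker (h.choose + -v) (by
              have := box_add h.choose_spec.1 (box_neg hv)
              have e : 2 * M + 2 * M = 4 * M := by ring
              rwa [e] at this) h2
            rw [map_add, map_neg] at h3
            linarith
        obtain ⟨g, hg, hg2⟩ := hloc
        set An := (ball' ψ z (2 * (i + 1)) ∩ E) \ ball' ψ z (2 * i) with hAn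
        have hAncard : ((An.card : ℕ) : ℝ) ≤ δ * P.card := by
          have h1 : An.card + (ball' ψ z (2 * i) ∩ E).card = (ball' ψ z (2 * (i + 1)) ∩ E).card := by
            have h2 : ball' ψ z (2 * i) ∩ E ⊆ ball' ψ z (2 * (i + 1)) ∩ E :=
              inter_subset_inter_right (ball'_mono ψ z (by omega))
            have h3 : An = (ball' ψ z (2 * (i + 1)) ∩ E) \ (ball' ψ z (2 * i) ∩ E) := by
              ext b
              rw [hAn, mem_sdiff, mem_sdiff, mem_inter, mem_inter]
              tauto
            rw [h3]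
            exact card_sdiff_add_card_eq_card h2
          have h2 : ((An.card : ℕ) : ℝ) + (ball' ψ z (2 * i) ∩ E).card =
            (ball' ψ z (2 * (i + 1)) ∩ E).card := by exact_mod_cast h1
          have h3 : ((ball' ψ z (2 * i) ∩ E).card : ℝ) ≤ P.card := by
            exact_mod_cast card_le_card (inter_subset_inter_right (ball'_mono ψ z (by omega)))
          have h4 : δ * ((ball' ψ z (2 * i) ∩ E).card : ℝ) ≤ δ * P.card :=
            mul_le_mul_of_nonneg_left h3 hδ.le
          linarith
        refine ⟨fun b => if b ∈ ball' ψ z (2 * i + 1) then g b else f' b, Bd' ∪ An, ?_, ?_, ?_⟩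
        · intro b
          dsimp only
          split_ifs
          · exact hg b
          · exact hf' b
        · have h1 : ((Bd' ∪ An).card : ℝ) ≤ Bd'.card + An.card := by
            exact_mod_cast card_union_le _ _
          have h2 : (E.card : ℝ) = P.card + E'.card := by exact_mod_cast hPE.symm
          rw [h2, mul_add]
          linarith
        · intro b hb hbd j hbj
          rw [mem_union, not_or] at hbd
          dsimp only
          by_cases hbP : b ∈ ball' ψ z (2 * i + 1)
          · -- in the piece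
            have hb2 : b ∈ ball' ψ z (2 * i) := by
              by_contra hcon
              apply hbd.2
              rw [hAn, mem_sdiff, mem_inter]
              exact ⟨⟨ball'_mono ψ z (by omega) hbP, hb⟩, hcon⟩
            have hb3 := ball'_step ψ z b j hb2
            rw [if_pos hbP, if_pos hb3]
            obtain ⟨v, hv, rfl⟩ := mem_ball'.1 hb2
            rw [hg2 v (box_mono (by omega) hv)]
            have h1 : z + ψ v + ψ (Pi.single j 1) = z + ψ (v + Pi.single j 1) := by
              rw [map_add]; abel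
            rw [h1, hg2 (v + Pi.single j 1) (box_mono (by omega)
              (box_add hv (single_mem_box j))), map_add]
            ring
          · -- outside the piece
            have hb3 : b + ψ (Pi.single j 1) ∉ ball' ψ z (2 * i + 1) := by
              intro hcon
              apply hbd.2
              rw [hAn, mem_sdiff, mem_inter]
              refine ⟨⟨?_, hb⟩, fun h => hbP (ball'_mono ψ z (by omega) h)⟩
              have := ball'_step' ψ z b j hcon
              rwa [show 2 * i + 1 + 1 = 2 * (i + 1) by ring] at this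
            rw [if_neg hbP, if_neg hb3]
            exact hgood' b (mem_sdiff.2 ⟨hb, hbP⟩) hbd.1 j (mem_sdiff.2 ⟨hbj, hb3⟩)
  obtain ⟨f, Bd, hf, hBd, hgood⟩ := key _ (univ : Finset B) rfl
  refine ⟨fun b => (f b).toNat, fun b => ?_, ?_⟩
  · have h1 := (hf b).2
    have h2 : 2 * C = ((4 * M * cst φ : ℕ) : ℤ) := by rw [hC]; push_cast; ring
    rw [h2] at h1
    change (f b).toNat ≤ _
    omega
  · refine le_trans ?_ hBd
    have : (univ.filter fun b => ∃ i, (((f (b + ψ (Pi.single i 1))).toNat : ℕ) : ℤ) ≠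
        ((f b).toNat : ℕ) + φ (Pi.single i 1)) ⊆ Bd := by
      intro b hb
      rw [mem_filter] at hb
      obtain ⟨_, i, hi⟩ := hb
      by_contra hcon
      apply hi
      rw [Int.toNat_of_nonneg (hf _).1, Int.toNat_of_nonneg (hf _).1]
      exact hgood b (mem_univ _) hcon i (mem_univ _)
    exact_mod_cast card_le_card this

/-- exponential growth beats polynomial growth -/
theorem exists_M (d : ℕ) (δ : ℝ) (hδ : 0 < δ) :
    ∃ M : ℕ, (((2 * (2 * M) + 1) ^ d : ℕ) : ℝ) < (1 + δ) ^ M := by
  have h1 : Filter.Tendsto (fun n : ℕ => ((n : ℝ) ^ d) / (1 + δ) ^ n) Filter.atTop (nhds 0) :=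
    tendsto_pow_const_div_const_pow_of_one_lt d (by linarith)
  have h2 := (h1.eventually (gt_mem_nhds (by positivity : (0 : ℝ) < 1 / 5 ^ d))).and
    (Filter.eventually_ge_atTop 1)
  obtain ⟨n, hn, hn1⟩ := h2.exists
  refine ⟨n, ?_⟩
  have hp : (0 : ℝ) < (1 + δ) ^ n := by positivity
  rw [div_lt_div_iff₀ hp (by positivity), one_mul] at hn
  refine lt_of_le_of_lt ?_ hn
  have h3 : 2 * (2 * n) + 1 ≤ n * 5 := by omega
  have h4 : (2 * (2 * n) + 1) ^ d ≤ (n * 5) ^ d := Nat.pow_le_pow_left h3 d
  calc (((2 * (2 * n) + 1) ^ d : ℕ) : ℝ) ≤ (((n * 5) ^ d : ℕ) : ℝ) := by exact_mod_cast h4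
    _ = (n : ℝ) ^ d * 5 ^ d := by push_cast; rw [mul_pow]

end

end Pool.Agent.CIR
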