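import Mathlib
import Pool.Agent.CIR.Perm

/-!
# CIR / LaurA : endomorphisms of functions with values in Laurent series

MP_05b873_al.
-/

namespace Pool.Agent.CIR

open Module

section

variable (K : Type*) [Field K]

/-- power series -/
abbrev OO : Type _ := PowerSeries K

/-- Laurent series -/
abbrev LL : Type _ := LaurentSeries K

variable {K}

/-- the variable -/
noncomputable def zL (K : Type*) [Field K] : LL K := algebraMap (OO K) (LL K) PowerSeries.X

theorem zL_ne : zL K ≠ 0 := by
  unfold zL
  intro h
  have h1 := (map_eq_zero_iff (algebraMap (OO K) (LL K))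
    (IsFractionRing.injective (OO K) (LL K))).1 h
  exact PowerSeries.X_ne_zero h1

variable {X : Type*} [Fintype X] [DecidableEq X]

/-- matrices over power series act on Laurent series valued functions -/
noncomputable def thL (K : Type*) [Field K] (X : Type*) [Fintype X] [DecidableEq X] :
    Matrix X X (OO K) →+* Module.End (LL K) (X → LL K) :=
  (Matrix.toLinAlgEquiv' : Matrix X X (LL K) ≃ₐ[LL K] _).toRingEquiv.toRingHom.comp
    (RingHom.mapMatrix (algebraMap (OO K) (LL K)))

theorem thL_apply (M : Matrix X X (OO K)) (f : X → LL K) (x : X) :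
    thL K X M f x = ∑ y, algebraMap (OO K) (LL K) (M x y) * f y := by
  change Matrix.toLin' (M.map (algebraMap (OO K) (LL K))) f x = _
  rw [Matrix.toLin'_apply]
  rfl

/-- constant matrices -/
noncomputable def cK (K : Type*) [Field K] (X : Type*) [Fintype X] [DecidableEq X] :
    Module.End K (X → K) →+* Matrix X X (OO K) :=
  (RingHom.mapMatrix (PowerSeries.C (R := K))).comp
    (LinearMap.toMatrixAlgEquiv' : _ ≃ₐ[K] Matrix X X K).toRingEquiv.toRingHom

theorem cK_apply (a : Module.End K (X → K)) (x y : X) :
    cK K X a x y = PowerSeries.C (a (Pi.single y 1) x) := by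
  change PowerSeries.C (LinearMap.toMatrix' a x y) = _
  rw [LinearMap.toMatrix'_apply]

/-- scalar extension -/
noncomputable def extE (K : Type*) [Field K] (X : Type*) [Fintype X] [DecidableEq X] :
    Module.End K (X → K) →+* Module.End (LL K) (X → LL K) := (thL K X).comp (cK K X)

theorem extE_apply (a : Module.End K (X → K)) (f : X → LL K) (x : X) :
    extE K X a f x = ∑ y, algebraMap (OO K) (LL K) (PowerSeries.C (a (Pi.single y 1) x)) * f y := by
  unfold extE
  rw [RingHom.comp_apply, thL_apply]
  simp only [cK_apply]

theorem end_apply (a : Module.End K (X → K)) (f : X → K) (x : X) :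
    a f x = ∑ y, a (Pi.single y 1) x * f y := by
  have h1 : f = ∑ y, f y • (Pi.single y (1 : K) : X → K) := by
    ext w
    simp [Finset.sum_apply, Pi.single_apply]
  conv_lhs => rw [h1, map_sum, Finset.sum_apply]
  apply Finset.sum_congr rfl
  intro y _
  rw [map_smul, Pi.smul_apply, smul_eq_mul, mul_comm]

theorem extE_perm {Γ : Type*} [Group Γ] [MulAction Γ X] (g : Γ) :
    extE K X (perm K X g) = perm (LL K) X g := by
  apply LinearMap.ext; intro f; funext x
  rw [extE_apply, perm_apply]
  rw [Finset.sum_eq_single (g⁻¹ • x)]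
  · rw [perm_apply, Pi.single_eq_same]; simp
  · intro y _ hy
    rw [perm_apply, Pi.single_eq_of_ne (Ne.symm hy)]; simp
  · intro h; exact absurd (Finset.mem_univ _) h

theorem extE_smul (c : K) :
    extE K X (algebraMap K (Module.End K (X → K)) c) =
      algebraMap (LL K) (Module.End (LL K) (X → LL K))
        (algebraMap (OO K) (LL K) (PowerSeries.C c)) := by
  apply LinearMap.ext; intro f; funext x
  rw [extE_apply]
  have h1 : ∀ y, (algebraMap K (Module.End K (X → K)) c) (Pi.single y 1) x =
      c * (Pi.single y (1 : K) : X → K) x := fun y => rfl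
  have h2 : algebraMap (LL K) (Module.End (LL K) (X → LL K))
        (algebraMap (OO K) (LL K) (PowerSeries.C c)) f x =
      algebraMap (OO K) (LL K) (PowerSeries.C c) * f x := rfl
  rw [h2, Finset.sum_eq_single x]
  · rw [h1, Pi.single_eq_same, mul_one]
  · intro y _ hy
    rw [h1, Pi.single_eq_of_ne (Ne.symm hy), mul_zero]; simp
  · intro h; exact absurd (Finset.mem_univ _) h

/-- scalar extension does not increase the rank -/
theorem rn_extE_le (a : Module.End K (X → K)) : rn (extE K X a) ≤ rn a := by
  classical
  set r := finrank K (LinearMap.range a) with hr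
  let b : Basis (Fin r) K (LinearMap.range a) := finBasis K _
  -- coordinates
  let q : X → Fin r → K := fun y i => b.repr ⟨a (Pi.single y 1), ⟨_, rfl⟩⟩ i
  have hq : ∀ y x, a (Pi.single y 1) x = ∑ i, (b i : X → K) x * q y i := by
    intro y x
    have h1 := b.sum_repr ⟨a (Pi.single y 1), ⟨_, rfl⟩⟩
    have h2 := congrArg (fun w : LinearMap.range a => (w : X → K) x) h1
    simp only [Submodule.coe_sum, Submodule.coe_smul, Finset.sum_apply, Pi.smul_apply,
      smul_eq_mul] at h2
    rw [← h2]
    apply Finset.sum_congr rfl; intro i _; ring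
  let e : K →+* LL K := (algebraMap (OO K) (LL K)).comp (PowerSeries.C (R := K))
  let P : Matrix X (Fin r) (LL K) := fun x i => e ((b i : X → K) x)
  let Q : Matrix (Fin r) X (LL K) := fun i y => e (q y i)
  have h1 : extE K X a = (Matrix.toLin' P) ∘ₗ (Matrix.toLin' Q) := by
    apply LinearMap.ext; intro f; funext x
    rw [extE_apply, LinearMap.comp_apply, Matrix.toLin'_apply, Matrix.toLin'_apply,
      Matrix.mulVec_mulVec]
    simp only [Matrix.mulVec, dotProduct, Matrix.mul_apply]
    apply Finset.sum_congr rfl; intro y _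
    congr 1
    rw [hq]
    change e (∑ i, (b i : X → K) x * q y i) = _
    rw [map_sum]
    apply Finset.sum_congr rfl; intro i _
    rw [map_mul]
  rw [h1]
  refine (rn_comp_left _ _).trans ((rn_le_dom _).trans ?_)
  rw [finrank_fin_fun]
  exact le_of_eq hr

/-- units -/
theorem exists_inv_OO (M : Matrix X X (OO K)) :
    ∃ N : Matrix X X (OO K), (1 + (PowerSeries.X : OO K) • M) * N = 1 ∧
      N * (1 + (PowerSeries.X : OO K) • M) = 1 := by
  set P : Matrix X X (OO K) := 1 + (PowerSeries.X : OO K) • M with hP
  have h1 : IsUnit P.det := by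
    rw [PowerSeries.isUnit_iff_constantCoeff]
    have h2 : PowerSeries.constantCoeff P.det =
        (P.map (PowerSeries.constantCoeff (R := K))).det := by
      rw [RingHom.map_det]; rfl
    have h3 : P.map (PowerSeries.constantCoeff (R := K)) = 1 := by
      ext i j
      rw [Matrix.map_apply, hP, Matrix.add_apply, Matrix.smul_apply, map_add, smul_eq_mul,
        map_mul, PowerSeries.constantCoeff_X, zero_mul, add_zero, Matrix.one_apply,
        Matrix.one_apply]
      split_ifs <;> simp
    rw [h2, h3, Matrix.det_one]
    exact isUnit_one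
  exact ⟨P⁻¹, Matrix.mul_nonsing_inv P h1, Matrix.nonsing_inv_mul P h1⟩

end

end Pool.Agent.CIR
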