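import Mathlib
import Pool.Agent.CIR.LaurA

/-!
# CIR / LaurB : the finite level inequality

MP_05b873_al.  `(J - R) rank_K a ≤ (J + R) rank_L (z^(-s) a z^s - z^J M)` for `0 ≤ s ≤ R`.
-/

namespace Pool.Agent.CIR

open Module

section

variable {K : Type*} [Field K] {X : Type*} [Fintype X] [DecidableEq X]

/-- the rank over power series is at most the rank over Laurent series -/
theorem rank_OO_le (D : Matrix X X (OO K)) (r : ℕ)
    (b : Basis (Fin r) (OO K) (LinearMap.range (Matrix.toLin' D))) : r ≤ rn (thL K X D) := by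
  classical
  let c : (X → OO K) →ₗ[OO K] (X → LL K) :=
    LinearMap.pi fun x => (Algebra.linearMap (OO K) (LL K)) ∘ₗ LinearMap.proj x
  have hc : LinearMap.ker c = ⊥ := by
    rw [LinearMap.ker_eq_bot']
    intro v hv
    funext x
    have h1 := congrFun hv x
    exact (map_eq_zero_iff (algebraMap (OO K) (LL K))
      (IsFractionRing.injective (OO K) (LL K))).1 h1
  have h1 : LinearIndependent (OO K) (fun i => c (b i : X → OO K)) := by
    have h2 := b.linearIndependent.map' (LinearMap.range (Matrix.toLin' D)).subtype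
      (Submodule.ker_subtype _)
    exact h2.map' c hc
  have h2 : LinearIndependent (LL K) (fun i => c (b i : X → OO K)) :=
    (LinearIndependent.iff_fractionRing (OO K) (LL K)).1 h1
  have hmem : ∀ i, c (b i : X → OO K) ∈ LinearMap.range (thL K X D) := by
    intro i
    obtain ⟨u, hu⟩ := (b i).2
    refine ⟨c u, ?_⟩
    funext x
    rw [thL_apply]
    have h3 : c (b i : X → OO K) x = algebraMap (OO K) (LL K) ((Matrix.toLin' D u) x) := by
      rw [← hu]; rfl
    rw [h3, Matrix.toLin'_apply, Matrix.mulVec, dotProduct, map_sum]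
    apply Finset.sum_congr rfl; intro y _
    rw [map_mul]; rfl
  have h3 : LinearIndependent (LL K)
      (fun i => (⟨c (b i : X → OO K), hmem i⟩ : LinearMap.range (thL K X D))) := by
    apply LinearIndependent.of_comp (LinearMap.range (thL K X D)).subtype
    exact h2
  have h4 := h3.fintype_card_le_finrank
  rw [Fintype.card_fin] at h4
  exact h4

/-- truncation -/
noncomputable def trunc' (K X : Type*) [Field K] (E : ℕ) :
    (X → OO K) →ₗ[K] (X → Fin E → K) where
  toFun u := fun x e => PowerSeries.coeff (e : ℕ) (u x)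
  map_add' u v := by funext x e; simp
  map_smul' c u := by funext x e; simp

/-- the truncations of a submodule with `r` generators form a space of dimension at most `r E` -/
theorem finrank_trunc_le (E r : ℕ) (N : Submodule (OO K) (X → OO K)) (b : Basis (Fin r) (OO K) N) :
    finrank K ((N.restrictScalars K).map (trunc' K X E)) ≤ r * E := by
  classical
  let p : (Fin E → K) →ₗ[K] OO K :=
    { toFun := fun c => PowerSeries.mk fun n => if h : n < E then c ⟨n, h⟩ else 0
      map_add' := by
        intro c d; ext n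
        simp only [PowerSeries.coeff_mk, map_add]
        split_ifs <;> simp
      map_smul' := by
        intro c d; ext n
        simp only [PowerSeries.coeff_mk, map_smul]
        split_ifs <;> simp }
  have hp : ∀ γ : OO K, ∃ δ : OO K,
      γ = p (fun e => PowerSeries.coeff (e : ℕ) γ) + PowerSeries.X ^ E * δ := by
    intro γ
    have h1 : (PowerSeries.X : OO K) ^ E ∣ γ - p (fun e => PowerSeries.coeff (e : ℕ) γ) := by
      rw [PowerSeries.X_pow_dvd_iff]
      intro m hm
      rw [map_sub]
      change _ - PowerSeries.coeff m (PowerSeries.mk fun n => if h : n < E then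
        PowerSeries.coeff ((⟨n, h⟩ : Fin E) : ℕ) γ else 0) = 0
      rw [PowerSeries.coeff_mk, dif_pos hm, sub_self]
    obtain ⟨δ, hδ⟩ := h1
    exact ⟨δ, by rw [← hδ]; ring⟩
  let G : (Fin r → Fin E → K) →ₗ[K] (X → Fin E → K) :=
    ∑ i : Fin r, (trunc' K X E) ∘ₗ (LinearMap.toSpanSingleton (OO K) (X → OO K)
      (b i : X → OO K)).restrictScalars K ∘ₗ p ∘ₗ LinearMap.proj i
  have hle : (N.restrictScalars K).map (trunc' K X E) ≤ LinearMap.range G := by
    rintro _ ⟨u, hu, rfl⟩
    have h1 := b.sum_repr ⟨u, hu⟩
    have h2 : u = ∑ i, b.repr ⟨u, hu⟩ i • (b i : X → OO K) := by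
      have := congrArg Subtype.val h1
      rw [Submodule.coe_sum] at this
      exact this.symm
    choose δ hδ using fun i => hp (b.repr ⟨u, hu⟩ i)
    refine ⟨fun i e => PowerSeries.coeff (e : ℕ) (b.repr ⟨u, hu⟩ i), ?_⟩
    have h3 : u = (∑ i, p (fun e => PowerSeries.coeff (e : ℕ) (b.repr ⟨u, hu⟩ i)) •
        (b i : X → OO K)) + (PowerSeries.X : OO K) ^ E • ∑ i, δ i • (b i : X → OO K) := by
      conv_lhs => rw [h2]
      rw [Finset.smul_sum, ← Finset.sum_add_distrib]
      apply Finset.sum_congr rfl; intro i _
      conv_lhs => rw [hδ i]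
      rw [add_smul, smul_smul]
    have h4 : trunc' K X E ((PowerSeries.X : OO K) ^ E • ∑ i, δ i • (b i : X → OO K)) = 0 := by
      funext x e
      change PowerSeries.coeff (e : ℕ) ((PowerSeries.X : OO K) ^ E *
        (∑ i, δ i • (b i : X → OO K)) x) = 0
      have h5 : (PowerSeries.X : OO K) ^ E ∣ (PowerSeries.X : OO K) ^ E *
        (∑ i, δ i • (b i : X → OO K)) x := ⟨_, rfl⟩
      exact (PowerSeries.X_pow_dvd_iff.1 h5) e e.2
    conv_rhs => rw [h3]
    rw [map_add, h4, add_zero, map_sum]
    change (∑ i : Fin r, (trunc' K X E) ∘ₗ (LinearMap.toSpanSingleton (OO K) (X → OO K)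
      (b i : X → OO K)).restrictScalars K ∘ₗ p ∘ₗ LinearMap.proj i) _ = _
    rw [LinearMap.sum_apply]
    rfl
  refine (Submodule.finrank_mono hle).trans ?_
  have h1 : finrank K (LinearMap.range G) ≤ finrank K (Fin r → Fin E → K) :=
    LinearMap.finrank_range_le G
  refine h1.trans (le_of_eq ?_)
  rw [Module.finrank_pi_fintype]
  simp

/-- the finite level inequality -/
theorem finite_level (a : Module.End K (X → K)) (s : X → ℕ) (R J : ℕ) (hs : ∀ x, s x ≤ R)
    (M : Matrix X X (OO K)) :
    (J - R) * rn a ≤ (J + R) *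
      rn (mulOp (LL K) (fun x => (zL K ^ s x)⁻¹) * extE K X a * mulOp (LL K) (fun x => zL K ^ s x) -
        (zL K) ^ J • thL K X M) := by
  classical
  set D := mulOp (LL K) (fun x => (zL K ^ s x)⁻¹) * extE K X a *
    mulOp (LL K) (fun x => zL K ^ s x) - (zL K) ^ J • thL K X M with hD
  set m := J - R with hm
  set E := J + R with hE
  let D' : Matrix X X (OO K) := fun x y => PowerSeries.X ^ (R - s x + s y) *
    PowerSeries.C (a (Pi.single y 1) x) - PowerSeries.X ^ (J + R) * M x y
  have hDD : thL K X D' = (zL K ^ R) • D := by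
    apply LinearMap.ext; intro f; funext x
    rw [thL_apply]
    have h1 : ((zL K ^ R) • D) f x = zL K ^ R * ((zL K ^ s x)⁻¹ *
        (∑ y, algebraMap (OO K) (LL K) (PowerSeries.C (a (Pi.single y 1) x)) *
          (zL K ^ s y * f y)) - zL K ^ J * ∑ y, algebraMap (OO K) (LL K) (M x y) * f y) := by
      rw [← thL_apply]
      have h2 := extE_apply a (mulOp (LL K) (fun x => zL K ^ s x) f) x
      simp only [mulOp_apply] at h2
      rw [← h2]
      rfl
    rw [h1, Finset.mul_sum, Finset.mul_sum, ← Finset.sum_sub_distrib, Finset.mul_sum]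
    apply Finset.sum_congr rfl; intro y _
    have h3 : algebraMap (OO K) (LL K) (D' x y) = zL K ^ (R - s x + s y) *
        algebraMap (OO K) (LL K) (PowerSeries.C (a (Pi.single y 1) x)) -
        zL K ^ (J + R) * algebraMap (OO K) (LL K) (M x y) := by
      change algebraMap (OO K) (LL K) (PowerSeries.X ^ (R - s x + s y) *
        PowerSeries.C (a (Pi.single y 1) x) - PowerSeries.X ^ (J + R) * M x y) = _
      rw [map_sub, map_mul, map_mul, map_pow, map_pow]; rfl
    rw [h3]
    have h4 : zL K ^ (R - s x + s y) = zL K ^ R * (zL K ^ s x)⁻¹ * zL K ^ s y := by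
      rw [pow_add]
      congr 1
      rw [eq_mul_inv_iff_mul_eq₀ (pow_ne_zero _ zL_ne), ← pow_add]
      congr 1
      have := hs x
      omega
    rw [h4, pow_add]
    ring
  have hrn : rn (thL K X D') ≤ rn D := by
    rw [hDD]
    have : (zL K ^ R) • D = ((zL K ^ R) • (LinearMap.id : (X → LL K) →ₗ[LL K] (X → LL K))) ∘ₗ D := by
      apply LinearMap.ext; intro f; rfl
    rw [this]
    exact rn_comp_right _ _
  obtain ⟨r, b⟩ := Submodule.basisOfPid (Pi.basisFun (OO K) X) (LinearMap.range (Matrix.toLin' D'))
  have hr := rank_OO_le D' r b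
  have hT := finrank_trunc_le E r _ b
  -- the test vectors
  let w : (Fin m → X → K) →ₗ[K] (X → OO K) :=
    { toFun := fun F x => ∑ j : Fin m, PowerSeries.monomial ((j : ℕ) + (R - s x)) (F j x)
      map_add' := by
        intro F G; funext x
        simp [Finset.sum_add_distrib]
      map_smul' := by
        intro c F; funext x
        change ∑ j : Fin m, PowerSeries.monomial ((j : ℕ) + (R - s x)) (c • F j x) =
          c • ∑ j : Fin m, PowerSeries.monomial ((j : ℕ) + (R - s x)) (F j x)
        rw [Finset.smul_sum]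
        apply Finset.sum_congr rfl; intro j _
        rw [map_smul] }
  let Ψ : (Fin m → X → K) →ₗ[K] (X → Fin E → K) :=
    (trunc' K X E) ∘ₗ ((Matrix.toLin' D').restrictScalars K) ∘ₗ w
  let Rm : (X → Fin E → K) →ₗ[K] (Fin m → X → K) :=
    { toFun := fun v j x => v x ⟨(j : ℕ) + (2 * R - s x), by
        have := j.2; have := hs x; omega⟩
      map_add' := by intro u v; funext j x; rfl
      map_smul' := by intro c v; funext j x; rfl }
  have hΨ : ∀ F j, Rm (Ψ F) j = a (F j) := by
    intro F j
    funext x
    have hlt : (j : ℕ) + (2 * R - s x) < E := by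
      have := j.2; have := hs x; omega
    change PowerSeries.coeff ((j : ℕ) + (2 * R - s x)) ((Matrix.toLin' D' (w F)) x) = _
    have h1 : (Matrix.toLin' D' (w F)) x =
        (∑ j' : Fin m, PowerSeries.monomial ((j' : ℕ) + (2 * R - s x)) (a (F j') x)) -
          PowerSeries.X ^ E * ∑ y, M x y * w F y := by
      rw [Matrix.toLin'_apply, Matrix.mulVec, dotProduct]
      have h2 : ∀ y, D' x y * w F y = (∑ j' : Fin m, PowerSeries.monomial
          ((j' : ℕ) + (2 * R - s x)) (a (Pi.single y 1) x * F j' y)) -
            PowerSeries.X ^ E * (M x y * w F y) := by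
        intro y
        change (PowerSeries.X ^ (R - s x + s y) *
          PowerSeries.C (a (Pi.single y 1) x) - PowerSeries.X ^ (J + R) * M x y) * w F y = _
        rw [sub_mul, mul_assoc (PowerSeries.X ^ (J + R))]
        congr 1
        change _ * ∑ j : Fin m, PowerSeries.monomial ((j : ℕ) + (R - s y)) (F j y) = _
        rw [Finset.mul_sum]
        apply Finset.sum_congr rfl; intro j' _
        have h3 : (PowerSeries.X : OO K) ^ (R - s x + s y) * PowerSeries.C (a (Pi.single y 1) x) =
            PowerSeries.monomial (R - s x + s y) (a (Pi.single y 1) x) := by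
          rw [← PowerSeries.monomial_zero_eq_C_apply, PowerSeries.X_pow_eq,
            PowerSeries.monomial_mul_monomial]
          simp
        have h4 : R - s x + s y + ((j' : ℕ) + (R - s y)) = (j' : ℕ) + (2 * R - s x) := by
          have := hs x; have := hs y
          omega
        rw [h3, PowerSeries.monomial_mul_monomial, h4]
      rw [Finset.sum_congr rfl (fun y _ => h2 y), Finset.sum_sub_distrib, ← Finset.mul_sum,
        Finset.sum_comm]
      congr 1
      apply Finset.sum_congr rfl; intro j' _
      rw [← map_sum, ← end_apply]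
    rw [h1, map_sub]
    have h2 : PowerSeries.coeff ((j : ℕ) + (2 * R - s x))
        (PowerSeries.X ^ E * ∑ y, M x y * w F y) = 0 :=
      (PowerSeries.X_pow_dvd_iff.1 ⟨_, rfl⟩) _ hlt
    rw [h2, sub_zero, map_sum, Finset.sum_eq_single j]
    · rw [PowerSeries.coeff_monomial_same]
    · intro j' _ hj'
      rw [PowerSeries.coeff_monomial, if_neg]
      intro h; apply hj'; apply Fin.ext; omega
    · intro h; exact absurd (Finset.mem_univ _) h
  -- the rank of the diagonal map
  have hdiag : m * rn a ≤ rn (Rm ∘ₗ Ψ) := by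
    have h1 : LinearMap.range (Rm ∘ₗ Ψ) = Submodule.pi Set.univ (fun _ => LinearMap.range a) := by
      ext v
      rw [Submodule.mem_pi]
      constructor
      · rintro ⟨F, rfl⟩ j _
        exact ⟨F j, (hΨ F j).symm⟩
      · intro h
        choose F hF using fun j => h j (Set.mem_univ j)
        refine ⟨F, ?_⟩
        funext j
        rw [← hF j]
        exact hΨ F j
    unfold rn
    rw [h1]
    have h2 : finrank K (Fin m → LinearMap.range a) = m * finrank K (LinearMap.range a) := by
      rw [Module.finrank_pi_fintype]; simp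
    rw [← h2]
    let emb : (Fin m → LinearMap.range a) →ₗ[K]
        Submodule.pi (Set.univ : Set (Fin m)) (fun _ => LinearMap.range a) :=
      { toFun := fun v => ⟨fun j => (v j : X → K), by
          rw [Submodule.mem_pi]; intro j _; exact (v j).2⟩
        map_add' := by intro u v; rfl
        map_smul' := by intro c v; rfl }
    refine LinearMap.finrank_le_finrank_of_injective (f := emb) ?_
    intro u v huv
    funext j
    have := congrArg Subtype.val huv
    exact Subtype.ext (congrFun this j)
  have h5 : rn (Rm ∘ₗ Ψ) ≤ rn Ψ := rn_comp_right _ _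
  have h6 : rn Ψ ≤ r * E := by
    refine le_trans ?_ hT
    unfold rn
    apply Submodule.finrank_mono
    rintro _ ⟨F, rfl⟩
    exact ⟨Matrix.toLin' D' (w F), ⟨w F, rfl⟩, rfl⟩
  calc m * rn a ≤ r * E := by omega
    _ ≤ rn D * E := Nat.mul_le_mul_right _ (hr.trans hrn)
    _ = E * rn D := Nat.mul_comm _ _

end

end Pool.Agent.CIR
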