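import Mathlib
import Pool.Agent.CIR.LaurB
import Pool.Agent.CIR.Conc
import Pool.Agent.CIR.Amb

/-!
# CIR / LaurC : the ambient ring of a sequence of finite sets

MP_05b873_al.
-/

namespace Pool.Agent.CIR

open Module Filter Topology

section

variable {A : ℕ → Type*} [∀ k, Ring (A k)] {A' : ℕ → Type*} [∀ k, Ring (A' k)]

theorem limRk_le_mul (r : ∀ k, RankRing (A k)) (r' : ∀ k, RankRing (A' k)) {x : ∀ k, A k}
    {y : ∀ k, A' k} {c : ℝ} (hc : 0 ≤ c) (h : ∀ k, (r k).rk (x k) ≤ c * (r' k).rk (y k)) :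
    limRk r x ≤ c * limRk r' y := by
  apply limRk_le' r (mul_nonneg hc (limRk_nonneg r' y))
  intro δ hδ
  have h1 : limRk r' y < limRk r' y + (δ - c * limRk r' y) / (c + 1) := by
    have : 0 < (δ - c * limRk r' y) / (c + 1) := by
      apply div_pos <;> linarith
    linarith
  filter_upwards [eventually_of_limRk_lt r' h1] with k hk
  refine (h k).trans ?_
  calc c * (r' k).rk (y k) ≤ c * (limRk r' y + (δ - c * limRk r' y) / (c + 1)) := by gcongr
    _ = c * limRk r' y + (δ - c * limRk r' y) * (c / (c + 1)) := by ring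
    _ ≤ c * limRk r' y + (δ - c * limRk r' y) * 1 := by
      have h2 : c / (c + 1) ≤ 1 := by rw [div_le_one (by linarith)]; linarith
      have h3 : 0 ≤ δ - c * limRk r' y := by linarith
      have := mul_le_mul_of_nonneg_left h2 h3
      linarith
    _ = δ := by ring

theorem limRk_le_limRk (r : ∀ k, RankRing (A k)) (r' : ∀ k, RankRing (A' k)) {x : ∀ k, A k}
    {y : ∀ k, A' k} (h : ∀ k, (r k).rk (x k) ≤ (r' k).rk (y k)) :
    limRk r x ≤ limRk r' y := by
  have := limRk_le_mul r r' (c := 1) zero_le_one (fun k => by rw [one_mul]; exact h k)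
  rwa [one_mul] at this

end

section

variable (K : Type*) [Field K] (X : ℕ → Type*) [∀ k, Fintype (X k)] [∀ k, Nonempty (X k)]

theorem rr_rk (k : ℕ) (a : Module.End K (X k → K)) :
    (rr K X k).rk a = (rn a : ℝ) / Fintype.card (X k) := by
  change (rn a : ℝ) / finrank K (X k → K) = _
  rw [finrank_fun]

open Classical in
/-- scalar extension on sequences -/
noncomputable def extP : (∀ k, Module.End K (X k → K)) →+* (∀ k, Module.End (LL K) (X k → LL K)) :=
  RingHom.pi fun k => (extE K (X k)).comp (Pi.evalRingHom _ k)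

open Classical in
/-- sequences of matrices over power series -/
noncomputable def thP : (∀ k, Matrix (X k) (X k) (OO K)) →+*
    (∀ k, Module.End (LL K) (X k → LL K)) :=
  RingHom.pi fun k => (thL K (X k)).comp (Pi.evalRingHom _ k)

theorem limRk_extP (x : ∀ k, Module.End K (X k → K)) :
    limRk (rr (LL K) X) (extP K X x) ≤ limRk (rr K X) x := by
  classical
  apply limRk_le_limRk
  intro k
  rw [rr_rk, rr_rk]
  gcongr
  exact rn_extE_le (x k)

/-- the scalar extension on the quotients -/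
noncomputable def extW : WW K X →+* WW (LL K) X :=
  (pr K X).con.lift ((mkW (LL K) X).comp (extP K X)) (by
    intro x y h
    have h1 : limRk (rr K X) (x - y) = 0 := h
    change mkW (LL K) X (extP K X x) = mkW (LL K) X (extP K X y)
    have h2 : (pr (LL K) X).con (extP K X x) (extP K X y) := by
      change limRk (rr (LL K) X) (extP K X x - extP K X y) = 0
      rw [← map_sub]
      apply le_antisymm _ (limRk_nonneg _ _)
      rw [← h1]
      exact limRk_extP K X _
    exact (RingCon.eq _).2 h2)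

theorem extW_mk (x : ∀ k, Module.End K (X k → K)) :
    extW K X (mkW K X x) = mkW (LL K) X (extP K X x) := rfl

theorem extW_iota (c : K) : extW K X (iotaW K X c) =
    iotaW (LL K) X (algebraMap (OO K) (LL K) (PowerSeries.C c)) := by
  classical
  have h1 : extW K X (iotaW K X c) = mkW (LL K) X
    (extP K X (fun k => algebraMap K (Module.End K (X k → K)) c)) := rfl
  have h2 : iotaW (LL K) X (algebraMap (OO K) (LL K) (PowerSeries.C c)) = mkW (LL K) X
    (fun k => algebraMap (LL K) (Module.End (LL K) (X k → LL K))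
      (algebraMap (OO K) (LL K) (PowerSeries.C c))) := rfl
  rw [h1, h2]
  congr 1
  funext k
  exact extE_smul c

theorem extW_alpha {Γ : Type*} [Group Γ] [∀ k, MulAction Γ (X k)] (g : Γ) :
    extW K X (alphaW K X g) = alphaW (LL K) X g := by
  classical
  rw [alphaW_apply, alphaW_apply, extW_mk]
  congr 1
  funext k
  exact extE_perm g

/-- the variable as a unit of the ambient ring -/
noncomputable def zW : (WW (LL K) X)ˣ := Units.map (iotaW (LL K) X).toMonoidHom (Units.mk0 (zL K) zL_ne)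

theorem zW_val : (zW K X : WW (LL K) X) = mkW (LL K) X
    (fun k => algebraMap (LL K) (Module.End (LL K) (X k → LL K)) (zL K)) := rfl

theorem zL_mul_thL (X : Type*) [Fintype X] [DecidableEq X] (M : Matrix X X (OO K)) :
    algebraMap (LL K) (Module.End (LL K) (X → LL K)) (zL K) * thL K X M =
      thL K X ((PowerSeries.X : OO K) • M) := by
  apply LinearMap.ext; intro f; funext x
  have h1 : (algebraMap (LL K) (Module.End (LL K) (X → LL K)) (zL K) * thL K X M) f x =
    zL K * thL K X M f x := rfl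
  rw [h1, thL_apply, thL_apply, Finset.mul_sum]
  apply Finset.sum_congr rfl; intro y _
  rw [Matrix.smul_apply, smul_eq_mul, map_mul, mul_assoc]
  rfl

theorem zW_mul_th (M : ∀ k, Matrix (X k) (X k) (OO K)) :
    (zW K X : WW (LL K) X) * mkW (LL K) X (thP K X M) =
      mkW (LL K) X (thP K X (fun k => (PowerSeries.X : OO K) • M k)) := by
  classical
  rw [zW_val, ← map_mul]
  have h1 : (fun k => algebraMap (LL K) (Module.End (LL K) (X k → LL K)) (zL K)) * thP K X M =
      thP K X (fun k => (PowerSeries.X : OO K) • M k) := by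
    funext k
    exact zL_mul_thL K (X k) (M k)
  rw [h1]

theorem zW_pow_mul_th (J : ℕ) (M : ∀ k, Matrix (X k) (X k) (OO K)) :
    (zW K X : WW (LL K) X) ^ J * mkW (LL K) X (thP K X M) =
      mkW (LL K) X (fun k => (zL K) ^ J • thP K X M k) := by
  have h1 : (zW K X : WW (LL K) X) ^ J = mkW (LL K) X
      (fun k => algebraMap (LL K) (Module.End (LL K) (X k → LL K)) ((zL K) ^ J)) := by
    rw [zW_val, ← map_pow]
    congr 1
    funext k
    rw [map_pow]; rfl
  rw [h1, ← map_mul]
  have h2 : (fun k => algebraMap (LL K) (Module.End (LL K) (X k → LL K)) (zL K ^ J)) *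
      thP K X M = fun k => (zL K) ^ J • thP K X M k := by
    funext k
    exact (Algebra.smul_def _ _).symm
  rw [h2]

open Classical in
/-- the subring of power series -/
noncomputable def VW : Subring (WW (LL K) X) where
  carrier := {w | ∃ M, mkW (LL K) X (thP K X M) = w}
  zero_mem' := ⟨0, by rw [map_zero, map_zero]⟩
  one_mem' := ⟨1, by rw [map_one, map_one]⟩
  add_mem' := by
    rintro _ _ ⟨M, rfl⟩ ⟨N, rfl⟩
    exact ⟨M + N, by rw [map_add, map_add]⟩
  mul_mem' := by
    rintro _ _ ⟨M, rfl⟩ ⟨N, rfl⟩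
    exact ⟨M * N, by rw [map_mul, map_mul]⟩
  neg_mem' := by
    rintro _ ⟨M, rfl⟩
    exact ⟨-M, by rw [map_neg, map_neg]⟩

open Classical in
theorem mem_VW {w : WW (LL K) X} : w ∈ VW K X ↔ ∃ M, mkW (LL K) X (thP K X M) = w := Iff.rfl

/-- the gauges -/
def GW : Set (WW (LL K) X)ˣ :=
  {g | ∃ (R : ℕ) (s : ∀ k, X k → ℕ), (∀ k x, s k x ≤ R) ∧
    (g : WW (LL K) X) = mkW (LL K) X (fun k => mulOp (LL K) (fun x => zL K ^ s k x)) ∧
    ((g⁻¹ : (WW (LL K) X)ˣ) : WW (LL K) X) =
      mkW (LL K) X (fun k => mulOp (LL K) (fun x => (zL K ^ s k x)⁻¹))}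

/-- the gauge of a bounded family of functions -/
theorem exists_GW (R : ℕ) (s : ∀ k, X k → ℕ) (hs : ∀ k x, s k x ≤ R) :
    ∃ g ∈ GW K X,
      (g : WW (LL K) X) = mkW (LL K) X (fun k => mulOp (LL K) (fun x => zL K ^ s k x)) ∧
      ((g⁻¹ : (WW (LL K) X)ˣ) : WW (LL K) X) =
        mkW (LL K) X (fun k => mulOp (LL K) (fun x => (zL K ^ s k x)⁻¹)) := by
  have h1 : mkW (LL K) X (fun k => mulOp (LL K) (fun x => zL K ^ s k x)) *
      mkW (LL K) X (fun k => mulOp (LL K) (fun x => (zL K ^ s k x)⁻¹)) = 1 := by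
    rw [← map_mul, ← map_one (mkW (LL K) X)]
    congr 1
    funext k
    apply LinearMap.ext; intro f; funext x
    change zL K ^ s k x * ((zL K ^ s k x)⁻¹ * f x) = f x
    rw [mul_inv_cancel_left₀ (pow_ne_zero _ zL_ne)]
  have h2 : mkW (LL K) X (fun k => mulOp (LL K) (fun x => (zL K ^ s k x)⁻¹)) *
      mkW (LL K) X (fun k => mulOp (LL K) (fun x => zL K ^ s k x)) = 1 := by
    rw [← map_mul, ← map_one (mkW (LL K) X)]
    congr 1
    funext k
    apply LinearMap.ext; intro f; funext x
    change (zL K ^ s k x)⁻¹ * (zL K ^ s k x * f x) = f x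
    rw [inv_mul_cancel_left₀ (pow_ne_zero _ zL_ne)]
  exact ⟨⟨_, _, h1, h2⟩, ⟨R, s, hs, rfl, rfl⟩, rfl, rfl⟩

theorem pinv_level (X : Type*) [Fintype X] [DecidableEq X] (a b : Module.End K (X → K))
    (hb : rn (1 - a * b) + rn a ≤ Fintype.card X) (w : Module.End (LL K) (X → LL K)) :
    rn (1 - a * b) ≤ rn (1 - extE K X a * w) := by
  have h2 : rn (1 : Module.End (LL K) (X → LL K)) = Fintype.card X := by
    have : rn (1 : Module.End (LL K) (X → LL K)) = finrank (LL K) (X → LL K) := rn_id
    rw [this, Module.finrank_fintype_fun_eq_card]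
  have h3 := rn_add (1 - extE K X a * w) (extE K X a * w)
  rw [sub_add_cancel, h2] at h3
  have h4 : rn (extE K X a * w) ≤ rn (extE K X a) := rn_comp_left _ _
  have h5 := rn_extE_le a
  omega

theorem vW_pinv (a : ∀ k, Module.End K (X k → K)) : ∃ b : ∀ k, Module.End K (X k → K),
    ∀ w : ∀ k, Module.End (LL K) (X k → LL K),
      limRk (rr K X) (1 - a * b) ≤ limRk (rr (LL K) X) (1 - extP K X a * w) := by
  classical
  choose b hb1 hb2 using fun k => exists_quasi (a k)
  refine ⟨b, fun w => ?_⟩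
  apply limRk_le_limRk
  intro k
  rw [rr_rk, rr_rk]
  have h1 := hb1 k
  rw [finrank_fun] at h1
  have h2 := pinv_level K (X k) (a k) (b k) h1 (w k)
  have hc : (0 : ℝ) < Fintype.card (X k) := by exact_mod_cast Fintype.card_pos
  rw [div_le_div_iff_of_pos_right hc]
  exact Nat.cast_le.2 h2

theorem level_vanish (a : ∀ k, Module.End K (X k → K)) (B : ℕ) (s : ∀ k, X k → ℕ)
    (hs : ∀ k x, s k x ≤ B) (J : ℕ) (hJ : B < J) (M : ∀ k, Matrix (X k) (X k) (OO K)) :
    limRk (rr K X) a ≤ ((J + B : ℕ) : ℝ) / ((J - B : ℕ) : ℝ) *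
      limRk (rr (LL K) X) ((fun k => mulOp (LL K) (fun x => (zL K ^ s k x)⁻¹)) * extP K X a *
        (fun k => mulOp (LL K) (fun x => zL K ^ s k x)) - fun k => (zL K) ^ J • thP K X M k) := by
  classical
  apply limRk_le_mul _ _ (by positivity)
  intro k
  have h2 := finite_level (a k) (s k) B J (hs k) (M k)
  rw [rr_rk, rr_rk]
  have hJB : (0 : ℝ) < ((J - B : ℕ) : ℝ) := by
    exact_mod_cast (by omega : 0 < J - B)
  have hc : (0 : ℝ) < Fintype.card (X k) := by exact_mod_cast Fintype.card_pos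
  rw [div_mul_div_comm, div_le_div_iff₀ hc (by positivity)]
  have h3 : ((J - B : ℕ) : ℝ) * rn (a k) ≤ ((J + B : ℕ) : ℝ) *
      rn (mulOp (LL K) (fun x => (zL K ^ s k x)⁻¹) * extE K (X k) (a k) *
        mulOp (LL K) (fun x => zL K ^ s k x) - (zL K) ^ J • thL K (X k) (M k)) := by
    exact_mod_cast h2
  have h4 : (rn (a k) : ℝ) * (((J - B : ℕ) : ℝ) * Fintype.card (X k)) =
      (((J - B : ℕ) : ℝ) * rn (a k)) * Fintype.card (X k) := by ring
  rw [h4]
  exact mul_le_mul_of_nonneg_right h3 hc.le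

variable {K X}

/-- **the ambient ring** -/
noncomputable def ambW (R : RankData (WW K X)) (hR : ∀ x, R.rho (mkW K X x) = limRk (rr K X) x)
    (Rz : RankData (WW (LL K) X))
    (hRz : ∀ x, Rz.rho (mkW (LL K) X x) = limRk (rr (LL K) X) x) : Amb R Rz where
  ext := extW K X
  V := VW K X
  z := zW K X
  G := GW K X
  ext_mem := by
    classical
    intro x
    obtain ⟨x, rfl⟩ := mkW_surjective K X x
    exact (mem_VW K X).2 ⟨fun k => cK K (X k) (x k), rfl⟩
  z_mem := by
    classical
    refine (mem_VW K X).2 ⟨fun k => (PowerSeries.X : OO K) • 1, ?_⟩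
    have h1 := zW_mul_th K X (fun k => 1)
    have h2 : mkW (LL K) X (thP K X (fun k => 1)) = 1 := by
      have : (fun k => (1 : Matrix (X k) (X k) (OO K))) = 1 := rfl
      rw [this, map_one, map_one]
    rw [h2, mul_one] at h1
    exact h1.symm
  z_comm := by
    intro x
    exact iotaW_comm (LL K) X (zL K) x
  unit := by
    classical
    intro v hv
    obtain ⟨M, rfl⟩ := (mem_VW K X).1 hv
    choose N hN1 hN2 using fun k => exists_inv_OO (M k)
    refine ⟨mkW (LL K) X (thP K X N), (mem_VW K X).2 ⟨N, rfl⟩, ?_, ?_⟩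
    · have h1 : (1 : WW (LL K) X) + zW K X * (mkW (LL K) X (thP K X M)) =
          mkW (LL K) X (thP K X (fun k => 1 + (PowerSeries.X : OO K) • M k)) := by
        rw [zW_mul_th]
        have : (fun k => 1 + (PowerSeries.X : OO K) • M k) =
          (1 : ∀ k, Matrix (X k) (X k) (OO K)) + fun k => (PowerSeries.X : OO K) • M k := rfl
        rw [this, map_add, map_add, map_one, map_one]
      rw [h1, ← map_mul, ← map_mul]
      have : (fun k => 1 + (PowerSeries.X : OO K) • M k) * N = 1 := by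
        funext k; exact hN1 k
      rw [this, map_one, map_one]
    · have h1 : (1 : WW (LL K) X) + zW K X * (mkW (LL K) X (thP K X M)) =
          mkW (LL K) X (thP K X (fun k => 1 + (PowerSeries.X : OO K) • M k)) := by
        rw [zW_mul_th]
        have : (fun k => 1 + (PowerSeries.X : OO K) • M k) =
          (1 : ∀ k, Matrix (X k) (X k) (OO K)) + fun k => (PowerSeries.X : OO K) • M k := rfl
        rw [this, map_add, map_add, map_one, map_one]
      rw [h1, ← map_mul, ← map_mul]
      have : N * (fun k => 1 + (PowerSeries.X : OO K) • M k) = 1 := by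
        funext k; exact hN2 k
      rw [this, map_one, map_one]
  vanish := by
    classical
    rintro g ⟨B, s, hs, hg, hg'⟩ x y hy
    obtain ⟨a, rfl⟩ := mkW_surjective K X x
    set ρ := Rz.rho (((g⁻¹ : (WW (LL K) X)ˣ) : WW (LL K) X) * extW K X (mkW K X a) * g - y) with hρ
    have hρ0 : 0 ≤ ρ := Rz.rho_nonneg _
    have key : ∀ J : ℕ, B < J → R.rho (mkW K X a) ≤ ((J + B : ℕ) : ℝ) / ((J - B : ℕ) : ℝ) * ρ := by
      intro J hJ
      obtain ⟨v, hv, hyM⟩ := hy J
      obtain ⟨M, rfl⟩ := (mem_VW K X).1 hv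
      rw [hρ, hyM, zW_pow_mul_th, hg, hg', extW_mk, ← map_mul, ← map_mul, ← map_sub, hR, hRz]
      exact level_vanish K X a B s hs J hJ M
    -- let J tend to infinity
    apply le_of_forall_pos_le_add
    intro ε hε
    obtain ⟨p, hp⟩ := exists_nat_gt (2 * B * ρ / ε)
    have h1 := key (B + (p + 1)) (by omega)
    have h2 : B + (p + 1) - B = p + 1 := by omega
    rw [h2] at h1
    refine h1.trans ?_
    have hp0 : (0 : ℝ) < ((p + 1 : ℕ) : ℝ) := by positivity
    have h3 : ((B + (p + 1) + B : ℕ) : ℝ) / ((p + 1 : ℕ) : ℝ) * ρ =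
        ρ + 2 * B * ρ / ((p + 1 : ℕ) : ℝ) := by
      push_cast
      field_simp
      ring
    rw [h3]
    have h4 : 2 * B * ρ / ((p + 1 : ℕ) : ℝ) ≤ ε := by
      rw [div_le_iff₀ hp0]
      rw [div_lt_iff₀ hε] at hp
      push_cast
      nlinarith
    linarith
  pinv := by
    classical
    intro x
    obtain ⟨a, rfl⟩ := mkW_surjective K X x
    obtain ⟨b, hb⟩ := vW_pinv K X a
    refine ⟨mkW K X b, fun w => ?_⟩
    obtain ⟨w, rfl⟩ := mkW_surjective (LL K) X w
    rw [← map_mul, ← map_one (mkW K X), ← map_sub, hR, extW_mk, ← map_mul,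
      ← map_one (mkW (LL K) X), ← map_sub, hRz]
    exact hb w

end

end Pool.Agent.CIR
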