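import Mathlib
import Pool.Agent.CIR.LaurC
import Pool.Agent.CIR.AmbExp
import Pool.Agent.CIR.ConvD

/-!
# CIR / Rok : the Rokhlin condition and convergence of ranks

MP_05b873_al.
-/

namespace Pool.Agent.CIR

open Module Filter Topology

section

variable {Γ : Type*} [Group Γ]

/-- the Rokhlin condition for `φ : H → ℤ` and a sequence of finite `Γ`-sets: up to small sets,
`φ` is the coboundary of bounded functions -/
def RokX (X : ℕ → Type*) [∀ k, MulAction Γ (X k)] [∀ k, Fintype (X k)] (H : Subgroup Γ)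
    (φ : H →* Multiplicative ℤ) : Prop :=
  ∀ (P : Finset H) (ε : ℝ), 0 < ε → ∃ B : ℕ, ∀ᶠ k in atTop, ∃ s : X k → ℕ, (∀ x, s x ≤ B) ∧
    ∀ h ∈ P, (Nat.card {x : X k // (s ((h : Γ) • x) : ℤ) ≠ s x + Multiplicative.toAdd (φ h)} : ℝ) ≤
      ε * Fintype.card (X k)

variable (K : Type*) [Field K]

/-- the error of a gauge at one level -/
theorem gauge_level {X : Type*} [MulAction Γ X] [Fintype X] (h : Γ) (e B : ℕ)
    (s : X → ℕ) (hs : ∀ x, s x ≤ B) :
    rn (mulOp (LL K) (fun x => (zL K ^ (B - s x))⁻¹) * perm (LL K) X h *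
        mulOp (LL K) (fun x => zL K ^ (B - s x)) -
        algebraMap (LL K) (Module.End (LL K) (X → LL K)) (zL K ^ e) * perm (LL K) X h) ≤
      Nat.card {x : X // (s (h • x) : ℤ) ≠ s x + e} := by
  classical
  set c : X → LL K := fun x => (zL K ^ (B - s x))⁻¹ * zL K ^ (B - s (h⁻¹ • x)) - zL K ^ e with hc
  have h1 : mulOp (LL K) (fun x => (zL K ^ (B - s x))⁻¹) * perm (LL K) X h *
        mulOp (LL K) (fun x => zL K ^ (B - s x)) -
        algebraMap (LL K) (Module.End (LL K) (X → LL K)) (zL K ^ e) * perm (LL K) X h =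
      mulOp (LL K) c * perm (LL K) X h := by
    apply LinearMap.ext; intro f; funext x
    have e1 : (mulOp (LL K) (fun x => (zL K ^ (B - s x))⁻¹) * perm (LL K) X h *
        mulOp (LL K) (fun x => zL K ^ (B - s x)) -
        algebraMap (LL K) (Module.End (LL K) (X → LL K)) (zL K ^ e) * perm (LL K) X h) f x =
        (zL K ^ (B - s x))⁻¹ * (zL K ^ (B - s (h⁻¹ • x)) * f (h⁻¹ • x)) -
          zL K ^ e * f (h⁻¹ • x) := rfl
    have e2 : (mulOp (LL K) c * perm (LL K) X h) f x = c x * f (h⁻¹ • x) := rfl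
    rw [e1, e2, hc]
    ring
  rw [h1]
  refine (rn_comp_left _ _).trans ?_
  refine (rn_mulOp (LL K) c).trans ?_
  rw [Nat.card_eq_fintype_card, Fintype.card_subtype]
  apply Finset.card_le_card_of_injOn (fun x => h⁻¹ • x)
  · intro x hx
    rw [Finset.mem_coe, Finset.mem_filter] at hx
    rw [Finset.mem_coe, Finset.mem_filter]
    refine ⟨Finset.mem_univ _, fun hcon => hx.2 ?_⟩
    rw [smul_inv_smul] at hcon
    have hcon' : (s x : ℤ) = s (h⁻¹ • x) + e := hcon
    have h2 : B - s (h⁻¹ • x) = (B - s x) + e := by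
      have h3 := hs x
      have h4 := hs (h⁻¹ • x)
      omega
    rw [hc]
    beta_reduce
    rw [h2, pow_add, inv_mul_cancel_left₀ (pow_ne_zero _ zL_ne), sub_self]
  · intro x _ y _ hxy
    exact smul_left_cancel _ hxy

variable (X : ℕ → Type*) [∀ k, MulAction Γ (X k)] [∀ k, Fintype (X k)] [∀ k, Nonempty (X k)]

/-- the error of a gauge -/
theorem gauge_seq (Rz : RankData (WW (LL K) X))
    (hRz : ∀ x, Rz.rho (mkW (LL K) X x) = limRk (rr (LL K) X) x)
    (h : Γ) (e B : ℕ) (s : ∀ k, X k → ℕ) (hs : ∀ k x, s k x ≤ B) (ε : ℝ) (hε : 0 ≤ ε)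
    (hev : ∀ᶠ k in atTop, (Nat.card {x : X k // (s k (h • x) : ℤ) ≠ s k x + e} : ℝ) ≤
      ε * Fintype.card (X k)) :
    Rz.rho (mkW (LL K) X (fun k => mulOp (LL K) (fun x => (zL K ^ (B - s k x))⁻¹)) *
      alphaW (LL K) X h * mkW (LL K) X (fun k => mulOp (LL K) (fun x => zL K ^ (B - s k x))) -
      mkW (LL K) X (fun k => algebraMap (LL K) (Module.End (LL K) (X k → LL K)) (zL K ^ e)) *
        alphaW (LL K) X h) ≤ ε := by
  rw [alphaW_apply, ← map_mul, ← map_mul, ← map_mul, ← map_sub, hRz]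
  apply limRk_le _ hε
  filter_upwards [hev] with k hk
  rw [rr_rk]
  have hc : (0 : ℝ) < Fintype.card (X k) := by exact_mod_cast Fintype.card_pos
  rw [div_le_iff₀ hc]
  refine le_trans ?_ hk
  have h1 := gauge_level K h e B (s k) (hs k)
  exact Nat.cast_le.2 h1

/-- **the split of `H`** -/
theorem exists_spl (R : RankData (WW K X)) (hR : ∀ x, R.rho (mkW K X x) = limRk (rr K X) x)
    (Rz : RankData (WW (LL K) X))
    (hRz : ∀ x, Rz.rho (mkW (LL K) X x) = limRk (rr (LL K) X) x)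
    (H : Subgroup Γ) (φ : H →* Multiplicative ℤ) (hφ : Function.Surjective φ)
    (hrok : RokX X H φ) : Nonempty (Spl (ambW R hR Rz hRz) (alphaW K X) H) := by
  classical
  obtain ⟨t, ht⟩ := hφ (Multiplicative.ofAdd 1)
  let N : Subgroup Γ := φ.ker.map H.subtype
  have hN : ∀ n ∈ N, ∃ n' : H, (n' : Γ) = n ∧ φ n' = 1 := by
    rintro _ ⟨n', hn', rfl⟩
    exact ⟨n', rfl, hn'⟩
  have hN' : ∀ n' : H, φ n' = 1 → (n' : Γ) ∈ N := fun n' hn' => ⟨n', hn', rfl⟩
  refine ⟨{ N := N, t := t, N_le := ?_, t_mem := t.2, conj_mem := ?_, conj_mem' := ?_,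
            exists_eq := ?_, not_le := ?_, gauge := ?_ }⟩
  · rintro n hn
    obtain ⟨n', rfl, _⟩ := hN n hn
    exact n'.2
  · intro n hn
    obtain ⟨n', rfl, h⟩ := hN n hn
    exact hN' (t * n' * t⁻¹) (by rw [map_mul, map_mul, h, map_inv]; simp)
  · intro n hn
    obtain ⟨n', rfl, h⟩ := hN n hn
    exact hN' (t⁻¹ * n' * t) (by rw [map_mul, map_mul, h, map_inv]; simp)
  · intro h hh
    refine ⟨((⟨h, hh⟩ * t ^ (-(Multiplicative.toAdd (φ ⟨h, hh⟩)) : ℤ) : H) : Γ), hN' _ ?_,
      Multiplicative.toAdd (φ ⟨h, hh⟩), ?_⟩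
    · rw [map_mul, map_zpow, ht]
      apply Multiplicative.toAdd.injective
      rw [toAdd_mul, toAdd_zpow]
      simp
    · simp
  · intro hle
    obtain ⟨t', ht', h1⟩ := hN t (hle t.2)
    have : t' = t := Subtype.ext ht'
    rw [this, ht] at h1
    have h2 := congrArg Multiplicative.toAdd h1
    simp at h2
  · intro S hS ε hε
    -- lifts of the elements of S
    have hex : ∀ n : Γ, ∃ n' : H, n ∈ S → (n' : Γ) = n ∧ φ n' = 1 := by
      intro n
      by_cases hn : n ∈ S
      · obtain ⟨n', h1, h2⟩ := hN n (hS n hn)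
        exact ⟨n', fun _ => ⟨h1, h2⟩⟩
      · exact ⟨1, fun h => absurd h hn⟩
    choose l hl using hex
    obtain ⟨B, hB⟩ := hrok (insert t (S.image l)) ε hε
    have hs : ∃ s : ∀ k, X k → ℕ, (∀ k x, s k x ≤ B) ∧ ∀ᶠ k in atTop,
        ∀ h ∈ insert t (S.image l),
          (Nat.card {x : X k // (s k ((h : Γ) • x) : ℤ) ≠ s k x + Multiplicative.toAdd (φ h)} : ℝ) ≤
          ε * Fintype.card (X k) := by
      have key : ∀ k, ∃ s : X k → ℕ, (∀ x, s x ≤ B) ∧ ((∃ s : X k → ℕ, (∀ x, s x ≤ B) ∧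
          ∀ h ∈ insert t (S.image l),
          (Nat.card {x : X k // (s ((h : Γ) • x) : ℤ) ≠ s x + Multiplicative.toAdd (φ h)} : ℝ) ≤
          ε * Fintype.card (X k)) → ∀ h ∈ insert t (S.image l),
          (Nat.card {x : X k // (s ((h : Γ) • x) : ℤ) ≠ s x + Multiplicative.toAdd (φ h)} : ℝ) ≤
          ε * Fintype.card (X k)) := by
        intro k
        by_cases h : ∃ s : X k → ℕ, (∀ x, s x ≤ B) ∧
          ∀ h ∈ insert t (S.image l),
          (Nat.card {x : X k // (s ((h : Γ) • x) : ℤ) ≠ s x + Multiplicative.toAdd (φ h)} : ℝ) ≤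
          ε * Fintype.card (X k)
        · obtain ⟨s, h1, h2⟩ := h
          exact ⟨s, h1, fun _ => h2⟩
        · exact ⟨fun _ => 0, fun _ => Nat.zero_le _, fun h' => absurd h' h⟩
      choose s hs1 hs2 using key
      refine ⟨s, hs1, ?_⟩
      filter_upwards [hB] with k hk
      exact hs2 k hk
    obtain ⟨s, hs1, hs2⟩ := hs
    obtain ⟨g, hg, hg1, hg2⟩ := exists_GW K X B (fun k x => B - s k x) (fun k x => Nat.sub_le _ _)
    refine ⟨g, hg, ?_, ?_⟩
    · have h1 := gauge_seq K X Rz hRz (t : Γ) 1 B s hs1 ε hε.le (by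
        filter_upwards [hs2] with k hk
        have := hk t (Finset.mem_insert_self _ _)
        rw [ht] at this
        exact this)
      rw [← hg1, ← hg2] at h1
      have h2 : mkW (LL K) X (fun k => algebraMap (LL K) (Module.End (LL K) (X k → LL K))
          (zL K ^ 1)) = (zW K X : WW (LL K) X) := by
        rw [zW_val, pow_one]
      rw [h2] at h1
      change Rz.rho ((g⁻¹ : (WW (LL K) X)ˣ) * extW K X (alphaW K X (t : Γ)) * g -
        zW K X * extW K X (alphaW K X (t : Γ))) ≤ ε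
      rw [extW_alpha]
      exact h1
    · intro n hn
      obtain ⟨e1, e2⟩ := hl n hn
      have h1 := gauge_seq K X Rz hRz n 0 B s hs1 ε hε.le (by
        filter_upwards [hs2] with k hk
        have := hk (l n) (Finset.mem_insert_of_mem (Finset.mem_image_of_mem l hn))
        rw [e2, e1] at this
        exact this)
      rw [← hg1, ← hg2] at h1
      have h2 : mkW (LL K) X (fun k => algebraMap (LL K) (Module.End (LL K) (X k → LL K))
          (zL K ^ 0)) = 1 := by
        rw [pow_zero, ← map_one (mkW (LL K) X)]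
        congr 1
        funext k
        exact map_one _
      rw [h2, one_mul] at h1
      change Rz.rho ((g⁻¹ : (WW (LL K) X)ˣ) * extW K X (alphaW K X n) * g -
        extW K X (alphaW K X n)) ≤ ε
      rw [extW_alpha]
      exact h1

/-- **convergence of the ranks under the Rokhlin condition** -/
theorem tendsto_rkX_rok
    (hst : ∀ H : Subgroup Γ, H.FG → H ≠ ⊥ →
      ∃ φ : H →* Multiplicative ℤ, Function.Surjective φ ∧ RokX X H φ)
    {m n : ℕ} (A : Matrix (Fin m) (Fin n) (MonoidAlgebra K Γ)) :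
    ∃ r : ℕ, Tendsto (fun k => (rkX (X k) A : ℝ) / Fintype.card (X k)) atTop (𝓝 r) := by
  classical
  obtain ⟨O⟩ := exists_ops
  obtain ⟨R, hR⟩ : ∃ R : RankData (WW K X), ∀ x, R.rho (mkW K X x) = limRk (rr K X) x :=
    exists_quot (pr K X)
  obtain ⟨Rz, hRz⟩ : ∃ Rz : RankData (WW (LL K) X),
      ∀ x, Rz.rho (mkW (LL K) X x) = limRk (rr (LL K) X) x := exists_quot (pr (LL K) X)
  refine tendsto_rkXD K X O R hR (fun H c x hx => ?_) A
  refine Der.zero_or_unit2 (A := ambW R hR Rz hRz) (iotaW_comm K X) ?_ ?_ hx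
  · intro c x
    change extW K X (iotaW K X c) * x = x * extW K X (iotaW K X c)
    rw [extW_iota]
    exact iotaW_comm (LL K) X _ x
  · intro H h1 h2
    obtain ⟨φ, hφ, hrok⟩ := hst H h1 h2
    exact exists_spl K X R hR Rz hRz H φ hφ hrok

end

end Pool.Agent.CIR
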