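import Mathlib
import Pool.Agent.CIR.RG
import Pool.Agent.CIR.Rok

/-!
# CIR / Crit : a criterion for the Rokhlin condition

MP_05b873_al.  If `L k` are finite index subgroups of the abelianisation of `H` which contain the
images of the stabilisers of the points of `X k`, and every `a` with `φ a ≠ 0` is eventually not in
`L k`, then the Rokhlin condition holds for `φ`.
-/

namespace Pool.Agent.CIR

open Finset Filter Topology

section

variable {Γ : Type*} [Group Γ]

/-- the equivariant map to a finite abelian quotient -/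
theorem exists_degree' {X : Type*} [MulAction Γ X] (H : Subgroup Γ) {B : Type*} [AddCommGroup B]
    (ψ : H → B) (hψ : ∀ g h, ψ (g * h) = ψ g + ψ h)
    (hstab : ∀ (h : H) (x : X), (h : Γ) • x = x → ψ h = 0) :
    ∃ d : X → B, ∀ (h : H) (x : X), d ((h : Γ) • x) = ψ h + d x := by
  classical
  have hψ1 : ψ 1 = 0 := by
    have := hψ 1 1
    rw [mul_one] at this
    simpa using this
  have hψi : ∀ g, ψ g⁻¹ = -ψ g := by
    intro g
    have := hψ g g⁻¹
    rw [mul_inv_cancel, hψ1] at this
    exact (neg_eq_of_add_eq_zero_right this.symm).symm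
  let r : X → X := fun x => Quotient.out (Quotient.mk (MulAction.orbitRel H X) x)
  have hr : ∀ x, ∃ h : H, (h : Γ) • r x = x := by
    intro x
    have h1 : (MulAction.orbitRel H X).r (r x) x := Quotient.exact (Quotient.out_eq _)
    have h2 := (MulAction.orbitRel_apply).1 ((MulAction.orbitRel H X).symm h1)
    obtain ⟨h, hh⟩ := h2
    exact ⟨h, hh⟩
  choose k hk using hr
  have hrr : ∀ (h : H) (x : X), r ((h : Γ) • x) = r x := by
    intro h x
    have : Quotient.mk (MulAction.orbitRel H X) ((h : Γ) • x) =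
        Quotient.mk (MulAction.orbitRel H X) x := by
      apply Quotient.sound
      exact (MulAction.orbitRel_apply).2 ⟨h, rfl⟩
    change Quotient.out _ = Quotient.out _
    rw [this]
  refine ⟨fun x => ψ (k x), fun h x => ?_⟩
  have h1 : (((h * k x)⁻¹ * k ((h : Γ) • x) : H) : Γ) • r x = r x := by
    have h2 := hk ((h : Γ) • x)
    rw [hrr] at h2
    have h3 := hk x
    have : (((h * k x)⁻¹ * k ((h : Γ) • x) : H) : Γ) • r x =
        ((h * k x : H) : Γ)⁻¹ • ((k ((h : Γ) • x) : Γ) • r x) := by
      rw [← mul_smul]; simp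
    rw [this, h2]
    rw [inv_smul_eq_iff]
    have : ((h * k x : H) : Γ) • r x = (h : Γ) • ((k x : Γ) • r x) := by
      rw [← mul_smul]; simp
    rw [this, h3]
  have h4 := hstab _ _ h1
  rw [hψ, hψi, hψ] at h4
  change ψ (k ((h : Γ) • x)) = ψ h + ψ (k x)
  have h5 : ψ (k ((h : Γ) • x)) = (ψ h + ψ (k x)) + (-(ψ h + ψ (k x)) + ψ (k ((h : Γ) • x))) := by
    abel
  rw [h5, h4, add_zero]

/-- averaging over translations -/
theorem exists_shift {X B : Type*} [Fintype X] [AddCommGroup B] [Fintype B] [DecidableEq B]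
    (π : X → B) (Bad : Finset B) (δ : ℝ) (hBad : ((Bad.card : ℕ) : ℝ) ≤ δ * Fintype.card B) :
    ∃ u : B, (((univ.filter fun x : X => π x + u ∈ Bad).card : ℕ) : ℝ) ≤ δ * Fintype.card X := by
  classical
  by_contra hcon
  push Not at hcon
  have h1 : ∑ u : B, (univ.filter fun x : X => π x + u ∈ Bad).card = Fintype.card X * Bad.card := by
    simp_rw [card_filter]
    rw [sum_comm]
    have h2 : ∀ x : X, ∑ u : B, (if π x + u ∈ Bad then 1 else 0) = Bad.card := by
      intro x
      rw [← card_filter]
      apply card_bij (fun u _ => π x + u)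
      · intro u hu; exact (mem_filter.1 hu).2
      · intro u _ v _ h; exact add_left_cancel h
      · intro b hb
        exact ⟨b - π x, mem_filter.2 ⟨mem_univ _, by rwa [add_sub_cancel]⟩, by
          rw [add_sub_cancel]⟩
    rw [sum_congr rfl (fun x _ => h2 x), sum_const, card_univ, smul_eq_mul]
  have h2 : (∑ u : B, (((univ.filter fun x : X => π x + u ∈ Bad).card : ℕ) : ℝ)) =
      Fintype.card X * Bad.card := by exact_mod_cast h1
  have h3 : ∑ u : B, (δ * Fintype.card X : ℝ) <
      ∑ u : B, (((univ.filter fun x : X => π x + u ∈ Bad).card : ℕ) : ℝ) := by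
    apply sum_lt_sum_of_nonempty ⟨0, mem_univ _⟩
    intro u _
    exact hcon u
  rw [h2, sum_const, card_univ, nsmul_eq_mul] at h3
  have h4 : (Fintype.card X : ℝ) * Bad.card ≤ Fintype.card X * (δ * Fintype.card B) := by
    gcongr
  linarith

/-- the criterion at one level -/
theorem level_rok {X : Type*} [MulAction Γ X] [Fintype X] (H : Subgroup Γ)
    (φ : H →* Multiplicative ℤ) (L : Subgroup (Abelianization H)) [L.FiniteIndex]
    (hstab : ∀ (h : H) (x : X), (h : Γ) • x = x → Abelianization.of h ∈ L)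
    {d : ℕ} (h : Fin d → H) (δ : ℝ) (hδ : 0 < δ) (M : ℕ)
    (hM : (((2 * (2 * M) + 1) ^ d : ℕ) : ℝ) < (1 + δ) ^ M)
    (hker : ∀ v ∈ box d (4 * M), (∏ i, Abelianization.of (h i) ^ v i) ∈ L →
      Abelianization.lift φ (∏ i, Abelianization.of (h i) ^ v i) = 1) :
    ∃ s : X → ℕ, (∀ x, s x ≤ 4 * M * ∑ i, (Multiplicative.toAdd (φ (h i))).natAbs) ∧
      ∀ i, (Nat.card {x : X // (s ((h i : Γ) • x) : ℤ) ≠ s x + Multiplicative.toAdd (φ (h i))} : ℝ) ≤
        δ * Fintype.card X := by
  classical
  let B := Additive (Abelianization H ⧸ L)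
  let _ : Fintype B := Fintype.ofFinite _
  let ψH : H → B := fun g => Additive.ofMul ((Abelianization.of g : Abelianization H) :
    Abelianization H ⧸ L)
  have hψH : ∀ g g', ψH (g * g') = ψH g + ψH g' := by
    intro g g'
    change Additive.ofMul _ = Additive.ofMul _ + Additive.ofMul _
    rw [← ofMul_mul, map_mul]
    rfl
  obtain ⟨π, hπ⟩ := exists_degree' H ψH hψH (X := X) (by
    intro g x hg
    change Additive.ofMul _ = Additive.ofMul 1
    congr 1
    exact (QuotientGroup.eq_one_iff _).2 (hstab g x hg))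
  let ψ : (Fin d → ℤ) →+ B :=
    { toFun := fun v => ∑ i, v i • ψH (h i)
      map_zero' := by simp
      map_add' := by intro v w; simp [add_smul, sum_add_distrib] }
  let φ' : (Fin d → ℤ) →+ ℤ :=
    { toFun := fun v => ∑ i, v i * Multiplicative.toAdd (φ (h i))
      map_zero' := by simp
      map_add' := by intro v w; simp [add_mul, sum_add_distrib] }
  have hψv : ∀ v, ψ v = Additive.ofMul (((∏ i, Abelianization.of (h i) ^ v i :
      Abelianization H)) : Abelianization H ⧸ L) := by
    intro v
    change ∑ i, v i • ψH (h i) = _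
    have h1 : (((∏ i, Abelianization.of (h i) ^ v i : Abelianization H)) :
        Abelianization H ⧸ L) = ∏ i, ((Abelianization.of (h i) : Abelianization H) :
          Abelianization H ⧸ L) ^ v i := by
      change QuotientGroup.mk' L _ = _
      rw [map_prod]
      apply prod_congr rfl; intro i _
      rw [map_zpow]; rfl
    rw [h1, ofMul_prod]
    apply sum_congr rfl; intro i _
    rw [ofMul_zpow]
  have hφv : ∀ v, Multiplicative.toAdd (Abelianization.lift φ
      (∏ i, Abelianization.of (h i) ^ v i)) = φ' v := by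
    intro v
    rw [map_prod, toAdd_prod]
    change _ = ∑ i, v i * Multiplicative.toAdd (φ (h i))
    apply sum_congr rfl; intro i _
    rw [map_zpow, Abelianization.lift_apply_of, toAdd_zpow, smul_eq_mul]
  have hψ1 : ∀ i, ψ (Pi.single i 1) = ψH (h i) := by
    intro i
    change ∑ j, (Pi.single i (1 : ℤ) : Fin d → ℤ) j • ψH (h j) = _
    rw [sum_eq_single i]
    · simp
    · intro j _ hj; rw [Pi.single_eq_of_ne hj, zero_smul]
    · intro h'; exact absurd (mem_univ _) h'
  have hφ1 : ∀ i, φ' (Pi.single i 1) = Multiplicative.toAdd (φ (h i)) := by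
    intro i
    change ∑ j, (Pi.single i (1 : ℤ) : Fin d → ℤ) j * Multiplicative.toAdd (φ (h j)) = _
    rw [sum_eq_single i]
    · simp
    · intro j _ hj; rw [Pi.single_eq_of_ne hj, zero_mul]
    · intro h'; exact absurd (mem_univ _) h'
  obtain ⟨f, hf1, hf2⟩ := region ψ φ' δ hδ M hM (by
    intro v hv h0
    rw [hψv] at h0
    have h1 : (((∏ i, Abelianization.of (h i) ^ v i : Abelianization H)) :
        Abelianization H ⧸ L) = 1 := h0
    have h2 := hker v hv ((QuotientGroup.eq_one_iff _).1 h1)
    rw [← hφv, h2]; rfl)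
  obtain ⟨u, hu⟩ := exists_shift π _ δ hf2
  refine ⟨fun x => f (π x + u), fun x => ?_, fun i => ?_⟩
  · refine (hf1 _).trans (le_of_eq ?_)
    unfold cst
    simp only [hφ1]
  · refine le_trans ?_ hu
    rw [Nat.card_eq_fintype_card, Fintype.card_subtype]
    have hsub : (univ.filter fun x : X => (f (π ((h i : Γ) • x) + u) : ℤ) ≠
        f (π x + u) + Multiplicative.toAdd (φ (h i))) ⊆ univ.filter fun x : X => π x + u ∈
          univ.filter fun b => ∃ i, (f (b + ψ (Pi.single i 1)) : ℤ) ≠
            f b + φ' (Pi.single i 1) := by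
      intro x hx
      rw [mem_filter] at hx
      rw [mem_filter, mem_filter]
      refine ⟨mem_univ _, mem_univ _, i, ?_⟩
      rw [hψ1, hφ1]
      have h1 : π x + u + ψH (h i) = π ((h i : Γ) • x) + u := by rw [hπ]; abel
      rw [h1]
      exact hx.2
    exact_mod_cast card_le_card hsub

/-- **the criterion** -/
theorem rokX_of (X : ℕ → Type*) [∀ k, MulAction Γ (X k)] [∀ k, Fintype (X k)] (H : Subgroup Γ)
    (φ : H →* Multiplicative ℤ) (L : ℕ → Subgroup (Abelianization H))
    (hfi : ∀ᶠ k in atTop, (L k).FiniteIndex)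
    (hstab : ∀ᶠ k in atTop, ∀ (h : H) (x : X k), (h : Γ) • x = x → Abelianization.of h ∈ L k)
    (hL : ∀ a : Abelianization H, Abelianization.lift φ a ≠ 1 → ∀ᶠ k in atTop, a ∉ L k) :
    RokX X H φ := by
  classical
  intro P ε hε
  let e := P.equivFin
  let h : Fin P.card → H := fun i => (e.symm i : H)
  obtain ⟨M, hM⟩ := exists_M P.card ε hε
  have hev : ∀ᶠ k in atTop, ∀ v ∈ box P.card (4 * M),
      (∏ i, Abelianization.of (h i) ^ v i) ∈ L k →
        Abelianization.lift φ (∏ i, Abelianization.of (h i) ^ v i) = 1 := by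
    rw [Filter.eventually_all_finset]
    intro v _
    by_cases h1 : Abelianization.lift φ (∏ i, Abelianization.of (h i) ^ v i) = 1
    · exact Filter.Eventually.of_forall fun k _ => h1
    · filter_upwards [hL _ h1] with k hk hk'
      exact absurd hk' hk
  refine ⟨4 * M * ∑ i, (Multiplicative.toAdd (φ (h i))).natAbs, ?_⟩
  filter_upwards [hfi, hstab, hev] with k h1 h2 h3
  obtain ⟨s, hs1, hs2⟩ := level_rok (X := X k) H φ (L k) h2 h ε hε M hM h3
  refine ⟨s, hs1, fun g hg => ?_⟩
  have := hs2 (e ⟨g, hg⟩)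
  simpa [h] using this

end

end Pool.Agent.CIR
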