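import Mathlib
import Pool.Agent.CIR.Betti
import Pool.Agent.CIR.Classes2

/-!
# CIR / Virt : passing to finite index subgroups

MP_05b873_al.
-/

namespace Pool.Agent.CIR

open Module CategoryTheory Filter Topology

universe u

section

variable {K : Type u} {Γ : Type u} [Field K] [Group Γ]

theorem finrank_gh_congr {G H : Type u} [Group G] [Group H] (e : G ≃* H) (n : ℕ) :
    finrank K (groupHomology (Rep.trivial K G K) n) =
      finrank K (groupHomology (Rep.trivial K H K) n) := by
  classical
  exact (groupHomology.mapIso (A := Rep.trivial K G K) (B := Rep.trivial K H K) e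
    (LinearEquiv.refl K K) (fun g => rfl) n).toLinearEquiv.finrank_eq

/-- the normalised Betti numbers of `D` in `Γ` and in a finite index subgroup `G` containing
`D` -/
theorem nbetti_subgroupOf (n : ℕ) (G D : Subgroup Γ) (hG : G.FiniteIndex)
    (hD : D ≤ G) : nbetti K n D = nbetti K n (D.subgroupOf G) / G.index := by
  unfold nbetti
  rw [← finrank_gh_congr (K := K) (Subgroup.subgroupOfEquivOfLe hD) n]
  have h1 : (D.subgroupOf G).index * G.index = D.index := Subgroup.relIndex_mul_index hD
  rw [← h1]
  push_cast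
  rw [div_div]

/-- **Virtually profinitely indicable groups.** -/
theorem tendsto_nbetti_cofinal (n : ℕ) (G : Subgroup Γ) (hG : G.FiniteIndex)
    (hI : ProfIndicable G) (hP : FPres K G (n + 1)) :
    ∃ β : ℕ, ∀ Δ : ℕ → Subgroup Γ, (∀ k, (Δ k).Normal) → (∀ k, (Δ k).FiniteIndex) →
      Cofinal Δ → Tendsto (fun k => nbetti K n (Δ k)) atTop (𝓝 ((β : ℝ) / G.index)) := by
  classical
  obtain ⟨Φ, hΦ, hc⟩ := hI.exists_family
  obtain ⟨β, hβ⟩ := tendsto_nbetti (K := K) Φ hΦ n hP
  refine ⟨β, fun Δ hn hf hcof => ?_⟩
  have h1 : Cofinal (fun k => (Δ k).subgroupOf G) := by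
    intro D hD
    have hD' : (D.map G.subtype).FiniteIndex := by
      constructor
      rw [Subgroup.index_map_subtype]
      exact Nat.mul_ne_zero hD.index_ne_zero hG.index_ne_zero
    filter_upwards [hcof _ hD'] with k hk
    intro x hx
    obtain ⟨y, hy, hyx⟩ := hk hx
    have : y = x := Subtype.ext hyx
    rwa [← this]
  have h2 := hβ (fun k => (Δ k).subgroupOf G) (fun k => (hn k).subgroupOf G)
    (fun k => by
      have := hf k
      infer_instance) (hc _ h1)
  have h3 := h2.div_const (G.index : ℝ)
  refine h3.congr' ?_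
  filter_upwards [hcof G hG] with k hk
  exact (nbetti_subgroupOf n G (Δ k) hG hk).symm

end

end Pool.Agent.CIR
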