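import Mathlib
import Pool.Agent.CIR.Virt

/-!
# CIR / Indep : independence of the family of homomorphisms

MP_05b873_al.  The sequence `Δ k ⊓ Δ' k` is compatible with every family with which `Δ` or `Δ'` is
compatible, so that the limits for `Δ` and `Δ'` agree.
-/

namespace Pool.Agent.CIR

open Module Filter Topology

universe u

section

variable {Γ : Type*} [Group Γ]

/-- A sequence of subgroups is *indicated* if every nontrivial finitely generated subgroup `H` has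
an epimorphism `φ` onto `ℤ` for which the index of `φ (H ∩ Δ k)` in `ℤ` tends to infinity. -/
def Indicated (Δ : ℕ → Subgroup Γ) : Prop :=
  ∀ H : Subgroup Γ, H.FG → H ≠ ⊥ → ∃ φ : H →* Multiplicative ℤ, Function.Surjective φ ∧
    ∀ C : ℕ, ∀ᶠ k in atTop, ∃ m : ℕ, C ≤ m ∧
      ∀ h : H, (h : Γ) ∈ Δ k → (m : ℤ) ∣ Multiplicative.toAdd (φ h)

theorem Indicated.exists_family {Δ : ℕ → Subgroup Γ} (h : Indicated Δ) :
    ∃ Φ : ∀ H : Subgroup Γ, H →* Multiplicative ℤ, Indicating Φ ∧ Compatible Φ Δ := by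
  classical
  have key : ∀ H : Subgroup Γ, ∃ φ : H →* Multiplicative ℤ, H.FG → H ≠ ⊥ →
      Function.Surjective φ ∧ ∀ C : ℕ, ∀ᶠ k in atTop, ∃ m : ℕ, C ≤ m ∧
      ∀ h : H, (h : Γ) ∈ Δ k → (m : ℤ) ∣ Multiplicative.toAdd (φ h) := by
    intro H
    by_cases h1 : H.FG ∧ H ≠ ⊥
    · obtain ⟨φ, hφ⟩ := h H h1.1 h1.2
      exact ⟨φ, fun _ _ => hφ⟩
    · exact ⟨1, fun h2 h3 => absurd ⟨h2, h3⟩ h1⟩
  choose Φ hΦ using key
  exact ⟨Φ, fun H h1 h2 => (hΦ H h1 h2).1, fun H h1 h2 => (hΦ H h1 h2).2⟩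

theorem Compatible.mono {Φ : ∀ H : Subgroup Γ, H →* Multiplicative ℤ} {Δ Δ' : ℕ → Subgroup Γ}
    (h : Compatible Φ Δ) (hle : ∀ k, Δ' k ≤ Δ k) : Compatible Φ Δ' := by
  intro H h1 h2 C
  filter_upwards [h H h1 h2 C] with k hk
  obtain ⟨m, hm, hm2⟩ := hk
  exact ⟨m, hm, fun x hx => hm2 x (hle k hx)⟩

end

section

variable {K : Type u} {Γ : Type u} [Field K] [Group Γ]

/-- **Convergence and independence for all indicated sequences.** -/
theorem tendsto_nbetti_indicated (n : ℕ) (hP : FPres K Γ (n + 1)) :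
    ∃ β : ℕ, ∀ Δ : ℕ → Subgroup Γ, (∀ k, (Δ k).Normal) → (∀ k, (Δ k).FiniteIndex) →
      Indicated Δ → Tendsto (fun k => nbetti K n (Δ k)) atTop (𝓝 β) := by
  classical
  by_cases hex : ∃ Δ : ℕ → Subgroup Γ, (∀ k, (Δ k).Normal) ∧ (∀ k, (Δ k).FiniteIndex) ∧
      Indicated Δ
  · obtain ⟨Δ₀, hn₀, hf₀, hi₀⟩ := hex
    obtain ⟨Φ₀, hΦ₀, hc₀⟩ := hi₀.exists_family
    obtain ⟨β, hβ⟩ := tendsto_nbetti (K := K) Φ₀ hΦ₀ n hP
    refine ⟨β, fun Δ hn hf hi => ?_⟩
    obtain ⟨Φ, hΦ, hc⟩ := hi.exists_family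
    obtain ⟨β', hβ'⟩ := tendsto_nbetti (K := K) Φ hΦ n hP
    have hnn : ∀ k, (Δ k ⊓ Δ₀ k).Normal := fun k => by
      have := hn k
      have := hn₀ k
      infer_instance
    have hff : ∀ k, (Δ k ⊓ Δ₀ k).FiniteIndex := fun k => by
      have := hf k
      have := hf₀ k
      infer_instance
    have h1 := hβ (fun k => Δ k ⊓ Δ₀ k) hnn hff (hc₀.mono fun k => inf_le_right)
    have h2 := hβ' (fun k => Δ k ⊓ Δ₀ k) hnn hff (hc.mono fun k => inf_le_left)
    have h3 : (β : ℝ) = β' := tendsto_nhds_unique h1 h2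
    rw [h3]
    exact hβ' Δ hn hf hc
  · exact ⟨0, fun Δ hn hf hi => absurd ⟨Δ, hn, hf, hi⟩ hex⟩

/-- the version for a finite index subgroup -/
theorem tendsto_nbetti_virtual (n : ℕ) (G : Subgroup Γ) (hG : G.FiniteIndex)
    (hP : FPres K G (n + 1)) :
    ∃ β : ℕ, ∀ Δ : ℕ → Subgroup Γ, (∀ k, (Δ k).Normal) → (∀ k, (Δ k).FiniteIndex) →
      (∀ᶠ k in atTop, Δ k ≤ G) → Indicated (fun k => (Δ k).subgroupOf G) →
      Tendsto (fun k => nbetti K n (Δ k)) atTop (𝓝 ((β : ℝ) / G.index)) := by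
  classical
  obtain ⟨β, hβ⟩ := tendsto_nbetti_indicated (K := K) n hP
  refine ⟨β, fun Δ hn hf hev hi => ?_⟩
  have h2 := hβ (fun k => (Δ k).subgroupOf G) (fun k => (hn k).subgroupOf G)
    (fun k => by
      have := hf k
      infer_instance) hi
  have h3 := h2.div_const (G.index : ℝ)
  refine h3.congr' ?_
  filter_upwards [hev] with k hk
  exact (nbetti_subgroupOf n G (Δ k) hG hk).symm

/-- cofinal sequences in virtually profinitely indicable groups are indicated -/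
theorem ProfIndicable.indicated {Γ : Type*} [Group Γ] (G : Subgroup Γ) (hG : G.FiniteIndex)
    (hI : ProfIndicable G) (Δ : ℕ → Subgroup Γ) (hcof : Cofinal Δ) :
    (∀ᶠ k in atTop, Δ k ≤ G) ∧ Indicated (fun k => (Δ k).subgroupOf G) := by
  classical
  refine ⟨hcof G hG, ?_⟩
  have h1 : Cofinal (fun k => (Δ k).subgroupOf G) := by
    intro D hD
    have hD' : (D.map G.subtype).FiniteIndex := by
      constructor
      rw [Subgroup.index_map_subtype]
      exact Nat.mul_ne_zero hD.index_ne_zero hG.index_ne_zero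
    filter_upwards [hcof _ hD'] with k hk
    intro x hx
    obtain ⟨y, hy, hyx⟩ := hk hx
    have : y = x := Subtype.ext hyx
    rwa [← this]
  obtain ⟨Φ, hΦ, hc⟩ := hI.exists_family
  exact fun H h2 h3 => ⟨Φ H, hΦ H h2 h3, hc _ h1 H h2 h3⟩

end

end Pool.Agent.CIR
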