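import Mathlib
import Pool.Agent.CIR.Rok

/-!
# CIR / MinHash : amenable quotients and the Rokhlin condition

MP_05b873_al.  If `H` has an amenable quotient `Q` in which the stabilisers are asymptotically
trivial, then every homomorphism to the integers which factors through `Q` satisfies the Rokhlin
condition.  The tiles are chosen by min-wise hashing: a point `y` chooses the smallest point (in a
random ranking) of `F⁻¹ y`.
-/

namespace Pool.Agent.CIR

open Finset Filter Topology

section

/-- Følner's condition -/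
def Foelner (Q : Type*) [Group Q] : Prop :=
  ∀ (P : Finset Q) (ε : ℝ), 0 < ε → ∃ F : Finset Q, F.Nonempty ∧
    ∀ q ∈ P, (Nat.card {g : Q // g ∈ F ∧ q * g ∉ F} : ℝ) ≤ ε * F.card

/-- rankings of a finite set -/
abbrev Rkg (Y : Type*) [Fintype Y] := Y ≃ Fin (Fintype.card Y)

variable {Y : Type*} [Fintype Y]

/-- rankings for which `c` is minimal in `T` -/
def MinAt (T : Finset Y) (c : Y) (σ : Rkg Y) : Prop := ∀ c' ∈ T, σ c ≤ σ c'

theorem MinAt.unique {T : Finset Y} {c c' : Y} {σ : Rkg Y} (hc : c ∈ T) (hc' : c' ∈ T)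
    (h : MinAt T c σ) (h' : MinAt T c' σ) : c = c' :=
  σ.injective (le_antisymm (h c' hc') (h' c hc))

theorem exists_minAt (T : Finset Y) (hT : T.Nonempty) (σ : Rkg Y) : ∃ c ∈ T, MinAt T c σ :=
  Finset.exists_min_image T σ hT

open Classical in
theorem card_minAt_mul (T : Finset Y) {c : Y} (hc : c ∈ T) :
    (univ.filter (MinAt T c)).card * T.card ≤ Fintype.card (Rkg Y) := by
  have h1 : ∀ c' ∈ T, (univ.filter (MinAt T c')).card = (univ.filter (MinAt T c)).card := by
    intro c' hc'
    apply card_bij (fun σ _ => (Equiv.swap c c').trans σ)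
    · intro σ hσ
      rw [mem_filter] at hσ ⊢
      refine ⟨mem_univ _, fun d hd => ?_⟩
      change σ (Equiv.swap c c' c) ≤ σ (Equiv.swap c c' d)
      rw [Equiv.swap_apply_left]
      apply hσ.2
      rw [Equiv.swap_apply_def]
      split_ifs
      · exact hc'
      · exact hc
      · exact hd
    · intro σ _ τ _ h
      have := congrArg (fun e => (Equiv.swap c c').trans e) h
      simpa [← Equiv.trans_assoc] using this
    · intro τ hτ
      rw [mem_filter] at hτ
      refine ⟨(Equiv.swap c c').trans τ, ?_, ?_⟩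
      · rw [mem_filter]
        refine ⟨mem_univ _, fun d hd => ?_⟩
        change τ (Equiv.swap c c' c') ≤ τ (Equiv.swap c c' d)
        rw [Equiv.swap_apply_right]
        apply hτ.2
        rw [Equiv.swap_apply_def]
        split_ifs
        · exact hc'
        · exact hc
        · exact hd
      · rw [← Equiv.trans_assoc]
        simp
  have h2 : ∑ c' ∈ T, (univ.filter (MinAt T c')).card ≤ Fintype.card (Rkg Y) := by
    rw [← card_biUnion]
    · exact card_le_univ _
    · intro a ha b hb hab
      rw [Function.onFun, disjoint_left]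
      intro σ h3 h4
      rw [mem_filter] at h3 h4
      exact hab (MinAt.unique ha hb h3.2 h4.2)
  rw [sum_congr rfl h1, sum_const, smul_eq_mul] at h2
  rw [mul_comm]; exact h2

/-- the minimal element -/
noncomputable def amin (T : Finset Y) (hT : T.Nonempty) (σ : Rkg Y) : Y :=
  Classical.choose (exists_minAt T hT σ)

theorem amin_mem (T : Finset Y) (hT : T.Nonempty) (σ : Rkg Y) : amin T hT σ ∈ T :=
  (Classical.choose_spec (exists_minAt T hT σ)).1

theorem amin_min (T : Finset Y) (hT : T.Nonempty) (σ : Rkg Y) : MinAt T (amin T hT σ) σ :=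
  (Classical.choose_spec (exists_minAt T hT σ)).2

open Classical in
/-- min-wise hashing -/
theorem minhash (A B : Finset Y) (hA : A.Nonempty) (hB : B.Nonempty) :
    (univ.filter fun σ : Rkg Y => amin A hA σ ≠ amin B hB σ).card * A.card ≤
      ((A \ B).card + (B \ A).card) * Fintype.card (Rkg Y) := by
  set T := A ∪ B with hT
  have hTne : T.Nonempty := hA.mono subset_union_left
  have h1 : (univ.filter fun σ : Rkg Y => amin A hA σ ≠ amin B hB σ) ⊆
      ((A \ B) ∪ (B \ A)).biUnion (fun c => univ.filter (MinAt T c)) := by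
    intro σ hσ
    rw [mem_filter] at hσ
    rw [mem_biUnion]
    refine ⟨amin T hTne σ, ?_, mem_filter.2 ⟨mem_univ _, amin_min _ _ _⟩⟩
    have h2 := amin_mem T hTne σ
    have h3 := amin_min T hTne σ
    by_contra hcon
    rw [mem_union, Finset.mem_sdiff, Finset.mem_sdiff] at hcon
    push Not at hcon
    have h4 : amin T hTne σ ∈ A ∧ amin T hTne σ ∈ B := by
      rcases mem_union.1 h2 with h | h
      · exact ⟨h, hcon.1 h⟩
      · exact ⟨hcon.2 h, h⟩
    apply hσ.2
    rw [MinAt.unique (amin_mem A hA σ) h4.1 (amin_min A hA σ)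
      (fun c hc => h3 c (mem_union_left _ hc)),
      MinAt.unique (amin_mem B hB σ) h4.2 (amin_min B hB σ)
      (fun c hc => h3 c (mem_union_right _ hc))]
  have h2 : (univ.filter fun σ : Rkg Y => amin A hA σ ≠ amin B hB σ).card * T.card ≤
      ((A \ B).card + (B \ A).card) * Fintype.card (Rkg Y) := by
    calc (univ.filter fun σ : Rkg Y => amin A hA σ ≠ amin B hB σ).card * T.card
        ≤ (((A \ B) ∪ (B \ A)).biUnion (fun c => univ.filter (MinAt T c))).card * T.card :=
          Nat.mul_le_mul_right _ (card_le_card h1)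
      _ ≤ (∑ c ∈ (A \ B) ∪ (B \ A), (univ.filter (MinAt T c)).card) * T.card :=
          Nat.mul_le_mul_right _ card_biUnion_le
      _ = ∑ c ∈ (A \ B) ∪ (B \ A), (univ.filter (MinAt T c)).card * T.card := by
          rw [sum_mul]
      _ ≤ ∑ c ∈ (A \ B) ∪ (B \ A), Fintype.card (Rkg Y) := by
          apply sum_le_sum
          intro c hc
          apply card_minAt_mul
          rw [mem_union, Finset.mem_sdiff, Finset.mem_sdiff] at hc
          rcases hc with h | h
          · exact mem_union_left _ h.1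
          · exact mem_union_right _ h.1
      _ = ((A \ B) ∪ (B \ A)).card * Fintype.card (Rkg Y) := by
          rw [sum_const, smul_eq_mul]
      _ ≤ ((A \ B).card + (B \ A).card) * Fintype.card (Rkg Y) :=
          Nat.mul_le_mul_right _ (card_union_le _ _)
  refine le_trans (Nat.mul_le_mul_left _ (card_le_card subset_union_left)) h2

variable {Q : Type*} [Group Q] [MulAction Q Y]

open Classical in
/-- the candidates of `y` -/
noncomputable def cand (F : Finset Q) (y : Y) : Finset Y := F.image (fun g => g⁻¹ • y)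

omit [Fintype Y] in
theorem cand_ne {F : Finset Q} (hF : F.Nonempty) (y : Y) : (cand F y).Nonempty := by
  classical
  exact hF.image _

open Classical in
/-- one pair of neighbouring points -/
theorem card_cand {F : Finset Q} (hF : F.Nonempty) (q : Q) (y : Y) (δ : ℝ)
    (hq : (Nat.card {g : Q // g ∈ F ∧ q * g ∉ F} : ℝ) ≤ δ * F.card)
    (hfree : ∀ g ∈ F, ∀ g' ∈ F, (g * g'⁻¹) • y = y → g * g'⁻¹ = 1) :
    ((univ.filter fun σ : Rkg Y => amin (cand F y) (cand_ne hF y) σ ≠
      amin (cand F (q • y)) (cand_ne hF (q • y)) σ).card : ℝ) ≤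
      2 * δ * Fintype.card (Rkg Y) := by
  have h1 := minhash (cand F y) (cand F (q • y)) (cand_ne hF y) (cand_ne hF (q • y))
  have hcard : (cand F y).card = F.card := by
    apply card_image_of_injOn
    intro g hg g' hg' h
    have h2 : g⁻¹ • y = g'⁻¹ • y := h
    have h3 : (g * g'⁻¹) • y = y := by
      rw [mul_smul, ← h2, smul_inv_smul]
    have h4 := hfree g hg g' hg' h3
    exact (mul_inv_eq_one.1 h4)
  have hb : Nat.card {g : Q // g ∈ F ∧ q * g ∉ F} = (F.filter fun g => q * g ∉ F).card := by
    have : ({g : Q | g ∈ F ∧ q * g ∉ F} : Set Q) = ↑(F.filter fun g => q * g ∉ F) := by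
      ext g; simp
    have h2 : Nat.card {g : Q // g ∈ F ∧ q * g ∉ F} =
        ({g : Q | g ∈ F ∧ q * g ∉ F} : Set Q).ncard := rfl
    rw [h2, this, Set.ncard_coe_finset]
  have h2 : (cand F y \ cand F (q • y)).card ≤ (F.filter fun g => q * g ∉ F).card := by
    have : cand F y \ cand F (q • y) ⊆ (F.filter fun g => q * g ∉ F).image (fun g => g⁻¹ • y) := by
      intro c hc
      rw [Finset.mem_sdiff] at hc
      obtain ⟨g, hg, rfl⟩ := mem_image.1 hc.1
      refine mem_image.2 ⟨g, mem_filter.2 ⟨hg, fun h => hc.2 ?_⟩, rfl⟩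
      refine mem_image.2 ⟨q * g, h, ?_⟩
      rw [mul_inv_rev, mul_smul, inv_smul_smul]
    exact (card_le_card this).trans card_image_le
  have h3 : (cand F (q • y) \ cand F y).card ≤ (F.filter fun g => q⁻¹ * g ∉ F).card := by
    have : cand F (q • y) \ cand F y ⊆
        (F.filter fun g => q⁻¹ * g ∉ F).image (fun g => g⁻¹ • q • y) := by
      intro c hc
      rw [Finset.mem_sdiff] at hc
      obtain ⟨g, hg, rfl⟩ := mem_image.1 hc.1
      refine mem_image.2 ⟨g, mem_filter.2 ⟨hg, fun h => hc.2 ?_⟩, rfl⟩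
      refine mem_image.2 ⟨q⁻¹ * g, h, ?_⟩
      rw [mul_inv_rev, inv_inv, mul_smul]
    exact (card_le_card this).trans card_image_le
  have h4 : (F.filter fun g => q⁻¹ * g ∉ F).card = (F.filter fun g => q * g ∉ F).card := by
    have e1 := card_filter_add_card_filter_not (s := F) (fun g => q * g ∉ F)
    have e2 := card_filter_add_card_filter_not (s := F) (fun g => q⁻¹ * g ∉ F)
    have e3 : (F.filter fun g => ¬ (q * g ∉ F)).card = (F.filter fun g => ¬ (q⁻¹ * g ∉ F)).card := by
      apply card_bij (fun g _ => q * g)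
      · intro g hg
        rw [mem_filter, not_not] at hg
        rw [mem_filter, not_not, inv_mul_cancel_left]
        exact ⟨hg.2, hg.1⟩
      · intro a _ b _ h
        exact mul_left_cancel h
      · intro b hb
        rw [mem_filter, not_not] at hb
        refine ⟨q⁻¹ * b, ?_, mul_inv_cancel_left _ _⟩
        rw [mem_filter, not_not, mul_inv_cancel_left]
        exact ⟨hb.2, hb.1⟩
    omega
  rw [hb] at hq
  have hF0 : (0 : ℝ) < F.card := by exact_mod_cast hF.card_pos
  have h5 : ((univ.filter fun σ : Rkg Y => amin (cand F y) (cand_ne hF y) σ ≠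
      amin (cand F (q • y)) (cand_ne hF (q • y)) σ).card : ℝ) * F.card ≤
      (2 * (F.filter fun g => q * g ∉ F).card) * Fintype.card (Rkg Y) := by
    rw [hcard] at h1
    have h6 : ((cand F y \ cand F (q • y)).card + (cand F (q • y) \ cand F y).card) *
        Fintype.card (Rkg Y) ≤ (2 * (F.filter fun g => q * g ∉ F).card) *
        Fintype.card (Rkg Y) := by
      apply Nat.mul_le_mul_right
      omega
    exact_mod_cast h1.trans h6
  have h7 : (2 * ((F.filter fun g => q * g ∉ F).card : ℝ)) * Fintype.card (Rkg Y) ≤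
      (2 * δ * Fintype.card (Rkg Y)) * F.card := by
    have : (0 : ℝ) ≤ Fintype.card (Rkg Y) := Nat.cast_nonneg _
    nlinarith
  exact le_of_mul_le_mul_right (h5.trans h7) hF0

open Classical in
/-- one level -/
theorem foel_level {X : Type*} [Fintype X] (p : X → Y) (φ : Q →* Multiplicative ℤ)
    {F : Finset Q} (hF : F.Nonempty) (P : Finset Q) (δ : ℝ)
    (hq : ∀ q ∈ P, (Nat.card {g : Q // g ∈ F ∧ q * g ∉ F} : ℝ) ≤ δ * F.card)
    (hfree : ∀ g ∈ F, ∀ g' ∈ F, ∀ q ∈ insert 1 P, ∀ y : Y, (g * g'⁻¹ * q) • y = y →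
      g * g'⁻¹ * q = 1) :
    ∃ s : Y → ℕ, (∀ y, s y ≤ 2 * ∑ g ∈ F, (Multiplicative.toAdd (φ g)).natAbs) ∧
      ∀ q ∈ P, (Nat.card {x : X // (s (q • p x) : ℤ) ≠ s (p x) + Multiplicative.toAdd (φ q)} : ℝ) ≤
        P.card * (2 * δ) * Fintype.card X := by
  set C : ℕ := ∑ g ∈ F, (Multiplicative.toAdd (φ g)).natAbs with hC
  have hCg : ∀ g ∈ F, (Multiplicative.toAdd (φ g)).natAbs ≤ C := fun g hg =>
    single_le_sum (f := fun g => (Multiplicative.toAdd (φ g)).natAbs) (fun _ _ => Nat.zero_le _) hg
  have hRne : Nonempty (Rkg Y) := ⟨Fintype.equivFin Y⟩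
  let m : Rkg Y → Y → Y := fun σ y => amin (cand F y) (cand_ne hF y) σ
  -- averaging
  have hsum : ∑ σ : Rkg Y, ∑ q ∈ P,
      ((univ.filter fun x : X => m σ (p x) ≠ m σ (q • p x)).card : ℝ) ≤
      ∑ σ : Rkg Y, (P.card * (2 * δ) * Fintype.card X : ℝ) := by
    have e1 : ∑ σ : Rkg Y, ∑ q ∈ P,
        ((univ.filter fun x : X => m σ (p x) ≠ m σ (q • p x)).card : ℝ) =
        ∑ q ∈ P, ∑ x : X, ((univ.filter fun σ : Rkg Y => m σ (p x) ≠ m σ (q • p x)).card : ℝ) := by
      rw [sum_comm]
      apply sum_congr rfl; intro q _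
      simp_rw [card_filter]
      push_cast
      rw [sum_comm]
    rw [e1]
    calc ∑ q ∈ P, ∑ x : X, ((univ.filter fun σ : Rkg Y => m σ (p x) ≠ m σ (q • p x)).card : ℝ)
        ≤ ∑ q ∈ P, ∑ x : X, (2 * δ * Fintype.card (Rkg Y) : ℝ) := by
          apply sum_le_sum; intro q hqP
          apply sum_le_sum; intro x _
          apply card_cand hF q (p x) δ (hq q hqP)
          intro g hg g' hg' h
          have := hfree g hg g' hg' 1 (mem_insert_self _ _) (p x) (by rwa [mul_one])
          rwa [mul_one] at this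
      _ = ∑ σ : Rkg Y, (P.card * (2 * δ) * Fintype.card X : ℝ) := by
          simp only [sum_const, card_univ, nsmul_eq_mul]
          ring
  obtain ⟨σ, _, hσ⟩ := exists_le_of_sum_le (univ_nonempty) hsum
  -- the choice of the tile
  have hch : ∀ y : Y, ∃ g ∈ F, g⁻¹ • y = m σ y := by
    intro y
    have := amin_mem (cand F y) (cand_ne hF y) σ
    exact mem_image.1 this
  choose γ hγF hγ using hch
  refine ⟨fun y => (Multiplicative.toAdd (φ (γ y)) + C).toNat, fun y => ?_, fun q hqP => ?_⟩
  · have := hCg _ (hγF y)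
    beta_reduce
    omega
  · have h1 : ((univ.filter fun x : X => m σ (p x) ≠ m σ (q • p x)).card : ℝ) ≤
        P.card * (2 * δ) * Fintype.card X := by
      refine le_trans ?_ hσ
      exact single_le_sum (f := fun q => ((univ.filter fun x : X =>
        m σ (p x) ≠ m σ (q • p x)).card : ℝ)) (fun _ _ => Nat.cast_nonneg _) hqP
    refine le_trans ?_ h1
    rw [Nat.card_eq_fintype_card, Fintype.card_subtype]
    have hsub : (univ.filter fun x : X => (((Multiplicative.toAdd (φ (γ (q • p x))) + C).toNat : ℕ)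
        : ℤ) ≠ ((Multiplicative.toAdd (φ (γ (p x))) + C).toNat : ℕ) +
          Multiplicative.toAdd (φ q)) ⊆
        univ.filter fun x : X => m σ (p x) ≠ m σ (q • p x) := by
      intro x hx
      rw [mem_filter] at hx ⊢
      refine ⟨mem_univ _, fun heq => hx.2 ?_⟩
      have h2 := hγ (p x)
      have h3 := hγ (q • p x)
      rw [← heq, ← h2] at h3
      have h4 : (γ (p x) * (γ (q • p x))⁻¹ * q) • p x = p x := by
        rw [mul_smul, mul_smul, h3, smul_inv_smul]
      have h5 := hfree _ (hγF _) _ (hγF _) q (mem_insert_of_mem hqP) _ h4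
      have h6 : γ (q • p x) = q * γ (p x) := by
        have h7 : (γ (q • p x))⁻¹ * q = (γ (p x))⁻¹ := by
          rw [mul_assoc] at h5
          exact (inv_eq_of_mul_eq_one_right h5).symm
        have h8 := congrArg (fun z => γ (q • p x) * z * γ (p x)) h7
        simp only [mul_inv_cancel_left, mul_assoc, inv_mul_cancel,
          mul_one] at h8
        exact h8.symm
      rw [h6, map_mul, toAdd_mul]
      have e1 := hCg _ (hγF (p x))
      have e2 := hCg _ (hγF (q • p x))
      rw [h6, map_mul, toAdd_mul] at e2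
      omega
    exact_mod_cast card_le_card hsub

end

section

variable {Γ : Type*} [Group Γ]

universe v

/-- the quotient of a set by the kernel -/
theorem exists_quotient_action {X : Type v} [MulAction Γ X] [Fintype X] (H : Subgroup Γ)
    {Q : Type*} [Group Q] (π : H →* Q) (hπ : Function.Surjective π) :
    ∃ (Y : Type v) (_ : Fintype Y) (_ : MulAction Q Y) (p : X → Y),
      (∀ (h : H) (x : X), p ((h : Γ) • x) = π h • p x) ∧
      ∀ (q : Q) (y : Y), q • y = y → ∃ (h : H) (x : X), (h : Γ) • x = x ∧ π h = q := by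
  classical
  let r : Setoid X :=
    { r := fun x y => ∃ n : H, π n = 1 ∧ (n : Γ) • x = y
      iseqv :=
        { refl := fun x => ⟨1, map_one π, by simp⟩
          symm := by
            rintro x y ⟨n, hn, rfl⟩
            exact ⟨n⁻¹, by rw [map_inv, hn, inv_one], by simp⟩
          trans := by
            rintro x y z ⟨n, hn, rfl⟩ ⟨n', hn', rfl⟩
            exact ⟨n' * n, by rw [map_mul, hn, hn', one_mul], by simp [mul_smul]⟩ } }
  choose σ hσ using hπ
  have hact : ∀ (h h' : H) (x : X), π h = π h' → (Quotient.mk r ((h : Γ) • x)) =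
      Quotient.mk r ((h' : Γ) • x) := by
    intro h h' x he
    apply Quotient.sound
    refine ⟨h' * h⁻¹, by rw [map_mul, map_inv, he, mul_inv_cancel], ?_⟩
    simp [mul_smul]
  let act : Q → Quotient r → Quotient r := fun q => Quotient.map (fun x => (σ q : Γ) • x) (by
    rintro x y ⟨n, hn, rfl⟩
    refine ⟨σ q * n * (σ q)⁻¹, by rw [map_mul, map_mul, hn, map_inv]; simp, ?_⟩
    simp [mul_smul])
  have hact' : ∀ (q : Q) (h : H) (x : X), π h = q →
      act q (Quotient.mk r x) = Quotient.mk r ((h : Γ) • x) := by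
    intro q h x he
    exact hact (σ q) h x (by rw [hσ, he])
  refine ⟨Quotient r, Fintype.ofFinite _,
    { smul := act, one_smul := ?_, mul_smul := ?_ }, Quotient.mk r, ?_, ?_⟩
  · intro q q' y
    induction y using Quotient.inductionOn with
    | h x =>
      have h1 := hact' (q * q') (σ q * σ q') x (by rw [map_mul, hσ, hσ])
      have h2 := hact' q' (σ q') x (hσ _)
      have h3 := hact' q (σ q) ((σ q' : Γ) • x) (hσ _)
      change act (q * q') _ = act q (act q' _)
      rw [h1, h2, h3, Subgroup.coe_mul, mul_smul]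
  · intro y
    induction y using Quotient.inductionOn with
    | h x =>
      have := hact' 1 1 x (map_one π)
      rw [Subgroup.coe_one, one_smul] at this
      exact this
  · intro h x
    exact (hact' (π h) h x rfl).symm
  · intro q y hy
    induction y using Quotient.inductionOn with
    | h x =>
      have h1 : act q (Quotient.mk r x) = Quotient.mk r x := hy
      rw [hact' q (σ q) x (hσ q)] at h1
      obtain ⟨n, hn, h2⟩ := Quotient.exact h1
      refine ⟨n * σ q, x, ?_, ?_⟩
      · rw [Subgroup.coe_mul, mul_smul]; exact h2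
      · rw [map_mul, hn, hσ, one_mul]

/-- **amenable quotients** -/
theorem rokX_of_foelner (X : ℕ → Type v) [∀ k, MulAction Γ (X k)] [∀ k, Fintype (X k)]
    (H : Subgroup Γ) {Q : Type*} [Group Q] (hQ : Foelner Q) (π : H →* Q)
    (hπ : Function.Surjective π) (φ : Q →* Multiplicative ℤ)
    (hfree : ∀ q : Q, q ≠ 1 → ∀ᶠ k in atTop, ∀ (h : H) (x : X k), (h : Γ) • x = x → π h ≠ q) :
    RokX X H (φ.comp π) := by
  classical
  intro P ε hε
  set P' := P.image π with hP'
  set δ : ℝ := ε / (2 * (P'.card + 1)) with hδ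
  have hδ0 : 0 < δ := by positivity
  obtain ⟨F, hF, hFq⟩ := hQ P' δ hδ0
  refine ⟨2 * ∑ g ∈ F, (Multiplicative.toAdd (φ g)).natAbs, ?_⟩
  have hev : ∀ᶠ k in atTop, ∀ q ∈ ((F ×ˢ F) ×ˢ (insert 1 P')).image
      (fun z => z.1.1 * z.1.2⁻¹ * z.2), q ≠ 1 → ∀ (h : H) (x : X k), (h : Γ) • x = x →
        π h ≠ q := by
    rw [Filter.eventually_all_finset]
    intro q _
    by_cases h1 : q = 1
    · exact Filter.Eventually.of_forall fun k h => absurd h1 h
    · filter_upwards [hfree q h1] with k hk _
      exact hk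
  filter_upwards [hev] with k hk
  obtain ⟨Y, hY1, hY2, p, hp1, hp2⟩ := exists_quotient_action (X := X k) H π hπ
  obtain ⟨s, hs1, hs2⟩ := foel_level p φ hF P' δ hFq (by
    intro g hg g' hg' q hq y hy
    by_contra hcon
    obtain ⟨h, x, h1, h2⟩ := hp2 _ _ hy
    exact hk _ (mem_image.2 ⟨((g, g'), q), by
      rw [mem_product, mem_product]; exact ⟨⟨hg, hg'⟩, hq⟩, rfl⟩) hcon h x h1 h2)
  refine ⟨fun x => s (p x), fun x => hs1 _, fun h hh => ?_⟩
  have h1 := hs2 (π h) (mem_image_of_mem _ hh)
  refine le_trans (le_of_eq ?_) (h1.trans ?_)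
  · simp only [hp1]
    rfl
  · apply mul_le_mul_of_nonneg_right _ (Nat.cast_nonneg _)
    rw [hδ]
    have : (0 : ℝ) ≤ (P'.card : ℝ) := Nat.cast_nonneg _
    rw [← mul_div_assoc, ← mul_div_assoc, div_le_iff₀ (by positivity)]
    nlinarith

end

end Pool.Agent.CIR
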