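import Mathlib
import Pool.Agent.CIR.Crit
import Pool.Agent.CIR.MinHash
import Pool.Agent.CIR.Indep

/-!
# CIR / RokSeq : convergence and chain independence under the Rokhlin condition

MP_05b873_al.
-/

namespace Pool.Agent.CIR

open Module Filter Topology

universe u

section

variable {Γ : Type*} [Group Γ]

/-- The Rokhlin condition for a homomorphism `φ` from `H` to the integers and a sequence of finite
index subgroups `Δ k`: for each finite subset `P` of `H` and `ε > 0` there is a bound `B` such that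
for large `k` there is a function `s : Γ ⧸ Δ k → {0, …, B}` with `s (h x) = s x + φ h` for all
`h ∈ P` and all `x` outside of a set with at most `ε [Γ : Δ k]` elements. -/
def Rokhlin (Δ : ℕ → Subgroup Γ) (H : Subgroup Γ) (φ : H →* Multiplicative ℤ) : Prop :=
  ∀ (P : Finset H) (ε : ℝ), 0 < ε → ∃ B : ℕ, ∀ᶠ k in atTop, ∃ s : (Γ ⧸ Δ k) → ℕ,
    (∀ x, s x ≤ B) ∧ ∀ h ∈ P,
      (Nat.card {x : Γ ⧸ Δ k // (s ((h : Γ) • x) : ℤ) ≠ s x + Multiplicative.toAdd (φ h)} : ℝ) ≤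
      ε * (Δ k).index

/-- Rokhlin sequences: every nontrivial finitely generated subgroup has an epimorphism to the
integers which satisfies the Rokhlin condition -/
def RokSeq (Δ : ℕ → Subgroup Γ) : Prop :=
  ∀ H : Subgroup Γ, H.FG → H ≠ ⊥ → ∃ φ : H →* Multiplicative ℤ, Function.Surjective φ ∧
    Rokhlin Δ H φ

/-- interlacing -/
def interl (Δ Δ' : ℕ → Subgroup Γ) (k : ℕ) : Subgroup Γ :=
  if k % 2 = 0 then Δ (k / 2) else Δ' (k / 2)

theorem eventually_interl {Δ Δ' : ℕ → Subgroup Γ} {p : Subgroup Γ → Prop}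
    (h : ∀ᶠ k in atTop, p (Δ k)) (h' : ∀ᶠ k in atTop, p (Δ' k)) :
    ∀ᶠ k in atTop, p (interl Δ Δ' k) := by
  obtain ⟨a, ha⟩ := eventually_atTop.1 h
  obtain ⟨b, hb⟩ := eventually_atTop.1 h'
  rw [eventually_atTop]
  refine ⟨2 * (a + b), fun k hk => ?_⟩
  unfold interl
  split_ifs with hk2
  · exact ha (k / 2) (by omega)
  · exact hb (k / 2) (by omega)

theorem Rokhlin.interl {Δ Δ' : ℕ → Subgroup Γ} {H : Subgroup Γ} {φ : H →* Multiplicative ℤ}
    (h : Rokhlin Δ H φ) (h' : Rokhlin Δ' H φ) : Rokhlin (interl Δ Δ') H φ := by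
  intro P ε hε
  obtain ⟨B, hB⟩ := h P ε hε
  obtain ⟨B', hB'⟩ := h' P ε hε
  refine ⟨max B B', ?_⟩
  apply eventually_interl (p := fun D => ∃ s : (Γ ⧸ D) → ℕ,
    (∀ x, s x ≤ max B B') ∧ ∀ h ∈ P,
      (Nat.card {x : Γ ⧸ D // (s ((h : Γ) • x) : ℤ) ≠ s x + Multiplicative.toAdd (φ h)} : ℝ) ≤
      ε * D.index)
  · filter_upwards [hB] with k hk
    obtain ⟨s, h1, h2⟩ := hk
    exact ⟨s, fun x => (h1 x).trans (le_max_left _ _), h2⟩
  · filter_upwards [hB'] with k hk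
    obtain ⟨s, h1, h2⟩ := hk
    exact ⟨s, fun x => (h1 x).trans (le_max_right _ _), h2⟩

/-- pulling back along `Γ ⧸ D' → Γ ⧸ D` -/
theorem exists_pull {D' D : Subgroup Γ} (hle : D' ≤ D) (hf' : D'.FiniteIndex) :
    ∃ p : (Γ ⧸ D') → (Γ ⧸ D), (∀ (g : Γ) x, p (g • x) = g • p x) ∧
      ∀ S : (Γ ⧸ D) → Prop, Nat.card {x // S (p x)} = D'.relIndex D * Nat.card {x // S x} := by
  classical
  have hf : D.FiniteIndex := Subgroup.finiteIndex_of_le hle
  have e := Subgroup.quotientEquivProdOfLE hle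
  refine ⟨fun x => (Subgroup.quotientEquivProdOfLE hle x).1, ?_, ?_⟩
  · intro g x
    induction x using QuotientGroup.induction_on with
    | H x => rfl
  · intro S
    have h1 : Nat.card {x : Γ ⧸ D' // S ((Subgroup.quotientEquivProdOfLE hle x).1)} =
        Nat.card {z : (Γ ⧸ D) × (D ⧸ D'.subgroupOf D) // S z.1} :=
      Nat.card_congr ((Subgroup.quotientEquivProdOfLE hle).subtypeEquiv fun x => Iff.rfl)
    rw [h1, Nat.card_congr (Equiv.prodSubtypeFstEquivSubtypeProd (p := S)), Nat.card_prod, mul_comm]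
    rfl

theorem Rokhlin.mono {Δ Δ' : ℕ → Subgroup Γ} (hf : ∀ k, (Δ' k).FiniteIndex)
    (hle : ∀ k, Δ' k ≤ Δ k) {H : Subgroup Γ} {φ : H →* Multiplicative ℤ}
    (h : Rokhlin Δ H φ) : Rokhlin Δ' H φ := by
  intro P ε hε
  obtain ⟨B, hB⟩ := h P ε hε
  refine ⟨B, ?_⟩
  filter_upwards [hB] with k hk
  obtain ⟨s, h1, h2⟩ := hk
  obtain ⟨p, hp1, hp2⟩ := exists_pull (hle k) (hf k)
  refine ⟨fun x => s (p x), fun x => h1 _, fun h hh => ?_⟩
  have h3 := hp2 (fun x => (s ((h : Γ) • x) : ℤ) ≠ s x + Multiplicative.toAdd (φ h))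
  have h4 : Nat.card {x : Γ ⧸ Δ' k // (s (p ((h : Γ) • x)) : ℤ) ≠
      s (p x) + Multiplicative.toAdd (φ h)} = (Δ' k).relIndex (Δ k) *
        Nat.card {x : Γ ⧸ Δ k // (s ((h : Γ) • x) : ℤ) ≠ s x + Multiplicative.toAdd (φ h)} := by
    rw [← h3]
    simp only [hp1]
  have h5 : (Δ' k).relIndex (Δ k) * (Δ k).index = (Δ' k).index :=
    Subgroup.relIndex_mul_index (hle k)
  beta_reduce
  rw [h4, ← h5]
  push_cast
  have h6 := h2 h hh
  have h7 : (0 : ℝ) ≤ ((Δ' k).relIndex (Δ k) : ℝ) := Nat.cast_nonneg _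
  calc ((Δ' k).relIndex (Δ k) : ℝ) * Nat.card {x : Γ ⧸ Δ k // (s ((h : Γ) • x) : ℤ) ≠
        s x + Multiplicative.toAdd (φ h)} ≤ (Δ' k).relIndex (Δ k) * (ε * (Δ k).index) := by
        gcongr
    _ = ε * ((Δ' k).relIndex (Δ k) * (Δ k).index) := by ring

variable {K : Type*} [Field K]

/-- convergence for one sequence -/
theorem tendsto_nrk_rok {m n : ℕ} (A : Matrix (Fin m) (Fin n) (MonoidAlgebra K Γ))
    (Δ : ℕ → Subgroup Γ) (hf : ∀ k, (Δ k).FiniteIndex) (hΔ : RokSeq Δ) :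
    ∃ r : ℕ, Tendsto (fun k => nrk A (Δ k)) atTop (𝓝 r) := by
  classical
  let _ : ∀ k, Fintype (Γ ⧸ Δ k) := fun k => Fintype.ofFinite _
  obtain ⟨r, hr⟩ := tendsto_rkX_rok K (fun k => Γ ⧸ Δ k) (fun H h1 h2 => by
    obtain ⟨φ, hφ, h3⟩ := hΔ H h1 h2
    refine ⟨φ, hφ, fun P ε hε => ?_⟩
    obtain ⟨B, hB⟩ := h3 P ε hε
    refine ⟨B, ?_⟩
    filter_upwards [hB] with k hk
    obtain ⟨s, e1, e2⟩ := hk
    refine ⟨s, e1, fun h hh => ?_⟩
    have := e2 h hh
    rwa [Subgroup.index_eq_card, Nat.card_eq_fintype_card (α := Γ ⧸ Δ k)] at this) A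
  refine ⟨r, hr.congr (fun k => ?_)⟩
  unfold nrk
  rw [Subgroup.index_eq_card, Nat.card_eq_fintype_card]

/-- the limits of two sequences with a common family of homomorphisms agree -/
theorem limit_eq {m n : ℕ} (A : Matrix (Fin m) (Fin n) (MonoidAlgebra K Γ))
    (Δ Δ' : ℕ → Subgroup Γ) (hf : ∀ k, (Δ k).FiniteIndex) (hf' : ∀ k, (Δ' k).FiniteIndex)
    (h : ∀ H : Subgroup Γ, H.FG → H ≠ ⊥ → ∃ φ : H →* Multiplicative ℤ, Function.Surjective φ ∧
      Rokhlin Δ H φ ∧ Rokhlin Δ' H φ) {r r' : ℝ}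
    (hr : Tendsto (fun k => nrk A (Δ k)) atTop (𝓝 r))
    (hr' : Tendsto (fun k => nrk A (Δ' k)) atTop (𝓝 r')) : r = r' := by
  classical
  obtain ⟨s, hs⟩ := tendsto_nrk_rok A (interl Δ Δ') (fun k => by
    unfold interl; split_ifs; exacts [hf _, hf' _]) (fun H h1 h2 => by
      obtain ⟨φ, e1, e2, e3⟩ := h H h1 h2
      exact ⟨φ, e1, e2.interl e3⟩)
  have h1 : r = s := by
    have h2 := hs.comp (tendsto_id.const_mul_atTop' (by norm_num : (0 : ℕ) < 2))
    refine tendsto_nhds_unique hr (h2.congr (fun k => ?_))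
    have e1 : (2 * k) % 2 = 0 := by omega
    have e2 : (2 * k) / 2 = k := by omega
    simp only [Function.comp_apply, id, interl, e2, if_pos e1]
  have h3 : r' = s := by
    have h2 := hs.comp ((tendsto_add_atTop_nat 1).comp
      (tendsto_id.const_mul_atTop' (by norm_num : (0 : ℕ) < 2)))
    refine tendsto_nhds_unique hr' (h2.congr (fun k => ?_))
    have e1 : ¬ (2 * k + 1) % 2 = 0 := by omega
    have e2 : (2 * k + 1) / 2 = k := by omega
    simp only [Function.comp_apply, id, interl, e2, if_neg e1]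
  rw [h1, h3]

/-- **Convergence and independence for all Rokhlin sequences.** -/
theorem tendsto_nrk_all {m n : ℕ} (A : Matrix (Fin m) (Fin n) (MonoidAlgebra K Γ)) :
    ∃ r : ℕ, ∀ Δ : ℕ → Subgroup Γ, (∀ k, (Δ k).FiniteIndex) → RokSeq Δ →
      Tendsto (fun k => nrk A (Δ k)) atTop (𝓝 r) := by
  classical
  by_cases hex : ∃ Δ : ℕ → Subgroup Γ, (∀ k, (Δ k).FiniteIndex) ∧ RokSeq Δ
  · obtain ⟨Δ₀, hf₀, h₀⟩ := hex
    obtain ⟨r, hr⟩ := tendsto_nrk_rok A Δ₀ hf₀ h₀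
    refine ⟨r, fun Δ hf hΔ => ?_⟩
    obtain ⟨r', hr'⟩ := tendsto_nrk_rok A Δ hf hΔ
    have hff : ∀ k, (Δ k ⊓ Δ₀ k).FiniteIndex := fun k => by
      have := hf k
      have := hf₀ k
      infer_instance
    obtain ⟨r'', hr''⟩ := tendsto_nrk_rok A (fun k => Δ k ⊓ Δ₀ k) hff (fun H h1 h2 => by
      obtain ⟨φ, e1, e2⟩ := hΔ H h1 h2
      exact ⟨φ, e1, e2.mono hff (fun k => inf_le_left)⟩)
    have e1 : (r' : ℝ) = r'' := limit_eq A Δ (fun k => Δ k ⊓ Δ₀ k) hf hff (fun H h1 h2 => by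
      obtain ⟨φ, e1, e2⟩ := hΔ H h1 h2
      exact ⟨φ, e1, e2, e2.mono hff (fun k => inf_le_left)⟩) hr' hr''
    have e2 : (r : ℝ) = r'' := limit_eq A Δ₀ (fun k => Δ k ⊓ Δ₀ k) hf₀ hff (fun H h1 h2 => by
      obtain ⟨φ, e1, e2⟩ := h₀ H h1 h2
      exact ⟨φ, e1, e2, e2.mono hff (fun k => inf_le_right)⟩) hr hr''
    rw [e2, ← e1]
    exact hr'
  · exact ⟨0, fun Δ hf hΔ => absurd ⟨Δ, hf, hΔ⟩ hex⟩

end

section

variable {K : Type u} {Γ : Type u} [Field K] [Group Γ]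

/-- **Betti numbers of Rokhlin sequences** -/
theorem tendsto_nbetti_rok (n : ℕ) (hP : FPres K Γ (n + 1)) :
    ∃ β : ℕ, ∀ Δ : ℕ → Subgroup Γ, (∀ k, (Δ k).FiniteIndex) → RokSeq Δ →
      Tendsto (fun k => nbetti K n (Δ k)) atTop (𝓝 β) := by
  classical
  obtain ⟨c, a, a', M, M', hM⟩ := exists_rank_formula n hP
  obtain ⟨r, hr⟩ := tendsto_nrk_all M
  obtain ⟨r', hr'⟩ := tendsto_nrk_all M'
  have key : ∀ Δ : ℕ → Subgroup Γ, (∀ k, (Δ k).FiniteIndex) →
      RokSeq Δ → Tendsto (fun k => nbetti K n (Δ k)) atTop (𝓝 ((c : ℝ) - r - r')) := by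
    intro Δ hf hc
    have h1 := ((tendsto_const_nhds (x := (c : ℝ)) (f := atTop (α := ℕ))).sub
      (hr Δ hf hc)).sub (hr' Δ hf hc)
    refine h1.congr (fun k => ?_)
    unfold nbetti nrk
    have h2 := hM (Δ k) (hf k)
    have h3 : ((Δ k).index : ℝ) ≠ 0 := by
      exact_mod_cast (hf k).index_ne_zero
    have h4 : (finrank K (groupHomology (Rep.trivial K (Δ k) K) n) : ℝ) + rkX (Γ ⧸ Δ k) M +
        rkX (Γ ⧸ Δ k) M' = c * (Δ k).index := by exact_mod_cast h2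
    field_simp
    linarith
  by_cases hex : ∃ Δ : ℕ → Subgroup Γ, (∀ k, (Δ k).FiniteIndex) ∧ RokSeq Δ
  · obtain ⟨Δ, hf, hc⟩ := hex
    have h1 : (0 : ℝ) ≤ (c : ℝ) - r - r' := by
      refine ge_of_tendsto' (key Δ hf hc) (fun k => ?_)
      unfold nbetti; positivity
    refine ⟨c - r - r', fun Δ' hf' hc' => ?_⟩
    have h2 : ((c - r - r' : ℕ) : ℝ) = (c : ℝ) - r - r' := by
      have h3 : r + r' ≤ c := by
        have : (r : ℝ) + r' ≤ c := by linarith
        exact_mod_cast this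
      rw [Nat.sub_sub, Nat.cast_sub h3]; push_cast; ring
    rw [h2]
    exact key Δ' hf' hc'
  · exact ⟨0, fun Δ hf hc => absurd ⟨Δ, hf, hc⟩ hex⟩

/-- the version for a finite index subgroup -/
theorem tendsto_nbetti_rok_virtual (n : ℕ) (G : Subgroup Γ) (hG : G.FiniteIndex)
    (hP : FPres K G (n + 1)) :
    ∃ β : ℕ, ∀ Δ : ℕ → Subgroup Γ, (∀ k, (Δ k).FiniteIndex) →
      (∀ᶠ k in atTop, Δ k ≤ G) → RokSeq (fun k => (Δ k).subgroupOf G) →
      Tendsto (fun k => nbetti K n (Δ k)) atTop (𝓝 ((β : ℝ) / G.index)) := by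
  classical
  obtain ⟨β, hβ⟩ := tendsto_nbetti_rok (K := K) n hP
  refine ⟨β, fun Δ hf hev hi => ?_⟩
  have h2 := hβ (fun k => (Δ k).subgroupOf G)
    (fun k => by
      have := hf k
      infer_instance) hi
  have h3 := h2.div_const (G.index : ℝ)
  refine h3.congr' ?_
  filter_upwards [hev] with k hk
  exact (nbetti_subgroupOf n G (Δ k) hG hk).symm

end

section

/-! ### Criteria -/

variable {Γ : Type*} [Group Γ]

theorem rokhlin_of_rokX {Δ : ℕ → Subgroup Γ} (hf : ∀ k, (Δ k).FiniteIndex) {H : Subgroup Γ}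
    {φ : H →* Multiplicative ℤ}
    (h : ∀ (_ : ∀ k, Fintype (Γ ⧸ Δ k)), RokX (fun k => Γ ⧸ Δ k) H φ) : Rokhlin Δ H φ := by
  classical
  let I : ∀ k, Fintype (Γ ⧸ Δ k) := fun k => Fintype.ofFinite _
  intro P ε hε
  obtain ⟨B, hB⟩ := h I P ε hε
  refine ⟨B, ?_⟩
  filter_upwards [hB] with k hk
  obtain ⟨s, e1, e2⟩ := hk
  refine ⟨s, e1, fun h hh => ?_⟩
  have := e2 h hh
  rwa [Subgroup.index_eq_card, Nat.card_eq_fintype_card (α := Γ ⧸ Δ k)]

/-- the stabilisers of the action on the cosets of a normal subgroup -/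
theorem mem_of_smul_eq {D : Subgroup Γ} (hn : D.Normal) {g : Γ} {x : Γ ⧸ D} (h : g • x = x) :
    g ∈ D := by
  induction x using QuotientGroup.induction_on with
  | H y =>
    have h3 : (((g * y : Γ)) : Γ ⧸ D) = ((y : Γ) : Γ ⧸ D) := h
    have h4 := (QuotientGroup.eq.1 h3.symm)
    have h5 := hn.conj_mem _ h4 y
    have h6 : y * (y⁻¹ * (g * y)) * y⁻¹ = g := by group
    rwa [h6] at h5

/-- **amenable quotients**: if `H ⧸ N` is amenable and every element of `H` outside of `N` is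
eventually outside of `N (H ∩ Δ k)`, then every homomorphism from `H` to the integers which is
trivial on `N` satisfies the Rokhlin condition -/
theorem rokhlin_of_amenable {Δ : ℕ → Subgroup Γ} (hn : ∀ k, (Δ k).Normal)
    (hf : ∀ k, (Δ k).FiniteIndex) (H : Subgroup Γ) (N : Subgroup H) [N.Normal]
    (hN : Foelner (H ⧸ N)) (hev : ∀ h : H, h ∉ N → ∀ᶠ k in atTop, h ∉ N ⊔ (Δ k).subgroupOf H)
    (φ : (H ⧸ N) →* Multiplicative ℤ) : Rokhlin Δ H (φ.comp (QuotientGroup.mk' N)) := by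
  classical
  apply rokhlin_of_rokX hf
  intro I
  apply rokX_of_foelner _ H hN (QuotientGroup.mk' N) (QuotientGroup.mk'_surjective N) φ
  intro q hq
  obtain ⟨g, rfl⟩ := QuotientGroup.mk'_surjective N q
  have hg : g ∉ N := fun h => hq ((QuotientGroup.eq_one_iff g).2 h)
  filter_upwards [hev g hg] with k hk
  intro h x hx he
  apply hk
  have h1 : (h : Γ) ∈ Δ k := mem_of_smul_eq (hn k) hx
  have h2 : g * h⁻¹ ∈ N := by
    rw [← QuotientGroup.eq_one_iff]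
    have : QuotientGroup.mk' N (g * h⁻¹) = 1 := by
      rw [map_mul, map_inv, he, mul_inv_cancel]
    exact this
  have h3 : g = (g * h⁻¹) * h := by group
  rw [h3]
  exact Subgroup.mul_mem_sup h2 (Subgroup.mem_subgroupOf.2 h1)

end

end Pool.Agent.CIR
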