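import Mathlib
import Pool.Agent.CIR.RokSeq
import Pool.Agent.CIR.Classes3

/-!
# CIR / Crit2 : criteria for Rokhlin sequences

MP_05b873_al.
-/

namespace Pool.Agent.CIR

open Filter Topology

section

/-- the products of powers -/
theorem exists_growth (f : ℕ → ℕ) (d : ℕ) (hf : ∀ n, f n ≤ n ^ d) (h1 : 0 < f 1) (ε : ℝ)
    (hε : 0 < ε) : ∃ n, 1 ≤ n ∧ (f (n + 1) : ℝ) ≤ (1 + ε) * f n := by
  by_contra hcon
  push Not at hcon
  have h2 : ∀ n : ℕ, (1 + ε) ^ n ≤ f (n + 1) := by
    intro n
    induction n with
    | zero =>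
      have : 1 ≤ f 1 := h1
      rw [pow_zero, zero_add]
      exact_mod_cast this
    | succ n ih =>
      have h3 := hcon (n + 1) (by omega)
      rw [pow_succ]
      nlinarith [h3, ih]
  obtain ⟨M, hM⟩ := exists_M d ε hε
  have h3 := h2 M
  have h4 := hf (M + 1)
  have h5 : M + 1 ≤ 2 * (2 * M) + 1 := by omega
  have h6 : (M + 1) ^ d ≤ (2 * (2 * M) + 1) ^ d := Nat.pow_le_pow_left h5 d
  have h7 : (f (M + 1) : ℝ) ≤ ((2 * (2 * M) + 1) ^ d : ℕ) := by exact_mod_cast h4.trans h6
  linarith

/-- abelian groups are amenable -/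
theorem foelner_comm (Q : Type*) [CommGroup Q] : Foelner Q := by
  classical
  intro P ε hε
  let F : ℕ → Finset Q := fun n => (Fintype.piFinset (fun _ : P => Finset.range n)).image
    (fun e => ∏ p : P, (p : Q) ^ e p)
  have hF1 : (F 1).card ≠ 0 := by
    rw [Finset.card_ne_zero]
    refine Finset.Nonempty.image ?_ _
    exact ⟨fun _ => 0, by simp⟩
  obtain ⟨n, hn1, hn⟩ := exists_growth (fun n => (F n).card) P.card (fun n => by
    refine Finset.card_image_le.trans ?_
    rw [Fintype.card_piFinset]
    simp) (Nat.pos_of_ne_zero hF1) ε hε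
  have hsub : F n ⊆ F (n + 1) := by
    apply Finset.image_subset_image
    apply Fintype.piFinset_subset
    intro p
    apply Finset.range_subset_range.2
    omega
  refine ⟨F n, ?_, fun q hq => ?_⟩
  · refine Finset.Nonempty.image ?_ _
    exact ⟨fun _ => 0, by simp; omega⟩
  · have hb : Nat.card {g : Q // g ∈ F n ∧ q * g ∉ F n} =
        ((F n).filter fun g => q * g ∉ F n).card := by
      have : ({g : Q | g ∈ F n ∧ q * g ∉ F n} : Set Q) = ↑((F n).filter fun g => q * g ∉ F n) := by
        ext g; simp
      have h2 : Nat.card {g : Q // g ∈ F n ∧ q * g ∉ F n} =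
          ({g : Q | g ∈ F n ∧ q * g ∉ F n} : Set Q).ncard := rfl
      rw [h2, this, Set.ncard_coe_finset]
    rw [hb]
    have h3 : ((F n).filter fun g => q * g ∉ F n).card ≤ (F (n + 1) \ F n).card := by
      apply Finset.card_le_card_of_injOn (fun g => q * g)
      · intro g hg
        rw [Finset.mem_coe, Finset.mem_filter] at hg
        rw [Finset.mem_coe, Finset.mem_sdiff]
        refine ⟨?_, hg.2⟩
        obtain ⟨e, he, hge⟩ := Finset.mem_image.1 hg.1
        refine Finset.mem_image.2 ⟨fun p => e p + if p = ⟨q, hq⟩ then 1 else 0, ?_, ?_⟩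
        · rw [Fintype.mem_piFinset]
          intro p
          have := (Fintype.mem_piFinset.1 he) p
          rw [Finset.mem_range] at this ⊢
          split_ifs <;> omega
        · rw [← hge]
          simp only [pow_add, Finset.prod_mul_distrib]
          rw [mul_comm]
          congr 1
          rw [Finset.prod_eq_single ⟨q, hq⟩]
          · simp
          · intro b _ hb
            simp [hb]
          · intro h; exact absurd (Finset.mem_univ _) h
      · intro a _ b _ h
        exact mul_left_cancel h
    have h4 : (F (n + 1) \ F n).card = (F (n + 1)).card - (F n).card :=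
      Finset.card_sdiff_of_subset hsub
    have h5 := Finset.card_le_card hsub
    have h6 : ((F (n + 1) \ F n).card : ℝ) = (F (n + 1)).card - (F n).card := by
      rw [h4, Nat.cast_sub h5]
    have h7 : (((F n).filter fun g => q * g ∉ F n).card : ℝ) ≤ (F (n + 1) \ F n).card := by
      exact_mod_cast h3
    have h8 : ((F (n + 1)).card : ℝ) ≤ (1 + ε) * (F n).card := hn
    linarith

open scoped commutatorElement in
theorem comm_mem {H : Type*} [Group H] (a b : H) : (a * b)⁻¹ * (b * a) ∈ commutator H := by
  have : (a * b)⁻¹ * (b * a) = ⁅b⁻¹, a⁻¹⁆ := by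
    rw [commutatorElement_def]; group
  rw [this]
  exact Subgroup.commutator_mem_commutator (Subgroup.mem_top _) (Subgroup.mem_top _)

variable {Γ : Type*} [Group Γ]

/-- a quotient by a subgroup which contains the commutator subgroup is amenable -/
theorem foelner_of_commutator_le {H : Type*} [Group H] (N : Subgroup H) [N.Normal]
    (h : commutator H ≤ N) : Foelner (H ⧸ N) := by
  let I : CommGroup (H ⧸ N) :=
    { (inferInstance : Group (H ⧸ N)) with
      mul_comm := by
        intro a b
        induction a using QuotientGroup.induction_on with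
        | H a =>
          induction b using QuotientGroup.induction_on with
          | H b =>
            change ((a * b : H) : H ⧸ N) = ((b * a : H) : H ⧸ N)
            rw [QuotientGroup.eq]
            apply h
            exact comm_mem a b }
  exact foelner_comm (H ⧸ N)

/-- an infinite finitely generated abelian quotient maps onto the integers -/
theorem exists_onto_int {H : Type*} [Group H] (hFG : Group.FG H) (N : Subgroup H) [N.Normal]
    (h : commutator H ≤ N) (hinf : N.index = 0) :
    ∃ φ : (H ⧸ N) →* Multiplicative ℤ, Function.Surjective φ := by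
  classical
  let I : CommGroup (H ⧸ N) :=
    { (inferInstance : Group (H ⧸ N)) with
      mul_comm := by
        intro a b
        induction a using QuotientGroup.induction_on with
        | H a =>
          induction b using QuotientGroup.induction_on with
          | H b =>
            change ((a * b : H) : H ⧸ N) = ((b * a : H) : H ⧸ N)
            rw [QuotientGroup.eq]
            apply h
            exact comm_mem a b }
  have hfg : Group.FG (H ⧸ N) :=
    Group.fg_of_surjective (f := QuotientGroup.mk' N) (QuotientGroup.mk'_surjective N)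
  have hnf : ¬ Finite (H ⧸ N) := by
    intro hf
    have : N.index ≠ 0 := by
      rw [Subgroup.index_eq_card]
      exact Nat.card_pos.ne'
    exact this hinf
  have hnt : ¬ IsMulTorsion (H ⧸ N) := fun ht =>
    hnf (CommGroup.finite_of_fg_isMulTorsion _ ht)
  obtain ⟨x, hx⟩ : ∃ x : H ⧸ N, ¬ IsOfFinOrder x := by
    by_contra hcon
    push Not at hcon
    exact hnt hcon
  obtain ⟨ψ, hψ⟩ := exists_hom_ne (H ⧸ N) x (by
    intro n hn he
    exact hx (isOfFinOrder_iff_pow_eq_one.2 ⟨n, hn, he⟩))
  obtain ⟨φ, _, _, hφ, _⟩ := exists_surjective ψ ⟨x, hψ⟩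
  exact ⟨φ, hφ⟩

/-- **unbounded abelianisations** -/
theorem rokhlin_of_unbounded {Δ : ℕ → Subgroup Γ} (hn : ∀ k, (Δ k).Normal)
    (hf : ∀ k, (Δ k).FiniteIndex) (ha : Antitone Δ) (H : Subgroup Γ) (hH : H.FG)
    (hu : Tendsto (fun k => (commutator H ⊔ (Δ k).subgroupOf H).index) atTop atTop) :
    ∃ φ : H →* Multiplicative ℤ, Function.Surjective φ ∧ Rokhlin Δ H φ := by
  classical
  set N : Subgroup H := ⨅ k, (commutator H ⊔ (Δ k).subgroupOf H) with hN
  have hcN : commutator H ≤ N := le_iInf fun k => le_sup_left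
  have hNn : N.Normal := by
    constructor
    intro n hn g
    have h0 := comm_mem (n * g⁻¹) g
    have h1 : g * n * g⁻¹ = n * ((n * g⁻¹ * g)⁻¹ * (g * (n * g⁻¹))) := by group
    rw [h1]
    exact N.mul_mem hn (hcN h0)
  have hidx : N.index = 0 := by
    by_contra hne
    obtain ⟨k, hk⟩ := (hu.eventually_gt_atTop N.index).exists
    have h1 : N ≤ commutator H ⊔ (Δ k).subgroupOf H := iInf_le _ k
    have h2 := Subgroup.index_dvd_of_le h1
    exact absurd (Nat.le_of_dvd (Nat.pos_of_ne_zero hne) h2) (not_le.2 hk)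
  obtain ⟨φ, hφ⟩ := exists_onto_int ((Group.fg_iff_subgroup_fg H).2 hH) N hcN hidx
  refine ⟨φ.comp (QuotientGroup.mk' N), hφ.comp (QuotientGroup.mk'_surjective N), ?_⟩
  apply rokhlin_of_amenable hn hf H N (foelner_of_commutator_le N hcN)
  intro h hh
  have h1 : ∃ k, h ∉ commutator H ⊔ (Δ k).subgroupOf H := by
    by_contra hcon
    push Not at hcon
    exact hh ((Subgroup.mem_iInf).2 hcon)
  obtain ⟨k₀, hk₀⟩ := h1
  filter_upwards [eventually_ge_atTop k₀] with k hk hcon
  apply hk₀
  have h2 : N ⊔ (Δ k).subgroupOf H ≤ commutator H ⊔ (Δ k₀).subgroupOf H := by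
    apply sup_le
    · exact iInf_le _ k₀
    · refine le_trans ?_ le_sup_right
      intro x hx
      exact ha hk hx
  exact h2 hcon

/-- `H` has an amenable quotient `H ⧸ N`, which maps onto the integers and in which the images of
the subgroups `H ∩ Δ k` eventually avoid every nontrivial element -/
def AmenQuot (Δ : ℕ → Subgroup Γ) (H : Subgroup Γ) : Prop :=
  ∃ (N : Subgroup H) (_ : N.Normal), Foelner (H ⧸ N) ∧
    (∃ φ : (H ⧸ N) →* Multiplicative ℤ, Function.Surjective φ) ∧
    ∀ h : H, h ∉ N → ∀ᶠ k in atTop, h ∉ N ⊔ (Δ k).subgroupOf H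

/-- the orders of the abelianisations of the finite groups `H ⧸ (H ∩ Δ k)` tend to infinity -/
def AbUnbounded (Δ : ℕ → Subgroup Γ) (H : Subgroup Γ) : Prop :=
  Tendsto (fun k => (commutator H ⊔ (Δ k).subgroupOf H).index) atTop atTop

theorem rokSeq_of_amenQuot {Δ : ℕ → Subgroup Γ} (hn : ∀ k, (Δ k).Normal)
    (hf : ∀ k, (Δ k).FiniteIndex) (h : ∀ H : Subgroup Γ, H.FG → H ≠ ⊥ →
      AmenQuot Δ H ∨ (Antitone Δ ∧ AbUnbounded Δ H)) : RokSeq Δ := by
  intro H h1 h2
  rcases h H h1 h2 with h3 | h3
  · obtain ⟨N, hN, h4, ⟨φ, hφ⟩, h5⟩ := h3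
    exact ⟨φ.comp (QuotientGroup.mk' N), hφ.comp (QuotientGroup.mk'_surjective N),
      rokhlin_of_amenable hn hf H N h4 h5 φ⟩
  · exact rokhlin_of_unbounded hn hf h3.1 H h1 h3.2

/-- profinitely indicable groups and cofinal sequences of finite index subgroups -/
theorem ProfIndicable.rokSeq (hI : ProfIndicable Γ) {Δ : ℕ → Subgroup Γ}
    (hf : ∀ k, (Δ k).FiniteIndex) (hcof : Cofinal Δ) : RokSeq Δ := by
  classical
  intro H h1 h2
  obtain ⟨φ, hφ, hD⟩ := hI H h1 h2
  refine ⟨φ, hφ, ?_⟩
  apply rokhlin_of_rokX hf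
  intro I
  have h3 := rokX_of_foelner (fun k => Γ ⧸ Δ k) H (foelner_comm (Multiplicative ℤ)) φ hφ
    (MonoidHom.id _) (by
      intro q hq
      have hq0 : Multiplicative.toAdd q ≠ 0 := fun h => hq (Multiplicative.toAdd.injective h)
      obtain ⟨D, hD1, hD2⟩ := hD ((Multiplicative.toAdd q).natAbs + 1) (by omega)
      have hcore : D.normalCore.FiniteIndex := inferInstance
      filter_upwards [hcof _ hcore] with k hk
      intro h x hx he
      have h4 : (h : Γ) ∈ D := by
        induction x using QuotientGroup.induction_on with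
        | H y =>
          have h5 : (((h * y : Γ)) : Γ ⧸ Δ k) = ((y : Γ) : Γ ⧸ Δ k) := hx
          have h6 := hk (QuotientGroup.eq.1 h5.symm)
          have h7 := (Subgroup.normalCore_normal D).conj_mem _ h6 y
          have h8 : y * (y⁻¹ * ((h : Γ) * y)) * y⁻¹ = (h : Γ) := by group
          rw [h8] at h7
          exact Subgroup.normalCore_le D h7
      have h5 := hD2 h h4
      rw [he] at h5
      have h6 := Int.natAbs_dvd_natAbs.2 h5
      have h7 : ((((Multiplicative.toAdd q).natAbs + 1 : ℕ) : ℤ)).natAbs =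
        (Multiplicative.toAdd q).natAbs + 1 := Int.natAbs_natCast _
      rw [h7] at h6
      have h8 := Nat.le_of_dvd (Int.natAbs_pos.2 hq0) h6
      omega)
  simpa using h3

/-- the version for finite index subgroups -/
theorem ProfIndicable.rokSeq_virtual (G : Subgroup Γ) (hG : G.FiniteIndex)
    (hI : ProfIndicable G) (Δ : ℕ → Subgroup Γ) (hf : ∀ k, (Δ k).FiniteIndex)
    (hcof : Cofinal Δ) :
    (∀ᶠ k in atTop, Δ k ≤ G) ∧ RokSeq (fun k => (Δ k).subgroupOf G) := by
  classical
  refine ⟨hcof G hG, ?_⟩
  have h1 : Cofinal (fun k => (Δ k).subgroupOf G) := by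
    intro D hD
    have hD' : (D.map G.subtype).FiniteIndex := by
      constructor
      rw [Subgroup.index_map_subtype]
      exact Nat.mul_ne_zero hD.index_ne_zero hG.index_ne_zero
    filter_upwards [hcof _ hD'] with k hk
    intro x hx
    obtain ⟨y, hy, hyx⟩ := hk hx
    have : y = x := Subtype.ext hyx
    rwa [← this]
  exact hI.rokSeq (fun k => by
    have := hf k
    infer_instance) h1

end

end Pool.Agent.CIR
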