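import Mathlib

/-!
# CIR / PGrp : invariants of finite p-groups in characteristic p

MP_05b873_al.  If a finite `p`-group `P` acts on a finite dimensional space `C` over a field of
characteristic `p`, then `dim C ≤ |P| dim C^P`.
-/

namespace Pool.Agent.CIR

open Module

section

variable {K : Type*} [Field K] {C : Type*} [AddCommGroup C] [Module K C] [FiniteDimensional K C]

/-- dimension estimate for nilpotent maps -/
theorem finrank_ker_pow (x : Module.End K C) (n : ℕ) :
    finrank K (LinearMap.ker (x ^ n)) ≤ n * finrank K (LinearMap.ker x) := by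
  induction n with
  | zero =>
    rw [pow_zero]
    have : LinearMap.ker (1 : Module.End K C) = ⊥ := LinearMap.ker_id
    rw [this]; simp
  | succ n ih =>
    -- x maps ker x^(n+1) into ker x^n with kernel ker x
    let f : LinearMap.ker (x ^ (n + 1)) →ₗ[K] LinearMap.ker (x ^ n) :=
      x.restrict (p := LinearMap.ker (x ^ (n + 1))) (q := LinearMap.ker (x ^ n)) (by
        intro v hv
        rw [LinearMap.mem_ker] at hv ⊢
        rw [pow_succ] at hv
        exact hv)
    have h1 := LinearMap.finrank_range_add_finrank_ker f
    have h2 : finrank K (LinearMap.range f) ≤ finrank K (LinearMap.ker (x ^ n)) :=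
      Submodule.finrank_le _
    have h3 : finrank K (LinearMap.ker f) ≤ finrank K (LinearMap.ker x) := by
      let g : LinearMap.ker f →ₗ[K] LinearMap.ker x :=
        LinearMap.codRestrict (LinearMap.ker x)
          ((LinearMap.ker (x ^ (n + 1))).subtype ∘ₗ (LinearMap.ker f).subtype) (by
          intro v
          rw [LinearMap.mem_ker]
          have := v.2
          rw [LinearMap.mem_ker] at this
          exact congrArg Subtype.val this)
      apply LinearMap.finrank_le_finrank_of_injective (f := g)
      intro v w hvw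
      have h4 := congrArg Subtype.val hvw
      exact Subtype.ext (Subtype.ext h4)
    rw [Nat.succ_mul]
    omega

theorem finrank_le_of_pow_eq_zero (x : Module.End K C) (n : ℕ) (h : x ^ n = 0) :
    finrank K C ≤ n * finrank K (LinearMap.ker x) := by
  have h1 := finrank_ker_pow x n
  rw [h, LinearMap.ker_zero, finrank_top] at h1
  exact h1

variable {P : Type*} [Group P] (ρ : Representation K P C)

/-- invariants of a subgroup -/
def invS (Q : Subgroup P) : Submodule K C where
  carrier := {v | ∀ q ∈ Q, ρ q v = v}
  add_mem' := by intro a b ha hb q hq; rw [map_add, ha q hq, hb q hq]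
  zero_mem' := by intro q _; exact map_zero _
  smul_mem' := by intro c v hv q hq; rw [map_smul, hv q hq]

omit [FiniteDimensional K C] in
theorem mem_invS {Q : Subgroup P} {v : C} : v ∈ invS ρ Q ↔ ∀ q ∈ Q, ρ q v = v := Iff.rfl

theorem finrank_le_invS (p : ℕ) [Fact p.Prime] [CharP K p] [Finite P] (j : ℕ) :
    ∀ Q : Subgroup P, Nat.card Q = p ^ j → finrank K C ≤ p ^ j * finrank K (invS ρ Q) := by
  induction j with
  | zero =>
    intro Q hQ
    have hQ' : Q = ⊥ := by rw [← Subgroup.card_eq_one]; simpa using hQ
    have : invS ρ Q = ⊤ := by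
      rw [eq_top_iff]
      intro v _ q hq
      rw [hQ', Subgroup.mem_bot] at hq
      rw [hq, map_one]; rfl
    rw [this, finrank_top]; simp
  | succ j ih =>
    intro Q hQ
    have hp : p.Prime := Fact.out
    -- a subgroup of index p
    obtain ⟨Q₁', hQ₁'⟩ := Sylow.exists_subgroup_card_pow_prime (G := Q) p (n := j)
      (by rw [hQ]; exact pow_dvd_pow p (Nat.le_succ j))
    have hidx : Q₁'.index = p := by
      have h1 := Subgroup.card_mul_index Q₁'
      rw [hQ₁', hQ, pow_succ] at h1
      exact Nat.eq_of_mul_eq_mul_left (pow_pos hp.pos j) h1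
    have hnorm : Q₁'.Normal := by
      apply Subgroup.normal_of_index_eq_minFac_card
      rw [hidx, hQ, Nat.pow_minFac (Nat.succ_ne_zero j), hp.minFac_eq]
    set Q₁ : Subgroup P := Q₁'.map Q.subtype with hQ₁
    have hcard : Nat.card Q₁ = p ^ j := by
      rw [hQ₁, Subgroup.card_map_of_injective Q.subtype_injective, hQ₁']
    have h1 := ih Q₁ hcard
    -- an element outside Q₁'
    obtain ⟨g, hg⟩ : ∃ g : Q, g ∉ Q₁' := by
      by_contra hcon
      push Not at hcon
      have : Q₁' = ⊤ := by rw [eq_top_iff]; intro x _; exact hcon x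
      rw [this, Subgroup.index_top] at hidx
      exact hp.one_lt.ne hidx
    -- g generates Q modulo Q₁'
    have hgp : ∀ x : Q, ∃ (n : ℤ), ∃ y ∈ Q₁', x = g ^ n * y := by
      intro x
      have hc : Nat.card (Q ⧸ Q₁') = p := by rw [← Subgroup.index_eq_card, hidx]
      have hg1 : (QuotientGroup.mk g : Q ⧸ Q₁') ≠ 1 := by
        intro h; exact hg ((QuotientGroup.eq_one_iff g).1 h)
      have h2 := mem_zpowers_of_prime_card hc hg1 (g' := (QuotientGroup.mk x : Q ⧸ Q₁'))
      obtain ⟨n, hn⟩ := h2
      refine ⟨n, (g ^ n)⁻¹ * x, ?_, by group⟩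
      have h3 : (QuotientGroup.mk (g ^ n) : Q ⧸ Q₁') = QuotientGroup.mk x := by
        rw [← hn]; rfl
      exact QuotientGroup.eq.1 h3
    have hgpow : g ^ p ∈ Q₁' := by
      have h2 : (QuotientGroup.mk (g ^ p) : Q ⧸ Q₁') = 1 := by
        have hc : Nat.card (Q ⧸ Q₁') = p := by rw [← Subgroup.index_eq_card, hidx]
        have := pow_card_eq_one' (G := Q ⧸ Q₁') (x := QuotientGroup.mk g)
        rw [hc] at this
        exact this
      exact (QuotientGroup.eq_one_iff _).1 h2
    -- the restriction of ρ g - 1
    have hstab : ∀ v ∈ invS ρ Q₁, ρ (g : P) v ∈ invS ρ Q₁ := by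
      rintro v hv _ ⟨q, hq, rfl⟩
      have h2 : (g⁻¹ * q * g) ∈ Q₁' := by
        have := hnorm.conj_mem q hq g⁻¹
        rwa [inv_inv] at this
      have h3 := hv _ ⟨_, h2, rfl⟩
      have h4 : ((Q.subtype q : P)) * (g : P) = (g : P) * Q.subtype (g⁻¹ * q * g) := by
        simp; group
      calc ρ (Q.subtype q) (ρ (g : P) v) = ρ (Q.subtype q * (g : P)) v := by
            rw [map_mul]; rfl
        _ = ρ (g : P) (ρ (Q.subtype (g⁻¹ * q * g)) v) := by rw [h4, map_mul]; rfl
        _ = ρ (g : P) v := by rw [h3]
    let r : Module.End K (invS ρ Q₁) := (ρ (g : P)).restrict hstab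
    have hrp : r ^ p = 1 := by
      apply LinearMap.ext
      intro v
      apply Subtype.ext
      have h2 : ∀ n : ℕ, (((r ^ n) v : invS ρ Q₁) : C) = ρ ((g : P) ^ n) v := by
        intro n
        induction n with
        | zero => simp
        | succ n ihn =>
          rw [pow_succ', pow_succ', map_mul]
          change ρ (g : P) (((r ^ n) v : invS ρ Q₁) : C) = ρ (g : P) (ρ ((g : P) ^ n) v)
          rw [ihn]
      rw [h2]
      exact v.2 _ ⟨g ^ p, hgpow, by simp⟩
    have hx : (r - 1) ^ p = 0 := by
      have hch : CharP (Module.End K (invS ρ Q₁)) p ∨ finrank K (invS ρ Q₁) = 0 := by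
        by_cases h0 : finrank K (invS ρ Q₁) = 0
        · exact Or.inr h0
        · left
          have : Nontrivial (invS ρ Q₁) := Module.nontrivial_of_finrank_pos (Nat.pos_of_ne_zero h0)
          exact charP_of_injective_algebraMap
            (FaithfulSMul.algebraMap_injective K (Module.End K (invS ρ Q₁))) p
      rcases hch with h2 | h2
      · rw [sub_pow_char_of_commute p (Commute.one_right r), hrp, one_pow, sub_self]
      · apply LinearMap.ext
        intro v
        have : Subsingleton (invS ρ Q₁) := Module.finrank_zero_iff.1 h2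
        exact Subsingleton.elim _ _
    have h2 := finrank_le_of_pow_eq_zero (r - 1) p hx
    have h3 : finrank K (LinearMap.ker (r - 1)) ≤ finrank K (invS ρ Q) := by
      let f : LinearMap.ker (r - 1) →ₗ[K] invS ρ Q :=
        LinearMap.codRestrict (invS ρ Q)
          ((invS ρ Q₁).subtype ∘ₗ (LinearMap.ker (r - 1)).subtype) (by
          intro v
          have hv1 : ρ (g : P) ((v : invS ρ Q₁) : C) = ((v : invS ρ Q₁) : C) := by
            have := v.2
            rw [LinearMap.mem_ker, LinearMap.sub_apply, sub_eq_zero] at this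
            exact congrArg Subtype.val this
          intro q hq
          obtain ⟨n, y, hy, hqy⟩ := hgp ⟨q, hq⟩
          have h4 : q = (g : P) ^ n * Q.subtype y := by
            have := congrArg Q.subtype hqy
            simpa using this
          have h5 : ρ (Q.subtype y) ((v : invS ρ Q₁) : C) = ((v : invS ρ Q₁) : C) :=
            (v : invS ρ Q₁).2 _ ⟨y, hy, rfl⟩
          have h6 : ∀ n : ℤ, ρ ((g : P) ^ n) ((v : invS ρ Q₁) : C) = ((v : invS ρ Q₁) : C) := by
            have hinv : ρ ((g : P)⁻¹) ((v : invS ρ Q₁) : C) = ((v : invS ρ Q₁) : C) := by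
              conv_lhs => rw [← hv1]
              change (ρ ((g : P)⁻¹) * ρ (g : P)) _ = _
              rw [← map_mul]; simp
            intro n
            induction n using Int.induction_on with
            | zero => simp
            | succ i ihi =>
              rw [zpow_add_one, map_mul]
              change ρ ((g : P) ^ (i : ℤ)) (ρ (g : P) _) = _
              rw [hv1, ihi]
            | pred i ihi =>
              rw [zpow_sub_one, map_mul]
              change ρ ((g : P) ^ (-(i : ℤ))) (ρ ((g : P)⁻¹) _) = _
              rw [hinv, ihi]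
          change ρ q ((v : invS ρ Q₁) : C) = ((v : invS ρ Q₁) : C)
          rw [h4, map_mul]
          change ρ ((g : P) ^ n) (ρ (Q.subtype y) _) = _
          rw [h5, h6])
      apply LinearMap.finrank_le_finrank_of_injective (f := f)
      intro v w hvw
      have h4 := congrArg Subtype.val hvw
      exact Subtype.ext (Subtype.ext h4)
    calc finrank K C ≤ p ^ j * finrank K (invS ρ Q₁) := h1
      _ ≤ p ^ j * (p * finrank K (LinearMap.ker (r - 1))) := Nat.mul_le_mul_left _ h2
      _ ≤ p ^ j * (p * finrank K (invS ρ Q)) :=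
        Nat.mul_le_mul_left _ (Nat.mul_le_mul_left _ h3)
      _ = p ^ (j + 1) * finrank K (invS ρ Q) := by rw [pow_succ]; ring

end

end Pool.Agent.CIR
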