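import Mathlib
import Pool.Agent.CIR.PGrp
import Pool.Agent.CIR.Seqs

/-!
# CIR / Mono : monotonicity of normalised ranks for p-power index

MP_05b873_al.
-/

namespace Pool.Agent.CIR

open Module

section

variable {K : Type*} [Field K] {Γ : Type*} [Group Γ]

/-- right translations on functions on `Γ ⧸ D'` (vector valued) -/
def rtrans (K : Type*) [Field K] (G : Type*) [Group G] (n : ℕ) :
    Representation K G (Fin n → G → K) where
  toFun q :=
    { toFun := fun f i x => f i (x * q)
      map_add' := fun _ _ => rfl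
      map_smul' := fun _ _ => rfl }
  map_one' := by
    apply LinearMap.ext; intro f; funext i x
    change f i (x * 1) = f i x
    rw [mul_one]
  map_mul' := by
    intro q q'
    apply LinearMap.ext; intro f; funext i x
    change f i (x * (q * q')) = f i (x * q * q')
    rw [mul_assoc]

theorem rtrans_apply (G : Type*) [Group G] (n : ℕ) (q : G) (f : Fin n → G → K) (i : Fin n)
    (x : G) : rtrans K G n q f i x = f i (x * q) := rfl

/-- right translations commute with the action of the group algebra -/
theorem permAlg_rtrans (D' : Subgroup Γ) [D'.Normal] (a : MonoidAlgebra K Γ) (q : Γ ⧸ D')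
    (f : (Γ ⧸ D') → K) :
    permAlg K (Γ ⧸ D') a (fun x => f (x * q)) = fun x => permAlg K (Γ ⧸ D') a f (x * q) := by
  induction a using MonoidAlgebra.induction_linear with
  | zero => rw [map_zero]; rfl
  | add a b ha hb =>
    rw [map_add, LinearMap.add_apply, LinearMap.add_apply, ha, hb]; rfl
  | single g c =>
    rw [permAlg_single]
    funext x
    change c • f (g⁻¹ • x * q) = c • f (g⁻¹ • (x * q))
    congr 2
    induction x using QuotientGroup.induction_on with
    | H x =>
      induction q using QuotientGroup.induction_on with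
      | H q =>
        change (((g⁻¹ * x) * q : Γ) : Γ ⧸ D') = ((g⁻¹ * (x * q) : Γ) : Γ ⧸ D')
        rw [mul_assoc]

theorem bl_rtrans (D' : Subgroup Γ) [D'.Normal] {m n : ℕ}
    (A : Matrix (Fin m) (Fin n) (MonoidAlgebra K Γ)) (q : Γ ⧸ D') (f : Fin n → (Γ ⧸ D') → K) :
    bl (A.map (permAlg K (Γ ⧸ D'))) (rtrans K (Γ ⧸ D') n q f) =
      rtrans K (Γ ⧸ D') m q (bl (A.map (permAlg K (Γ ⧸ D'))) f) := by
  funext i x
  rw [rtrans_apply, bl_apply, bl_apply, Finset.sum_apply, Finset.sum_apply]
  apply Finset.sum_congr rfl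
  intro j _
  exact congrFun (permAlg_rtrans D' (A i j) q (f j)) x

/-- the projection `Γ ⧸ D' → Γ ⧸ D` -/
def proj' (D' D : Subgroup Γ) (hle : D' ≤ D) : (Γ ⧸ D') → (Γ ⧸ D) :=
  Quotient.map' id (fun a b h => by
    rw [QuotientGroup.leftRel_apply] at h ⊢
    exact hle h)

theorem proj'_mk (D' D : Subgroup Γ) (hle : D' ≤ D) (g : Γ) :
    proj' D' D hle (QuotientGroup.mk g) = QuotientGroup.mk g := rfl

theorem permAlg_pull (D' D : Subgroup Γ) (hle : D' ≤ D) (a : MonoidAlgebra K Γ)
    (f : (Γ ⧸ D) → K) :
    permAlg K (Γ ⧸ D') a (fun x => f (proj' D' D hle x)) =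
      fun x => permAlg K (Γ ⧸ D) a f (proj' D' D hle x) := by
  induction a using MonoidAlgebra.induction_linear with
  | zero => rw [map_zero, map_zero]; rfl
  | add a b ha hb =>
    rw [map_add, map_add, LinearMap.add_apply, LinearMap.add_apply, ha, hb]; rfl
  | single g c =>
    rw [permAlg_single, permAlg_single]
    funext x
    change c • f (proj' D' D hle (g⁻¹ • x)) = c • f (g⁻¹ • proj' D' D hle x)
    congr 2
    induction x using QuotientGroup.induction_on with
    | H x => rfl

theorem bl_pull (D' D : Subgroup Γ) (hle : D' ≤ D) {m n : ℕ}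
    (A : Matrix (Fin m) (Fin n) (MonoidAlgebra K Γ)) (f : Fin n → (Γ ⧸ D) → K) :
    bl (A.map (permAlg K (Γ ⧸ D'))) (fun j x => f j (proj' D' D hle x)) =
      fun i x => bl (A.map (permAlg K (Γ ⧸ D))) f i (proj' D' D hle x) := by
  funext i x
  rw [bl_apply, bl_apply, Finset.sum_apply, Finset.sum_apply]
  apply Finset.sum_congr rfl
  intro j _
  exact congrFun (permAlg_pull D' D hle (A i j) (f j)) x

/-- **Monotonicity** -/
theorem rkX_mono (p : ℕ) [Fact p.Prime] [CharP K p] {m n : ℕ}
    (A : Matrix (Fin m) (Fin n) (MonoidAlgebra K Γ)) (D' D : Subgroup Γ) (hle : D' ≤ D)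
    (hn' : D'.Normal) (hf' : D'.FiniteIndex) (j : ℕ)
    (hidx : D'.relIndex D = p ^ j) : p ^ j * rkX (Γ ⧸ D) A ≤ rkX (Γ ⧸ D') A := by
  classical
  have hf : D.FiniteIndex := Subgroup.finiteIndex_of_le hle
  let _ : Fintype (Γ ⧸ D') := Fintype.ofFinite _
  let _ : Fintype (Γ ⧸ D) := Fintype.ofFinite _
  set F' := bl (A.map (permAlg K (Γ ⧸ D'))) with hF'
  set F := bl (A.map (permAlg K (Γ ⧸ D))) with hF
  -- the representation on the kernel
  have hst : ∀ q : Γ ⧸ D', ∀ v ∈ LinearMap.ker F', rtrans K (Γ ⧸ D') n q v ∈ LinearMap.ker F' := by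
    intro q v hv
    rw [LinearMap.mem_ker] at hv ⊢
    rw [hF', bl_rtrans, ← hF', hv, map_zero]
  let ρ : Representation K (Γ ⧸ D') (LinearMap.ker F') :=
    { toFun := fun q => (rtrans K (Γ ⧸ D') n q).restrict (hst q)
      map_one' := by
        apply LinearMap.ext; intro v; apply Subtype.ext
        change rtrans K (Γ ⧸ D') n 1 (v : Fin n → (Γ ⧸ D') → K) = v
        rw [map_one]; rfl
      map_mul' := by
        intro q q'
        apply LinearMap.ext; intro v; apply Subtype.ext
        change rtrans K (Γ ⧸ D') n (q * q') (v : Fin n → (Γ ⧸ D') → K) = _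
        rw [map_mul]; rfl }
  set Q : Subgroup (Γ ⧸ D') := D.map (QuotientGroup.mk' D') with hQ
  have hcardQ : Nat.card Q = p ^ j := by
    rw [← hidx]
    have h1 : Nat.card Q * Q.index = Nat.card (Γ ⧸ D') := Subgroup.card_mul_index Q
    have h2 : Q.index = D.index := by
      rw [hQ, Subgroup.index_map, QuotientGroup.ker_mk', sup_eq_left.2 hle,
        (MonoidHom.range_eq_top.2 (QuotientGroup.mk'_surjective D')), Subgroup.index_top, mul_one]
    have h3 : Nat.card (Γ ⧸ D') = D'.index := rfl
    have h4 : D'.relIndex D * D.index = D'.index := Subgroup.relIndex_mul_index hle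
    rw [h2, h3, ← h4] at h1
    exact Nat.eq_of_mul_eq_mul_right (Nat.pos_of_ne_zero hf.index_ne_zero) h1
  have h1 := finrank_le_invS ρ p j Q hcardQ
  -- invariants are pulled back
  have h2 : finrank K (invS ρ Q) ≤ finrank K (LinearMap.ker F) := by
    have hdesc : ∀ v : invS ρ Q, ∀ i : Fin n, ∀ a b : Γ, a⁻¹ * b ∈ D →
        ((v : LinearMap.ker F') : Fin n → (Γ ⧸ D') → K) i (QuotientGroup.mk a) =
        ((v : LinearMap.ker F') : Fin n → (Γ ⧸ D') → K) i (QuotientGroup.mk b) := by
      intro v i a b hab
      have h3 := v.2 (QuotientGroup.mk (a⁻¹ * b)) ⟨a⁻¹ * b, hab, rfl⟩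
      have h4 := congrFun (congrFun (congrArg Subtype.val h3) i) (QuotientGroup.mk a)
      have h5 : ((v : LinearMap.ker F') : Fin n → (Γ ⧸ D') → K) i
          (QuotientGroup.mk a * QuotientGroup.mk (a⁻¹ * b)) =
          ((v : LinearMap.ker F') : Fin n → (Γ ⧸ D') → K) i (QuotientGroup.mk a) := h4
      rw [← h5]
      have h6 : (QuotientGroup.mk a * QuotientGroup.mk (a⁻¹ * b) : Γ ⧸ D') =
          QuotientGroup.mk b := by
        change ((a * (a⁻¹ * b) : Γ) : Γ ⧸ D') = ((b : Γ) : Γ ⧸ D')
        rw [mul_inv_cancel_left]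
      rw [h6]
    let desc : invS ρ Q → (Fin n → (Γ ⧸ D) → K) := fun v i x =>
      Quotient.liftOn' x (fun g => ((v : LinearMap.ker F') : Fin n → (Γ ⧸ D') → K) i
        (QuotientGroup.mk g)) (fun a b hab => by
          rw [QuotientGroup.leftRel_apply] at hab
          exact hdesc v i a b hab)
    have hpull : ∀ v : invS ρ Q, (fun i x => desc v i (proj' D' D hle x)) =
        ((v : LinearMap.ker F') : Fin n → (Γ ⧸ D') → K) := by
      intro v; funext i x
      induction x using QuotientGroup.induction_on with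
      | H x => rfl
    have hker : ∀ v : invS ρ Q, desc v ∈ LinearMap.ker F := by
      intro v
      rw [LinearMap.mem_ker]
      have h3 := bl_pull D' D hle A (desc v)
      rw [hpull v] at h3
      have h4 : F' ((v : LinearMap.ker F') : Fin n → (Γ ⧸ D') → K) = 0 :=
        LinearMap.mem_ker.1 (v : LinearMap.ker F').2
      rw [← hF', h4] at h3
      funext i x
      induction x using QuotientGroup.induction_on with
      | H x =>
        have := congrFun (congrFun h3 i) (QuotientGroup.mk x)
        exact this.symm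
    let g : invS ρ Q →ₗ[K] LinearMap.ker F :=
      { toFun := fun v => ⟨desc v, hker v⟩
        map_add' := by
          intro v w; apply Subtype.ext; funext i x
          induction x using QuotientGroup.induction_on with
          | H x => rfl
        map_smul' := by
          intro c v; apply Subtype.ext; funext i x
          induction x using QuotientGroup.induction_on with
          | H x => rfl }
    apply LinearMap.finrank_le_finrank_of_injective (f := g)
    intro v w hvw
    have h3 : desc v = desc w := congrArg Subtype.val hvw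
    apply Subtype.ext; apply Subtype.ext
    rw [← hpull v, ← hpull w, h3]
  have h3 := LinearMap.finrank_range_add_finrank_ker F'
  have h4 := LinearMap.finrank_range_add_finrank_ker F
  have h5 : finrank K (Fin n → (Γ ⧸ D') → K) = n * D'.index := by
    rw [Module.finrank_pi_fintype]
    simp [Subgroup.index_eq_card]
  have h6 : finrank K (Fin n → (Γ ⧸ D) → K) = n * D.index := by
    rw [Module.finrank_pi_fintype]
    simp [Subgroup.index_eq_card]
  have h7 : p ^ j * D.index = D'.index := by
    rw [← hidx]; exact Subgroup.relIndex_mul_index hle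
  change p ^ j * finrank K (LinearMap.range F) ≤ finrank K (LinearMap.range F')
  rw [h5] at h3
  rw [h6] at h4
  have h8 : p ^ j * (finrank K (LinearMap.range F) + finrank K (LinearMap.ker F)) =
      finrank K (LinearMap.range F') + finrank K (LinearMap.ker F') := by
    rw [h3, h4, ← h7]; ring
  have h9 : finrank K (LinearMap.ker F') ≤ p ^ j * finrank K (LinearMap.ker F) :=
    h1.trans (Nat.mul_le_mul_left _ h2)
  rw [Nat.mul_add] at h8
  omega

theorem nrk_mono (p : ℕ) [Fact p.Prime] [CharP K p] {m n : ℕ}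
    (A : Matrix (Fin m) (Fin n) (MonoidAlgebra K Γ)) (D' D : Subgroup Γ) (hle : D' ≤ D)
    (hn' : D'.Normal) (hf' : D'.FiniteIndex) (j : ℕ)
    (hidx : D'.relIndex D = p ^ j) : nrk A D ≤ nrk A D' := by
  have hf : D.FiniteIndex := Subgroup.finiteIndex_of_le hle
  have h1 := rkX_mono p A D' D hle hn' hf' j hidx
  have h7 : p ^ j * D.index = D'.index := by
    rw [← hidx]; exact Subgroup.relIndex_mul_index hle
  unfold nrk
  have hD : (0 : ℝ) < D.index := by
    exact_mod_cast Nat.pos_of_ne_zero hf.index_ne_zero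
  have hD' : (0 : ℝ) < D'.index := by
    exact_mod_cast Nat.pos_of_ne_zero hf'.index_ne_zero
  rw [div_le_div_iff₀ hD hD', ← h7]
  push_cast
  have h2 : (p : ℝ) ^ j * rkX (Γ ⧸ D) A ≤ rkX (Γ ⧸ D') A := by exact_mod_cast h1
  nlinarith

end

end Pool.Agent.CIR
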