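import Mathlib
import Pool.Agent.CIR.Classes2

/-!
# CIR / Uni : unitriangular matrices and p-power index

MP_05b873_al.
-/

namespace Pool.Agent.CIR

open Finset

section

variable {n : ℕ} {R : Type*} [CommRing R]

/-- entries below the `k`-th superdiagonal vanish -/
def Lev (k : ℕ) (a : Matrix (Fin n) (Fin n) R) : Prop :=
  ∀ i j : Fin n, (j : ℕ) < i + k → a i j = 0

theorem Lev.mul {k l : ℕ} {a b : Matrix (Fin n) (Fin n) R} (ha : Lev k a) (hb : Lev l b) :
    Lev (k + l) (a * b) := by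
  intro i j hij
  rw [Matrix.mul_apply]
  apply sum_eq_zero
  intro m _
  by_cases h : (m : ℕ) < i + k
  · rw [ha i m h, zero_mul]
  · rw [hb m j (by omega), mul_zero]

theorem Lev.mono {k l : ℕ} {a : Matrix (Fin n) (Fin n) R} (ha : Lev k a) (h : l ≤ k) :
    Lev l a := fun i j hij => ha i j (by omega)

theorem Lev.add {k : ℕ} {a b : Matrix (Fin n) (Fin n) R} (ha : Lev k a) (hb : Lev k b) :
    Lev k (a + b) := fun i j hij => by rw [Matrix.add_apply, ha i j hij, hb i j hij, add_zero]

theorem Lev.smul {k : ℕ} {a : Matrix (Fin n) (Fin n) R} (ha : Lev k a) (c : R) :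
    Lev k (c • a) := fun i j hij => by rw [Matrix.smul_apply, ha i j hij, smul_zero]

theorem Lev.one : Lev 0 (1 : Matrix (Fin n) (Fin n) R) := fun i j hij => by
  rw [Matrix.one_apply_ne]
  intro h
  rw [h] at hij
  omega

theorem Lev.aeval {a : Matrix (Fin n) (Fin n) R} (ha : Lev 0 a) (f : Polynomial R) :
    Lev 0 (Polynomial.aeval a f) := by
  induction f using Polynomial.induction_on' with
  | add f g hf hg => rw [map_add]; exact hf.add hg
  | monomial m c =>
    rw [Polynomial.aeval_monomial]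
    have h1 : Lev 0 (a ^ m) := by
      induction m with
      | zero => rw [pow_zero]; exact Lev.one
      | succ m ih => rw [pow_succ]; exact ih.mul ha
    have h2 := h1.smul c
    rw [Algebra.smul_def] at h2
    exact h2

/-- taking the `M`-th power in characteristic `M` -/
theorem Lev.pow_sub_one {M : ℕ} (hM : (M : R) = 0) {k : ℕ} (hk : 1 ≤ k)
    {u : Matrix (Fin n) (Fin n) R} (hu : Lev k (u - 1)) : Lev (k + 1) (u ^ M - 1) := by
  obtain ⟨w, hw⟩ := Polynomial.powAddExpansion (1 : Polynomial R) Polynomial.X M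
  have h1 := congrArg (Polynomial.aeval (u - 1)) hw
  simp only [map_pow, map_add, map_mul, map_one, Polynomial.aeval_X, one_pow, mul_one] at h1
  have h2 : Polynomial.aeval (u - 1) ((M : ℕ) : Polynomial R) =
      (0 : Matrix (Fin n) (Fin n) R) := by
    have : ((M : ℕ) : Polynomial R) = Polynomial.C (M : R) := by simp
    rw [this, hM, map_zero, map_zero]
  rw [h2, zero_mul, add_zero, add_sub_cancel] at h1
  have h3 : u ^ M - 1 = Polynomial.aeval (u - 1) w * (u - 1) ^ 2 := by
    rw [h1]; abel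
  rw [h3]
  have h4 : Lev (0 + (k + k)) (Polynomial.aeval (u - 1) w * (u - 1) ^ 2) := by
    rw [pow_two]
    exact (Lev.aeval (hu.mono (by omega)) w).mul (hu.mul hu)
  exact h4.mono (by omega)

theorem pow_eq_one_of_unitriangular {M : ℕ} (hM : (M : R) = 0)
    {u : Matrix (Fin n) (Fin n) R} (hu : Lev 1 (u - 1)) : u ^ (M ^ n) = 1 := by
  have h1 : ∀ m : ℕ, Lev (1 + m) (u ^ (M ^ m) - 1) := by
    intro m
    induction m with
    | zero => simpa using hu
    | succ m ih =>
      rw [pow_succ, pow_mul]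
      exact Lev.pow_sub_one (k := 1 + m) hM (by omega) ih
  have h2 : u ^ (M ^ n) - 1 = 0 := by
    ext i j
    have h3 : ∀ i j : Fin n, (j : ℕ) < i + (1 + n) → (u ^ (M ^ n) - 1) i j = 0 := h1 n
    have h4 := j.2
    exact h3 i j (by omega)
  exact sub_eq_zero.1 h2

end

section

variable {Γ : Type*} [Group Γ]

/-- every element has a `p`-power in `D` -/
def PP (p : ℕ) (D : Subgroup Γ) : Prop := ∀ g : Γ, ∃ k : ℕ, g ^ p ^ k ∈ D

theorem PP.inf {p : ℕ} {D E : Subgroup Γ} (h : PP p D) (h' : PP p E) : PP p (D ⊓ E) := by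
  intro g
  obtain ⟨k, hk⟩ := h g
  obtain ⟨l, hl⟩ := h' g
  refine ⟨k + l, ?_, ?_⟩
  · rw [pow_add, pow_mul]; exact D.pow_mem hk _
  · rw [pow_add, mul_comm, pow_mul]; exact E.pow_mem hl _

/-- index of `D ⊓ E` in `E` -/
theorem exists_relIndex {p : ℕ} [Fact p.Prime] {D : Subgroup Γ} (hD : PP p D) (hn : D.Normal)
    (hf : D.FiniteIndex) (E : Subgroup Γ) : ∃ j, (D ⊓ E).relIndex E = p ^ j := by
  have hnn : ((D ⊓ E).subgroupOf E).Normal := by
    rw [Subgroup.inf_subgroupOf_right]
    exact hn.subgroupOf E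
  have hfi : ((D ⊓ E).subgroupOf E).FiniteIndex := by
    rw [Subgroup.inf_subgroupOf_right]
    infer_instance
  have hpg : IsPGroup p (E ⧸ ((D ⊓ E).subgroupOf E)) := by
    intro x
    induction x using QuotientGroup.induction_on with
    | H x =>
      obtain ⟨k, hk⟩ := hD (x : Γ)
      refine ⟨k, ?_⟩
      have h1 : (QuotientGroup.mk (x ^ p ^ k) : E ⧸ ((D ⊓ E).subgroupOf E)) = 1 := by
        rw [QuotientGroup.eq_one_iff, Subgroup.mem_subgroupOf]
        exact ⟨by simpa using hk, (x ^ p ^ k).2⟩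
      exact h1
  have hfin : Finite (E ⧸ ((D ⊓ E).subgroupOf E)) := inferInstance
  obtain ⟨j, hj⟩ := (IsPGroup.iff_card).1 hpg
  exact ⟨j, hj⟩

/-- the family of homomorphisms used for residually unitriangular groups -/
theorem exists_hom_unitriangular {H : Subgroup Γ} {n : ℕ} (ψ : Γ →* Matrix (Fin n) (Fin n) ℤ)
    (h1 : ∀ x i, ψ x i i = 1) (h2 : ∀ x i j, j < i → ψ x i j = 0) {g : Γ} (hg : g ∈ H)
    (h3 : ψ g ≠ 1) :
    ∃ φ : H →* Multiplicative ℤ, Function.Surjective φ ∧
    (∀ m : ℕ, 1 ≤ m → ∃ D : Subgroup Γ, D.FiniteIndex ∧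
      ∀ h : H, (h : Γ) ∈ D → (m : ℤ) ∣ Multiplicative.toAdd (φ h)) ∧
    (∀ p : ℕ, p.Prime → ∀ l : ℕ, ∃ D : Subgroup Γ, D.Normal ∧ D.FiniteIndex ∧ PP p D ∧
      ∀ h : H, (h : Γ) ∈ D → ((p ^ l : ℕ) : ℤ) ∣ Multiplicative.toAdd (φ h)) := by
  classical
  -- pairs with a nonzero entry above the diagonal
  have hex : ∃ d : ℕ, ∃ i j : Fin n, (i : ℕ) + d = j ∧ 0 < d ∧ ∃ h ∈ H, ψ h i j ≠ 0 := by
    by_contra hcon
    push Not at hcon
    apply h3
    ext i j
    rcases lt_trichotomy i j with hij | hij | hij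
    · rw [Matrix.one_apply_ne hij.ne]
      exact hcon (j - i) i j (by have := Fin.lt_def.1 hij; omega)
        (by have := Fin.lt_def.1 hij; omega) g hg
    · subst hij; rw [h1, Matrix.one_apply_eq]
    · rw [Matrix.one_apply_ne hij.ne', h2 g i j hij]
  set d := Nat.find hex with hd
  obtain ⟨i, j, hij, hd0, x, hxH, hx⟩ := Nat.find_spec hex
  rw [← hd] at hij hd0
  have hmin : ∀ h ∈ H, ∀ k l : Fin n, k < l → (l : ℕ) < k + d → ψ h k l = 0 := by
    intro h hh k l hkl hlt
    by_contra hcon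
    have hkl' := Fin.lt_def.1 hkl
    exact Nat.find_min hex (m := l - k) (by omega) ⟨k, l, by omega, by omega, h, hh, hcon⟩
  have hijlt : i < j := by rw [Fin.lt_def]; omega
  -- the homomorphism
  let θ : H →* Multiplicative ℤ :=
    { toFun := fun h => Multiplicative.ofAdd (ψ h i j)
      map_one' := by
        have : ψ ((1 : H) : Γ) i j = 0 := by
          rw [Subgroup.coe_one, map_one, Matrix.one_apply_ne hijlt.ne]
        rw [this]; rfl
      map_mul' := by
        intro a b
        have : ψ ((a * b : H) : Γ) i j = ψ (a : Γ) i j + ψ (b : Γ) i j := by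
          rw [Subgroup.coe_mul, map_mul, Matrix.mul_apply]
          rw [Finset.sum_eq_add (a := i) (b := j) hijlt.ne]
          · rw [h1, h1, one_mul, mul_one, add_comm]
          · intro k _ hk
            rcases lt_or_ge k i with hki | hki
            · rw [h2 _ _ _ hki, zero_mul]
            · rcases lt_or_ge j k with hkj | hkj
              · rw [h2 _ _ _ hkj, mul_zero]
              · have hki' : i < k := lt_of_le_of_ne hki (Ne.symm hk.1)
                have hkj' : k < j := lt_of_le_of_ne hkj hk.2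
                rw [hmin a a.2 i k hki' (by
                  have := Fin.lt_def.1 hkj'; omega), zero_mul]
          · intro h; exact absurd (Finset.mem_univ _) h
          · intro h; exact absurd (Finset.mem_univ _) h
        rw [this]; rfl }
  obtain ⟨φ, e, he, hφ, hθ⟩ := exists_surjective θ ⟨⟨x, hxH⟩, fun h => hx (by
    exact congrArg Multiplicative.toAdd h)⟩
  -- congruence subgroups
  let χ : ∀ M : ℕ, Γ →* (Matrix (Fin n) (Fin n) (ZMod M))ˣ := fun M =>
    MonoidHom.toHomUnits
      ((RingHom.mapMatrix (Int.castRingHom (ZMod M)) : Matrix (Fin n) (Fin n) ℤ →+*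
        Matrix (Fin n) (Fin n) (ZMod M)).toMonoidHom.comp ψ)
  have hχ : ∀ (M : ℕ) (h : Γ), ((χ M h : (Matrix (Fin n) (Fin n) (ZMod M))ˣ) :
      Matrix (Fin n) (Fin n) (ZMod M)) = (ψ h).map (Int.castRingHom (ZMod M)) := fun _ _ => rfl
  have hdvd : ∀ (M : ℕ) (h : H), (h : Γ) ∈ (χ M).ker →
      (M : ℤ) ∣ e * Multiplicative.toAdd (φ h) := by
    intro M h hh
    have h4 : χ M h = 1 := hh
    have h5 : ((ψ h).map (Int.castRingHom (ZMod M))) = 1 := by
      rw [← hχ, h4]; rfl
    have h6 : ((ψ h i j : ℤ) : ZMod M) = 0 := by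
      have := congrFun (congrFun h5 i) j
      rw [Matrix.map_apply, Matrix.one_apply_ne hijlt.ne] at this
      exact this
    rw [ZMod.intCast_zmod_eq_zero_iff_dvd] at h6
    have h7 : ψ h i j = e * Multiplicative.toAdd (φ h) := hθ h
    rwa [h7] at h6
  refine ⟨φ, hφ, fun m hm => ?_, fun p hp l => ?_⟩
  · set M : ℕ := e.natAbs * m with hM
    have hM0 : NeZero M := ⟨by
      have : e.natAbs ≠ 0 := Int.natAbs_ne_zero.2 he
      rw [hM]; exact Nat.mul_ne_zero this (by omega)⟩
    refine ⟨(χ M).ker, inferInstance, fun h hh => ?_⟩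
    have h6 := hdvd M h hh
    rw [hM] at h6
    have h8 : (e.natAbs : ℤ) * (m : ℤ) ∣ e * Multiplicative.toAdd (φ h) := by exact_mod_cast h6
    have h9 : |e| * (m : ℤ) ∣ |e| * Multiplicative.toAdd (φ h) := by
      rw [← Int.natCast_natAbs]
      refine h8.trans ?_
      rw [Int.natCast_natAbs]
      rcases abs_choice e with h6 | h6
      · rw [h6]
      · rw [h6, neg_mul, dvd_neg]
    exact (mul_dvd_mul_iff_left (abs_ne_zero.2 he)).1 h9
  · have hpZ : Prime (p : ℤ) := Nat.prime_iff_prime_int.1 hp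
    obtain ⟨v, e', he', hev⟩ : ∃ (v : ℕ) (e' : ℤ), ¬ (p : ℤ) ∣ e' ∧ e = (p : ℤ) ^ v * e' := by
      obtain ⟨e', h4, h5⟩ := FiniteMultiplicity.exists_eq_pow_mul_and_not_dvd
        (FiniteMultiplicity.of_prime_left hpZ he)
      exact ⟨_, e', h5, h4⟩
    set M : ℕ := p ^ (l + v) with hM
    have hM0 : NeZero M := ⟨by rw [hM]; exact pow_ne_zero _ hp.ne_zero⟩
    refine ⟨(χ M).ker, inferInstance, inferInstance, fun y => ?_, fun h hh => ?_⟩
    · refine ⟨(l + v) * n, ?_⟩
      rw [MonoidHom.mem_ker, map_pow]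
      apply Units.ext
      rw [Units.val_pow_eq_pow_val, hχ, Units.val_one, pow_mul, ← hM]
      apply pow_eq_one_of_unitriangular (ZMod.natCast_self M)
      intro a b hab
      rw [Matrix.sub_apply, Matrix.map_apply]
      rcases eq_or_ne a b with hne | hne
      · subst hne
        rw [h1, Matrix.one_apply_eq]; simp
      · have hba : b < a := by
          rw [Fin.lt_def]
          have : (a : ℕ) ≠ b := fun h => hne (Fin.ext h)
          omega
        rw [h2 y a b hba, Matrix.one_apply_ne hne]; simp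
    · have h6 := hdvd M h hh
      rw [hM, hev] at h6
      push_cast at h6
      rw [add_comm l v, pow_add, mul_assoc] at h6
      have h7 : (p : ℤ) ^ l ∣ e' * Multiplicative.toAdd (φ h) :=
        (mul_dvd_mul_iff_left (pow_ne_zero v hpZ.ne_zero)).1 h6
      have h8 := hpZ.pow_dvd_of_dvd_mul_left l he' h7
      exact_mod_cast h8

end

end Pool.Agent.CIR
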