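import Mathlib
import Pool.Agent.CIR.Uni
import Pool.Agent.CIR.Mono
import Pool.Agent.CIR.Betti

/-!
# CIR / Lower : the lower bound for all finite index normal subgroups

MP_05b873_al.
-/

namespace Pool.Agent.CIR

open Module Filter Topology

universe u

section

variable {Γ : Type*} [Group Γ]

/-- the family is detected by normal subgroups of `p`-power index -/
def PDetected (p : ℕ) (Φ : ∀ H : Subgroup Γ, H →* Multiplicative ℤ) : Prop :=
  ∀ H : Subgroup Γ, H.FG → H ≠ ⊥ → ∀ l : ℕ, ∃ D : Subgroup Γ, D.Normal ∧ D.FiniteIndex ∧ PP p D ∧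
      ∀ h : H, (h : Γ) ∈ D → ((p ^ l : ℕ) : ℤ) ∣ Multiplicative.toAdd (Φ H h)

theorem ResUnitriangular.exists_family (h : ResUnitriangular Γ) :
    ∃ Φ : ∀ H : Subgroup Γ, H →* Multiplicative ℤ, Indicating Φ ∧
      (∀ Δ : ℕ → Subgroup Γ, Cofinal Δ → Compatible Φ Δ) ∧
      ∀ p : ℕ, p.Prime → PDetected p Φ := by
  classical
  have key : ∀ H : Subgroup Γ, ∃ φ : H →* Multiplicative ℤ, H.FG → H ≠ ⊥ →
      Function.Surjective φ ∧
    (∀ m : ℕ, 1 ≤ m → ∃ D : Subgroup Γ, D.FiniteIndex ∧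
      ∀ h : H, (h : Γ) ∈ D → (m : ℤ) ∣ Multiplicative.toAdd (φ h)) ∧
    (∀ p : ℕ, p.Prime → ∀ l : ℕ, ∃ D : Subgroup Γ, D.Normal ∧ D.FiniteIndex ∧ PP p D ∧
      ∀ h : H, (h : Γ) ∈ D → ((p ^ l : ℕ) : ℤ) ∣ Multiplicative.toAdd (φ h)) := by
    intro H
    by_cases h1 : H = ⊥
    · exact ⟨1, fun _ h3 => absurd h1 h3⟩
    · obtain ⟨g, hg, hg2⟩ : ∃ g ∈ H, g ≠ 1 := by
        by_contra hcon
        push Not at hcon
        apply h1
        rw [eq_bot_iff]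
        intro x hx
        exact Subgroup.mem_bot.2 (hcon x hx)
      obtain ⟨n, ψ, h1, h2, h3⟩ := h g hg2
      obtain ⟨φ, hφ⟩ := exists_hom_unitriangular ψ h1 h2 hg h3
      exact ⟨φ, fun _ _ => hφ⟩
  choose Φ hΦ using key
  refine ⟨Φ, fun H h1 h2 => (hΦ H h1 h2).1, fun Δ hΔ H h1 h2 C => ?_,
    fun p hp H h1 h2 l => (hΦ H h1 h2).2.2 p hp l⟩
  obtain ⟨D, hD, hD2⟩ := (hΦ H h1 h2).2.1 (C + 1) (by omega)
  filter_upwards [hΔ D hD] with k hk
  exact ⟨C + 1, by omega, fun h hh => hD2 h (hk hh)⟩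

/-- there are compatible sequences of relative `p`-power index below every normal subgroup of
finite index -/
theorem exists_pSeq [Countable Γ] (p : ℕ) [Fact p.Prime]
    (Φ : ∀ H : Subgroup Γ, H →* Multiplicative ℤ) (hΦ : PDetected p Φ) (D : Subgroup Γ)
    (hn : D.Normal) (hf : D.FiniteIndex) :
    ∃ Δ : ℕ → Subgroup Γ, (∀ k, (Δ k).Normal) ∧ (∀ k, (Δ k).FiniteIndex) ∧ Compatible Φ Δ ∧
      ∀ k, Δ k ≤ D ∧ ∃ j, (Δ k).relIndex D = p ^ j := by
  classical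
  have hp : p.Prime := Fact.out
  -- enumeration of the finitely generated subgroups
  have hcount : Countable {H : Subgroup Γ // H.FG} := by
    have hsurj : Function.Surjective (fun S : Finset Γ =>
        (⟨Subgroup.closure (S : Set Γ), ⟨S, rfl⟩⟩ : {H : Subgroup Γ // H.FG})) := by
      rintro ⟨H, S, hS⟩
      exact ⟨S, Subtype.ext hS⟩
    exact hsurj.countable
  have hne : Nonempty {H : Subgroup Γ // H.FG} := ⟨⟨⊥, Subgroup.FG.bot⟩⟩
  obtain ⟨f, hfs⟩ := exists_surjective_nat {H : Subgroup Γ // H.FG}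
  -- the subgroups
  have key : ∀ (H : Subgroup Γ) (l : ℕ), ∃ E : Subgroup Γ, E.Normal ∧ E.FiniteIndex ∧ PP p E ∧
      (H.FG → H ≠ ⊥ → ∀ h : H, (h : Γ) ∈ E →
        ((p ^ l : ℕ) : ℤ) ∣ Multiplicative.toAdd (Φ H h)) := by
    intro H l
    by_cases h1 : H.FG ∧ H ≠ ⊥
    · obtain ⟨E, h2, h3, h4, h5⟩ := hΦ H h1.1 h1.2 l
      exact ⟨E, h2, h3, h4, fun _ _ => h5⟩
    · exact ⟨⊤, inferInstance, inferInstance, fun g => ⟨0, trivial⟩,
        fun h2 h3 => absurd ⟨h2, h3⟩ h1⟩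
  choose E hE1 hE2 hE3 hE4 using key
  -- finite intersections
  obtain ⟨G, hG0, hGs⟩ : ∃ G : ℕ → ℕ → Subgroup Γ, (∀ l, G l 0 = ⊤) ∧
      (∀ l i, G l (i + 1) = G l i ⊓ E (f i).1 l) :=
    ⟨fun l => fun i => Nat.rec (motive := fun _ => Subgroup Γ) ⊤ (fun i A => A ⊓ E (f i).1 l) i,
      fun l => rfl, fun l i => rfl⟩
  have hG : ∀ l i, (G l i).Normal ∧ (G l i).FiniteIndex ∧ PP p (G l i) ∧
      ∀ i' < i, G l i ≤ E (f i').1 l := by
    intro l i
    induction i with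
    | zero =>
      rw [hG0]
      exact ⟨inferInstance, inferInstance, fun g => ⟨0, trivial⟩, fun i' h => by omega⟩
    | succ i ih =>
      obtain ⟨a1, a2, a3, a4⟩ := ih
      have b1 := hE1 (f i).1 l
      have b2 := hE2 (f i).1 l
      have c1 : (G l i ⊓ E (f i).1 l).Normal :=
        @Subgroup.normal_inf_normal Γ _ (G l i) (E (f i).1 l) a1 b1
      have c2 : (G l i ⊓ E (f i).1 l).FiniteIndex :=
        inferInstance
      rw [hGs]
      refine ⟨c1, c2, a3.inf (hE3 _ _), fun i' hi' => ?_⟩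
      rcases Nat.lt_succ_iff_lt_or_eq.1 hi' with h | h
      · exact inf_le_left.trans (a4 i' h)
      · rw [h]; exact inf_le_right
  refine ⟨fun k => G k k ⊓ D, fun k => ?_, fun k => ?_, ?_, fun k => ⟨inf_le_right, ?_⟩⟩
  · have := (hG k k).1
    infer_instance
  · have := (hG k k).2.1
    infer_instance
  · intro H h1 h2 C
    obtain ⟨i, hi⟩ := hfs ⟨H, h1⟩
    rw [eventually_atTop]
    refine ⟨C + i + 1, fun k hk => ⟨p ^ k, ?_, fun h hh => ?_⟩⟩
    · have := Nat.lt_pow_self hp.one_lt (n := k)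
      omega
    · have h3 := (hG k k).2.2.2 i (by omega) hh.1
      rw [hi] at h3
      exact hE4 H k h1 h2 h h3
  · exact exists_relIndex (hG k k).2.2.1 (hG k k).1 (hG k k).2.1 D

end

section

variable {K : Type u} {Γ : Type u} [Field K] [Group Γ]

/-- **Lower bound for all finite index normal subgroups.** -/
theorem nrk_le [Countable Γ] (p : ℕ) [Fact p.Prime] [CharP K p]
    (Φ : ∀ H : Subgroup Γ, H →* Multiplicative ℤ) (hΦp : PDetected p Φ)
    {m n : ℕ} (A : Matrix (Fin m) (Fin n) (MonoidAlgebra K Γ)) (r : ℝ)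
    (hr : ∀ Δ : ℕ → Subgroup Γ, (∀ k, (Δ k).Normal) → (∀ k, (Δ k).FiniteIndex) →
      Compatible Φ Δ → Tendsto (fun k => nrk A (Δ k)) atTop (𝓝 r))
    (D : Subgroup Γ) (hn : D.Normal) (hf : D.FiniteIndex) : nrk A D ≤ r := by
  obtain ⟨Δ, h1, h2, h3, h4⟩ := exists_pSeq p Φ hΦp D hn hf
  refine ge_of_tendsto' (hr Δ h1 h2 h3) (fun k => ?_)
  obtain ⟨h5, j, h6⟩ := h4 k
  exact nrk_mono p A (Δ k) D h5 (h1 k) (h2 k) j h6

theorem nbetti_ge [Countable Γ] (p : ℕ) [Fact p.Prime] [CharP K p]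
    (Φ : ∀ H : Subgroup Γ, H →* Multiplicative ℤ) (hΦ : Indicating Φ) (hΦp : PDetected p Φ)
    (n : ℕ) (hP : FPres K Γ (n + 1)) (β : ℝ)
    (hβ : ∀ Δ : ℕ → Subgroup Γ, (∀ k, (Δ k).Normal) → (∀ k, (Δ k).FiniteIndex) →
      Compatible Φ Δ → Tendsto (fun k => nbetti K n (Δ k)) atTop (𝓝 β))
    (D : Subgroup Γ) (hn : D.Normal) (hf : D.FiniteIndex) : β ≤ nbetti K n D := by
  classical
  obtain ⟨c, a, a', M, M', hM⟩ := exists_rank_formula n hP
  obtain ⟨r, hr⟩ := tendsto_rk Φ hΦ M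
  obtain ⟨r', hr'⟩ := tendsto_rk Φ hΦ M'
  have formula : ∀ E : Subgroup Γ, E.FiniteIndex → nbetti K n E = c - nrk M E - nrk M' E := by
    intro E hE
    unfold nbetti nrk
    have h2 := hM E hE
    have h3 : (E.index : ℝ) ≠ 0 := by exact_mod_cast hE.index_ne_zero
    have h4 : (finrank K (groupHomology (Rep.trivial K E K) n) : ℝ) + rkX (Γ ⧸ E) M +
        rkX (Γ ⧸ E) M' = c * E.index := by exact_mod_cast h2
    field_simp
    linarith
  -- β = c - r - r'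
  obtain ⟨Δ, h1, h2, h3, _⟩ := exists_pSeq p Φ hΦp D hn hf
  have hlim := ((tendsto_const_nhds (x := (c : ℝ)) (f := atTop (α := ℕ))).sub
      (hr Δ h1 h2 h3)).sub (hr' Δ h1 h2 h3)
  have hlim' : Tendsto (fun k => nbetti K n (Δ k)) atTop (𝓝 ((c : ℝ) - r - r')) :=
    hlim.congr (fun k => (formula (Δ k) (h2 k)).symm)
  have hβe : β = (c : ℝ) - r - r' := tendsto_nhds_unique (hβ Δ h1 h2 h3) hlim'
  rw [hβe, formula D hf]
  have h4 := nrk_le p Φ hΦp M r hr D hn hf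
  have h5 := nrk_le p Φ hΦp M' r' hr' D hn hf
  linarith

end

end Pool.Agent.CIR
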